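import Mathlib

/-!
# Cubic multigraphs on darts, their cycle spaces (MP_58b56d_co)

A cubic multigraph on the vertex set `V` is a fixed point free involution `ι` on the
set of darts `V × Fin 3`.  An edge is a pair `{d, ι d}`; loops and multiple edges are allowed.
-/

set_option autoImplicit false

open Finset Classical

namespace Pool.Agent.LibMP58b56d

/-- darts: `(v, i)` is the `i`-th dart at the vertex `v` -/
abbrev Dt (V : Type) := V × Fin 3

/-- 0/1 vectors on darts -/
abbrev Vec (V : Type) := V × Fin 3 → ZMod 2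

/-- a cubic multigraph on `V` -/
structure Cub (V : Type) where
  ι : Dt V → Dt V
  inv : ∀ d, ι (ι d) = d
  nofix : ∀ d, ι d ≠ d

/-- pairing of a coefficient vector with a vector -/
def dot {V : Type} [Fintype V] (b x : Vec V) : ZMod 2 := ∑ d, b d * x d

/-- vertices covered by `x` -/
noncomputable def cover {V : Type} [Fintype V] (x : Vec V) : Finset V :=
  univ.filter (fun v => ∃ i, x (v, i) ≠ 0)

namespace Cub

variable {V : Type} (G : Cub V)

/-- the cycle space -/
def Z : Submodule (ZMod 2) (Vec V) where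
  carrier := {x | (∀ d, x (G.ι d) = x d) ∧ ∀ v, ∑ i, x (v, i) = 0}
  add_mem' := by
    rintro x y ⟨hx, hx'⟩ ⟨hy, hy'⟩
    refine ⟨fun d => by simp [hx, hy], fun v => ?_⟩
    simp only [Pi.add_apply, Finset.sum_add_distrib, hx', hy', add_zero]
  zero_mem' := by simp
  smul_mem' := by
    rintro c x ⟨hx, hx'⟩
    refine ⟨fun d => by simp [hx], fun v => ?_⟩
    simp only [Pi.smul_apply, ← Finset.smul_sum, hx', smul_zero]

/-- elements of the cycle space supported in the dart set `H` -/
def ZH (H : Set (Dt V)) : Submodule (ZMod 2) (Vec V) where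
  carrier := {x | x ∈ G.Z ∧ ∀ d, d ∉ H → x d = 0}
  add_mem' := by
    rintro x y ⟨hx, hx'⟩ ⟨hy, hy'⟩
    exact ⟨add_mem hx hy, fun d hd => by simp [hx' d hd, hy' d hd]⟩
  zero_mem' := ⟨zero_mem _, fun _ _ => rfl⟩
  smul_mem' := by
    rintro c x ⟨hx, hx'⟩
    exact ⟨Submodule.smul_mem _ _ hx, fun d hd => by simp [hx' d hd]⟩

/-- `ι`-symmetric vectors supported in `H` with even degree at all vertices of `T` -/
def ZHT (H : Set (Dt V)) (T : Set V) : Submodule (ZMod 2) (Vec V) where
  carrier := {x | (∀ d, x (G.ι d) = x d) ∧ (∀ d, d ∉ H → x d = 0) ∧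
    ∀ v ∈ T, ∑ i, x (v, i) = 0}
  add_mem' := by
    rintro x y ⟨hx, hx', hx''⟩ ⟨hy, hy', hy''⟩
    refine ⟨fun d => by simp [hx, hy], fun d hd => by simp [hx' d hd, hy' d hd], fun v hv => ?_⟩
    simp only [Pi.add_apply, Finset.sum_add_distrib, hx'' v hv, hy'' v hv, add_zero]
  zero_mem' := by simp
  smul_mem' := by
    rintro c x ⟨hx, hx', hx''⟩
    refine ⟨fun d => by simp [hx], fun d hd => by simp [hx' d hd], fun v hv => ?_⟩
    simp only [Pi.smul_apply, ← Finset.smul_sum, hx'' v hv, smul_zero]

/-- circuits: minimal nonzero elements of the cycle space -/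
def IsCirc (x : Vec V) : Prop :=
  x ∈ G.Z ∧ x ≠ 0 ∧ ∀ y ∈ G.Z, (∀ d, x d = 0 → y d = 0) → y = 0 ∨ y = x

/-- connectedness -/
def Connected [Fintype V] : Prop :=
  ∀ U : Finset V, (∀ d : Dt V, d.1 ∈ U → (G.ι d).1 ∈ U) → U = ∅ ∨ U = univ

/-- every edge lies on an even subgraph -/
def Bridgeless : Prop := ∀ d, ∃ z ∈ G.Z, z d ≠ 0

/-- the set of circuits -/
noncomputable def circs [Fintype V] : Finset (Vec V) := univ.filter (fun x => G.IsCirc x)

/-- the elements of `Z(H)` as a finset -/
noncomputable def zs [Fintype V] (H : Set (Dt V)) : Finset (Vec V) :=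
  univ.filter (fun x => x ∈ G.ZH H)

/-- closed neighbourhood of a vertex set -/
noncomputable def N [Fintype V] (S : Finset V) : Finset V :=
  S ∪ univ.filter (fun v => ∃ i, (G.ι (v, i)).1 ∈ S)

/-- `H` is a union of edges -/
def Inv (H : Set (Dt V)) : Prop := ∀ d ∈ H, G.ι d ∈ H

end Cub

/-! ### linear algebra over `ZMod 2` -/

lemma zmod2_cases (a : ZMod 2) : a = 0 ∨ a = 1 := by
  revert a; decide

lemma zmod2_ne_zero {a : ZMod 2} (h : a ≠ 0) : a = 1 := by
  rcases zmod2_cases a with h1 | h1
  · exact absurd h1 h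
  · exact h1

lemma zmod2_ne_one {a : ZMod 2} (h : a ≠ 1) : a = 0 := by
  rcases zmod2_cases a with h1 | h1
  · exact h1
  · exact absurd h1 h

lemma zmod2_add_self (a : ZMod 2) : a + a = 0 := CharTwo.add_self_eq_zero a

lemma zmod2_eq_of_add {a b : ZMod 2} (h : a + b = 0) : a = b := by
  revert a b; decide

lemma zmod2_mul_self (a : ZMod 2) : a * a = a := by
  revert a; decide

lemma lin_eq_sum {I : Type} [Fintype I] (f : (I → ZMod 2) →ₗ[ZMod 2] ZMod 2) (v : I → ZMod 2) :
    f v = ∑ i, f (Pi.single i 1) * v i := by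
  conv_lhs => rw [pi_eq_sum_univ' v]
  simp only [map_sum, map_smul, smul_eq_mul]
  refine Finset.sum_congr rfl fun i _ => ?_
  rw [mul_comm]

/-- separation of a vector from a subspace by a coefficient vector -/
lemma sep {I : Type} [Fintype I] (S : Submodule (ZMod 2) (I → ZMod 2)) (v : I → ZMod 2)
    (hv : v ∉ S) : ∃ b : I → ZMod 2, (∀ s ∈ S, ∑ i, b i * s i = 0) ∧ ∑ i, b i * v i = 1 := by
  obtain ⟨f, hf, hf'⟩ := Submodule.exists_le_ker_of_notMem hv
  refine ⟨fun i => f (Pi.single i 1), ?_, ?_⟩
  · intro s hs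
    rw [← lin_eq_sum f s]
    have := hf' hs
    simpa using this
  · rw [← lin_eq_sum f v]
    exact zmod2_ne_zero hf

/-! ### basic facts -/

section facts

variable {V : Type} (G : Cub V)

lemma Cub.mem_Z {G : Cub V} {x : Vec V} :
    x ∈ G.Z ↔ (∀ d, x (G.ι d) = x d) ∧ ∀ v, ∑ i, x (v, i) = 0 := Iff.rfl

lemma Cub.mem_ZH {G : Cub V} {H : Set (Dt V)} {x : Vec V} :
    x ∈ G.ZH H ↔ x ∈ G.Z ∧ ∀ d, d ∉ H → x d = 0 := Iff.rfl

lemma Cub.ZH_univ : G.ZH Set.univ = G.Z := by
  ext x
  simp [Cub.mem_ZH]

lemma Cub.ZH_mono {G : Cub V} {H H' : Set (Dt V)} (h : H ⊆ H') : G.ZH H ≤ G.ZH H' := by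
  intro x hx
  exact ⟨hx.1, fun d hd => hx.2 d (fun h1 => hd (h h1))⟩

variable [Fintype V]

lemma mem_cover {x : Vec V} {v : V} : v ∈ cover x ↔ ∃ i, x (v, i) ≠ 0 := by
  simp [cover]

lemma mem_cover_of_ne {x : Vec V} {d : Dt V} (h : x d ≠ 0) : d.1 ∈ cover x :=
  mem_cover.2 ⟨d.2, h⟩

lemma dot_add (b x y : Vec V) : dot b (x + y) = dot b x + dot b y := by
  simp [dot, mul_add, Finset.sum_add_distrib]

lemma add_dot (b c x : Vec V) : dot (b + c) x = dot b x + dot c x := by
  simp [dot, add_mul, Finset.sum_add_distrib]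

lemma dot_zero (b : Vec V) : dot b 0 = 0 := by simp [dot]

lemma zero_dot (x : Vec V) : dot 0 x = 0 := by simp [dot]

lemma dot_comm (b x : Vec V) : dot b x = dot x b := by
  simp [dot, mul_comm]

/-- sum over darts along `ι` -/
lemma Cub.sum_iota {M : Type} [AddCommMonoid M] (f : Dt V → M) : ∑ d, f (G.ι d) = ∑ d, f d := by
  refine Finset.sum_bij' (fun d _ => G.ι d) (fun d _ => G.ι d) ?_ ?_ ?_ ?_ ?_ <;>
    simp [G.inv]

/-- every vertex function is orthogonal to the cycle space -/
lemma Cub.dot_vertex {G : Cub V} {x : Vec V} (hx : x ∈ G.Z) (U : V → ZMod 2) :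
    dot (fun d => U d.1) x = 0 := by
  unfold dot
  rw [Fintype.sum_prod_type]
  refine Finset.sum_eq_zero fun v _ => ?_
  simp only
  rw [← Finset.mul_sum, hx.2 v, mul_zero]

/-- `dot` against `b ∘ ι` -/
lemma Cub.dot_iota {G : Cub V} {x : Vec V} (hx : x ∈ G.Z) (b : Vec V) :
    dot (fun d => b (G.ι d)) x = dot b x := by
  unfold dot
  rw [← G.sum_iota (fun d => b d * x d)]
  refine Finset.sum_congr rfl fun d _ => ?_
  rw [hx.1 d]

lemma Cub.mem_ZHT {G : Cub V} {H : Set (Dt V)} {T : Set V} {x : Vec V} :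
    x ∈ G.ZHT H T ↔ (∀ d, x (G.ι d) = x d) ∧ (∀ d, d ∉ H → x d = 0) ∧
      ∀ v ∈ T, ∑ i, x (v, i) = 0 := Iff.rfl

lemma Cub.ZHT_univ (H : Set (Dt V)) : G.ZHT H Set.univ = G.ZH H := by
  ext x
  simp only [Cub.mem_ZHT, Cub.mem_ZH, Cub.mem_Z, Set.mem_univ, forall_true_left]
  tauto

/-- a vertex function vanishing off `T` is orthogonal to vectors which are even on `T` -/
lemma Cub.dot_vertex' {G : Cub V} {H : Set (Dt V)} {T : Set V} {x : Vec V} (hx : x ∈ G.ZHT H T)
    (U : V → ZMod 2) (hU : ∀ v, v ∉ T → U v = 0) :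
    dot (fun d => U d.1) x = 0 := by
  unfold dot
  rw [Fintype.sum_prod_type]
  refine Finset.sum_eq_zero fun v _ => ?_
  simp only
  rw [← Finset.mul_sum]
  by_cases h : v ∈ T
  · rw [hx.2.2 v h, mul_zero]
  · rw [hU v h, zero_mul]

/-- duality, general form: a functional vanishing on the symmetric vectors supported in `H`
and even on `T` is the boundary (on `H`) of a vertex function vanishing off `T` -/
theorem Cub.dualT {G : Cub V} {H : Set (Dt V)} (hH : G.Inv H) (T : Set V) (b : Vec V) :
    (∀ x ∈ G.ZHT H T, dot b x = 0) ↔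
      ∃ U : V → ZMod 2, (∀ v, v ∉ T → U v = 0) ∧
        ∀ d ∈ H, b d + b (G.ι d) = U d.1 + U (G.ι d).1 := by
  constructor
  · intro hb
    let pr : Dt V → (Vec V →ₗ[ZMod 2] ZMod 2) := fun d => LinearMap.proj d
    have hpr : ∀ d x, pr d x = x d := fun d x => rfl
    let L : (Dt V ⊕ V) ⊕ Dt V → (Vec V →ₗ[ZMod 2] ZMod 2) := fun j =>
      match j with
      | Sum.inl (Sum.inl d) => pr (G.ι d) + pr d
      | Sum.inl (Sum.inr v) => if v ∈ T then ∑ i, pr (v, i) else 0
      | Sum.inr d => if d ∈ H then 0 else pr d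
    let K : Vec V →ₗ[ZMod 2] ZMod 2 := ∑ d, b d • pr d
    have hK : ∀ x, K x = dot b x := by
      intro x
      simp [K, dot, LinearMap.sum_apply, hpr]
    have h1 : ⨅ i, LinearMap.ker (L i) ≤ LinearMap.ker K := by
      intro x hx
      rw [Submodule.mem_iInf] at hx
      rw [LinearMap.mem_ker, hK]
      refine hb x ⟨fun d => ?_, fun d hd => ?_, fun v hv => ?_⟩
      · have := hx (Sum.inl (Sum.inl d))
        simp only [L, LinearMap.mem_ker, LinearMap.add_apply, hpr] at this
        exact zmod2_eq_of_add this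
      · have := hx (Sum.inr d)
        simpa [L, hd, hpr] using this
      · have := hx (Sum.inl (Sum.inr v))
        simpa [L, hv, LinearMap.sum_apply, hpr] using this
    have h2 := mem_span_of_iInf_ker_le_ker h1
    rw [Submodule.mem_span_range_iff_exists_fun] at h2
    obtain ⟨c, hc⟩ := h2
    have h3 : ∀ d, b d = c (Sum.inl (Sum.inl (G.ι d))) + c (Sum.inl (Sum.inl d)) +
        (if d.1 ∈ T then c (Sum.inl (Sum.inr d.1)) else 0) +
        (if d ∈ H then 0 else c (Sum.inr d)) := by
      intro d
      have h4 : K (Pi.single d 1) = b d := by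
        rw [hK, dot, Finset.sum_eq_single d]
        · simp
        · intro e _ he
          simp [he]
        · simp
      rw [← h4, ← hc]
      rw [Fintype.sum_sum_type, Fintype.sum_sum_type]
      simp only [LinearMap.add_apply, LinearMap.sum_apply, LinearMap.smul_apply, L,
        hpr, smul_eq_mul]
      have e1 : (∑ x : Dt V, c (Sum.inl (Sum.inl x)) *
          ((Pi.single d 1 : Vec V) (G.ι x) + (Pi.single d 1 : Vec V) x)) =
          c (Sum.inl (Sum.inl (G.ι d))) + c (Sum.inl (Sum.inl d)) := by
        simp only [mul_add, Finset.sum_add_distrib]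
        congr 1
        · rw [Finset.sum_eq_single (G.ι d)]
          · simp [G.inv]
          · intro e _ he
            have : G.ι e ≠ d := by
              intro h; apply he; rw [← h, G.inv]
            simp [this]
          · simp
        · rw [Finset.sum_eq_single d]
          · simp
          · intro e _ he
            simp [he]
          · simp
      have e2 : (∑ x : V, c (Sum.inl (Sum.inr x)) *
          ((if x ∈ T then ∑ i : Fin 3, pr (x, i) else 0) (Pi.single d 1 : Vec V))) =
          (if d.1 ∈ T then c (Sum.inl (Sum.inr d.1)) else 0) := by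
        rw [Finset.sum_eq_single d.1]
        · split_ifs
          · rw [LinearMap.sum_apply, Finset.sum_eq_single d.2]
            · simp [hpr]
            · intro e _ he
              have : (d.1, e) ≠ d := by
                intro h; apply he; rw [← h]
              simp [hpr, this]
            · simp
          · simp
        · intro e _ he
          split_ifs
          · rw [LinearMap.sum_apply, Finset.sum_eq_zero, mul_zero]
            intro i _
            have : (e, i) ≠ d := by
              intro h; apply he; rw [← h]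
            simp [hpr, this]
          · simp
        · simp
      have e3 : (∑ x : Dt V, c (Sum.inr x) *
          ((if x ∈ H then (0 : Vec V →ₗ[ZMod 2] ZMod 2) else pr x) (Pi.single d 1))) =
          (if d ∈ H then 0 else c (Sum.inr d)) := by
        rw [Finset.sum_eq_single d]
        · split_ifs <;> simp [hpr]
        · intro e _ he
          split_ifs <;> simp [he, hpr]
        · simp
      rw [e1, e2, e3]
    refine ⟨fun v => if v ∈ T then c (Sum.inl (Sum.inr v)) else 0, fun v hv => if_neg hv,
      fun d hd => ?_⟩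
    rw [h3 d, h3 (G.ι d), G.inv, if_pos hd, if_pos (hH d hd)]
    change _ = (if d.1 ∈ T then c (Sum.inl (Sum.inr d.1)) else 0) +
      (if (G.ι d).1 ∈ T then c (Sum.inl (Sum.inr (G.ι d).1)) else 0)
    generalize c (Sum.inl (Sum.inl (G.ι d))) = a1
    generalize c (Sum.inl (Sum.inl d)) = a2
    generalize (if d.1 ∈ T then c (Sum.inl (Sum.inr d.1)) else 0) = a3
    generalize (if (G.ι d).1 ∈ T then c (Sum.inl (Sum.inr (G.ι d).1)) else 0) = a4
    revert a1 a2 a3 a4
    decide
  · rintro ⟨U, hU0, hU⟩ x hx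
    have h1 : dot (fun d => b d + U d.1) x = 0 := by
      unfold dot
      refine Finset.sum_involution (fun d _ => G.ι d) ?_ ?_ ?_ ?_
      · intro d _
        by_cases hd : d ∈ H
        · rw [hx.1 d, ← add_mul]
          have h2 := hU d hd
          have h3 : b d + U d.1 + (b (G.ι d) + U (G.ι d).1) = 0 := by
            generalize b d = a1 at *
            generalize b (G.ι d) = a2 at *
            generalize U d.1 = a3 at *
            generalize U (G.ι d).1 = a4 at *
            revert a1 a2 a3 a4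
            decide
          rw [h3, zero_mul]
        · have h2 : x d = 0 := hx.2.1 d hd
          rw [hx.1 d, h2]
          simp
      · intro d _ _
        exact G.nofix d
      · intro d _
        exact mem_univ _
      · intro d _
        exact G.inv d
    have h2 := Cub.dot_vertex' hx U hU0
    have h3 : dot b x + dot (fun d => U d.1) x = 0 := by
      rw [← add_dot]
      exact h1
    rwa [h2, add_zero] at h3

/-- the duality statement: a functional vanishing on `Z(H)` is a cut on `H` -/
theorem Cub.dual {G : Cub V} {H : Set (Dt V)} (hH : G.Inv H) (b : Vec V) :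
    (∀ x ∈ G.ZH H, dot b x = 0) ↔
      ∃ U : V → ZMod 2, ∀ d ∈ H, b d + b (G.ι d) = U d.1 + U (G.ι d).1 := by
  rw [← Cub.ZHT_univ, Cub.dualT hH]
  simp

/-- parity of a cut -/
theorem Cub.parity {G : Cub V} {x : Vec V} (hx : x ∈ G.Z) (U : Finset V) :
    ∑ d ∈ univ.filter (fun d : Dt V => d.1 ∈ U ∧ (G.ι d).1 ∉ U), x d = 0 := by
  have h1 := Cub.dot_vertex hx (fun v => if v ∈ U then 1 else 0)
  unfold dot at h1
  simp only [ite_mul, one_mul, zero_mul] at h1
  rw [← Finset.sum_filter] at h1
  have h2 : ∑ d ∈ (univ.filter (fun d : Dt V => d.1 ∈ U)).filter (fun d => (G.ι d).1 ∈ U), x d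
      = 0 := by
    refine Finset.sum_involution (fun d _ => G.ι d) ?_ ?_ ?_ ?_
    · intro d _
      rw [hx.1 d]
      exact zmod2_add_self _
    · intro d _ _
      exact G.nofix d
    · intro d hd
      simp only [Finset.mem_filter, Finset.mem_univ, true_and, G.inv] at hd ⊢
      exact ⟨hd.2, hd.1⟩
    · intro d _
      exact G.inv d
  rw [← Finset.sum_filter_add_sum_filter_not _ (fun d => (G.ι d).1 ∈ U), h2, zero_add,
    Finset.filter_filter] at h1
  exact h1

lemma sub_cases_aux : ∀ a b : Fin 3 → ZMod 2, ∑ i, a i = 0 → ∑ i, b i = 0 →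
    (∀ i, a i = 0 → b i = 0) → (∀ i, b i = 0) ∨ (∀ i, b i = a i) := by
  decide

/-- even subsets of an even set are locally all or nothing -/
lemma Cub.sub_cases {G : Cub V} {x y : Vec V} (hx : x ∈ G.Z) (hy : y ∈ G.Z)
    (h : ∀ d, x d = 0 → y d = 0) (v : V) : (∀ i, y (v, i) = 0) ∨ (∀ i, y (v, i) = x (v, i)) :=
  sub_cases_aux (fun i => x (v, i)) (fun i => y (v, i)) (hx.2 v) (hy.2 v) (fun i => h (v, i))

/-- a vertex function constant along the edges of a circuit is constant on its vertices -/
theorem Cub.IsCirc.side {G : Cub V} {P : Vec V} (hP : G.IsCirc P) {U : V → ZMod 2}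
    (hU : ∀ d, P d ≠ 0 → U d.1 = U (G.ι d).1) {u v : V} (hu : u ∈ cover P) (hv : v ∈ cover P) :
    U u = U v := by
  have h1 : (fun d => P d * U d.1) ∈ G.Z := by
    refine ⟨fun d => ?_, fun v => ?_⟩
    · change P (G.ι d) * U (G.ι d).1 = P d * U d.1
      rw [hP.1.1 d]
      by_cases h : P d = 0
      · rw [h, zero_mul, zero_mul]
      · rw [hU d h]
    · change ∑ i, P (v, i) * U v = 0
      rw [← Finset.sum_mul, hP.1.2 v, zero_mul]
  rw [mem_cover] at hu hv
  obtain ⟨i, hi⟩ := hu
  obtain ⟨j, hj⟩ := hv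
  rcases hP.2.2 _ h1 (fun d hd => by simp [hd]) with h2 | h2
  · have e1 := congrFun h2 (u, i)
    have e2 := congrFun h2 (v, j)
    simp only [Pi.zero_apply, mul_eq_zero, hi, hj, false_or] at e1 e2
    rw [e1, e2]
  · have e1 := congrFun h2 (u, i)
    have e2 := congrFun h2 (v, j)
    simp only at e1 e2
    rw [zmod2_ne_zero hi, one_mul] at e1
    rw [zmod2_ne_zero hj, one_mul] at e2
    rw [e1, e2]

/-! ### the component of `x` through the dart `g` -/

/-- the component of `x` through `g` (for `x ∈ Z` with `x g = 1`) -/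
noncomputable def Cub.main (G : Cub V) (g : Dt V) (x : Vec V) : Vec V :=
  ∏ y ∈ univ.filter (fun y : Vec V => y ∈ G.Z ∧ (∀ d, x d = 0 → y d = 0) ∧ y g = 1), y

lemma Cub.main_aux {G : Cub V} {x : Vec V} (hx : x ∈ G.Z) {y z : Vec V}
    (hy : y ∈ G.Z ∧ (∀ d, x d = 0 → y d = 0)) (hz : z ∈ G.Z ∧ (∀ d, x d = 0 → z d = 0)) :
    (y * z) ∈ G.Z ∧ (∀ d, x d = 0 → (y * z) d = 0) := by
  refine ⟨⟨fun d => by simp [hy.1.1, hz.1.1], fun v => ?_⟩, fun d hd => by simp [hy.2 d hd]⟩
  rcases Cub.sub_cases hx hy.1 hy.2 v with h | h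
  · simp [h]
  rcases Cub.sub_cases hx hz.1 hz.2 v with h' | h'
  · simp [h']
  · simp only [Pi.mul_apply, h, h', zmod2_mul_self]
    exact hx.2 v

lemma Cub.main_mem_sub {G : Cub V} {g : Dt V} {x : Vec V} (hx : x ∈ G.Z) (hg : x g = 1) :
    G.main g x ∈ G.Z ∧ (∀ d, x d = 0 → G.main g x d = 0) := by
  refine Finset.prod_induction_nonempty (fun y : Vec V => y)
    (fun y => y ∈ G.Z ∧ (∀ d, x d = 0 → y d = 0)) ?_ ?_ ?_
  · intro a b ha hb
    exact Cub.main_aux hx ha hb
  · exact ⟨x, by simp [hx, hg]⟩
  · intro y hy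
    simp only [Finset.mem_filter, Finset.mem_univ, true_and] at hy
    exact ⟨hy.1, hy.2.1⟩

lemma Cub.main_g {G : Cub V} {g : Dt V} {x : Vec V} : G.main g x g = 1 := by
  unfold Cub.main
  rw [Finset.prod_apply]
  refine Finset.prod_eq_one fun y hy => ?_
  simp only [Finset.mem_filter, Finset.mem_univ, true_and] at hy
  exact hy.2.2

lemma Cub.main_min {G : Cub V} {g : Dt V} {x y : Vec V} (hy : y ∈ G.Z)
    (hyx : ∀ d, x d = 0 → y d = 0) (hg : y g = 1) : ∀ d, y d = 0 → G.main g x d = 0 := by
  intro d hd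
  unfold Cub.main
  rw [Finset.prod_apply]
  refine Finset.prod_eq_zero (i := y) ?_ hd
  simp only [Finset.mem_filter, Finset.mem_univ, true_and]
  exact ⟨hy, hyx, hg⟩

lemma Cub.main_circ {G : Cub V} {g : Dt V} {x : Vec V} (hx : x ∈ G.Z) (hg : x g = 1) :
    G.IsCirc (G.main g x) := by
  have h1 := Cub.main_mem_sub hx hg
  have h2 : G.main g x g = 1 := Cub.main_g
  refine ⟨h1.1, fun h => ?_, fun y hy hyx => ?_⟩
  · rw [h] at h2
    simp at h2
  · rcases zmod2_cases (y g) with h3 | h3
    · left
      have h4 := Cub.main_min (G := G) (g := g) (x := x) (y := G.main g x + y)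
        (add_mem h1.1 hy) (fun d hd => by simp [h1.2 d hd, hyx d (h1.2 d hd)])
        (by simp [h2, h3])
      funext d
      by_contra h5
      have h6 : G.main g x d ≠ 0 := fun h => h5 (by simpa using hyx d h)
      have h7 : y d = 1 := zmod2_ne_zero h5
      apply h6
      apply h4
      rw [Pi.add_apply, zmod2_ne_zero h6, h7]
      exact zmod2_add_self 1
    · right
      have h4 := Cub.main_min (G := G) (g := g) (x := x) hy (fun d hd => hyx d (h1.2 d hd)) h3
      funext d
      rcases zmod2_cases (y d) with h5 | h5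
      · rw [h5, h4 d h5]
      · rw [h5]
        by_contra h6
        have h7 : G.main g x d = 0 := zmod2_ne_one (fun h => h6 h.symm)
        rw [hyx d h7] at h5
        exact zero_ne_one h5

lemma Cub.main_eq {G : Cub V} {g : Dt V} {x P : Vec V} (hx : x ∈ G.Z) (hP : G.IsCirc P)
    (hPx : ∀ d, x d = 0 → P d = 0) (hg : P g = 1) : G.main g x = P := by
  have hxg : x g = 1 := by
    by_contra h
    rw [hPx g (zmod2_ne_one h)] at hg
    exact zero_ne_one hg
  rcases hP.2.2 _ (Cub.main_mem_sub hx hxg).1 (Cub.main_min hP.1 hPx hg) with h | h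
  · have := congrFun h g
    rw [Cub.main_g] at this
    simp at this
  · exact h

end facts

/-! ### counting -/

section counting

variable {V : Type} [Fintype V] (G : Cub V)

lemma Cub.zs_card (H : Set (Dt V)) :
    (G.zs H).card = 2 ^ (Module.finrank (ZMod 2) (G.ZH H)) := by
  have h1 : (G.zs H).card = Nat.card (G.ZH H) := by
    rw [Nat.card_eq_fintype_card, Fintype.card_subtype]
    rfl
  rw [h1, Module.natCard_eq_pow_finrank (K := ZMod 2) (V := G.ZH H)]
  simp

/-- a subgraph with `e` edges on a vertex set `U` has cycle rank at least `e - |U| + 1`: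
`#darts + 2 ≤ 2 (rank + |U|)` -/
theorem Cub.rank_ge {E0 : Finset (Dt V)} (hE : ∀ d ∈ E0, G.ι d ∈ E0) {U : Finset V}
    (hU : U.Nonempty) (hEU : ∀ d ∈ E0, d.1 ∈ U) :
    E0.card + 2 ≤ 2 * (Module.finrank (ZMod 2) (G.ZH (E0 : Set (Dt V))) + U.card) := by
  let φ : (E0 → ZMod 2) →ₗ[ZMod 2] (E0 → ZMod 2) :=
    { toFun := fun x d => x d + x ⟨G.ι d.1, hE d.1 d.2⟩
      map_add' := by
        intro x y
        funext d
        change x d + y d + (x ⟨G.ι d.1, hE d.1 d.2⟩ + y ⟨G.ι d.1, hE d.1 d.2⟩) =
          (x d + x ⟨G.ι d.1, hE d.1 d.2⟩) + (y d + y ⟨G.ι d.1, hE d.1 d.2⟩)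
        ring
      map_smul' := by
        intro c x
        funext d
        change c * x d + c * x ⟨G.ι d.1, hE d.1 d.2⟩ = c * (x d + x ⟨G.ι d.1, hE d.1 d.2⟩)
        ring }
  have hφ : LinearMap.range φ ≤ LinearMap.ker φ := by
    rintro _ ⟨x, rfl⟩
    rw [LinearMap.mem_ker]
    funext d
    simp only [φ, LinearMap.coe_mk, AddHom.coe_mk, G.inv, Subtype.coe_eta]
    have := zmod2_add_self (x d + x ⟨G.ι d.1, hE d.1 d.2⟩)
    change _ = (0 : ZMod 2)
    rw [← this]
    ring
  have h1 : E0.card ≤ 2 * Module.finrank (ZMod 2) (LinearMap.ker φ) := by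
    have h2 := LinearMap.finrank_range_add_finrank_ker φ
    have h3 := Submodule.finrank_mono hφ
    have h4 : Module.finrank (ZMod 2) (E0 → ZMod 2) = E0.card := by
      simp
    omega
  obtain ⟨u0, hu0⟩ := hU
  let ext : (E0 → ZMod 2) →ₗ[ZMod 2] Vec V :=
    { toFun := fun x d => if h : d ∈ E0 then x ⟨d, h⟩ else 0
      map_add' := by
        intro x y
        funext d
        by_cases h : d ∈ E0 <;> simp [h]
      map_smul' := by
        intro c x
        funext d
        by_cases h : d ∈ E0 <;> simp [h] }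
  have hext : ∀ x d, ext x d = if h : d ∈ E0 then x ⟨d, h⟩ else 0 := fun x d => rfl
  let Ψ : LinearMap.ker φ →ₗ[ZMod 2] (U.erase u0 → ZMod 2) :=
    { toFun := fun x v => ∑ i, ext x.1 (v.1, i)
      map_add' := by
        intro x y
        funext v
        simp [Finset.sum_add_distrib]
      map_smul' := by
        intro c x
        funext v
        simp [Finset.mul_sum] }
  have h5 : Module.finrank (ZMod 2) (LinearMap.ker φ) ≤
      Module.finrank (ZMod 2) (LinearMap.ker Ψ) + (U.card - 1) := by
    have h2 := LinearMap.finrank_range_add_finrank_ker Ψ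
    have h3 := Submodule.finrank_le (LinearMap.range Ψ)
    have h4 : Module.finrank (ZMod 2) (U.erase u0 → ZMod 2) = U.card - 1 := by
      rw [Module.finrank_fintype_fun_eq_card, Fintype.card_coe, Finset.card_erase_of_mem hu0]
    omega
  have h6 : Module.finrank (ZMod 2) (LinearMap.ker Ψ) ≤
      Module.finrank (ZMod 2) (G.ZH (E0 : Set (Dt V))) := by
    let Θ : LinearMap.ker Ψ →ₗ[ZMod 2] G.ZH (E0 : Set (Dt V)) :=
      LinearMap.codRestrict _ ((ext.comp (LinearMap.ker φ).subtype).comp (LinearMap.ker Ψ).subtype)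
        (by
          rintro ⟨⟨x, hx⟩, hx'⟩
          simp only [LinearMap.comp_apply, Submodule.subtype_apply]
          have hsym : ∀ d, ext x (G.ι d) = ext x d := by
            intro d
            rw [hext, hext]
            by_cases h : d ∈ E0
            · rw [dif_pos h, dif_pos (hE d h)]
              have := congrFun hx ⟨d, h⟩
              simp only [φ, LinearMap.coe_mk, AddHom.coe_mk] at this
              exact (zmod2_eq_of_add this).symm
            · have h' : G.ι d ∉ E0 := fun h2 => h (by have := hE _ h2; rwa [G.inv] at this)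
              rw [dif_neg h, dif_neg h']
          have hv1 : ∀ v ∈ U.erase u0, ∑ i, ext x (v, i) = 0 := by
            intro v hv
            have := congrFun hx' ⟨v, hv⟩
            simpa [Ψ] using this
          have hv2 : ∀ v, v ∉ U → ∑ i, ext x (v, i) = 0 := by
            intro v hv
            refine Finset.sum_eq_zero fun i _ => ?_
            rw [hext, dif_neg]
            intro h
            exact hv (hEU _ h)
          have htot : ∑ v, ∑ i, ext x (v, i) = 0 := by
            rw [← Fintype.sum_prod_type' (f := fun v i => ext x (v, i))]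
            refine Finset.sum_involution (fun d _ => G.ι d) ?_ ?_ ?_ ?_
            · intro d _
              change ext x d + ext x (G.ι d) = 0
              rw [hsym]
              exact zmod2_add_self _
            · intro d _ _
              exact G.nofix d
            · intro d _
              exact mem_univ _
            · intro d _
              exact G.inv d
          refine ⟨⟨hsym, fun v => ?_⟩, fun d hd => ?_⟩
          · by_cases hv : v ∈ U
            · by_cases hv' : v = u0
              · rw [Finset.sum_eq_single u0] at htot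
                · rw [hv']; exact htot
                · intro w _ hw
                  by_cases hwU : w ∈ U
                  · exact hv1 w (Finset.mem_erase.2 ⟨hw, hwU⟩)
                  · exact hv2 w hwU
                · intro h
                  exact absurd (mem_univ _) h
              · exact hv1 v (Finset.mem_erase.2 ⟨hv', hv⟩)
            · exact hv2 v hv
          · rw [hext, dif_neg]
            exact hd)
    refine LinearMap.finrank_le_finrank_of_injective (f := Θ) ?_
    intro a b hab
    have h7 : ext a.1.1 = ext b.1.1 := congrArg Subtype.val hab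
    apply Subtype.ext
    apply Subtype.ext
    funext d
    have := congrFun h7 d.1
    rw [hext, hext, dif_pos d.2, dif_pos d.2] at this
    exact this
  have h8 : 1 ≤ U.card := Finset.card_pos.2 ⟨u0, hu0⟩
  omega

/-- if `U` contains no circuit, there are few internal darts -/
theorem Cub.internal_le {U : Finset V} (hU : U.Nonempty)
    (h : ∀ z ∈ G.Z, (∀ d, z d ≠ 0 → d.1 ∈ U) → z = 0) :
    (univ.filter (fun d : Dt V => d.1 ∈ U ∧ (G.ι d).1 ∈ U)).card + 2 ≤ 2 * U.card := by
  have h1 := G.rank_ge (E0 := univ.filter (fun d : Dt V => d.1 ∈ U ∧ (G.ι d).1 ∈ U))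
    (by
      intro d hd
      simp only [Finset.mem_filter, Finset.mem_univ, true_and, G.inv] at hd ⊢
      exact ⟨hd.2, hd.1⟩) hU
    (by
      intro d hd
      simp only [Finset.mem_filter, Finset.mem_univ, true_and] at hd
      exact hd.1)
  have h2 : G.ZH ((univ.filter (fun d : Dt V => d.1 ∈ U ∧ (G.ι d).1 ∈ U) : Finset (Dt V)) :
      Set (Dt V)) = ⊥ := by
    rw [Submodule.eq_bot_iff]
    intro z hz
    apply h z hz.1
    intro d hd
    by_contra h3
    apply hd
    apply hz.2
    intro h4
    simp only [Finset.coe_filter, Finset.mem_univ, true_and, Set.mem_ofPred_eq] at h4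
    exact h3 h4.1
  rw [h2] at h1
  simp only [finrank_bot, zero_add] at h1
  exact h1

/-- every nonzero element of the cycle space contains a circuit through any of its darts -/
lemma Cub.exists_circ {G : Cub V} {z : Vec V} (hz : z ∈ G.Z) {g : Dt V} (hg : z g ≠ 0) :
    ∃ P, G.IsCirc P ∧ P g = 1 ∧ ∀ d, z d = 0 → P d = 0 :=
  ⟨G.main g z, Cub.main_circ hz (zmod2_ne_zero hg), Cub.main_g,
    (Cub.main_mem_sub hz (zmod2_ne_zero hg)).2⟩

end counting

end Pool.Agent.LibMP58b56d
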