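import Mathlib
import Pool.Agent.LibMP58b56d.Basic

/-!
# Interface between the parts of the proof of MP_58b56d_co
-/

set_option autoImplicit false

open Finset Classical

namespace Pool.Agent.LibMP58b56d

/-- The local structure theorem: if the circuits have positive density in the cycle space of a
connected bridgeless cubic multigraph, then all but boundedly many vertices have a circuit in
their bounded neighbourhood. -/
def TLStatement : Prop :=
  ∀ c : ℝ, 0 < c → ∃ ℓ M : ℕ, ∀ (V : Type) [Fintype V] (G : Cub V),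
    G.Connected → G.Bridgeless → c * (G.zs Set.univ).card ≤ (G.circs.card : ℝ) →
    (univ.filter (fun v => ¬ ∃ D, G.IsCirc D ∧ cover D ⊆ (G.N)^[ℓ] {v})).card ≤ M

/-- the data produced by a pancyclic graph on `n` vertices with at most `n + log₂ n + O(1)`
edges -/
structure Datum (C Δ n : ℕ) where
  m : ℕ
  G : Cub (Fin m)
  conn : G.Connected
  brless : G.Bridgeless
  w : Dt (Fin m) → ℕ
  wι : ∀ d, w (G.ι d) = w d
  ω : ℕ → Vec (Fin m)
  circ : ∀ k, 3 ≤ k → k ≤ n → G.IsCirc (ω k)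
  len : ∀ k, 3 ≤ k → k ≤ n → ∑ d, (if ω k d = 0 then 0 else w d) = 2 * k
  cov : ∀ k, 3 ≤ k → k ≤ n → (cover (ω k)).card ≤ Δ * k
  card : (G.zs Set.univ).card ≤ C * n

/-- every circuit `D` with at most `s` vertices is obstructed with respect to the coset
`X + K`: some functional `β` supported on the darts at the vertices of `D` vanishes on `K` and
distinguishes `X` from `D`. -/
def Obstructed {V : Type} [Fintype V] (G : Cub V) (K : Submodule (ZMod 2) (Vec V)) (X : Vec V)
    (s : ℕ) : Prop :=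
  ∀ D, G.IsCirc D → (cover D).card ≤ s →
    ∃ β : Vec V, (∀ d, β d ≠ 0 → d.1 ∈ cover D) ∧ (∀ z ∈ K, dot β z = 0) ∧ dot β X ≠ dot β D

/-- A run: a sequence of separated circuits `D 0, …, D (N-1)` of size at most `b`, all
representing the same functional `lam` (through the darts leading into `M i`, and through the
darts leading out of `M i ∪ cover (D i)`), and nested vertex sets
`M 0 ∪ cover (D 0) ⊆ M 1`, `M 1 ∪ cover (D 1) ⊆ M 2`, …  with pieces of size at most `S`.
The arc between `D i` and `D j` (`i < j`) is `M j \ (M i ∪ cover (D i))`. -/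
structure Run {V : Type} [Fintype V] (G : Cub V) (b S : ℕ) where
  N : ℕ
  D : ℕ → Vec V
  M : ℕ → Finset V
  lam : Vec V
  circ : ∀ i < N, G.IsCirc (D i)
  small : ∀ i < N, (cover (D i)).card ≤ b
  disj : ∀ i < N, Disjoint (M i) (cover (D i))
  nest : ∀ i, i + 1 < N → M i ∪ cover (D i) ⊆ M (i + 1)
  piece : ∀ i, i + 1 < N → (M (i + 1) \ M i).card ≤ S
  sep : ∀ i < N, ∀ j < N, ∀ d : Dt V,
    d.1 ∈ cover (D i) → (G.ι d).1 ∈ cover (D j) → i = j
  bdry : ∀ i j, i < j → j < N → ∀ d : Dt V, d.1 ∈ M j \ (M i ∪ cover (D i)) →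
    (G.ι d).1 ∉ M j \ (M i ∪ cover (D i)) →
    ((G.ι d).1 ∈ cover (D i) ∨ (G.ι d).1 ∈ cover (D j))
  plus_in : ∀ i j, i < j → j < N → ∀ d : Dt V, d.1 ∈ cover (D i) → (G.ι d).1 ∈ M j
  minus_in : ∀ i j, i < j → j < N → ∀ d : Dt V, d.1 ∈ cover (D j) → (G.ι d).1 ∈ M j →
    (G.ι d).1 ∉ M i ∪ cover (D i)
  repm : ∀ i < N, ∀ x ∈ G.Z,
    ∑ d ∈ univ.filter (fun d : Dt V => d.1 ∈ cover (D i) ∧ (G.ι d).1 ∈ M i), x d = dot lam x
  repp : ∀ i < N, ∀ x ∈ G.Z,
    ∑ d ∈ univ.filter (fun d : Dt V => d.1 ∈ cover (D i) ∧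
      (G.ι d).1 ∉ M i ∪ cover (D i)), x d = dot lam x

/-- the region of a run -/
noncomputable def Run.region {V : Type} [Fintype V] {G : Cub V} {b S : ℕ} (R : Run G b S) : Finset V :=
  R.M (R.N - 1) \ R.M 0

end Pool.Agent.LibMP58b56d
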