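import Mathlib
import Pool.Agent.LibMP58b56d.Interface

set_option autoImplicit false

open Finset Classical

namespace Pool.Agent.LibMP58b56d

/-- `X + K` is a `(c, b)`-good coset for `F` -/
def GoodCoset {E : Type} [AddCommGroup E] [Module (ZMod 2) E] [Fintype E] (F : Finset E)
    (c : ℝ) (b : ℕ) (X : E) (K : Submodule (ZMod 2) E) : Prop :=
  ∀ (X' : E) (K' : Submodule (ZMod 2) E), X' - X ∈ K → K' ≤ K → Nat.card K ≤ 2 ^ b * Nat.card K' →
    c / 2 * Nat.card K' ≤ ((F.filter (fun y => y - X' ∈ K')).card : ℝ)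

section coset

variable {E : Type} [AddCommGroup E] [Module (ZMod 2) E] [Fintype E]

lemma natCard_sub (K : Submodule (ZMod 2) E) :
    Nat.card K = (univ.filter (fun x : E => x ∈ K)).card := by
  rw [Nat.card_eq_fintype_card, Fintype.card_subtype]

lemma natCard_pos (K : Submodule (ZMod 2) E) : 0 < Nat.card K := by
  rw [natCard_sub]
  exact Finset.card_pos.2 ⟨0, by simp⟩

lemma coset_card (K : Submodule (ZMod 2) E) (X : E) :
    (univ.filter (fun x : E => x - X ∈ K)).card = Nat.card K := by
  rw [natCard_sub]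
  refine Finset.card_bij' (fun x _ => x - X) (fun x _ => x + X) ?_ ?_ ?_ ?_ <;> simp

lemma coset_double (F : Finset E) (X : E) (K K' : Submodule (ZMod 2) E) (h : K' ≤ K) :
    ∑ k ∈ univ.filter (fun k : E => k ∈ K), (F.filter (fun y => y - (X + k) ∈ K')).card =
      Nat.card K' * (F.filter (fun y => y - X ∈ K)).card := by
  simp only [Finset.card_filter]
  rw [Finset.sum_comm, Finset.mul_sum]
  refine Finset.sum_congr rfl fun y _ => ?_
  by_cases hy : y - X ∈ K
  · rw [if_pos hy, mul_one, natCard_sub, ← Finset.card_filter]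
    refine Finset.card_bij' (fun x _ => y - (X + x)) (fun x _ => y - (X + x)) ?_ ?_ ?_ ?_
    · intro x hx
      simp only [Finset.mem_filter, Finset.mem_univ, true_and] at hx ⊢
      exact hx.2
    · intro x hx
      simp only [Finset.mem_filter, Finset.mem_univ, true_and] at hx ⊢
      constructor
      · have := sub_mem hy (h hx)
        rwa [show y - X - x = y - (X + x) by abel] at this
      · rwa [show y - (X + (y - (X + x))) = x by abel]
    · intro x _
      abel
    · intro x _
      abel
  · rw [if_neg hy, mul_zero]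
    refine Finset.sum_eq_zero fun k hk => ?_
    rw [if_neg]
    intro h1
    apply hy
    simp only [Finset.mem_filter, Finset.mem_univ, true_and] at hk
    have := add_mem (h h1) hk
    rwa [show y - (X + k) + k = y - X by abel] at this

/-- the increment step -/
lemma coset_step (F : Finset E) (c : ℝ) (b : ℕ) (X : E) (K : Submodule (ZMod 2) E)
    (hd : c * Nat.card K ≤ ((F.filter (fun y => y - X ∈ K)).card : ℝ))
    (hpos : 0 < (F.filter (fun y => y - X ∈ K)).card)
    (hbad : ¬ GoodCoset F c b X K) :
    ∃ (X'' : E) (K' : Submodule (ZMod 2) E), X'' - X ∈ K ∧ K' ≤ K ∧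
      Nat.card K ≤ 2 ^ b * Nat.card K' ∧
      (1 + 1 / 2 ^ (b + 1)) * ((F.filter (fun y => y - X ∈ K)).card : ℝ) / Nat.card K ≤
        ((F.filter (fun y => y - X'' ∈ K')).card : ℝ) / Nat.card K' := by
  unfold GoodCoset at hbad
  push Not at hbad
  obtain ⟨X', K', hX', hK', hb, hlt⟩ := hbad
  by_contra hcon
  push Not at hcon
  have hkpos : (0 : ℝ) < (Nat.card K : ℝ) := by exact_mod_cast natCard_pos K
  have hkpos' : (0 : ℝ) < (Nat.card K' : ℝ) := by exact_mod_cast natCard_pos K'
  have hApos : (0 : ℝ) < ((F.filter (fun y => y - X ∈ K)).card : ℝ) := by exact_mod_cast hpos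
  have hbr : (Nat.card K : ℝ) ≤ 2 ^ b * (Nat.card K' : ℝ) := by exact_mod_cast hb
  have hkk : (Nat.card K' : ℝ) ≤ (Nat.card K : ℝ) := by
    have : Nat.card K' ≤ Nat.card K := by
      rw [natCard_sub, natCard_sub]
      exact Finset.card_le_card (fun x hx => by simp at hx ⊢; exact hK' hx)
    exact_mod_cast this
  have hdc := coset_double F X K K' hK'
  have hdc' : ∑ x ∈ univ.filter (fun x : E => x ∈ K),
      ((F.filter (fun y => y - (X + x) ∈ K')).card : ℝ) =
      (Nat.card K' : ℝ) * ((F.filter (fun y => y - X ∈ K)).card : ℝ) := by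
    exact_mod_cast hdc
  set A : ℝ := ((F.filter (fun y => y - X ∈ K)).card : ℝ) with hA
  set k : ℝ := (Nat.card K : ℝ) with hk
  set k' : ℝ := (Nat.card K' : ℝ) with hk'
  -- split the sum
  set Ks := univ.filter (fun x : E => x ∈ K) with hKs
  rw [← Finset.sum_filter_add_sum_filter_not Ks (fun x => X' - (X + x) ∈ K')] at hdc'
  have h1 : ∀ x ∈ Ks.filter (fun x => X' - (X + x) ∈ K'),
      ((F.filter (fun y => y - (X + x) ∈ K')).card : ℝ) ≤ c / 2 * k' := by
    intro x hx
    simp only [Finset.mem_filter] at hx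
    refine le_trans (le_of_eq ?_) hlt.le
    norm_cast
    congr 1
    ext y
    simp only [Finset.mem_filter]
    constructor
    · rintro ⟨hy, hy'⟩
      refine ⟨hy, ?_⟩
      have := sub_mem hy' hx.2
      rwa [show y - (X + x) - (X' - (X + x)) = y - X' by abel] at this
    · rintro ⟨hy, hy'⟩
      refine ⟨hy, ?_⟩
      have := add_mem hy' hx.2
      rwa [show y - X' + (X' - (X + x)) = y - (X + x) by abel] at this
  have h2 : ∀ x ∈ Ks.filter (fun x => ¬ X' - (X + x) ∈ K'),
      ((F.filter (fun y => y - (X + x) ∈ K')).card : ℝ) ≤ (1 + 1 / 2 ^ (b + 1)) * A / k * k' := by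
    intro x hx
    simp only [Finset.mem_filter, hKs, Finset.mem_univ, true_and] at hx
    have := hcon (X + x) K' (by simpa using hx.1) hK' hb
    rw [div_lt_iff₀ hkpos'] at this
    exact this.le
  have hc1 : ((Ks.filter (fun x => X' - (X + x) ∈ K')).card : ℝ) = k' := by
    rw [hk', natCard_sub]
    norm_cast
    refine Finset.card_bij' (fun x _ => X' - (X + x)) (fun x _ => X' - (X + x)) ?_ ?_ ?_ ?_
    · intro x hx
      simp only [Finset.mem_filter, Finset.mem_univ, true_and] at hx ⊢
      exact hx.2
    · intro x hx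
      simp only [Finset.mem_filter, Finset.mem_univ, true_and, hKs] at hx ⊢
      constructor
      · have := sub_mem hX' (hK' hx)
        rwa [show X' - X - x = X' - (X + x) by abel] at this
      · rwa [show X' - (X + (X' - (X + x))) = x by abel]
    · intro x _
      abel
    · intro x _
      abel
  have hc2 : ((Ks.filter (fun x => X' - (X + x) ∈ K')).card : ℝ) +
      ((Ks.filter (fun x => ¬ X' - (X + x) ∈ K')).card : ℝ) = k := by
    rw [hk, natCard_sub]
    norm_cast
    exact Finset.card_filter_add_card_filter_not _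
  have h3 := Finset.sum_le_card_nsmul _ _ _ h1
  have h4 := Finset.sum_le_card_nsmul _ _ _ h2
  rw [nsmul_eq_mul] at h3 h4
  have h5 : ((Ks.filter (fun x => ¬ X' - (X + x) ∈ K')).card : ℝ) = k - k' := by linarith
  rw [hc1] at h3
  rw [h5] at h4
  have h6 : k' * A ≤ k' * (c / 2 * k') + (k - k') * ((1 + 1 / 2 ^ (b + 1)) * A / k * k') := by
    linarith
  have h7 : c * k' ≤ A * k' / k := by
    rw [le_div_iff₀ hkpos]
    nlinarith
  have h7' : c / 2 * k' ≤ A * k' / k / 2 := by linarith
  have h8 : A ≤ A * k' / k / 2 + (k - k') * ((1 + 1 / 2 ^ (b + 1)) * A / k) := by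
    have : k' * A ≤ k' * (A * k' / k / 2 + (k - k') * ((1 + 1 / 2 ^ (b + 1)) * A / k)) := by
      have e1 : k' * (c / 2 * k') ≤ k' * (A * k' / k / 2) :=
        mul_le_mul_of_nonneg_left h7' hkpos'.le
      calc k' * A ≤ _ := h6
        _ ≤ k' * (A * k' / k / 2) + (k - k') * ((1 + 1 / 2 ^ (b + 1)) * A / k * k') := by linarith
        _ = _ := by ring
    exact le_of_mul_le_mul_left this hkpos'
  have h9 : k ≤ k' / 2 + (k - k') * (1 + 1 / 2 ^ (b + 1)) := by
    have e2 : A * k' / k / 2 + (k - k') * ((1 + 1 / 2 ^ (b + 1)) * A / k) =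
        A / k * (k' / 2 + (k - k') * (1 + 1 / 2 ^ (b + 1))) := by
      field_simp
    rw [e2] at h8
    have e3 : A = A / k * k := by field_simp
    have e4 : A / k * k ≤ A / k * (k' / 2 + (k - k') * (1 + 1 / 2 ^ (b + 1))) := by
      rw [← e3]; exact h8
    exact le_of_mul_le_mul_left e4 (div_pos hApos hkpos)
  have h10 : (1 : ℝ) / 2 ^ (b + 1) * k ≤ k' / 2 := by
    rw [pow_succ, div_mul_eq_mul_div, one_mul, div_le_iff₀ (by positivity)]
    nlinarith
  have h11 : (0 : ℝ) < 1 / 2 ^ (b + 1) * k' := by positivity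
  nlinarith

/-- density increment iteration -/
lemma coset_iter (F : Finset E) (c : ℝ) (hc : 0 < c) (b : ℕ) (n : ℕ) :
    ∀ (X : E) (K : Submodule (ZMod 2) E),
      c * Nat.card K ≤ ((F.filter (fun y => y - X ∈ K)).card : ℝ) →
      1 < (1 + 1 / 2 ^ (b + 1) : ℝ) ^ n *
        (((F.filter (fun y => y - X ∈ K)).card : ℝ) / Nat.card K) →
      ∃ (X' : E) (K' : Submodule (ZMod 2) E), X' - X ∈ K ∧ K' ≤ K ∧
        Nat.card K ≤ 2 ^ (b * n) * Nat.card K' ∧ GoodCoset F c b X' K' := by
  induction n with
  | zero =>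
    intro X K _ h
    exfalso
    have h1 : (F.filter (fun y => y - X ∈ K)).card ≤ Nat.card K := by
      rw [← coset_card K X]
      exact Finset.card_le_card (fun y hy => by simp at hy ⊢; exact hy.2)
    have hkpos : (0 : ℝ) < Nat.card K := by exact_mod_cast natCard_pos K
    have h2 : (((F.filter (fun y => y - X ∈ K)).card : ℝ) / Nat.card K) ≤ 1 := by
      rw [div_le_one hkpos]
      exact_mod_cast h1
    rw [pow_zero, one_mul] at h
    linarith
  | succ n ih =>
    intro X K hd h
    by_cases hg : GoodCoset F c b X K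
    · refine ⟨X, K, by simp, le_rfl, ?_, hg⟩
      exact Nat.le_mul_of_pos_left _ (by positivity)
    · have hkpos : (0 : ℝ) < Nat.card K := by exact_mod_cast natCard_pos K
      have hpos : 0 < (F.filter (fun y => y - X ∈ K)).card := by
        have : (0 : ℝ) < ((F.filter (fun y => y - X ∈ K)).card : ℝ) :=
          lt_of_lt_of_le (by positivity) hd
        exact_mod_cast this
      obtain ⟨X'', K', h1, h2, h3, h4⟩ := coset_step F c b X K hd hpos hg
      have hkpos' : (0 : ℝ) < Nat.card K' := by exact_mod_cast natCard_pos K'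
      have hdens : c ≤ ((F.filter (fun y => y - X ∈ K)).card : ℝ) / Nat.card K := by
        rw [le_div_iff₀ hkpos]; exact hd
      have h5 : ((F.filter (fun y => y - X ∈ K)).card : ℝ) / Nat.card K ≤
          ((F.filter (fun y => y - X'' ∈ K')).card : ℝ) / Nat.card K' := by
        refine le_trans ?_ h4
        rw [mul_div_assoc]
        have : (0 : ℝ) ≤ 1 / 2 ^ (b + 1) := by positivity
        have h0 : (0 : ℝ) ≤ ((F.filter (fun y => y - X ∈ K)).card : ℝ) / Nat.card K := by positivity
        nlinarith
      obtain ⟨X3, K3, g1, g2, g3, g4⟩ := ih X'' K'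
        (by
          have := le_trans hdens h5
          rwa [le_div_iff₀ hkpos'] at this)
        (by
          refine lt_of_lt_of_le h ?_
          rw [pow_succ, mul_assoc]
          refine mul_le_mul_of_nonneg_left ?_ (by positivity)
          rw [← mul_div_assoc]
          exact h4)
      refine ⟨X3, K3, ?_, g2.trans h2, ?_, g4⟩
      · have := add_mem (h2 g1) h1
        rwa [show X3 - X'' + (X'' - X) = X3 - X by abel] at this
      · calc Nat.card K ≤ 2 ^ b * Nat.card K' := h3
          _ ≤ 2 ^ b * (2 ^ (b * n) * Nat.card K3) := Nat.mul_le_mul_left _ g3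
          _ = 2 ^ (b * (n + 1)) * Nat.card K3 := by
            rw [← mul_assoc, ← pow_add]
            congr 2
            ring

end coset

/-- task B1: density increment -/
theorem exists_goodCoset (c : ℝ) (hc : 0 < c) (b : ℕ) : ∃ r : ℕ,
    ∀ (E : Type) [AddCommGroup E] [Module (ZMod 2) E] [Fintype E] (F : Finset E)
      (Z : Submodule (ZMod 2) E), (∀ y ∈ F, y ∈ Z) → c * Nat.card Z ≤ (F.card : ℝ) →
      ∃ X ∈ Z, ∃ K ≤ Z, Nat.card Z ≤ 2 ^ r * Nat.card K ∧ GoodCoset F c b X K := by
  obtain ⟨n, hn⟩ := pow_unbounded_of_one_lt (1 / c)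
    (show (1 : ℝ) < 1 + 1 / 2 ^ (b + 1) by
      have : (0 : ℝ) < 1 / 2 ^ (b + 1) := by positivity
      linarith)
  refine ⟨b * n, ?_⟩
  intro E _ _ _ F Z hF hd
  have hkpos : (0 : ℝ) < Nat.card Z := by exact_mod_cast natCard_pos Z
  have hfil : F.filter (fun y => y - 0 ∈ Z) = F := by
    apply Finset.filter_true_of_mem
    intro y hy
    rw [sub_zero]
    exact hF y hy
  obtain ⟨X, K, h1, h2, h3, h4⟩ := coset_iter F c hc b n 0 Z (by rw [hfil]; exact hd)
    (by
      rw [hfil]
      have h5 : c ≤ (F.card : ℝ) / Nat.card Z := by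
        rw [le_div_iff₀ hkpos]; exact hd
      calc (1 : ℝ) = 1 / c * c := by field_simp
        _ < (1 + 1 / 2 ^ (b + 1)) ^ n * c := by
          exact mul_lt_mul_of_pos_right hn hc
        _ ≤ _ := mul_le_mul_of_nonneg_left h5 (by positivity))
  exact ⟨X, by simpa using h1, K, h2, h3, h4⟩

lemma ext_sum {V : Type} [Fintype V] (T : Finset (Dt V)) (β : T → ZMod 2) (z : Vec V) :
    dot (fun d => if h : d ∈ T then β ⟨d, h⟩ else 0) z = ∑ d : T, β d * z d.1 := by
  unfold dot
  have h1 : ∑ d : T, β d * z d.1 = ∑ d : T, (fun e : Dt V => (if h : e ∈ T then β ⟨e, h⟩ else 0)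
      * z e) d.1 := by
    refine Finset.sum_congr rfl fun d _ => ?_
    simp
  rw [h1, Finset.sum_coe_sort T (fun e : Dt V => (if h : e ∈ T then β ⟨e, h⟩ else 0) * z e)]
  symm
  apply Finset.sum_subset (Finset.subset_univ T)
  intro d _ hd
  rw [dif_neg hd, zero_mul]

/-- task B1: short circuits are obstructed -/
theorem obstructed_of_goodCoset {V : Type} [Fintype V] (G : Cub V) (c : ℝ) (hc : 0 < c) (b : ℕ)
    (X : Vec V) (K : Submodule (ZMod 2) (Vec V)) (hX : X ∈ G.Z) (hK : K ≤ G.Z)
    (hgood : GoodCoset G.circs c b X K) (hbig : 2 * 2 ^ b < c * Nat.card K)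
    (s : ℕ) (hs : 3 * s ≤ b) : Obstructed G K X s := by
  intro D hD hDs
  let T : Finset (Dt V) := univ.filter (fun d : Dt V => d.1 ∈ cover D)
  have hT : T.card ≤ b := by
    have : T = cover D ×ˢ (univ : Finset (Fin 3)) := by
      ext d
      simp [T]
    rw [this, Finset.card_product]
    simp
    omega
  let res : Vec V →ₗ[ZMod 2] (T → ZMod 2) :=
    { toFun := fun x d => x d.1
      map_add' := fun _ _ => rfl
      map_smul' := fun _ _ => rfl }
  by_cases hin : res (X + D) ∈ K.map res
  · exfalso
    obtain ⟨k, hk, hk'⟩ := hin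
    -- `X + k` agrees with `D` on `T`
    have h1 : ∀ d ∈ T, (X + k) d = D d := by
      intro d hd
      have := congrFun hk' ⟨d, hd⟩
      change k d = (X + D) d at this
      rw [Pi.add_apply, this, Pi.add_apply, ← add_assoc, zmod2_add_self, zero_add]
    let K' : Submodule (ZMod 2) (Vec V) := K ⊓ LinearMap.ker res
    have h2 : Nat.card K ≤ 2 ^ b * Nat.card K' := by
      let f : K →ₗ[ZMod 2] (T → ZMod 2) := res.comp K.subtype
      have e1 := LinearMap.finrank_range_add_finrank_ker f
      have e2 : Module.finrank (ZMod 2) (LinearMap.range f) ≤ b := by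
        refine (Submodule.finrank_le _).trans ?_
        rw [Module.finrank_fintype_fun_eq_card, Fintype.card_coe]
        exact hT
      have e3 : Module.finrank (ZMod 2) (LinearMap.ker f) ≤ Module.finrank (ZMod 2) K' := by
        let g : LinearMap.ker f →ₗ[ZMod 2] K' :=
          LinearMap.codRestrict _ (K.subtype.comp (LinearMap.ker f).subtype)
            (fun x => ⟨x.1.2, by
              have := x.2
              rw [LinearMap.mem_ker] at this
              exact this⟩)
        refine LinearMap.finrank_le_finrank_of_injective (f := g) ?_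
        intro x y hxy
        apply Subtype.ext
        apply Subtype.ext
        exact congrArg (fun w : K' => (w : Vec V)) hxy
      rw [Module.natCard_eq_pow_finrank (K := ZMod 2) (V := K),
        Module.natCard_eq_pow_finrank (K := ZMod 2) (V := K')]
      simp only [Nat.card_eq_fintype_card, ZMod.card]
      rw [← pow_add]
      exact Nat.pow_le_pow_right (by norm_num) (by omega)
    have h3 := hgood (X + k) K' (by simpa using hk) inf_le_left h2
    have h4 : (G.circs.filter (fun y => y - (X + k) ∈ K')).card ≤ 1 := by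
      rw [Finset.card_le_one]
      have key : ∀ P ∈ G.circs.filter (fun y => y - (X + k) ∈ K'), P = D := by
        intro P hP
        simp only [Finset.mem_filter, Cub.circs, Finset.mem_univ, true_and] at hP
        have h5 : ∀ d ∈ T, P d = D d := by
          intro d hd
          have := congrFun (LinearMap.mem_ker.1 hP.2.2) ⟨d, hd⟩
          change (P - (X + k)) d = 0 at this
          rw [Pi.sub_apply, sub_eq_zero, h1 d hd] at this
          exact this
        rcases hP.1.2.2 D hD.1 (fun d hd => by
          by_contra h6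
          have h7 : d ∈ T := by
            simp only [T, Finset.mem_filter, Finset.mem_univ, true_and]
            exact mem_cover_of_ne h6
          rw [h5 d h7] at hd
          exact h6 hd) with h6 | h6
        · exact absurd h6 hD.2.1
        · exact h6.symm
      intro P hP Q hQ
      rw [key P hP, key Q hQ]
    have h5 : c / 2 * (Nat.card K' : ℝ) ≤ 1 := h3.trans (by exact_mod_cast h4)
    have h6 : (Nat.card K : ℝ) ≤ 2 ^ b * Nat.card K' := by exact_mod_cast h2
    have h7 : c * (Nat.card K : ℝ) ≤ c * (2 ^ b * Nat.card K') :=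
      mul_le_mul_of_nonneg_left h6 hc.le
    have h8 : (0 : ℝ) < 2 ^ b := by positivity
    nlinarith
  · obtain ⟨β, hβ, hβ'⟩ := sep _ _ hin
    refine ⟨fun d => if h : d ∈ T then β ⟨d, h⟩ else 0, ?_, ?_, ?_⟩
    · intro d hd
      by_contra h
      apply hd
      change (if h : d ∈ T then β ⟨d, h⟩ else 0) = 0
      rw [dif_neg]
      intro h1
      apply h
      simpa [T] using h1
    · intro z hz
      have := hβ (res z) (Submodule.mem_map_of_mem hz)
      rw [ext_sum T β z]
      exact this
    · intro h
      have h1 : dot (fun d => if h : d ∈ T then β ⟨d, h⟩ else 0) (X + D) = 1 := by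
        rw [ext_sum T β (X + D)]
        exact hβ'
      rw [dot_add, h, zmod2_add_self] at h1
      exact zero_ne_one h1

end Pool.Agent.LibMP58b56d
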