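import Mathlib
import Pool.Agent.LibMP58b56d.Interface

set_option autoImplicit false

open Finset Classical

namespace Pool.Agent.LibMP58b56d

variable {V : Type} [Fintype V] {G : Cub V} {b S : ℕ}

/-- the arc strictly between `D i` and `D j` -/
noncomputable def Run.arc (R : Run G b S) (i j : ℕ) : Finset V :=
  R.M j \ (R.M i ∪ cover (R.D i))

/-- through-sets of the arc between `D i` and `D j` -/
structure Run.Through (R : Run G b S) (i j : ℕ) (σ : Vec V) : Prop where
  sym : ∀ d, σ (G.ι d) = σ d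
  supp : ∀ d, σ d ≠ 0 → d.1 ∈ R.arc i j ∨ (G.ι d).1 ∈ R.arc i j
  even : ∀ v ∈ R.arc i j, ∑ k, σ (v, k) = 0
  odd : ∑ d ∈ univ.filter (fun d : Dt V => d.1 ∈ cover (R.D i) ∧
      (G.ι d).1 ∉ R.M i ∪ cover (R.D i)), σ d = 1

/-- a carrying arc: it contains a circuit avoiding a through-set -/
def Run.Carries (R : Run G b S) (i j : ℕ) : Prop :=
  i < j ∧ j < R.N ∧ ∃ P σ : Vec V, G.IsCirc P ∧ cover P ⊆ R.arc i j ∧ R.Through i j σ ∧
    Disjoint (cover P) (cover σ)

end Pool.Agent.LibMP58b56d
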