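import Mathlib
import Pool.Agent.LibMP58b56d.Interface
import Pool.Agent.LibMP58b56d.GoodCoset
import Pool.Agent.LibMP58b56d.Through

/-!
# Task B3a, part 1: elementary facts on runs, transport of parity, and step (f)
-/

set_option autoImplicit false

open Finset Classical

namespace Pool.Agent.LibMP58b56d

section runs

variable {V : Type} [Fintype V] {G : Cub V} {b S : ℕ} (R : Run G b S)

lemma Run.mono_lt {i j : ℕ} (hij : i < j) (hj : j < R.N) :
    R.M i ∪ cover (R.D i) ⊆ R.M j := by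
  induction j with
  | zero => omega
  | succ j ih =>
    rcases Nat.lt_succ_iff_lt_or_eq.1 hij with h | h
    · exact (ih h (by omega)).trans (subset_union_left.trans (R.nest j hj))
    · subst h
      exact R.nest i hj

lemma Run.M_lt {i j : ℕ} (hij : i < j) (hj : j < R.N) : R.M i ⊆ R.M j :=
  subset_union_left.trans (R.mono_lt hij hj)

lemma Run.C_lt {i j : ℕ} (hij : i < j) (hj : j < R.N) : cover (R.D i) ⊆ R.M j :=
  subset_union_right.trans (R.mono_lt hij hj)

lemma Run.M_le {i j : ℕ} (hij : i ≤ j) (hj : j < R.N) : R.M i ⊆ R.M j := by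
  rcases hij.lt_or_eq with h | h
  · exact R.M_lt h hj
  · rw [h]

lemma Run.notMem_C {i : ℕ} (hi : i < R.N) {v : V} (hv : v ∈ R.M i) : v ∉ cover (R.D i) :=
  fun h => (Finset.disjoint_left.1 (R.disj i hi)) hv h

lemma Run.notMem_M {i : ℕ} (hi : i < R.N) {v : V} (hv : v ∈ cover (R.D i)) : v ∉ R.M i :=
  fun h => (Finset.disjoint_left.1 (R.disj i hi)) h hv

/-- the darts leading from the circuit `D i` outwards -/
noncomputable def Run.cXp (i : ℕ) : Finset (Dt V) :=
  univ.filter (fun d : Dt V => d.1 ∈ cover (R.D i) ∧ (G.ι d).1 ∉ R.M i ∪ cover (R.D i))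

/-- the darts leading from the circuit `D i` inwards -/
noncomputable def Run.cXm (i : ℕ) : Finset (Dt V) :=
  univ.filter (fun d : Dt V => d.1 ∈ cover (R.D i) ∧ (G.ι d).1 ∈ R.M i)

lemma Run.mem_cXp {i : ℕ} {d : Dt V} :
    d ∈ R.cXp i ↔ d.1 ∈ cover (R.D i) ∧ (G.ι d).1 ∉ R.M i ∧ (G.ι d).1 ∉ cover (R.D i) := by
  simp [Run.cXp]

lemma Run.mem_cXm {i : ℕ} {d : Dt V} :
    d ∈ R.cXm i ↔ d.1 ∈ cover (R.D i) ∧ (G.ι d).1 ∈ R.M i := by
  simp [Run.cXm]

lemma Run.mem_carc {i j : ℕ} {v : V} :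
    v ∈ R.arc i j ↔ v ∈ R.M j ∧ v ∉ R.M i ∧ v ∉ cover (R.D i) := by
  simp [Run.arc]

lemma card_darts_le {E : Finset (Dt V)} (U : Finset V) (hE : ∀ d ∈ E, d.1 ∈ U) :
    E.card ≤ 3 * U.card := by
  have h1 : E ⊆ U ×ˢ (univ : Finset (Fin 3)) := by
    intro d hd
    simp [hE d hd]
  have h2 := Finset.card_le_card h1
  rw [Finset.card_product, Finset.card_univ, Fintype.card_fin] at h2
  omega

lemma Run.card_Xp {i : ℕ} (hi : i < R.N) : (R.cXp i).card ≤ 3 * b :=
  (card_darts_le (cover (R.D i)) (fun _ hd => (R.mem_cXp.1 hd).1)).trans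
    (Nat.mul_le_mul_left 3 (R.small i hi))

lemma Run.card_Xm {i : ℕ} (hi : i < R.N) : (R.cXm i).card ≤ 3 * b :=
  (card_darts_le (cover (R.D i)) (fun _ hd => (R.mem_cXm.1 hd).1)).trans
    (Nat.mul_le_mul_left 3 (R.small i hi))

/-- the outer end of a dart in `cXp i` is in every arc beginning at `i` -/
lemma Run.Xp_arc {i j : ℕ} (hij : i < j) (hj : j < R.N) {d : Dt V} (hd : d ∈ R.cXp i) :
    (G.ι d).1 ∈ R.arc i j := by
  rw [R.mem_cXp] at hd
  rw [R.mem_carc]
  exact ⟨R.plus_in i j hij hj d hd.1, hd.2.1, hd.2.2⟩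

lemma Run.Xm_arc {i j : ℕ} (hij : i < j) (hj : j < R.N) {d : Dt V} (hd : d ∈ R.cXm j) :
    (G.ι d).1 ∈ R.arc i j := by
  rw [R.mem_cXm] at hd
  rw [R.mem_carc]
  have := R.minus_in i j hij hj d hd.1 hd.2
  rw [Finset.mem_union, not_or] at this
  exact ⟨hd.2, this.1, this.2⟩

/-- darts leaving an arc -/
lemma Run.arc_leave {i j : ℕ} (hij : i < j) (hj : j < R.N) {d : Dt V} (hd : d.1 ∈ R.arc i j)
    (hd' : (G.ι d).1 ∉ R.arc i j) : G.ι d ∈ R.cXp i ∨ G.ι d ∈ R.cXm j := by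
  rcases R.bdry i j hij hj d hd hd' with h | h
  · left
    rw [R.mem_carc] at hd
    rw [R.mem_cXp, G.inv]
    exact ⟨h, hd.2⟩
  · right
    rw [R.mem_carc] at hd
    rw [R.mem_cXm, G.inv]
    exact ⟨h, hd.1⟩

lemma Run.notMem_arc_left {i j : ℕ} {v : V} (hv : v ∈ cover (R.D i)) : v ∉ R.arc i j := by
  rw [R.mem_carc]
  tauto

lemma Run.notMem_arc_right {i j : ℕ} (hj : j < R.N) {v : V} (hv : v ∈ cover (R.D j)) :
    v ∉ R.arc i j := by
  rw [R.mem_carc]
  intro h
  exact R.notMem_M hj hv h.1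

/-- the boundary darts of an arc, at most `6 b` -/
lemma Run.card_leave {i j : ℕ} (hij : i < j) (hj : j < R.N) :
    (univ.filter (fun d : Dt V => d.1 ∈ R.arc i j ∧ (G.ι d).1 ∉ R.arc i j)).card ≤ 6 * b := by
  have h1 : univ.filter (fun d : Dt V => d.1 ∈ R.arc i j ∧ (G.ι d).1 ∉ R.arc i j) ⊆
      (R.cXp i ∪ R.cXm j).image G.ι := by
    intro d hd
    simp only [Finset.mem_filter, Finset.mem_univ, true_and] at hd
    rw [Finset.mem_image]
    refine ⟨G.ι d, ?_, G.inv d⟩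
    rw [Finset.mem_union]
    exact R.arc_leave hij hj hd.1 hd.2
  have h2 := (Finset.card_le_card h1).trans (Finset.card_image_le)
  have h3 := Finset.card_union_le (R.cXp i) (R.cXm j)
  have h4 := R.card_Xp (hij.trans hj)
  have h5 := R.card_Xm hj
  omega

lemma z2_aux1 (z w w' e e' : ZMod 2) (h : z ≠ 0 → e + e' = w + w') :
    z * (w + e) + z * (w' + e') = 0 := by
  revert z w w' e e'
  decide

/-- transport of parity along a run -/
theorem Run.transport {i j : ℕ} (hij : i < j) (hj : j < R.N) {z : Vec V} (hz : z ∈ G.Z)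
    (W : V → ZMod 2) (e : Vec V)
    (hW : ∀ d, z d ≠ 0 → e d + e (G.ι d) = W d.1 + W (G.ι d).1) :
    ∑ d ∈ R.cXp i, z d * W d.1 + ∑ d ∈ R.cXp j, z d * W d.1 =
      ∑ d ∈ univ.filter (fun d : Dt V => d.1 ∈ R.arc i j ∪ cover (R.D j) ∧
        (G.ι d).1 ∈ R.arc i j ∪ cover (R.D j)), z d * e d +
      ∑ d ∈ R.cXp i, z d * (e d + e (G.ι d)) := by
  set U : Finset V := R.arc i j ∪ cover (R.D j) with hU
  have hi : i < R.N := hij.trans hj
  -- the total
  have h0 : ∑ d ∈ univ.filter (fun d : Dt V => d.1 ∈ U), z d * W d.1 = 0 := by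
    have h1 := Cub.dot_vertex hz (fun v => if v ∈ U then W v else 0)
    unfold dot at h1
    rw [Finset.sum_filter]
    refine Eq.trans ?_ h1
    refine Finset.sum_congr rfl fun d _ => ?_
    by_cases h : d.1 ∈ U
    · simp [h, mul_comm]
    · simp [h]
  rw [← Finset.sum_filter_add_sum_filter_not _ (fun d => (G.ι d).1 ∈ U), Finset.filter_filter,
    Finset.filter_filter] at h0
  -- the leaving darts
  have h2 : univ.filter (fun d : Dt V => d.1 ∈ U ∧ ¬ (G.ι d).1 ∈ U) =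
      R.cXp j ∪ (R.cXp i).image G.ι := by
    ext d
    simp only [Finset.mem_filter, Finset.mem_univ, true_and, Finset.mem_union, Finset.mem_image,
      hU, not_or]
    constructor
    · rintro ⟨h1 | h1, h2, h3⟩
      · rcases R.arc_leave hij hj h1 h2 with h | h
        · right
          exact ⟨_, h, G.inv d⟩
        · rw [R.mem_cXm] at h
          exact absurd h.1 h3
      · left
        rw [R.mem_cXp]
        refine ⟨h1, fun h4 => ?_, h3⟩
        apply h2
        exact R.Xm_arc hij hj (R.mem_cXm.2 ⟨h1, h4⟩)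
    · rintro (h | ⟨a, ha, rfl⟩)
      · rw [R.mem_cXp] at h
        refine ⟨Or.inr h.1, fun h4 => ?_, h.2.2⟩
        rw [R.mem_carc] at h4
        exact h.2.1 h4.1
      · refine ⟨Or.inl (R.Xp_arc hij hj ha), ?_, ?_⟩
        · rw [G.inv]
          rw [R.mem_cXp] at ha
          exact R.notMem_arc_left ha.1
        · rw [G.inv]
          rw [R.mem_cXp] at ha
          exact R.notMem_C hj (R.C_lt hij hj ha.1)
  have h3 : Disjoint (R.cXp j) ((R.cXp i).image G.ι) := by
    rw [Finset.disjoint_left]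
    intro d hd hd'
    rw [Finset.mem_image] at hd'
    obtain ⟨a, ha, rfl⟩ := hd'
    have h4 := R.Xp_arc hij hj ha
    rw [R.mem_cXp] at hd
    exact R.notMem_arc_right hj hd.1 h4
  have h4 : ∑ d ∈ (R.cXp i).image G.ι, z d * W d.1 = ∑ d ∈ R.cXp i, z d * W (G.ι d).1 := by
    rw [Finset.sum_image]
    · refine Finset.sum_congr rfl fun d _ => ?_
      rw [hz.1 d]
    · intro x _ y _ hxy
      have := congrArg G.ι hxy
      rwa [G.inv, G.inv] at this
  have h5 : ∑ d ∈ univ.filter (fun d : Dt V => d.1 ∈ U ∧ (G.ι d).1 ∈ U), z d * (W d.1 + e d)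
      = 0 := by
    refine Finset.sum_involution (fun d _ => G.ι d) ?_ ?_ ?_ ?_
    · intro d _
      rw [hz.1 d]
      exact z2_aux1 _ _ _ _ _ (hW d)
    · intro d _ _
      exact G.nofix d
    · intro d hd
      simp only [Finset.mem_filter, Finset.mem_univ, true_and, G.inv] at hd ⊢
      exact ⟨hd.2, hd.1⟩
    · intro d _
      exact G.inv d
  rw [h2, Finset.sum_union h3, h4] at h0
  simp only [mul_add, Finset.sum_add_distrib] at h5
  have h6 : ∑ d ∈ R.cXp i, z d * (e d + e (G.ι d)) =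
      ∑ d ∈ R.cXp i, z d * W d.1 + ∑ d ∈ R.cXp i, z d * W (G.ι d).1 := by
    rw [← Finset.sum_add_distrib]
    refine Finset.sum_congr rfl fun d _ => ?_
    rcases zmod2_cases (z d) with h | h
    · simp [h]
    · rw [hW d (by rw [h]; exact one_ne_zero), mul_add]
  rw [h6]
  generalize (∑ d ∈ univ.filter (fun d : Dt V => d.1 ∈ U ∧ (G.ι d).1 ∈ U), z d * W d.1) = a1
    at *
  generalize (∑ d ∈ univ.filter (fun d : Dt V => d.1 ∈ U ∧ (G.ι d).1 ∈ U), z d * e d) = a2
    at *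
  generalize (∑ d ∈ R.cXp i, z d * W d.1) = a3 at *
  generalize (∑ d ∈ R.cXp i, z d * W (G.ι d).1) = a4 at *
  generalize (∑ d ∈ R.cXp j, z d * W d.1) = a5 at *
  clear h6 h4
  revert a1 a2 a3 a4 a5
  decide

end runs

end Pool.Agent.LibMP58b56d
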