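import Mathlib
import Pool.Agent.LibMP58b56d.CarryA

/-!
# Task B3a, part 2: step (f)
-/

set_option autoImplicit false

open Finset Classical

namespace Pool.Agent.LibMP58b56d

section stepf

variable {V : Type} [Fintype V] {G : Cub V} {b S : ℕ} (R : Run G b S)

lemma third_unique_aux : ∀ a : Fin 3 → ZMod 2, ∑ i, a i = 0 → (∃ i, a i ≠ 0) →
    ∀ k l, a k = 0 → a l = 0 → k = l := by
  decide

/-- vertices of `T` covered by `σ` whose third dart leads to a vertex of `T` not covered by `σ` -/
noncomputable def toR (G : Cub V) (T : Finset V) (σ : Vec V) : Finset V :=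
  (T ∩ cover σ).filter (fun v => ∃ k, σ (v, k) = 0 ∧ (G.ι (v, k)).1 ∈ T \ cover σ)

lemma no_circ_card {T : Finset V} {σ : Vec V} (hsym : ∀ d, σ (G.ι d) = σ d)
    (heven : ∀ v ∈ T, ∑ k, σ (v, k) = 0)
    (hno : ∀ z ∈ G.Z, (∀ d, z d ≠ 0 → d.1 ∈ T \ cover σ) → z = 0) :
    (T \ cover σ).card ≤ (toR G T σ).card +
      (univ.filter (fun d : Dt V => d.1 ∈ T ∧ (G.ι d).1 ∉ T)).card := by
  rcases (T \ cover σ).eq_empty_or_nonempty with h0 | h0
  · rw [h0]
    simp
  have h1 := G.internal_le h0 hno
  have h2 : (univ.filter (fun d : Dt V => d.1 ∈ T \ cover σ)).card = 3 * (T \ cover σ).card := by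
    have : univ.filter (fun d : Dt V => d.1 ∈ T \ cover σ) =
        (T \ cover σ) ×ˢ (univ : Finset (Fin 3)) := by
      ext d
      simp
    rw [this, Finset.card_product, Finset.card_univ, Fintype.card_fin, mul_comm]
  rw [← Finset.card_filter_add_card_filter_not (fun d : Dt V => (G.ι d).1 ∈ T \ cover σ),
    Finset.filter_filter, Finset.filter_filter] at h2
  have h3 : (univ.filter (fun d : Dt V => d.1 ∈ T \ cover σ ∧ ¬ (G.ι d).1 ∈ T \ cover σ)).card ≤
      (univ.filter (fun d : Dt V => d.1 ∈ T \ cover σ ∧ (G.ι d).1 ∈ T ∩ cover σ)).card +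
      (univ.filter (fun d : Dt V => d.1 ∈ T ∧ (G.ι d).1 ∉ T)).card := by
    refine le_trans (Finset.card_le_card ?_) (Finset.card_union_le _ _)
    intro d hd
    simp only [Finset.mem_filter, Finset.mem_univ, true_and, Finset.mem_union,
      Finset.mem_sdiff, Finset.mem_inter, not_and, not_not] at hd ⊢
    tauto
  have h4 : (univ.filter (fun d : Dt V => d.1 ∈ T \ cover σ ∧
      (G.ι d).1 ∈ T ∩ cover σ)).card ≤ (toR G T σ).card := by
    refine Finset.card_le_card_of_injOn (fun d => (G.ι d).1) ?_ ?_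
    · intro d hd
      simp only [Finset.coe_filter, Finset.mem_univ, true_and, Set.mem_ofPred_eq] at hd
      simp only [toR, Finset.coe_filter, Set.mem_ofPred_eq]
      refine ⟨hd.2, (G.ι d).2, ?_, ?_⟩
      · rw [hsym]
        by_contra h
        have := mem_cover_of_ne h
        have h5 := hd.1
        rw [Finset.mem_sdiff] at h5
        exact h5.2 this
      · rw [G.inv]
        exact hd.1
    · intro d hd d' hd' hdd'
      simp only [Finset.coe_filter, Finset.mem_univ, true_and, Set.mem_ofPred_eq] at hd hd'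
      have key : ∀ e : Dt V, e.1 ∈ T \ cover σ → σ (G.ι e) = 0 := by
        intro e he
        rw [hsym]
        by_contra h
        have := mem_cover_of_ne h
        rw [Finset.mem_sdiff] at he
        exact he.2 this
      have k1 := key d hd.1
      have k2 := key d' hd'.1
      have h5 : (G.ι d).1 = (G.ι d').1 := hdd'
      have h6 := hd.2
      rw [Finset.mem_inter, mem_cover] at h6
      have h7 := third_unique_aux (fun k => σ ((G.ι d).1, k)) (heven _ h6.1) h6.2
        (G.ι d).2 (G.ι d').2 k1 (by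
          change σ ((G.ι d).1, (G.ι d').2) = 0
          rw [h5]
          exact k2)
      have h8 : G.ι d = G.ι d' := Prod.ext h5 h7
      have := congrArg G.ι h8
      rwa [G.inv, G.inv] at this
  omega

/-- the part of `z` along the arc on the side `W = 1` -/
noncomputable def restr (G : Cub V) (T : Finset V) (z : Vec V) (W : V → ZMod 2) : Vec V :=
  fun d => if d.1 ∈ T ∨ (G.ι d).1 ∈ T then z d * W d.1 else 0

lemma restr_even {T : Finset V} {z : Vec V} (hz : z ∈ G.Z) (W : V → ZMod 2) :
    ∀ v ∈ T, ∑ k, restr G T z W (v, k) = 0 := by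
  intro v hv
  have : ∀ k, restr G T z W (v, k) = z (v, k) * W v := by
    intro k
    simp [restr, hv]
  simp only [this]
  rw [← Finset.sum_mul, hz.2 v, zero_mul]

lemma restr_sym {T : Finset V} {z : Vec V} (hz : z ∈ G.Z) {W : V → ZMod 2}
    (hW : ∀ d, z d ≠ 0 → d.1 ∈ T → W d.1 = W (G.ι d).1) :
    ∀ d, restr G T z W (G.ι d) = restr G T z W d := by
  intro d
  unfold restr
  rw [G.inv, hz.1 d]
  by_cases h : d.1 ∈ T ∨ (G.ι d).1 ∈ T
  · rw [if_pos h, if_pos h.symm]
    by_cases h1 : z d = 0
    · rw [h1, zero_mul, zero_mul]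
    · rcases h with h | h
      · rw [hW d h1 h]
      · have := hW (G.ι d) (by rwa [hz.1 d]) h
        rw [G.inv] at this
        rw [this]
  · rw [if_neg h, if_neg (fun h' => h h'.symm)]

lemma restr_cover {T : Finset V} {z : Vec V} {W : V → ZMod 2} {v : V}
    (hv : v ∈ cover (restr G T z W)) : W v = 1 := by
  rw [mem_cover] at hv
  obtain ⟨i, hi⟩ := hv
  unfold restr at hi
  by_contra h
  apply hi
  simp [zmod2_ne_one h]

lemma Run.restr_through {i j : ℕ} (hij : i < j) (hj : j < R.N) {z : Vec V} (hz : z ∈ G.Z)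
    {W : V → ZMod 2} (hW : ∀ d, z d ≠ 0 → d.1 ∈ R.arc i j → W d.1 = W (G.ι d).1)
    (h1 : ∑ d ∈ R.cXp i, z d * W d.1 = 1) : R.Through i j (restr G (R.arc i j) z W) where
  sym := restr_sym hz hW
  supp := by
    intro d hd
    by_contra h
    apply hd
    unfold restr
    rw [if_neg h]
  even := restr_even hz W
  odd := by
    rw [← h1]
    refine Finset.sum_congr rfl fun d hd => ?_
    unfold restr
    rw [if_pos (Or.inr (R.Xp_arc hij hj hd))]

/-- step (f) -/
theorem Run.carries_of {i j : ℕ} (hij : i < j) (hj : j < R.N) {z : Vec V} (hz : z ∈ G.Z)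
    (hlam : dot R.lam z = 0) {A : Set (Dt V)} (hzA : ∀ d, z d ≠ 0 → d ∈ A)
    {W : V → ZMod 2} (hW : ∀ d ∈ A, d.1 ∈ R.arc i j → W d.1 = W (G.ι d).1)
    (h1 : ∑ d ∈ R.cXp i, z d * W d.1 = 1)
    (hbig : 24 * b < ((R.arc i j).filter (fun v => ∀ k, (v, k) ∈ A)).card) :
    R.Carries i j := by
  by_contra hcon
  set T := R.arc i j with hT
  set W' : V → ZMod 2 := fun v => 1 + W v with hW'
  have hWz : ∀ d, z d ≠ 0 → d.1 ∈ T → W d.1 = W (G.ι d).1 := fun d hd => hW d (hzA d hd)
  have hWz' : ∀ d, z d ≠ 0 → d.1 ∈ T → W' d.1 = W' (G.ι d).1 := by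
    intro d hd hd'
    simp only [hW', hWz d hd hd']
  have h2 : ∑ d ∈ R.cXp i, z d * W' d.1 = 1 := by
    simp only [hW', mul_add, mul_one, Finset.sum_add_distrib]
    rw [h1]
    have : ∑ d ∈ R.cXp i, z d = 0 := by
      rw [← hlam]
      exact R.repp i (hij.trans hj) z hz
    rw [this, zero_add]
  have ht1 := R.restr_through hij hj hz hWz h1
  have ht2 := R.restr_through hij hj hz hWz' h2
  set σ₁ := restr G T z W with hσ₁
  set σ₂ := restr G T z W' with hσ₂
  have hdisj : ∀ v, v ∈ cover σ₁ → v ∈ cover σ₂ → False := by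
    intro v hv1 hv2
    have e1 := restr_cover hv1
    have e2 := restr_cover hv2
    simp only [hW', e1] at e2
    exact absurd e2 (by decide)
  have hno : ∀ σ : Vec V, R.Through i j σ →
      ∀ y ∈ G.Z, (∀ d, y d ≠ 0 → d.1 ∈ T \ cover σ) → y = 0 := by
    intro σ hσ y hy hyT
    by_contra hy0
    have : ∃ g, y g ≠ 0 := by
      by_contra h
      push Not at h
      exact hy0 (funext h)
    obtain ⟨g, hg⟩ := this
    obtain ⟨P, hP, -, hPy⟩ := Cub.exists_circ hy hg
    apply hcon
    have hPT : ∀ v ∈ cover P, v ∈ T \ cover σ := by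
      intro v hv
      rw [mem_cover] at hv
      obtain ⟨k, hk⟩ := hv
      exact hyT (v, k) (fun h => hk (hPy _ h))
    refine ⟨hij, hj, P, σ, hP, ?_, hσ, ?_⟩
    · intro v hv
      exact (Finset.mem_sdiff.1 (hPT v hv)).1
    · rw [Finset.disjoint_left]
      intro v hv
      exact (Finset.mem_sdiff.1 (hPT v hv)).2
  have c1 := no_circ_card ht1.sym ht1.even (hno _ ht1)
  have c2 := no_circ_card ht2.sym ht2.even (hno _ ht2)
  have hL := R.card_leave hij hj
  rw [← hT] at hL c1 c2
  -- the three classes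
  set V1 := T ∩ cover σ₁ with hV1
  set V2 := T ∩ cover σ₂ with hV2
  set U0 := T \ (cover σ₁ ∪ cover σ₂) with hU0
  have e1 : (T \ cover σ₁).card = V2.card + U0.card := by
    rw [← Finset.card_union_of_disjoint]
    · congr 1
      ext v
      have := hdisj v
      simp only [hV2, hU0, Finset.mem_sdiff, Finset.mem_union, Finset.mem_inter]
      tauto
    · rw [Finset.disjoint_left]
      intro v hv hv'
      simp only [hV2, hU0, Finset.mem_sdiff, Finset.mem_union, Finset.mem_inter] at hv hv'
      tauto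
  have e2 : (T \ cover σ₂).card = V1.card + U0.card := by
    rw [← Finset.card_union_of_disjoint]
    · congr 1
      ext v
      have := hdisj v
      simp only [hV1, hU0, Finset.mem_sdiff, Finset.mem_union, Finset.mem_inter]
      tauto
    · rw [Finset.disjoint_left]
      intro v hv hv'
      simp only [hV1, hU0, Finset.mem_sdiff, Finset.mem_union, Finset.mem_inter] at hv hv'
      tauto
  have s1 : toR G T σ₁ ⊆ V1 := Finset.filter_subset _ _
  have s2 : toR G T σ₂ ⊆ V2 := Finset.filter_subset _ _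
  have f1 := Finset.card_sdiff_add_card_eq_card s1
  have f2 := Finset.card_sdiff_add_card_eq_card s2
  -- the branch vertices
  have hB : T.filter (fun v => ∀ k, (v, k) ∈ A) ⊆
      ((U0 ∪ ((univ.filter (fun d : Dt V => d.1 ∈ U0)).image (fun d => (G.ι d).1))) ∪
        (V1 \ toR G T σ₁)) ∪ (V2 \ toR G T σ₂) := by
    intro v hv
    rw [Finset.mem_filter] at hv
    obtain ⟨hvT, hvA⟩ := hv
    simp only [Finset.mem_union, Finset.mem_image, Finset.mem_filter, Finset.mem_univ, true_and]
    by_contra hn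
    push Not at hn
    obtain ⟨⟨⟨n1, n2⟩, n3⟩, n4⟩ := hn
    have nb : ∀ k, (G.ι (v, k)).1 ∉ U0 := by
      intro k hk
      exact n2 (G.ι (v, k)) hk (by rw [G.inv])
    by_cases hv1 : v ∈ cover σ₁
    · have m1 : v ∈ V1 := Finset.mem_inter.2 ⟨hvT, hv1⟩
      have m2 : v ∈ toR G T σ₁ := by
        by_contra h
        exact n3 (Finset.mem_sdiff.2 ⟨m1, h⟩)
      rw [toR, Finset.mem_filter] at m2
      obtain ⟨-, k, -, hk⟩ := m2
      rw [Finset.mem_sdiff] at hk
      have m3 : (G.ι (v, k)).1 ∈ cover σ₂ := by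
        by_contra h
        apply nb k
        rw [hU0, Finset.mem_sdiff, Finset.mem_union]
        tauto
      have w1 := restr_cover hv1
      have w2 := restr_cover m3
      have w3 := hW (v, k) (hvA k) hvT
      simp only at w3
      simp only [hW'] at w2
      rw [← w3, w1] at w2
      exact absurd w2 (by decide)
    · have hv2 : v ∈ cover σ₂ := by
        by_contra h
        apply n1
        rw [hU0, Finset.mem_sdiff, Finset.mem_union]
        tauto
      have m1 : v ∈ V2 := Finset.mem_inter.2 ⟨hvT, hv2⟩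
      have m2 : v ∈ toR G T σ₂ := by
        by_contra h
        exact n4 (Finset.mem_sdiff.2 ⟨m1, h⟩)
      rw [toR, Finset.mem_filter] at m2
      obtain ⟨-, k, -, hk⟩ := m2
      rw [Finset.mem_sdiff] at hk
      have m3 : (G.ι (v, k)).1 ∈ cover σ₁ := by
        by_contra h
        apply nb k
        rw [hU0, Finset.mem_sdiff, Finset.mem_union]
        tauto
      have w1 := restr_cover hv2
      have w2 := restr_cover m3
      have w3 := hW (v, k) (hvA k) hvT
      simp only at w3
      simp only [hW'] at w1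
      rw [w3, w2] at w1
      exact absurd w1 (by decide)
  have g1 := Finset.card_le_card hB
  have g2 := Finset.card_union_le ((U0 ∪ ((univ.filter (fun d : Dt V => d.1 ∈ U0)).image
    (fun d => (G.ι d).1))) ∪ (V1 \ toR G T σ₁)) (V2 \ toR G T σ₂)
  have g3 := Finset.card_union_le (U0 ∪ ((univ.filter (fun d : Dt V => d.1 ∈ U0)).image
    (fun d => (G.ι d).1))) (V1 \ toR G T σ₁)
  have g4 := Finset.card_union_le U0 ((univ.filter (fun d : Dt V => d.1 ∈ U0)).image
    (fun d => (G.ι d).1))
  have g5 : ((univ.filter (fun d : Dt V => d.1 ∈ U0)).image (fun d => (G.ι d).1)).card ≤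
      3 * U0.card := by
    refine Finset.card_image_le.trans (card_darts_le U0 ?_)
    intro d hd
    simpa using hd
  omega

end stepf

end Pool.Agent.LibMP58b56d
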