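import Mathlib
import Pool.Agent.LibMP58b56d.Basic

/-!
# Counting functionals on the cycle space that vanish on a subspace of bounded index
-/

set_option autoImplicit false

open Finset Classical

namespace Pool.Agent.LibMP58b56d

variable {V : Type} [Fintype V]

/-- `dot β` as a linear map -/
noncomputable def dotL (β : Vec V) : Vec V →ₗ[ZMod 2] ZMod 2 where
  toFun := dot β
  map_add' := dot_add β
  map_smul' := by
    intro c x
    simp [dot, Finset.mul_sum, mul_left_comm]

lemma dotL_apply (β x : Vec V) : dotL β x = dot β x := rfl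

lemma card_zs_eq (G : Cub V) (H : Set (Dt V)) : (G.zs H).card = Nat.card (G.ZH H) := by
  rw [Nat.card_eq_fintype_card, Fintype.card_subtype]
  rfl

/-- pairwise distinct functionals on `Z` vanishing on `K`: at most `|Z / K|` of them -/
theorem functional_count (Z K : Submodule (ZMod 2) (Vec V)) (hK : K ≤ Z) (r : ℕ)
    (hr : Nat.card Z ≤ 2 ^ r * Nat.card K) {I : Type} (s : Finset I) (β : I → Vec V)
    (h0 : ∀ i ∈ s, ∀ z ∈ K, dot (β i) z = 0)
    (hinj : ∀ i ∈ s, ∀ j ∈ s, (∀ z ∈ Z, dot (β i) z = dot (β j) z) → i = j) :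
    s.card ≤ 2 ^ r := by
  let K' := K.submoduleOf Z
  have hcard : Nat.card Z = Nat.card K' * Nat.card (Z ⧸ K') :=
    Submodule.card_eq_card_quotient_mul_card K'
  have hKK : Nat.card K' = Nat.card K := Nat.card_congr (Submodule.submoduleOfEquivOfLe hK).toEquiv
  have hKpos : 0 < Nat.card K := Nat.card_pos
  have hQ : Nat.card (Z ⧸ K') ≤ 2 ^ r := by
    rw [hcard, hKK, mul_comm] at hr
    exact Nat.le_of_mul_le_mul_right hr hKpos
  have hD : Nat.card (Module.Dual (ZMod 2) (Z ⧸ K')) = Nat.card (Z ⧸ K') := by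
    rw [Module.natCard_eq_pow_finrank (K := ZMod 2) (V := Module.Dual (ZMod 2) (Z ⧸ K')),
      Module.natCard_eq_pow_finrank (K := ZMod 2) (V := Z ⧸ K'), Subspace.dual_finrank_eq]
  let f : s → Module.Dual (ZMod 2) (Z ⧸ K') := fun i =>
    K'.liftQ ((dotL (β i.1)).comp Z.subtype) (by
      intro z hz
      rw [LinearMap.mem_ker]
      exact h0 i.1 i.2 _ hz)
  have hf : Function.Injective f := by
    intro i j hij
    apply Subtype.ext
    apply hinj _ i.2 _ j.2
    intro z hz
    have := LinearMap.congr_fun hij (K'.mkQ ⟨z, hz⟩)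
    simpa [f, dotL_apply] using this
  haveI : Finite (Module.Dual (ZMod 2) (Z ⧸ K')) := Module.finite_of_finite (ZMod 2)
  have h1 := Nat.card_le_card_of_injective f hf
  rw [hD] at h1
  have h2 : Nat.card s = s.card := by simp
  omega

/-- the same for the cycle space -/
theorem Cub.functional_count (G : Cub V) (K : Submodule (ZMod 2) (Vec V)) (hK : K ≤ G.Z) (r : ℕ)
    (hr : (G.zs Set.univ).card ≤ 2 ^ r * Nat.card K) {I : Type} (s : Finset I) (β : I → Vec V)
    (h0 : ∀ i ∈ s, ∀ z ∈ K, dot (β i) z = 0)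
    (hinj : ∀ i ∈ s, ∀ j ∈ s, (∀ z ∈ G.Z, dot (β i) z = dot (β j) z) → i = j) :
    s.card ≤ 2 ^ r := by
  refine Pool.Agent.LibMP58b56d.functional_count G.Z K hK r ?_ s β h0 hinj
  rw [card_zs_eq, G.ZH_univ] at hr
  exact hr

end Pool.Agent.LibMP58b56d
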