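import Mathlib
import Pool.Agent.LibMP58b56d.Interface
import Pool.Agent.LibMP58b56d.Through

/-!
# Basic facts about runs, arcs and through-sets
-/

set_option autoImplicit false

open Finset Classical

namespace Pool.Agent.LibMP58b56d

variable {V : Type} [Fintype V] {G : Cub V} {b S : ℕ}

/-- restriction of a vector to the edges with an end in `T` -/
noncomputable def Cub.res (G : Cub V) (T : Finset V) (x : Vec V) : Vec V :=
  fun d => if d.1 ∈ T ∨ (G.ι d).1 ∈ T then x d else 0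

lemma Cub.IsCirc.inner {D : Vec V} (hD : G.IsCirc D) {d : Dt V} (h : D d ≠ 0) :
    (G.ι d).1 ∈ cover D :=
  mem_cover_of_ne (by rw [hD.1.1 d]; exact h)

lemma Cub.IsCirc.cover_nonempty {D : Vec V} (hD : G.IsCirc D) : (cover D).Nonempty := by
  by_contra h
  rw [Finset.not_nonempty_iff_eq_empty] at h
  apply hD.2.1
  funext d
  by_contra h1
  have := mem_cover_of_ne h1
  rw [h] at this
  simp at this

lemma one_zero_aux : ∀ a : Fin 3 → ZMod 2, ∑ i, a i = 0 → (∃ i, a i ≠ 0) →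
    ∀ j k, a j = 0 → a k = 0 → j = k := by
  decide

/-- at most one dart with `x = 0` at each covered even vertex -/
lemma zero_darts_card {x : Vec V} {U : Finset V} (hU : ∀ v ∈ U, v ∈ cover x ∧ ∑ k, x (v, k) = 0) :
    (univ.filter (fun d : Dt V => d.1 ∈ U ∧ x d = 0)).card ≤ U.card := by
  refine Finset.card_le_card_of_injOn (fun d => d.1) ?_ ?_
  · intro d hd
    simp only [Finset.coe_filter, Finset.mem_univ, true_and, Set.mem_ofPred_eq] at hd
    exact hd.1
  · rintro ⟨v, i⟩ hd ⟨w, j⟩ he hde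
    simp only [Finset.coe_filter, Finset.mem_univ, true_and, Set.mem_ofPred_eq] at hd he hde
    subst hde
    have h1 := hU v hd.1
    have h2 := one_zero_aux (fun k => x (v, k)) h1.2 (mem_cover.1 h1.1) i j hd.2 he.2
    rw [h2]

/-- the leaving darts of a vertex set on which `x` is even -/
lemma cut_even {x : Vec V} (hx1 : ∀ d, x (G.ι d) = x d) (U : Finset V)
    (hx2 : ∀ v ∈ U, ∑ k, x (v, k) = 0) :
    ∑ d ∈ univ.filter (fun d : Dt V => d.1 ∈ U ∧ (G.ι d).1 ∉ U), x d = 0 := by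
  have h1 : dot (fun d => if d.1 ∈ U ∧ (G.ι d).1 ∉ U then 1 else 0) x = 0 := by
    refine (Cub.dualT (G := G) (H := Set.univ) (fun d _ => trivial) (U : Set V) _).2
      ⟨fun v => if v ∈ U then 1 else 0, fun v hv => if_neg (by simpa using hv), ?_⟩ x
      ⟨hx1, fun d hd => absurd trivial hd, fun v hv => hx2 v (by simpa using hv)⟩
    intro d _
    simp only [G.inv]
    by_cases h1 : d.1 ∈ U <;> by_cases h2 : (G.ι d).1 ∈ U <;> simp [h1, h2, zmod2_add_self]
  rw [Finset.sum_filter]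
  simpa [dot] using h1

namespace Run

variable (R : Run G b S)

/-- darts leading out of `M i ∪ C i`, starting in `C i` -/
noncomputable def Xp (i : ℕ) : Finset (Dt V) :=
  univ.filter (fun d : Dt V => d.1 ∈ cover (R.D i) ∧ (G.ι d).1 ∉ R.M i ∪ cover (R.D i))

/-- darts leading into `M i`, starting in `C i` -/
noncomputable def Xm (i : ℕ) : Finset (Dt V) :=
  univ.filter (fun d : Dt V => d.1 ∈ cover (R.D i) ∧ (G.ι d).1 ∈ R.M i)

variable {R}

lemma mem_Xp {i : ℕ} {d : Dt V} : d ∈ R.Xp i ↔ d.1 ∈ cover (R.D i) ∧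
    (G.ι d).1 ∉ R.M i ∪ cover (R.D i) := by
  simp [Xp]

lemma mem_Xm {i : ℕ} {d : Dt V} : d ∈ R.Xm i ↔ d.1 ∈ cover (R.D i) ∧ (G.ι d).1 ∈ R.M i := by
  simp [Xm]

lemma mem_arc {i j : ℕ} {v : V} :
    v ∈ R.arc i j ↔ v ∈ R.M j ∧ v ∉ R.M i ∧ v ∉ cover (R.D i) := by
  simp [arc]

lemma nested {i j : ℕ} (hij : i < j) (hj : j < R.N) : R.M i ∪ cover (R.D i) ⊆ R.M j := by
  induction j, hij using Nat.le_induction with
  | base => exact R.nest i hj
  | succ k hk ih =>
    exact (ih (by omega)).trans (subset_union_left.trans (R.nest k hj))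

lemma M_mono {i j : ℕ} (hij : i ≤ j) (hj : j < R.N) : R.M i ⊆ R.M j := by
  rcases hij.eq_or_lt with h | h
  · rw [h]
  · exact subset_union_left.trans (nested h hj)

lemma C_sub {i j : ℕ} (hij : i < j) (hj : j < R.N) : cover (R.D i) ⊆ R.M j :=
  subset_union_right.trans (nested hij hj)

lemma C_not_M {i : ℕ} (hi : i < R.N) {v : V} (hv : v ∈ cover (R.D i)) : v ∉ R.M i :=
  fun h => Finset.disjoint_left.1 (R.disj i hi) h hv

lemma C_disj {i j : ℕ} (hij : i < j) (hj : j < R.N) {v : V} (hv : v ∈ cover (R.D i)) :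
    v ∉ cover (R.D j) :=
  fun h => C_not_M hj h (C_sub hij hj hv)

lemma arc_not_left {i j : ℕ} {v : V} (hv : v ∈ R.arc i j) : v ∉ cover (R.D i) :=
  (mem_arc.1 hv).2.2

lemma arc_not_right {i j : ℕ} (hj : j < R.N) {v : V} (hv : v ∈ R.arc i j) : v ∉ cover (R.D j) :=
  fun h => C_not_M hj h (mem_arc.1 hv).1

lemma mem_Xp' {i j : ℕ} (hij : i < j) (hj : j < R.N) {d : Dt V} :
    d ∈ R.Xp i ↔ d.1 ∈ cover (R.D i) ∧ (G.ι d).1 ∈ R.arc i j := by
  rw [mem_Xp, mem_arc]
  constructor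
  · rintro ⟨h1, h2⟩
    rw [Finset.mem_union, not_or] at h2
    exact ⟨h1, R.plus_in i j hij hj d h1, h2⟩
  · rintro ⟨h1, _, h2⟩
    refine ⟨h1, ?_⟩
    rw [Finset.mem_union, not_or]
    exact h2

lemma mem_Xm' {i j : ℕ} (hij : i < j) (hj : j < R.N) {d : Dt V} :
    d ∈ R.Xm j ↔ d.1 ∈ cover (R.D j) ∧ (G.ι d).1 ∈ R.arc i j := by
  rw [mem_Xm, mem_arc]
  constructor
  · rintro ⟨h1, h2⟩
    have h3 := R.minus_in i j hij hj d h1 h2
    rw [Finset.mem_union, not_or] at h3
    exact ⟨h1, h2, h3⟩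
  · rintro ⟨h1, h2, _⟩
    exact ⟨h1, h2⟩

lemma arc_cases {i j : ℕ} (hij : i < j) (hj : j < R.N) {d : Dt V} (hd : d.1 ∈ R.arc i j) :
    (G.ι d).1 ∈ R.arc i j ∨ (G.ι d).1 ∈ cover (R.D i) ∨ (G.ι d).1 ∈ cover (R.D j) := by
  by_cases h : (G.ι d).1 ∈ R.arc i j
  · exact Or.inl h
  · exact Or.inr (R.bdry i j hij hj d hd h)

lemma arc_mono {i i' j' j : ℕ} (hi : i ≤ i') (hij : i' < j') (hj' : j' ≤ j) (hj : j < R.N) :
    R.arc i' j' ⊆ R.arc i j := by
  intro v hv
  rw [mem_arc] at hv ⊢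
  refine ⟨M_mono hj' hj hv.1, ?_⟩
  rcases hi.eq_or_lt with h | h
  · rw [h]; exact hv.2
  · have h1 := nested h (by omega : i' < R.N)
    have h2 : v ∉ R.M i ∪ cover (R.D i) := fun h3 => hv.2.1 (h1 h3)
    rw [Finset.mem_union, not_or] at h2
    exact h2

lemma C_sub_arc {i k j : ℕ} (hi : i < k) (hk : k < j) (hj : j < R.N) :
    cover (R.D k) ⊆ R.arc i j := by
  intro v hv
  rw [mem_arc]
  refine ⟨C_sub hk hj hv, ?_⟩
  have h1 := nested hi (by omega : k < R.N)
  have h2 : v ∉ R.M i ∪ cover (R.D i) := fun h3 => C_not_M (by omega) hv (h1 h3)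
  rw [Finset.mem_union, not_or] at h2
  exact h2

lemma Xp_card {i : ℕ} (hi : i < R.N) : (R.Xp i).card ≤ b := by
  refine le_trans ?_ ((zero_darts_card (x := R.D i) (U := cover (R.D i))
    (fun v hv => ⟨hv, (R.circ i hi).1.2 v⟩)).trans (R.small i hi))
  apply Finset.card_le_card
  intro d hd
  rw [mem_Xp, Finset.mem_union, not_or] at hd
  simp only [Finset.mem_filter, Finset.mem_univ, true_and]
  refine ⟨hd.1, ?_⟩
  by_contra h
  exact hd.2.2 ((R.circ i hi).inner h)

lemma Xm_card {i : ℕ} (hi : i < R.N) : (R.Xm i).card ≤ b := by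
  refine le_trans ?_ ((zero_darts_card (x := R.D i) (U := cover (R.D i))
    (fun v hv => ⟨hv, (R.circ i hi).1.2 v⟩)).trans (R.small i hi))
  apply Finset.card_le_card
  intro d hd
  rw [mem_Xm] at hd
  simp only [Finset.mem_filter, Finset.mem_univ, true_and]
  refine ⟨hd.1, ?_⟩
  by_contra h
  exact C_not_M hi ((R.circ i hi).inner h) hd.2

/-- the basic relation on an arc: a vertex function `W` on the arc whose boundary is given by
`β` inside and by constants at the two ends -/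
theorem arc_rel {i j : ℕ} (hij : i < j) (hj : j < R.N) (β : Vec V)
    (hβ : ∀ d, β d ≠ 0 → d.1 ∈ R.arc i j) (W : V → ZMod 2) (u u' : ZMod 2)
    (h1 : ∀ d : Dt V, d.1 ∈ R.arc i j → (G.ι d).1 ∈ R.arc i j →
      W d.1 + W (G.ι d).1 = β d + β (G.ι d))
    (h2 : ∀ d : Dt V, d.1 ∈ R.arc i j → (G.ι d).1 ∈ cover (R.D i) → W d.1 = u + β d)
    (h3 : ∀ d : Dt V, d.1 ∈ R.arc i j → (G.ι d).1 ∈ cover (R.D j) → W d.1 = u' + β d)
    {x : Vec V} (hx1 : ∀ d, x (G.ι d) = x d) (hx2 : ∀ v ∈ R.arc i j, ∑ k, x (v, k) = 0) :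
    dot β x + u * ∑ d ∈ R.Xp i, x d + u' * ∑ d ∈ R.Xm j, x d = 0 := by
  let B : Vec V := fun d => β d + (if d ∈ R.Xp i then u else 0) + (if d ∈ R.Xm j then u' else 0)
  have hB : dot B x = dot β x + u * ∑ d ∈ R.Xp i, x d + u' * ∑ d ∈ R.Xm j, x d := by
    simp only [dot, B, add_mul, ite_mul, zero_mul, Finset.sum_add_distrib, Finset.mul_sum]
    simp only [← Finset.sum_filter]
    simp
  rw [← hB]
  have hβ0 : ∀ d : Dt V, d.1 ∉ R.arc i j → β d = 0 := fun d hd => by
    by_contra h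
    exact hd (hβ d h)
  -- the asymmetric case
  have key : ∀ d : Dt V, d.1 ∈ R.arc i j → (G.ι d).1 ∉ R.arc i j → B d + B (G.ι d) = W d.1 := by
    intro d hd hd'
    have n1 : d ∉ R.Xp i := fun h => arc_not_left hd (mem_Xp.1 h).1
    have n2 : d ∉ R.Xm j := fun h => arc_not_right hj hd (mem_Xm.1 h).1
    have n3 := hβ0 _ hd'
    rcases R.bdry i j hij hj d hd hd' with h | h
    · have m1 : G.ι d ∈ R.Xp i := (mem_Xp' hij hj).2 ⟨h, by rw [G.inv]; exact hd⟩
      have m2 : G.ι d ∉ R.Xm j := fun h' => C_disj hij hj h (mem_Xm.1 h').1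
      simp only [B, n1, n2, n3, m1, m2, if_true, if_false, add_zero, zero_add]
      rw [h2 d hd h, add_comm]
    · have m1 : G.ι d ∉ R.Xp i := fun h' => C_disj hij hj (mem_Xp.1 h').1 h
      have m2 : G.ι d ∈ R.Xm j := (mem_Xm' hij hj).2 ⟨h, by rw [G.inv]; exact hd⟩
      simp only [B, n1, n2, n3, m1, m2, if_true, if_false, add_zero, zero_add]
      rw [h3 d hd h, add_comm]
  refine (Cub.dualT (G := G) (H := Set.univ) (fun d _ => trivial) (R.arc i j : Set V) _).2
      ⟨fun v => if v ∈ R.arc i j then W v else 0, fun v hv => if_neg (by simpa using hv), ?_⟩ x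
      ⟨hx1, fun d hd => absurd trivial hd, fun v hv => hx2 v (by simpa using hv)⟩
  intro d _
  by_cases c1 : d.1 ∈ R.arc i j <;> by_cases c2 : (G.ι d).1 ∈ R.arc i j
  · have n1 : d ∉ R.Xp i := fun h => arc_not_left c1 (mem_Xp.1 h).1
    have n2 : d ∉ R.Xm j := fun h => arc_not_right hj c1 (mem_Xm.1 h).1
    have n3 : G.ι d ∉ R.Xp i := fun h => arc_not_left c2 (mem_Xp.1 h).1
    have n4 : G.ι d ∉ R.Xm j := fun h => arc_not_right hj c2 (mem_Xm.1 h).1
    simp only [B, n1, n2, n3, n4, c1, c2, if_true, if_false, add_zero]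
    exact (h1 d c1 c2).symm
  · simp only [c1, c2, if_true, if_false, add_zero]
    exact key d c1 c2
  · simp only [c1, c2, if_true, if_false, zero_add]
    rw [add_comm]
    have := key (G.ι d) c2 (by rw [G.inv]; exact c1)
    rwa [G.inv] at this
  · have n1 : d ∉ R.Xp i := fun h => c2 ((mem_Xp' hij hj).1 h).2
    have n2 : d ∉ R.Xm j := fun h => c2 ((mem_Xm' hij hj).1 h).2
    have n3 : G.ι d ∉ R.Xp i := fun h => c1 (by
      have := ((mem_Xp' hij hj).1 h).2
      rwa [G.inv] at this)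
    have n4 : G.ι d ∉ R.Xm j := fun h => c1 (by
      have := ((mem_Xm' hij hj).1 h).2
      rwa [G.inv] at this)
    simp only [B, n1, n2, n3, n4, c1, c2, if_false, add_zero, hβ0 _ c1, hβ0 _ c2]

lemma Xp_eq_Xm {i : ℕ} (hi : i < R.N) {x : Vec V} (hx1 : ∀ d, x (G.ι d) = x d)
    (hx2 : ∀ v ∈ cover (R.D i), ∑ k, x (v, k) = 0) :
    ∑ d ∈ R.Xp i, x d = ∑ d ∈ R.Xm i, x d := by
  have h1 := cut_even hx1 (cover (R.D i)) hx2
  have h2 : univ.filter (fun d : Dt V => d.1 ∈ cover (R.D i) ∧ (G.ι d).1 ∉ cover (R.D i)) =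
      R.Xp i ∪ R.Xm i := by
    ext d
    simp only [Finset.mem_filter, Finset.mem_univ, true_and, Finset.mem_union, mem_Xp, mem_Xm]
    constructor
    · rintro ⟨h3, h4⟩
      by_cases h5 : (G.ι d).1 ∈ R.M i
      · exact Or.inr ⟨h3, h5⟩
      · exact Or.inl ⟨h3, by tauto⟩
    · rintro (⟨h3, h4⟩ | ⟨h3, h4⟩)
      · exact ⟨h3, by tauto⟩
      · exact ⟨h3, fun h5 => C_not_M hi h5 h4⟩
  have h3 : Disjoint (R.Xp i) (R.Xm i) := by
    rw [Finset.disjoint_left]
    intro d hd hd'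
    rw [mem_Xp, Finset.mem_union, not_or] at hd
    exact hd.2.1 (mem_Xm.1 hd').2
  rw [h2, Finset.sum_union h3] at h1
  exact zmod2_eq_of_add h1

lemma Xm_of_Xp {i j : ℕ} (hij : i < j) (hj : j < R.N) {x : Vec V} (hx1 : ∀ d, x (G.ι d) = x d)
    (hx2 : ∀ v ∈ R.arc i j, ∑ k, x (v, k) = 0) :
    ∑ d ∈ R.Xm j, x d = ∑ d ∈ R.Xp i, x d := by
  have h := arc_rel hij hj (0 : Vec V) (fun d hd => absurd rfl hd) (fun _ => 1) 1 1
    (fun d _ _ => by simp [zmod2_add_self]) (fun d _ _ => by simp) (fun d _ _ => by simp) hx1 hx2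
  rw [zero_dot, zero_add, one_mul, one_mul] at h
  exact (zmod2_eq_of_add h).symm

/-- transport of the crossing parity along an arc -/
lemma Xp_transport {i k j : ℕ} (hik : i ≤ k) (hkj : k < j) (hj : j < R.N) {x : Vec V}
    (hx1 : ∀ d, x (G.ι d) = x d) (hx2 : ∀ v ∈ R.arc i j, ∑ k, x (v, k) = 0) :
    ∑ d ∈ R.Xp k, x d = ∑ d ∈ R.Xp i, x d := by
  rcases hik.eq_or_lt with h | h
  · rw [h]
  · rw [Xp_eq_Xm (by omega) hx1 (fun v hv => hx2 v (C_sub_arc h hkj hj hv)),
      Xm_of_Xp h (by omega) hx1 (fun v hv => hx2 v (arc_mono le_rfl h hkj.le hj hv))]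

lemma Through.Xp_one {i j : ℕ} {σ : Vec V} (h : R.Through i j σ) : ∑ d ∈ R.Xp i, σ d = 1 := h.odd

lemma Through.Xm_one {i j : ℕ} (hij : i < j) (hj : j < R.N) {σ : Vec V} (h : R.Through i j σ) :
    ∑ d ∈ R.Xm j, σ d = 1 := by
  rw [Xm_of_Xp hij hj h.sym h.even]
  exact h.odd

lemma res_eq {T : Finset V} {x : Vec V} {v : V} (hv : v ∈ T) (k : Fin 3) :
    G.res T x (v, k) = x (v, k) := by
  simp [Cub.res, hv]

lemma res_ne {T : Finset V} {x : Vec V} {d : Dt V} (h : G.res T x d ≠ 0) :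
    x d ≠ 0 ∧ (d.1 ∈ T ∨ (G.ι d).1 ∈ T) := by
  unfold Cub.res at h
  by_cases h1 : d.1 ∈ T ∨ (G.ι d).1 ∈ T
  · rw [if_pos h1] at h
    exact ⟨h, h1⟩
  · rw [if_neg h1] at h
    exact absurd rfl h

lemma res_sym {T : Finset V} {x : Vec V} (hx : ∀ d, x (G.ι d) = x d) (d : Dt V) :
    G.res T x (G.ι d) = G.res T x d := by
  unfold Cub.res
  rw [G.inv, hx d]
  simp only [or_comm]

lemma res_Xp {i j : ℕ} (hij : i < j) (hj : j < R.N) (x : Vec V) :
    ∑ d ∈ R.Xp i, G.res (R.arc i j) x d = ∑ d ∈ R.Xp i, x d := by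
  refine Finset.sum_congr rfl fun d hd => ?_
  have := ((mem_Xp' hij hj).1 hd).2
  simp [Cub.res, this]

/-- restriction of a through-set to a smaller arc -/
lemma Through.res {i i' j' j : ℕ} (hi : i ≤ i') (hij : i' < j') (hj' : j' ≤ j) (hj : j < R.N)
    {σ : Vec V} (h : R.Through i j σ) : R.Through i' j' (G.res (R.arc i' j') σ) where
  sym := res_sym h.sym
  supp := fun d hd => (res_ne hd).2
  even := fun v hv => by
    simp only [res_eq hv]
    exact h.even v (arc_mono hi hij hj' hj hv)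
  odd := by
    have h1 := res_Xp (R := R) hij (by omega) σ
    unfold Xp at h1
    rw [h1]
    have h2 := Xp_transport (R := R) hi (by omega : i' < j) hj h.sym h.even
    unfold Xp at h2
    rw [h2]
    exact h.odd

lemma arc_card_ge {i j : ℕ} (hij : i < j) (hj : j < R.N) : j ≤ (R.arc i j).card + i + 1 := by
  induction j, hij using Nat.le_induction with
  | base => omega
  | succ k hk ih =>
    have h1 := ih (by omega)
    have h2 : R.arc i k ∪ cover (R.D k) ⊆ R.arc i (k + 1) :=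
      union_subset (arc_mono le_rfl hk (by omega) hj) (C_sub_arc hk (by omega) hj)
    have h3 : Disjoint (R.arc i k) (cover (R.D k)) := by
      rw [Finset.disjoint_left]
      intro v hv
      exact arc_not_right (by omega) hv
    have h4 := Finset.card_le_card h2
    rw [Finset.card_union_of_disjoint h3] at h4
    have h5 := Finset.card_pos.2 (R.circ k (by omega)).cover_nonempty
    omega

lemma arc_card_le {i j : ℕ} (hij : i < j) (hj : j < R.N) : (R.arc i j).card ≤ (j - i) * S := by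
  have h0 : (R.M j \ R.M i).card ≤ (j - i) * S := by
    induction j, hij using Nat.le_induction with
    | base =>
      have := R.piece i hj
      simpa using this
    | succ k hk ih =>
      have h1 := ih (by omega)
      have h2 : R.M (k + 1) \ R.M i ⊆ (R.M (k + 1) \ R.M k) ∪ (R.M k \ R.M i) := by
        intro v hv
        simp only [Finset.mem_union, Finset.mem_sdiff] at hv ⊢
        tauto
      have h3 := (Finset.card_le_card h2).trans (Finset.card_union_le _ _)
      have h4 := R.piece k hj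
      have h5 : k + 1 - i = (k - i) + 1 := by omega
      rw [h5, add_mul, one_mul]
      omega
  refine (Finset.card_le_card ?_).trans h0
  intro v hv
  rw [mem_arc] at hv
  rw [Finset.mem_sdiff]
  exact ⟨hv.1, hv.2.1⟩

/-- if the complement of a through-set in an arc contains no circuit, the through-set is large -/
lemma free_bound {i j : ℕ} (hij : i < j) (hj : j < R.N) {σ : Vec V} (h : R.Through i j σ)
    (hfree : ∀ z ∈ G.Z, (∀ d, z d ≠ 0 → d.1 ∈ R.arc i j \ cover σ) → z = 0) :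
    (R.arc i j).card ≤ 2 * (R.arc i j ∩ cover σ).card + 2 * b := by
  have hsplit : (R.arc i j).card = (R.arc i j \ cover σ).card + (R.arc i j ∩ cover σ).card := by
    rw [Finset.card_sdiff_add_card_inter]
  rcases Finset.eq_empty_or_nonempty (R.arc i j \ cover σ) with hU | hU
  · rw [hU, Finset.card_empty] at hsplit
    omega
  have h1 := G.internal_le hU hfree
  set U := R.arc i j \ cover σ with hUdef
  have h2 : (univ.filter (fun d : Dt V => d.1 ∈ U)).card = 3 * U.card := by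
    have : univ.filter (fun d : Dt V => d.1 ∈ U) = U ×ˢ (univ : Finset (Fin 3)) := by
      ext ⟨v, k⟩
      simp
    rw [this, Finset.card_product]
    simp [mul_comm]
  have h3 : (univ.filter (fun d : Dt V => d.1 ∈ U)).card =
      (univ.filter (fun d : Dt V => d.1 ∈ U ∧ (G.ι d).1 ∈ U)).card +
      (univ.filter (fun d : Dt V => d.1 ∈ U ∧ (G.ι d).1 ∉ U)).card := by
    rw [← Finset.card_filter_add_card_filter_not (s := univ.filter (fun d : Dt V => d.1 ∈ U))
      (fun d => (G.ι d).1 ∈ U), Finset.filter_filter, Finset.filter_filter]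
  have h4 : (univ.filter (fun d : Dt V => d.1 ∈ U ∧ (G.ι d).1 ∉ U)).card ≤
      (R.arc i j ∩ cover σ).card + b + b := by
    have h5 : (univ.filter (fun d : Dt V => d.1 ∈ U ∧ (G.ι d).1 ∉ U)).card ≤
        ((univ.filter (fun d : Dt V => d.1 ∈ R.arc i j ∩ cover σ ∧ σ d = 0)) ∪ R.Xp i ∪
          R.Xm j).card := by
      refine Finset.card_le_card_of_injOn (fun d => G.ι d) ?_ ?_
      · intro d hd
        simp only [Finset.coe_filter, Finset.mem_univ, true_and, Set.mem_ofPred_eq] at hd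
        rw [hUdef, Finset.mem_sdiff] at hd
        obtain ⟨⟨h6, h7⟩, h8⟩ := hd
        rw [Finset.mem_coe, Finset.mem_union, Finset.mem_union]
        rcases arc_cases hij hj h6 with h9 | h9 | h9
        · left; left
          simp only [Finset.mem_filter, Finset.mem_univ, true_and, Finset.mem_inter]
          refine ⟨⟨h9, ?_⟩, ?_⟩
          · by_contra h10
            exact h8 (Finset.mem_sdiff.2 ⟨h9, h10⟩)
          · rw [h.sym d]
            by_contra h10
            exact h7 (mem_cover_of_ne h10)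
        · left; right
          exact (mem_Xp' hij hj).2 ⟨h9, by rw [G.inv]; exact h6⟩
        · right
          exact (mem_Xm' hij hj).2 ⟨h9, by rw [G.inv]; exact h6⟩
      · intro d _ e _ hde
        have := congrArg G.ι hde
        simpa [G.inv] using this
    refine h5.trans ((Finset.card_union_le _ _).trans ?_)
    have h6 := Finset.card_union_le
      (univ.filter (fun d : Dt V => d.1 ∈ R.arc i j ∩ cover σ ∧ σ d = 0)) (R.Xp i)
    have h7 : (univ.filter (fun d : Dt V => d.1 ∈ R.arc i j ∩ cover σ ∧ σ d = 0)).card ≤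
        (R.arc i j ∩ cover σ).card := by
      refine zero_darts_card fun v hv => ?_
      rw [Finset.mem_inter] at hv
      exact ⟨hv.2, h.even v hv.1⟩
    have h8 := Xp_card (R := R) (by omega : i < R.N)
    have h9 := Xm_card (R := R) hj
    omega
  omega

end Run

end Pool.Agent.LibMP58b56d
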