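import Mathlib
import Pool.Agent.LibMP58b56d.Interface
import Pool.Agent.LibMP58b56d.Through
import Pool.Agent.LibMP58b56d.RunBasics
import Pool.Agent.LibMP58b56d.FunctionalCount

/-!
# Carrying arcs give obstructed circuits of bounded size with distinct functionals
-/

set_option autoImplicit false

open Finset Classical

namespace Pool.Agent.LibMP58b56d

variable {V : Type} [Fintype V] {G : Cub V} {b S : ℕ}

namespace Run

variable {R : Run G b S}

/-- a circuit of an arc passing on both sides of an inner arc contains a through-set of the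
inner arc -/
lemma split_exists {i i' j' j : ℕ} (hi : i < i') (hij : i' < j') (hj' : j' < j) (hj : j < R.N)
    {P : Vec V} (hP : G.IsCirc P) (hPa : cover P ⊆ R.arc i j)
    (hl : ∃ v ∈ cover P, v ∈ R.M i' ∪ cover (R.D i')) (hr : ∃ v ∈ cover P, v ∉ R.M j') :
    ∃ δ, R.Through i' j' δ ∧ ∀ d, P d = 0 → δ d = 0 := by
  by_contra hcon
  push Not at hcon
  let H : Set (Dt V) := {d | P d ≠ 0 ∧ (d.1 ∈ R.arc i' j' ∨ (G.ι d).1 ∈ R.arc i' j')}
  have hH : G.Inv H := by
    intro d hd
    refine ⟨?_, ?_⟩
    · rw [hP.1.1 d]; exact hd.1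
    · rw [G.inv]; exact hd.2.symm
  have hj'N : j' < R.N := by omega
  obtain ⟨U, hU0, hU⟩ := (Cub.dualT (G := G) hH (R.arc i' j' : Set V)
    (fun d => if d ∈ R.Xp i' then 1 else 0)).1 (by
      intro x hx
      by_contra hne
      have h1 := zmod2_ne_zero hne
      obtain ⟨d, hd, hd'⟩ := hcon x
        { sym := hx.1
          supp := fun d hd => by
            by_contra h2
            exact hd (hx.2.1 d (fun h3 => h2 h3.2))
          even := fun v hv => hx.2.2 v (by simpa using hv)
          odd := by
            rw [dot] at h1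
            simp only [ite_mul, one_mul, zero_mul] at h1
            rw [← Finset.sum_filter] at h1
            simpa [Xp] using h1 }
      exact hd' (hx.2.1 d (fun h3 => h3.1 hd)))
  let L : Finset V := R.M i' ∪ cover (R.D i')
  let U' : V → ZMod 2 := fun v => if v ∈ R.arc i' j' then U v else if v ∈ L then 1 else 0
  have hLarc : ∀ v ∈ R.arc i' j', v ∉ L := by
    intro v hv h
    rw [mem_arc] at hv
    rw [Finset.mem_union] at h
    tauto
  -- the boundary case
  have key : ∀ d : Dt V, P d ≠ 0 → d.1 ∈ R.arc i' j' → (G.ι d).1 ∉ R.arc i' j' →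
      U' d.1 = U' (G.ι d).1 := by
    intro d hd h1 h2
    have h3 := hU d ⟨hd, Or.inl h1⟩
    have n1 : d ∉ R.Xp i' := fun h => arc_not_left h1 (mem_Xp.1 h).1
    rw [if_neg n1, zero_add, hU0 (G.ι d).1 (by simpa using h2), add_zero] at h3
    rcases R.bdry i' j' hij hj'N d h1 h2 with h4 | h4
    · have m1 : G.ι d ∈ R.Xp i' := (mem_Xp' hij hj'N).2 ⟨h4, by rw [G.inv]; exact h1⟩
      rw [if_pos m1] at h3
      simp only [U', h1, h2, if_true, if_false]
      rw [if_pos (Finset.mem_union_right _ h4), h3]
    · have m1 : G.ι d ∉ R.Xp i' := fun h' => C_disj hij hj'N (mem_Xp.1 h').1 h4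
      rw [if_neg m1] at h3
      have m2 : (G.ι d).1 ∉ L := by
        intro h5
        exact C_not_M hj'N h4 (nested hij hj'N h5)
      simp only [U', h1, h2, m2, if_true, if_false]
      exact h3.symm
  have hconst : ∀ d, P d ≠ 0 → U' d.1 = U' (G.ι d).1 := by
    intro d hd
    by_cases h1 : d.1 ∈ R.arc i' j' <;> by_cases h2 : (G.ι d).1 ∈ R.arc i' j'
    · have h3 := hU d ⟨hd, Or.inl h1⟩
      have n1 : d ∉ R.Xp i' := fun h => arc_not_left h1 (mem_Xp.1 h).1
      have n2 : G.ι d ∉ R.Xp i' := fun h => arc_not_left h2 (mem_Xp.1 h).1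
      rw [if_neg n1, if_neg n2, add_zero] at h3
      simp only [U', h1, h2, if_true]
      exact zmod2_eq_of_add h3.symm
    · exact key d hd h1 h2
    · have := key (G.ι d) (by rw [hP.1.1 d]; exact hd) h2 (by rw [G.inv]; exact h1)
      rw [G.inv] at this
      exact this.symm
    · -- neither end in the inner arc: both in `L` or both outside
      have aux : ∀ e : Dt V, P e ≠ 0 → e.1 ∉ R.arc i' j' → (G.ι e).1 ∉ R.arc i' j' →
          e.1 ∈ L → (G.ι e).1 ∈ L := by
        intro e he h3 h4 h5
        have h6 : e.1 ∈ R.arc i j := hPa (mem_cover_of_ne he)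
        have h7 : (G.ι e).1 ∈ R.arc i j := hPa (hP.inner he)
        by_cases h8 : e.1 ∈ cover (R.D i')
        · have h9 := R.plus_in i' j' hij hj'N e h8
          by_contra h10
          apply h4
          rw [mem_arc]
          rw [Finset.mem_union, not_or] at h10
          exact ⟨h9, h10⟩
        · have h9 : e.1 ∈ R.arc i i' := by
            rw [mem_arc] at h6 ⊢
            rw [Finset.mem_union] at h5
            exact ⟨by tauto, h6.2⟩
          rcases arc_cases hi (by omega) h9 with h10 | h10 | h10
          · exact Finset.mem_union_left _ (mem_arc.1 h10).1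
          · exact absurd h10 (arc_not_left h7)
          · exact Finset.mem_union_right _ h10
      simp only [U', h1, h2, if_false]
      by_cases h3 : d.1 ∈ L
      · rw [if_pos h3, if_pos (aux d hd h1 h2 h3)]
      · have h4 : (G.ι d).1 ∉ L := by
          intro h5
          apply h3
          have := aux (G.ι d) (by rw [hP.1.1 d]; exact hd) h2 (by rw [G.inv]; exact h1) h5
          rwa [G.inv] at this
        rw [if_neg h3, if_neg h4]
  obtain ⟨v, hv, hvL⟩ := hl
  obtain ⟨w, hw, hwM⟩ := hr
  have h1 := hP.side hconst hv hw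
  have h2 : U' v = 1 := by
    simp only [U']
    rw [if_neg (fun h => hLarc v h hvL), if_pos hvL]
  have h3 : U' w = 0 := by
    simp only [U']
    rw [if_neg (fun h => hwM (mem_arc.1 h).1), if_neg (fun h => hwM (nested hij hj'N h))]
  rw [h2, h3] at h1
  exact one_ne_zero h1

lemma cover_res_sub {T : Finset V} {x : Vec V} : cover (G.res T x) ⊆ cover x := by
  intro v hv
  obtain ⟨k, hk⟩ := mem_cover.1 hv
  exact mem_cover.2 ⟨k, (res_ne hk).1⟩

lemma cover_sub_of {x y : Vec V} (h : ∀ d, x d = 0 → y d = 0) : cover y ⊆ cover x := by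
  intro v hv
  obtain ⟨k, hk⟩ := mem_cover.1 hv
  exact mem_cover.2 ⟨k, fun h1 => hk (h _ h1)⟩

/-- a carrying arc contains a carrying arc of bounded span -/
theorem carries_short : ∀ (n i j : ℕ), j ≤ i + n → R.Carries i j →
    ∃ i' j', i ≤ i' ∧ j' ≤ j ∧ j' ≤ i' + (6 * b + 4) ∧ R.Carries i' j' := by
  intro n
  induction n with
  | zero =>
    intro i j hn hc
    have := hc.1
    omega
  | succ n ih =>
    intro i j hn hc
    by_cases hs : j ≤ i + (6 * b + 4)
    · exact ⟨i, j, le_rfl, le_rfl, hs, hc⟩
    obtain ⟨hij, hj, P, σ, hP, hPa, hσ, hd⟩ := hc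
    by_cases hL : cover P ⊆ R.arc (i + 1) j
    · obtain ⟨i', j', h1, h2, h3, h4⟩ := ih (i + 1) j (by omega)
        ⟨by omega, hj, P, _, hP, hL, hσ.res (i' := i + 1) (by omega) (by omega) le_rfl hj,
          Finset.disjoint_of_subset_right cover_res_sub hd⟩
      exact ⟨i', j', by omega, h2, h3, h4⟩
    by_cases hR : cover P ⊆ R.arc i (j - 1)
    · obtain ⟨i', j', h1, h2, h3, h4⟩ := ih i (j - 1) (by omega)
        ⟨by omega, by omega, P, _, hP, hR, hσ.res (j' := j - 1) le_rfl (by omega) (by omega) hj,
          Finset.disjoint_of_subset_right cover_res_sub hd⟩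
      exact ⟨i', j', h1, by omega, h3, h4⟩
    have hl : ∃ v ∈ cover P, v ∈ R.M (i + 1) ∪ cover (R.D (i + 1)) := by
      rw [Finset.not_subset] at hL
      obtain ⟨v, hv, hv'⟩ := hL
      refine ⟨v, hv, ?_⟩
      by_contra h
      apply hv'
      rw [mem_arc]
      rw [Finset.mem_union, not_or] at h
      exact ⟨(mem_arc.1 (hPa hv)).1, h⟩
    have hr : ∃ v ∈ cover P, v ∉ R.M (j - 1) := by
      rw [Finset.not_subset] at hR
      obtain ⟨v, hv, hv'⟩ := hR
      refine ⟨v, hv, ?_⟩
      intro h
      apply hv'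
      rw [mem_arc]
      exact ⟨h, (mem_arc.1 (hPa hv)).2⟩
    have hij' : i + 1 < j - 1 := by omega
    have hj' : j - 1 < R.N := by omega
    obtain ⟨δ, hδ, hδP⟩ := split_exists (R := R) (by omega : i < i + 1) hij' (by omega) hj hP hPa
      hl hr
    have hsub : R.arc (i + 1) (j - 1) ⊆ R.arc i j := arc_mono (by omega) hij' (by omega) hj
    set T := R.arc (i + 1) (j - 1) with hT
    -- the three through-sets
    have hσ' := hσ.res (i' := i + 1) (j' := j - 1) (by omega) (by omega) (by omega) hj
    have hP0 : ∑ d ∈ R.Xp (i + 1), P d = 0 := by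
      rw [Xp_transport (R := R) (by omega : i ≤ i + 1) (by omega) hj hP.1.1
        (fun v _ => hP.1.2 v)]
      refine Finset.sum_eq_zero fun d hd => ?_
      by_contra h
      exact arc_not_left (hPa (mem_cover_of_ne h)) (mem_Xp.1 hd).1
    have hδ2 : R.Through (i + 1) (j - 1) (G.res T P + δ) := by
      refine ⟨fun d => ?_, fun d hd => ?_, fun v hv => ?_, ?_⟩
      · rw [Pi.add_apply, Pi.add_apply, res_sym hP.1.1, hδ.sym]
      · rw [Pi.add_apply] at hd
        by_contra h
        have h1 : G.res T P d = 0 := by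
          by_contra h2
          exact h (res_ne h2).2
        have h2 : δ d = 0 := by
          by_contra h2
          exact h (hδ.supp d h2)
        rw [h1, h2, add_zero] at hd
        exact hd rfl
      · have hv' : v ∈ T := hT ▸ hv
        simp only [Pi.add_apply, Finset.sum_add_distrib, res_eq hv', hP.1.2 v, hδ.even v hv,
          add_zero]
      · have h1 : ∑ d ∈ R.Xp (i + 1), (G.res T P + δ) d = 1 := by
          simp only [Pi.add_apply, Finset.sum_add_distrib]
          rw [hT, res_Xp hij' hj', hP0, zero_add]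
          exact hδ.odd
        exact h1
    -- disjointness inside the arc
    have hloc : ∀ v ∈ T, (∀ k, δ (v, k) = 0) ∨ (∀ k, δ (v, k) = P (v, k)) := by
      intro v hv
      exact sub_cases_aux (fun k => P (v, k)) (fun k => δ (v, k)) (hP.1.2 v) (hδ.even v hv)
        (fun k hk => hδP _ hk)
    have hd01 : Disjoint (T ∩ cover (G.res T σ)) (T ∩ cover δ) := by
      rw [Finset.disjoint_left]
      intro v hv hv'
      rw [Finset.mem_inter] at hv hv'
      exact Finset.disjoint_left.1 hd (cover_sub_of hδP hv'.2) (cover_res_sub hv.2)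
    have hd02 : Disjoint (T ∩ cover (G.res T σ)) (T ∩ cover (G.res T P + δ)) := by
      rw [Finset.disjoint_left]
      intro v hv hv'
      rw [Finset.mem_inter] at hv hv'
      refine Finset.disjoint_left.1 hd ?_ (cover_res_sub hv.2)
      obtain ⟨k, hk⟩ := mem_cover.1 hv'.2
      refine mem_cover.2 ⟨k, fun h => hk ?_⟩
      rw [Pi.add_apply, res_eq hv.1, h, hδP _ h, add_zero]
    have hd12 : Disjoint (T ∩ cover δ) (T ∩ cover (G.res T P + δ)) := by
      rw [Finset.disjoint_left]
      intro v hv hv'
      rw [Finset.mem_inter] at hv hv'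
      obtain ⟨k, hk⟩ := mem_cover.1 hv.2
      obtain ⟨k', hk'⟩ := mem_cover.1 hv'.2
      rcases hloc v hv.1 with h | h
      · exact hk (h k)
      · apply hk'
        rw [Pi.add_apply, res_eq hv.1, h k']
        exact zmod2_add_self _
    -- one of the complements contains a circuit
    have hex : ∃ τ, R.Through (i + 1) (j - 1) τ ∧ ∃ z ∈ G.Z,
        (∀ d, z d ≠ 0 → d.1 ∈ T \ cover τ) ∧ z ≠ 0 := by
      by_contra hno
      push Not at hno
      have f0 := free_bound hij' hj' hσ' (hno _ hσ')
      have f1 := free_bound hij' hj' hδ (hno _ hδ)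
      have f2 := free_bound hij' hj' hδ2 (hno _ hδ2)
      rw [← hT] at f0 f1 f2
      have hdu : Disjoint ((T ∩ cover (G.res T σ)) ∪ (T ∩ cover δ))
          (T ∩ cover (G.res T P + δ)) := by
        rw [Finset.disjoint_union_left]
        exact ⟨hd02, hd12⟩
      have hle : ((T ∩ cover (G.res T σ)) ∪ (T ∩ cover δ) ∪
          (T ∩ cover (G.res T P + δ))).card ≤ T.card := by
        apply Finset.card_le_card
        intro v hv
        simp only [Finset.mem_union, Finset.mem_inter] at hv
        tauto
      rw [Finset.card_union_of_disjoint hdu, Finset.card_union_of_disjoint hd01] at hle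
      have hge := arc_card_ge (R := R) hij' hj'
      rw [← hT] at hge
      omega
    obtain ⟨τ, hτ, z, hz, hz', hz0⟩ := hex
    have : ∃ g, z g ≠ 0 := by
      by_contra h
      push Not at h
      exact hz0 (funext h)
    obtain ⟨g, hg⟩ := this
    obtain ⟨Q, hQ, _, hQz⟩ := Cub.exists_circ hz hg
    have hQc : ∀ v ∈ cover Q, v ∈ T \ cover τ := by
      intro v hv
      obtain ⟨k, hk⟩ := mem_cover.1 hv
      exact hz' (v, k) (fun h => hk (hQz _ h))
    obtain ⟨i', j', h1, h2, h3, h4⟩ := ih (i + 1) (j - 1) (by omega)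
      ⟨hij', hj', Q, τ, hQ, fun v hv => (Finset.mem_sdiff.1 (hQc v hv)).1, hτ, by
        rw [Finset.disjoint_left]
        intro v hv
        exact (Finset.mem_sdiff.1 (hQc v hv)).2⟩
    exact ⟨i', j', by omega, by omega, h3, h4⟩

/-- step (h): the functional of the obstruction of a carried circuit is not `lam` -/
theorem cut_parity {i j : ℕ} (hij : i < j) (hj : j < R.N) {P σ β X : Vec V} (hX : X ∈ G.Z)
    (hlamX : dot R.lam X = 1) (hPa : cover P ⊆ R.arc i j) (hσ : R.Through i j σ)
    (hd : Disjoint (cover P) (cover σ)) (hβ : ∀ d, β d ≠ 0 → d.1 ∈ cover P)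
    (hβl : ∀ x ∈ G.Z, dot β x = dot R.lam x) : False := by
  have hlm : ∀ x ∈ G.Z, ∑ d ∈ R.Xm j, x d = dot R.lam x := fun x hx => R.repm j hj x hx
  have hlp : ∀ x ∈ G.Z, ∑ d ∈ R.Xp i, x d = dot R.lam x := fun x hx => R.repp i (by omega) x hx
  obtain ⟨U, hU⟩ := (Cub.dual (G := G) (H := Set.univ) (fun d _ => trivial)
    (β + fun d => if d ∈ R.Xm j then 1 else 0)).1 (by
      intro x hx
      rw [Cub.ZH_univ] at hx
      rw [add_dot, hβl x hx]
      have : dot (fun d => if d ∈ R.Xm j then 1 else 0) x = ∑ d ∈ R.Xm j, x d := by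
        simp [dot]
      rw [this, hlm x hx]
      exact zmod2_add_self _)
  have hβ0 : ∀ d : Dt V, d.1 ∉ R.arc i j → β d = 0 := fun d hd' => by
    by_contra h
    exact hd' (hPa (hβ d h))
  have hβi : ∀ d : Dt V, d.1 ∈ cover (R.D i) → β d = 0 := fun d h =>
    hβ0 d (fun h' => arc_not_left h' h)
  have hβj : ∀ d : Dt V, d.1 ∈ cover (R.D j) → β d = 0 := fun d h =>
    hβ0 d (fun h' => arc_not_right hj h' h)
  simp only [Pi.add_apply] at hU
  have hUi : ∀ v w, v ∈ cover (R.D i) → w ∈ cover (R.D i) → U v = U w := by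
    intro v w hv hw
    refine (R.circ i (by omega)).side ?_ hv hw
    intro d hd
    have h1 := mem_cover_of_ne hd
    have h2 := (R.circ i (by omega)).inner hd
    have h3 := hU d trivial
    rw [hβi d h1, hβi _ h2, if_neg (fun h => C_disj hij hj h1 (mem_Xm.1 h).1),
      if_neg (fun h => C_disj hij hj h2 (mem_Xm.1 h).1), add_zero, add_zero] at h3
    exact zmod2_eq_of_add h3.symm
  have hUj : ∀ v w, v ∈ cover (R.D j) → w ∈ cover (R.D j) → U v = U w := by
    intro v w hv hw
    refine (R.circ j hj).side ?_ hv hw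
    intro d hd
    have h1 := mem_cover_of_ne hd
    have h2 := (R.circ j hj).inner hd
    have h3 := hU d trivial
    rw [hβj d h1, hβj _ h2, if_neg (fun h => C_not_M hj h2 (mem_Xm.1 h).2),
      if_neg (fun h => C_not_M hj h1 (by
        have := (mem_Xm.1 h).2
        rwa [G.inv] at this)), add_zero, add_zero] at h3
    exact zmod2_eq_of_add h3.symm
  obtain ⟨vi, hvi⟩ := (R.circ i (by omega)).cover_nonempty
  obtain ⟨vj, hvj⟩ := (R.circ j hj).cover_nonempty
  have rel := fun {x : Vec V} => arc_rel (R := R) hij hj β (fun d h => hPa (hβ d h)) U (U vi)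
    (U vj + 1) (x := x)
    (by
      intro d h1 h2
      have h3 := hU d trivial
      rw [if_neg (fun h => arc_not_right hj h1 (mem_Xm.1 h).1),
        if_neg (fun h => arc_not_right hj h2 (mem_Xm.1 h).1), add_zero, add_zero] at h3
      exact h3.symm)
    (by
      intro d h1 h2
      have h3 := hU d trivial
      rw [if_neg (fun h => arc_not_right hj h1 (mem_Xm.1 h).1), hβi _ h2,
        if_neg (fun h => C_disj hij hj h2 (mem_Xm.1 h).1), hUi _ vi h2 hvi] at h3
      generalize U d.1 = a1 at *
      generalize U vi = a2 at *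
      generalize β d = a3 at *
      revert h3 a1 a2 a3
      decide)
    (by
      intro d h1 h2
      have h3 := hU d trivial
      rw [if_neg (fun h => arc_not_right hj h1 (mem_Xm.1 h).1), hβj _ h2,
        if_pos ((mem_Xm' hij hj).2 ⟨h2, by rw [G.inv]; exact h1⟩), hUj _ vj h2 hvj] at h3
      generalize U d.1 = a1 at *
      generalize U vj = a2 at *
      generalize β d = a3 at *
      revert h3 a1 a2 a3
      decide)
  have r1 := rel hσ.sym hσ.even
  have r2 := rel hX.1 (fun v _ => hX.2 v)
  have hβσ : dot β σ = 0 := by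
    refine Finset.sum_eq_zero fun d _ => ?_
    by_contra h
    have h1 : β d ≠ 0 := fun h' => h (by rw [h', zero_mul])
    have h2 : σ d ≠ 0 := fun h' => h (by rw [h', mul_zero])
    exact Finset.disjoint_left.1 hd (hβ d h1) (mem_cover_of_ne h2)
  rw [hβσ, hσ.Xp_one, hσ.Xm_one hij hj] at r1
  rw [hβl X hX, hlp X hX, hlm X hX, hlamX] at r2
  clear rel hUi hUj
  generalize U vi = a1 at *
  generalize U vj = a2 at *
  revert r1 r2 a1 a2
  decide

/-- step (i): two obstructions with the same functional in different arcs -/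
theorem no_interleave {i j : ℕ} (hij : i < j) (hj : j < R.N) {P β β' X : Vec V} (hX : X ∈ G.Z)
    (hlamX : dot R.lam X = 1) (hPa : cover P ⊆ R.arc i j) (hβ : ∀ d, β d ≠ 0 → d.1 ∈ cover P)
    (hβ'T : ∀ d : Dt V, d.1 ∈ R.arc i j → β' d = 0)
    (hβ'i : ∀ d : Dt V, d.1 ∈ cover (R.D i) → β' d = 0)
    (hβ'j : ∀ d : Dt V, d.1 ∈ cover (R.D j) → β' d = 0)
    (heq : ∀ x ∈ G.Z, dot β x = dot β' x) (hβX : dot β X = 1)
    (hne : ¬ ∀ x ∈ G.Z, dot β x = dot R.lam x) : False := by
  have hlm : ∀ x ∈ G.Z, ∑ d ∈ R.Xm j, x d = dot R.lam x := fun x hx => R.repm j hj x hx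
  have hlp : ∀ x ∈ G.Z, ∑ d ∈ R.Xp i, x d = dot R.lam x := fun x hx => R.repp i (by omega) x hx
  obtain ⟨U, hU⟩ := (Cub.dual (G := G) (H := Set.univ) (fun d _ => trivial)
    (β + β')).1 (by
      intro x hx
      rw [Cub.ZH_univ] at hx
      rw [add_dot, heq x hx]
      exact zmod2_add_self _)
  have hβ0 : ∀ d : Dt V, d.1 ∉ R.arc i j → β d = 0 := fun d hd' => by
    by_contra h
    exact hd' (hPa (hβ d h))
  have hβi : ∀ d : Dt V, d.1 ∈ cover (R.D i) → β d = 0 := fun d h =>
    hβ0 d (fun h' => arc_not_left h' h)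
  have hβj : ∀ d : Dt V, d.1 ∈ cover (R.D j) → β d = 0 := fun d h =>
    hβ0 d (fun h' => arc_not_right hj h' h)
  simp only [Pi.add_apply] at hU
  have hUi : ∀ v w, v ∈ cover (R.D i) → w ∈ cover (R.D i) → U v = U w := by
    intro v w hv hw
    refine (R.circ i (by omega)).side ?_ hv hw
    intro d hd
    have h1 := mem_cover_of_ne hd
    have h2 := (R.circ i (by omega)).inner hd
    have h3 := hU d trivial
    rw [hβi d h1, hβi _ h2, hβ'i d h1, hβ'i _ h2, add_zero, add_zero] at h3
    exact zmod2_eq_of_add h3.symm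
  have hUj : ∀ v w, v ∈ cover (R.D j) → w ∈ cover (R.D j) → U v = U w := by
    intro v w hv hw
    refine (R.circ j hj).side ?_ hv hw
    intro d hd
    have h1 := mem_cover_of_ne hd
    have h2 := (R.circ j hj).inner hd
    have h3 := hU d trivial
    rw [hβj d h1, hβj _ h2, hβ'j d h1, hβ'j _ h2, add_zero, add_zero] at h3
    exact zmod2_eq_of_add h3.symm
  obtain ⟨vi, hvi⟩ := (R.circ i (by omega)).cover_nonempty
  obtain ⟨vj, hvj⟩ := (R.circ j hj).cover_nonempty
  have rel := fun {x : Vec V} => arc_rel (R := R) hij hj β (fun d h => hPa (hβ d h)) U (U vi)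
    (U vj) (x := x)
    (by
      intro d h1 h2
      have h3 := hU d trivial
      rw [hβ'T d h1, hβ'T _ h2, add_zero, add_zero] at h3
      exact h3.symm)
    (by
      intro d h1 h2
      have h3 := hU d trivial
      rw [hβ'T d h1, hβi _ h2, hβ'i _ h2, hUi _ vi h2 hvi] at h3
      generalize U d.1 = a1 at *
      generalize U vi = a2 at *
      generalize β d = a3 at *
      revert h3 a1 a2 a3
      decide)
    (by
      intro d h1 h2
      have h3 := hU d trivial
      rw [hβ'T d h1, hβj _ h2, hβ'j _ h2, hUj _ vj h2 hvj] at h3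
      generalize U d.1 = a1 at *
      generalize U vj = a2 at *
      generalize β d = a3 at *
      revert h3 a1 a2 a3
      decide)
  apply hne
  intro x hx
  have r1 := rel hX.1 (fun v _ => hX.2 v)
  have r2 := rel hx.1 (fun v _ => hx.2 v)
  rw [hβX, hlp X hX, hlm X hX, hlamX] at r1
  rw [hlp x hx, hlm x hx] at r2
  clear rel hUi hUj
  generalize U vi = a1 at *
  generalize U vj = a2 at *
  generalize dot β x = a3 at *
  generalize dot R.lam x = a4 at *
  revert r1 r2 a1 a2 a3 a4
  decide

end Run

/-- task B3b -/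
theorem carrying_bound (b S r : ℕ) (V : Type) [Fintype V] (G : Cub V)
    (R : Run G b S) (K : Submodule (ZMod 2) (Vec V)) (X : Vec V) (hK : K ≤ G.Z) (hX : X ∈ G.Z)
    (hr : (G.zs Set.univ).card ≤ 2 ^ r * Nat.card K) (_hlam : ∀ z ∈ K, dot R.lam z = 0)
    (hlamX : dot R.lam X = 1) (hobs : Obstructed G K X (100 * (b + 1) * (S + 1)))
    (q : ℕ) (i j : ℕ → ℕ) (h1 : ∀ k < q, R.Carries (i k) (j k))
    (h2 : ∀ k, k + 1 < q → j k ≤ i (k + 1)) : q ≤ 2 * 2 ^ r := by
  -- bounded carrying arcs and their obstructions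
  have hdata : ∀ k < q, ∃ (i' j' : ℕ) (P σ β : Vec V), i k ≤ i' ∧ j' ≤ j k ∧ i' < j' ∧ j' < R.N ∧
      G.IsCirc P ∧ cover P ⊆ R.arc i' j' ∧ R.Through i' j' σ ∧ Disjoint (cover P) (cover σ) ∧
      (∀ d, β d ≠ 0 → d.1 ∈ cover P) ∧ (∀ z ∈ K, dot β z = 0) ∧ dot β X ≠ dot β P := by
    intro k hk
    obtain ⟨i', j', h3, h4, h5, h6, h7, P, σ, h8, h9, h10, h11⟩ :=
      Run.carries_short (R := R) (j k) (i k) (j k) (by omega) (h1 k hk)
    obtain ⟨β, h12, h13, h14⟩ := hobs P h8 (by
      have h15 := (Finset.card_le_card h9).trans (Run.arc_card_le h6 h7)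
      have h16 : (j' - i') * S ≤ (6 * b + 4) * S := Nat.mul_le_mul_right _ (by omega)
      nlinarith [Nat.zero_le (b * S), Nat.zero_le b, Nat.zero_le S])
    exact ⟨i', j', P, σ, β, h3, h4, h6, h7, h8, h9, h10, h11, h12, h13, h14⟩
  choose! i' j' P σ β e1 e2 e3 e4 e5 e6 e7 e8 e9 e10 e11 using hdata
  -- ordering of the arcs
  have hord : ∀ k l, k < l → l < q → j' k ≤ i' l := by
    intro k l hkl hl
    have h3 : j k ≤ i l := by
      induction l, hkl using Nat.le_induction with
      | base => exact h2 k hl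
      | succ m hm ih =>
        have h4 := ih (by omega)
        have h5 := h2 m hl
        have h6 := (h1 m (by omega)).1
        omega
    have h4 := e2 k (by omega)
    have h5 := e1 l hl
    omega
  have hsep : ∀ k l, k < l → l < q → ∀ v ∈ R.arc (i' l) (j' l), v ∉ R.M (j' k) ∪
      cover (R.D (j' k)) := by
    intro k l hkl hl v hv h
    have h3 := hord k l hkl hl
    have h4 : v ∉ R.M (i' l) ∪ cover (R.D (i' l)) := by
      rw [Finset.mem_union, not_or]
      exact (Run.mem_arc.1 hv).2
    rcases h3.eq_or_lt with h5 | h5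
    · rw [h5] at h
      exact h4 h
    · exact h4 (Finset.mem_union_left _ (Run.nested h5 (by
        have := e3 l hl
        have := e4 l hl
        omega) h))
  have hdisj : ∀ k l, k < l → l < q → Disjoint (cover (P k)) (cover (P l)) := by
    intro k l hkl hl
    rw [Finset.disjoint_left]
    intro v hv hv'
    apply hsep k l hkl hl v (e6 l hl hv')
    exact Finset.mem_union_left _ (Run.mem_arc.1 (e6 k (by omega) hv)).1
  have hval : ∀ k < q, (dot (β k) (P k) = 1 ∧ dot (β k) X = 0) ∨
      (dot (β k) (P k) = 0 ∧ dot (β k) X = 1) := by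
    intro k hk
    have h3 := e11 k hk
    generalize dot (β k) (P k) = a1 at *
    generalize dot (β k) X = a2 at *
    revert h3 a1 a2
    decide
  -- type 2
  have ht2 : ((range q).filter (fun k => dot (β k) (P k) = 1)).card ≤ 2 ^ r := by
    refine G.functional_count K hK r hr _ β ?_ ?_
    · intro k hk
      exact e10 k (by simpa using (Finset.mem_filter.1 hk).1)
    · have aux : ∀ k l, k < l → l < q → dot (β k) (P k) = 1 →
          (∀ z ∈ G.Z, dot (β k) z = dot (β l) z) → False := by
        intro k l hkl hl h3 h4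
        have h5 := h4 (P k) (e5 k (by omega)).1
        rw [h3] at h5
        have h6 : dot (β l) (P k) = 0 := by
          refine Finset.sum_eq_zero fun d _ => ?_
          by_contra h
          have h7 : β l d ≠ 0 := fun h' => h (by rw [h', zero_mul])
          have h8 : P k d ≠ 0 := fun h' => h (by rw [h', mul_zero])
          exact Finset.disjoint_left.1 (hdisj k l hkl hl) (mem_cover_of_ne h8) (e9 l hl d h7)
        rw [h6] at h5
        exact one_ne_zero h5
      have aux' : ∀ k l, k < l → l < q → dot (β l) (P l) = 1 →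
          (∀ z ∈ G.Z, dot (β k) z = dot (β l) z) → False := by
        intro k l hkl hl h3 h4
        have h5 := h4 (P l) (e5 l (by omega)).1
        rw [h3] at h5
        have h6 : dot (β k) (P l) = 0 := by
          refine Finset.sum_eq_zero fun d _ => ?_
          by_contra h
          have h7 : β k d ≠ 0 := fun h' => h (by rw [h', zero_mul])
          have h8 : P l d ≠ 0 := fun h' => h (by rw [h', mul_zero])
          exact Finset.disjoint_left.1 (hdisj k l hkl hl) (e9 k (by omega) d h7)
            (mem_cover_of_ne h8)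
        rw [h6] at h5
        exact zero_ne_one h5
      intro k hk l hl heq
      simp only [Finset.mem_filter, Finset.mem_range] at hk hl
      rcases lt_trichotomy k l with h | h | h
      · exact (aux k l h hl.1 hk.2 heq).elim
      · exact h
      · exact (aux l k h hk.1 hl.2 (fun z hz => (heq z hz).symm)).elim
  have ht1 : ((range q).filter (fun k => ¬ dot (β k) (P k) = 1)).card ≤ 2 ^ r := by
    refine G.functional_count K hK r hr _ β ?_ ?_
    · intro k hk
      exact e10 k (by simpa using (Finset.mem_filter.1 hk).1)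
    · have aux : ∀ k l, k < l → l < q → dot (β k) X = 1 →
          (∀ z ∈ G.Z, dot (β k) z = dot (β l) z) → False := by
        intro k l hkl hl h3 h4
        have hk : k < q := by omega
        have hn : ∀ d : Dt V, d.1 ∈ R.M (j' k) ∪ cover (R.D (j' k)) → β l d = 0 := by
          intro d hd
          by_contra h
          exact hsep k l hkl hl d.1 (e6 l hl (e9 l hl d h)) hd
        refine Run.no_interleave (R := R) (e3 k hk) (e4 k hk) hX hlamX (e6 k hk) (e9 k hk)
          (β' := β l) ?_ ?_ ?_ h4 h3 ?_
        · intro d hd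
          exact hn d (Finset.mem_union_left _ (Run.mem_arc.1 hd).1)
        · intro d hd
          exact hn d (Finset.mem_union_left _ (Run.C_sub (e3 k hk) (e4 k hk) hd))
        · intro d hd
          exact hn d (Finset.mem_union_right _ hd)
        · intro h5
          exact Run.cut_parity (e3 k hk) (e4 k hk) hX hlamX (e6 k hk) (e7 k hk) (e8 k hk)
            (e9 k hk) h5
      intro k hk l hl heq
      simp only [Finset.mem_filter, Finset.mem_range] at hk hl
      have hkX : dot (β k) X = 1 := by
        rcases hval k hk.1 with h | h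
        · exact absurd h.1 hk.2
        · exact h.2
      have hlX : dot (β l) X = 1 := by
        rcases hval l hl.1 with h | h
        · exact absurd h.1 hl.2
        · exact h.2
      rcases lt_trichotomy k l with h | h | h
      · exact (aux k l h hl.1 hkX heq).elim
      · exact h
      · exact (aux l k h hk.1 hlX (fun z hz => (heq z hz).symm)).elim
  have h3 := Finset.card_filter_add_card_filter_not (s := range q)
    (fun k => dot (β k) (P k) = 1)
  rw [Finset.card_range] at h3
  omega

end Pool.Agent.LibMP58b56d
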