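import Mathlib
import Pool.Agent.LibMP58b56d.CarryA

/-!
# Task B3a, part 3: steps (a) and (c)
-/

set_option autoImplicit false

open Finset Classical

namespace Pool.Agent.LibMP58b56d

section stepa

variable {V : Type} [Fintype V] {G : Cub V} {b S : ℕ} (R : Run G b S)

/-- step (a): greedy choice of indices -/
theorem Run.greedy (p : V → Prop) [DecidablePred p] (C1 m : ℕ)
    (hbig : m * (C1 + S + b + 1) < (R.region.filter p).card) :
    ∃ ix : ℕ → ℕ, (∀ k ≤ m, ix k < R.N) ∧
      ∀ k < m, ix k < ix (k + 1) ∧ C1 ≤ ((R.arc (ix k) (ix (k + 1))).filter p).card := by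
  have hN : 0 < R.N := by
    by_contra h
    have h0 : R.N = 0 := by omega
    unfold Run.region at hbig
    rw [h0] at hbig
    simp at hbig
  set f : ℕ → ℕ := fun i => ((R.M i \ R.M 0).filter p).card with hf
  set step := C1 + S + b + 1 with hstep
  have hf0 : f 0 = 0 := by simp [hf]
  have hfN : m * step < f (R.N - 1) := hbig
  have hmono : ∀ i j, i ≤ j → j < R.N → f i ≤ f j := by
    intro i j hij hj
    refine Finset.card_le_card (Finset.filter_subset_filter _ ?_)
    exact Finset.sdiff_subset_sdiff (R.M_le hij hj) (Finset.Subset.refl _)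
  have hpiece : ∀ i, i + 1 < R.N → f (i + 1) ≤ f i + S := by
    intro i hi
    have h1 : (R.M (i + 1) \ R.M 0).filter p ⊆
        (R.M i \ R.M 0).filter p ∪ (R.M (i + 1) \ R.M i) := by
      intro v hv
      simp only [Finset.mem_filter, Finset.mem_sdiff, Finset.mem_union] at hv ⊢
      tauto
    have h2 := (Finset.card_le_card h1).trans (Finset.card_union_le _ _)
    have h3 := R.piece i hi
    simp only [hf]
    omega
  set ix : ℕ → ℕ := fun k => sInf {i | k * step ≤ f i} with hix
  have hne : ∀ k ≤ m, (R.N - 1) ∈ {i | k * step ≤ f i} := by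
    intro k hk
    have := Nat.mul_le_mul_right step hk
    simp only [Set.mem_ofPred_eq]
    omega
  have hixN : ∀ k ≤ m, ix k < R.N := by
    intro k hk
    have := Nat.sInf_le (hne k hk)
    simp only [hix]
    omega
  have hge : ∀ k ≤ m, k * step ≤ f (ix k) := by
    intro k hk
    have := Nat.sInf_mem (s := {i | k * step ≤ f i}) ⟨_, hne k hk⟩
    exact this
  have hle : ∀ k ≤ m, f (ix k) ≤ k * step + S := by
    intro k hk
    rcases Nat.eq_zero_or_pos (ix k) with h | h
    · rw [h, hf0]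
      omega
    · have h1 : ¬ (k * step ≤ f (ix k - 1)) := by
        intro h2
        have : ix k ≤ ix k - 1 := Nat.sInf_le (show ix k - 1 ∈ {i | k * step ≤ f i} from h2)
        omega
      have h2 := hpiece (ix k - 1) (by have := hixN k hk; omega)
      rw [Nat.sub_add_cancel h] at h2
      omega
  refine ⟨ix, hixN, fun k hk => ?_⟩
  have hk1 : k + 1 ≤ m := hk
  have a1 := hge (k + 1) hk1
  have a2 := hle k hk.le
  have a3 : (k + 1) * step = k * step + step := by ring
  have hlt : ix k < ix (k + 1) := by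
    by_contra h
    have := hmono _ _ (not_lt.1 h) (hixN k hk.le)
    omega
  refine ⟨hlt, ?_⟩
  have h1 : (R.M (ix (k + 1)) \ R.M 0).filter p ⊆
      ((R.M (ix k) \ R.M 0).filter p ∪ (R.arc (ix k) (ix (k + 1))).filter p) ∪
        cover (R.D (ix k)) := by
    intro v hv
    simp only [Finset.mem_filter, Finset.mem_sdiff, Finset.mem_union, R.mem_carc] at hv ⊢
    tauto
  have h2 := (Finset.card_le_card h1).trans (Finset.card_union_le _ _)
  have h3 := Finset.card_union_le ((R.M (ix k) \ R.M 0).filter p)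
    ((R.arc (ix k) (ix (k + 1))).filter p)
  have h4 := R.small (ix k) (hixN k hk.le)
  simp only [hf] at a1 a2
  omega

end stepa

section linalg

variable {V : Type} [Fintype V] {G : Cub V}

/-- vectors vanishing on `E` -/
def Van (E : Set (Dt V)) : Submodule (ZMod 2) (Vec V) where
  carrier := {x | ∀ d ∈ E, x d = 0}
  add_mem' := by
    intro x y hx hy d hd
    simp [hx d hd, hy d hd]
  zero_mem' := fun _ _ => rfl
  smul_mem' := by
    intro c x hx d hd
    simp [hx d hd]

lemma mem_Van {E : Set (Dt V)} {x : Vec V} : x ∈ Van E ↔ ∀ d ∈ E, x d = 0 := Iff.rfl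

lemma cr_natCard_sub (K : Submodule (ZMod 2) (Vec V)) :
    Nat.card K = 2 ^ Module.finrank (ZMod 2) K := by
  rw [Module.natCard_eq_pow_finrank (K := ZMod 2) (V := K)]
  simp

lemma finrank_Van (K : Submodule (ZMod 2) (Vec V)) (E : Finset (Dt V)) :
    Module.finrank (ZMod 2) K ≤
      Module.finrank (ZMod 2) (K ⊓ Van (E : Set (Dt V)) : Submodule (ZMod 2) (Vec V)) +
        E.card := by
  let φ : K →ₗ[ZMod 2] (E → ZMod 2) :=
    { toFun := fun x d => x.1 d.1
      map_add' := by
        intro x y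
        rfl
      map_smul' := by
        intro c x
        rfl }
  have h2 := LinearMap.finrank_range_add_finrank_ker φ
  have h3 := Submodule.finrank_le (LinearMap.range φ)
  have h4 : Module.finrank (ZMod 2) (E → ZMod 2) = E.card := by
    simp
  have h5 : Module.finrank (ZMod 2) (LinearMap.ker φ) ≤
      Module.finrank (ZMod 2) (K ⊓ Van (E : Set (Dt V)) : Submodule (ZMod 2) (Vec V)) := by
    let Θ : LinearMap.ker φ →ₗ[ZMod 2] (K ⊓ Van (E : Set (Dt V)) : Submodule (ZMod 2) (Vec V)) :=
      LinearMap.codRestrict _ (K.subtype.comp (LinearMap.ker φ).subtype)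
        (by
          rintro ⟨⟨x, hx⟩, hx'⟩
          simp only [LinearMap.comp_apply, Submodule.subtype_apply]
          refine ⟨hx, fun d hd => ?_⟩
          have := congrFun hx' ⟨d, by simpa using hd⟩
          exact this)
    refine LinearMap.finrank_le_finrank_of_injective (f := Θ) ?_
    intro a c hac
    have h7 : (Θ a).1 = (Θ c).1 := by rw [hac]
    apply Subtype.ext
    apply Subtype.ext
    exact h7
  omega

/-- two disjoint subspaces of `K` -/
lemma finrank_disj {K K1 K2 : Submodule (ZMod 2) (Vec V)} (h1 : K1 ≤ K) (h2 : K2 ≤ K)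
    (h : K1 ⊓ K2 = ⊥) :
    Module.finrank (ZMod 2) K1 + Module.finrank (ZMod 2) K2 ≤ Module.finrank (ZMod 2) K := by
  have h3 := Submodule.finrank_sup_add_finrank_inf_eq K1 K2
  rw [h, finrank_bot, add_zero] at h3
  rw [← h3]
  exact Submodule.finrank_mono (sup_le h1 h2)

lemma finrank_inf_ge {Z K L : Submodule (ZMod 2) (Vec V)} {r : ℕ} (hK : K ≤ Z) (hL : L ≤ Z)
    (h : Nat.card Z ≤ 2 ^ r * Nat.card K) :
    Module.finrank (ZMod 2) L ≤
      Module.finrank (ZMod 2) (L ⊓ K : Submodule (ZMod 2) (Vec V)) + r := by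
  rw [cr_natCard_sub, cr_natCard_sub, ← pow_add] at h
  have h1 := (Nat.pow_le_pow_iff_right (by norm_num : 1 < 2)).1 h
  have h3 := Submodule.finrank_sup_add_finrank_inf_eq L K
  have h4 := Submodule.finrank_mono (sup_le hL hK)
  omega

end linalg

section stepc

variable {V : Type} [Fintype V] {G : Cub V}

/-- darts of `A` with both ends in `T` -/
noncomputable def inn (G : Cub V) (A : Set (Dt V)) (T : Finset V) : Finset (Dt V) :=
  univ.filter (fun d : Dt V => d ∈ A ∧ d.1 ∈ T ∧ (G.ι d).1 ∈ T)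

lemma mem_inn {A : Set (Dt V)} {T : Finset V} {d : Dt V} :
    d ∈ inn G A T ↔ d ∈ A ∧ d.1 ∈ T ∧ (G.ι d).1 ∈ T := by
  simp [inn]

lemma two_darts_aux : ∀ z : Fin 3 → ZMod 2, ∑ i, z i = 0 → ∀ k, z k ≠ 0 →
    ∃ l, l ≠ k ∧ z l ≠ 0 := by
  decide

/-- the rank of `Z(A_T)` is large when `T` contains many branch vertices -/
lemma rank_inn {A : Set (Dt V)} (hA : G.Inv A) (hA' : ∀ d ∈ A, ∃ z ∈ G.ZH A, z d ≠ 0)
    {T : Finset V} {L : ℕ}
    (hL : (univ.filter (fun d : Dt V => d.1 ∈ T ∧ (G.ι d).1 ∉ T)).card ≤ L) :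
    (T.filter (fun v => ∀ k, (v, k) ∈ A)).card ≤
      2 * Module.finrank (ZMod 2) (G.ZH (inn G A T : Set (Dt V))) + L := by
  set U := T.filter (fun v => ∃ k, (v, k) ∈ A) with hU
  set B := T.filter (fun v => ∀ k, (v, k) ∈ A) with hB
  have hBU : B ⊆ U := by
    intro v hv
    rw [hB, Finset.mem_filter] at hv
    rw [hU, Finset.mem_filter]
    exact ⟨hv.1, 0, hv.2 0⟩
  rcases U.eq_empty_or_nonempty with h0 | h0
  · rw [h0, Finset.subset_empty] at hBU
    rw [hBU]
    simp
  have hinv : ∀ d ∈ inn G A T, G.ι d ∈ inn G A T := by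
    intro d hd
    rw [mem_inn] at hd ⊢
    rw [G.inv]
    exact ⟨hA d hd.1, hd.2.2, hd.2.1⟩
  have h1 := G.rank_ge hinv h0 (by
    intro d hd
    rw [mem_inn] at hd
    rw [hU, Finset.mem_filter]
    exact ⟨hd.2.1, d.2, hd.1⟩)
  -- degrees
  have h2 : 2 * U.card + B.card ≤
      (univ.filter (fun d : Dt V => d ∈ A ∧ d.1 ∈ T)).card := by
    have e1 : (univ.filter (fun d : Dt V => d ∈ A ∧ d.1 ∈ T)).card =
        ∑ v ∈ U, (univ.filter (fun k : Fin 3 => (v, k) ∈ A)).card := by
      rw [← Finset.card_sigma]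
      refine Finset.card_bij' (fun d _ => (⟨d.1, d.2⟩ : Σ _ : V, Fin 3))
        (fun s _ => (s.1, s.2)) ?_ ?_ ?_ ?_
      · intro d hd
        simp only [Finset.mem_filter, Finset.mem_univ, true_and] at hd
        simp only [Finset.mem_sigma, Finset.mem_filter, Finset.mem_univ, true_and, hU]
        exact ⟨⟨hd.2, d.2, hd.1⟩, hd.1⟩
      · intro s hs
        simp only [Finset.mem_sigma, Finset.mem_filter, Finset.mem_univ, true_and, hU] at hs
        simp only [Finset.mem_filter, Finset.mem_univ, true_and]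
        exact ⟨hs.2, hs.1.1⟩
      · intro d _
        rfl
      · intro s _
        rfl
    rw [e1]
    have e2 : 2 * U.card + B.card = ∑ v ∈ U, (2 + if v ∈ B then 1 else 0) := by
      rw [Finset.sum_add_distrib, Finset.sum_const, smul_eq_mul, mul_comm]
      congr 1
      rw [Finset.sum_ite_mem, Finset.inter_eq_right.2 hBU]
      simp
    rw [e2]
    refine Finset.sum_le_sum fun v hv => ?_
    rw [hU, Finset.mem_filter] at hv
    obtain ⟨hvT, k, hk⟩ := hv
    by_cases hvB : v ∈ B
    · rw [if_pos hvB]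
      rw [hB, Finset.mem_filter] at hvB
      have : univ.filter (fun k : Fin 3 => (v, k) ∈ A) = univ := by
        ext k
        simp [hvB.2 k]
      rw [this]
      simp
    · rw [if_neg hvB]
      obtain ⟨z, hz, hzk⟩ := hA' _ hk
      obtain ⟨l, hl, hl'⟩ := two_darts_aux (fun i => z (v, i)) (hz.1.2 v) k hzk
      have : ({k, l} : Finset (Fin 3)) ⊆ univ.filter (fun k : Fin 3 => (v, k) ∈ A) := by
        intro a ha
        simp only [Finset.mem_insert, Finset.mem_singleton] at ha
        simp only [Finset.mem_filter, Finset.mem_univ, true_and]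
        rcases ha with rfl | rfl
        · exact hk
        · by_contra h
          exact hl' (hz.2 _ h)
      have h3 := Finset.card_le_card this
      rw [Finset.card_pair (Ne.symm hl)] at h3
      omega
  have h3 : (univ.filter (fun d : Dt V => d ∈ A ∧ d.1 ∈ T)).card ≤
      (inn G A T).card + (univ.filter (fun d : Dt V => d.1 ∈ T ∧ (G.ι d).1 ∉ T)).card := by
    refine le_trans (Finset.card_le_card ?_) (Finset.card_union_le _ _)
    intro d hd
    simp only [Finset.mem_filter, Finset.mem_univ, true_and, Finset.mem_union, mem_inn] at hd ⊢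
    tauto
  omega

variable {b S : ℕ} (R : Run G b S)

/-- step (c) -/
theorem Run.functional {c : ℝ} (hc : 0 < c) {A : Set (Dt V)} (hA : G.Inv A)
    (hA' : ∀ d ∈ A, ∃ z ∈ G.ZH A, z d ≠ 0) {X : Vec V}
    {K : Submodule (ZMod 2) (Vec V)} {r : ℕ} (hK : K ≤ G.ZH A)
    (hr : Nat.card (G.ZH A) ≤ 2 ^ r * Nat.card K)
    (hgood : GoodCoset (G.circs.filter (fun x => x ∈ G.ZH A)) c (6 * b) X K)
    {m : ℕ} (hm : 4 < c * 2 ^ m)
    {i j i' j' : ℕ} (hij : i < j) (hj : j < R.N) (hij' : i' < j') (hj' : j' < R.N)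
    (hdisj : Disjoint (R.arc i j) (R.arc i' j'))
    (hT : 2 * (r + m) + 6 * b ≤ ((R.arc i j).filter (fun v => ∀ k, (v, k) ∈ A)).card)
    (hT' : 2 * (r + m) + 6 * b ≤ ((R.arc i' j').filter (fun v => ∀ k, (v, k) ∈ A)).card) :
    ∃ s : Vec V, (∀ d, s d ≠ 0 → d ∈ R.cXp i ∨ d ∈ R.cXm j) ∧ (∀ z ∈ K, dot s z = 0) ∧
      dot s X = 1 := by
  set E : Finset (Dt V) := R.cXp i ∪ R.cXm j with hE
  by_cases hXS : X ∈ K ⊔ Van (E : Set (Dt V))
  swap
  · obtain ⟨s, hs1, hs2⟩ := Pool.Agent.LibMP58b56d.sep _ X hXS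
    refine ⟨s, fun d hd => ?_, fun z hz => hs1 z (Submodule.mem_sup_left hz), hs2⟩
    by_contra h
    apply hd
    have h1 : (Pi.single d 1 : Vec V) ∈ Van (E : Set (Dt V)) := by
      intro e he
      have : e ≠ d := by
        rintro rfl
        apply h
        simpa [hE] using he
      simp [this]
    have h2 := hs1 _ (Submodule.mem_sup_right h1)
    rw [Finset.sum_eq_single d] at h2
    · simpa using h2
    · intro e _ he
      simp [he]
    · simp
  exfalso
  rw [Submodule.mem_sup] at hXS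
  obtain ⟨k0, hk0, y, hy, hky⟩ := hXS
  set K' : Submodule (ZMod 2) (Vec V) := K ⊓ Van (E : Set (Dt V)) with hK'
  have hyX : y - X ∈ K := by
    have : y - X = -k0 := by
      rw [← hky]
      abel
    rw [this]
    exact neg_mem hk0
  have hEcard : E.card ≤ 6 * b := by
    have h1 := Finset.card_union_le (R.cXp i) (R.cXm j)
    have h2 := R.card_Xp (hij.trans hj)
    have h3 := R.card_Xm hj
    rw [hE]
    omega
  have hcard : Nat.card K ≤ 2 ^ (6 * b) * Nat.card K' := by
    rw [cr_natCard_sub, cr_natCard_sub, ← pow_add]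
    have := finrank_Van K E
    refine Nat.pow_le_pow_right (by norm_num) ?_
    rw [← hK'] at this
    omega
  have hg := hgood y K' hyX inf_le_left hcard
  set T := R.arc i j with hTdef
  set T' := R.arc i' j' with hTdef'
  -- inside and outside parts
  set Kin : Submodule (ZMod 2) (Vec V) := K' ⊓ Van {d | d.1 ∉ T} with hKin
  set Kout : Submodule (ZMod 2) (Vec V) := K' ⊓ Van {d | d.1 ∈ T} with hKout
  have hdj : Kin ⊓ Kout = ⊥ := by
    rw [Submodule.eq_bot_iff]
    intro x hx
    funext d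
    by_cases h : d.1 ∈ T
    · exact hx.2.2 d h
    · exact hx.1.2 d h
  have hprod := finrank_disj (K := K') inf_le_left inf_le_left hdj
  rw [← hKin, ← hKout] at hprod
  -- lower bounds
  have hin : r + m ≤ Module.finrank (ZMod 2) (G.ZH (inn G A T : Set (Dt V))) := by
    have := rank_inn hA hA' (T := T) (R.card_leave hij hj)
    omega
  have hout : r + m ≤ Module.finrank (ZMod 2) (G.ZH (inn G A T' : Set (Dt V))) := by
    have := rank_inn hA hA' (T := T') (R.card_leave hij' hj')
    omega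
  have hsub : ∀ T0 : Finset V, G.ZH (inn G A T0 : Set (Dt V)) ≤ G.ZH A := by
    intro T0
    refine Cub.ZH_mono ?_
    intro d hd
    have : d ∈ inn G A T0 := by simpa using hd
    exact (mem_inn.1 this).1
  have hE1 : ∀ d ∈ E, (G.ι d).1 ∈ T ∧ d.1 ∉ T := by
    intro d hd
    rw [hE, Finset.mem_union] at hd
    rcases hd with hd | hd
    · exact ⟨R.Xp_arc hij hj hd, R.notMem_arc_left (R.mem_cXp.1 hd).1⟩
    · exact ⟨R.Xm_arc hij hj hd, R.notMem_arc_right hj (R.mem_cXm.1 hd).1⟩
  have hin' : m ≤ Module.finrank (ZMod 2) Kin := by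
    have h1 := finrank_inf_ge hK (hsub T) hr
    have h2 : G.ZH (inn G A T : Set (Dt V)) ⊓ K ≤ Kin := by
      intro x hx
      have h3 : ∀ d, d.1 ∉ T → x d = 0 := by
        intro d hd
        apply hx.1.2
        intro h4
        have : d ∈ inn G A T := by simpa using h4
        exact hd (mem_inn.1 this).2.1
      refine ⟨⟨hx.2, fun d hd => h3 d ?_⟩, fun d hd => h3 d hd⟩
      exact (hE1 d (by simpa using hd)).2
    have h3 := Submodule.finrank_mono h2
    omega
  have hout' : m ≤ Module.finrank (ZMod 2) Kout := by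
    have h1 := finrank_inf_ge hK (hsub T') hr
    have h2 : G.ZH (inn G A T' : Set (Dt V)) ⊓ K ≤ Kout := by
      intro x hx
      have h3 : ∀ d, d.1 ∈ T → x d = 0 := by
        intro d hd
        apply hx.1.2
        intro h4
        have h5 : d ∈ inn G A T' := by simpa using h4
        exact (Finset.disjoint_left.1 hdisj) hd (mem_inn.1 h5).2.1
      refine ⟨⟨hx.2, fun d hd => ?_⟩, fun d hd => h3 d hd⟩
      have h4 := (hE1 d (by simpa using hd)).1
      rw [← hx.1.1.1 d]
      exact h3 _ h4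
    have h3 := Submodule.finrank_mono h2
    omega
  -- upper bound on the number of circuits in the coset
  set F' := (G.circs.filter (fun x => x ∈ G.ZH A)).filter (fun P => P - y ∈ K') with hF'
  have hF'mem : ∀ P ∈ F', G.IsCirc P ∧ P - y ∈ K' := by
    intro P hP
    simp only [hF', Cub.circs, Finset.mem_filter, Finset.mem_univ, true_and] at hP
    exact ⟨hP.1.1, hP.2⟩
  have hvan : ∀ P ∈ F', ∀ d ∈ E, P d = 0 := by
    intro P hP d hd
    have h1 := (hF'mem P hP).2.2 d (by simpa using hd)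
    have h2 := hy d (by simpa using hd)
    simp only [Pi.sub_apply, h2, sub_zero] at h1
    exact h1
  have hside : ∀ P ∈ F', (∀ d, d.1 ∉ T → P d = 0) ∨ (∀ d, d.1 ∈ T → P d = 0) := by
    intro P hP
    have hcirc := (hF'mem P hP).1
    have hU : ∀ d, P d ≠ 0 → (if d.1 ∈ T then (1 : ZMod 2) else 0) =
        (if (G.ι d).1 ∈ T then 1 else 0) := by
      intro d hd
      by_cases h1 : d.1 ∈ T
      · by_cases h2 : (G.ι d).1 ∈ T
        · rw [if_pos h1, if_pos h2]
        · exfalso
          apply hd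
          rw [← hcirc.1.1 d]
          apply hvan P hP
          rw [hE, Finset.mem_union]
          exact R.arc_leave hij hj h1 h2
      · by_cases h2 : (G.ι d).1 ∈ T
        · exfalso
          apply hd
          apply hvan P hP
          rw [hE, Finset.mem_union]
          have := R.arc_leave hij hj h2 (by rw [G.inv]; exact h1)
          rwa [G.inv] at this
        · rw [if_neg h1, if_neg h2]
    by_contra hcon
    push Not at hcon
    obtain ⟨⟨d, hd, hd'⟩, e, he, he'⟩ := hcon
    have := hcirc.side (U := fun v => if v ∈ T then (1 : ZMod 2) else 0) hU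
      (mem_cover_of_ne hd') (mem_cover_of_ne he')
    simp [hd, he] at this
  have hbound : ∀ (Q : Submodule (ZMod 2) (Vec V)) (F'' : Finset (Vec V)),
      (∀ P ∈ F'', ∀ P' ∈ F'', P - P' ∈ Q) → F''.card ≤ Nat.card Q := by
    intro Q F'' hp
    rcases F''.eq_empty_or_nonempty with h | ⟨P0, hP0⟩
    · rw [h]
      simp
    · rw [Nat.card_eq_fintype_card, Fintype.card_subtype]
      refine Finset.card_le_card_of_injOn (fun P => P - P0) ?_ ?_
      · intro P hP
        rw [Finset.mem_coe] at hP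
        simp only [Finset.coe_filter, Finset.mem_univ, true_and, Set.mem_ofPred_eq]
        exact hp P hP P0 hP0
      · intro P _ P' _ h
        exact sub_left_injective h
  have hFin : ∃ F1 : Finset (Vec V), ∀ P, P ∈ F1 ↔ P ∈ F' ∧ ∀ d, d.1 ∉ T → P d = 0 :=
    ⟨F'.filter (fun P => ∀ d, d.1 ∉ T → P d = 0), fun P => Finset.mem_filter⟩
  have hFout : ∃ F2 : Finset (Vec V), ∀ P, P ∈ F2 ↔ P ∈ F' ∧ ∀ d, d.1 ∈ T → P d = 0 :=
    ⟨F'.filter (fun P => ∀ d, d.1 ∈ T → P d = 0), fun P => Finset.mem_filter⟩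
  obtain ⟨F1, hF1⟩ := hFin
  obtain ⟨F2, hF2⟩ := hFout
  have hb1 := hbound Kin F1 (by
    intro P hP P' hP'
    rw [hF1] at hP hP'
    refine ⟨?_, fun d hd => ?_⟩
    · have := sub_mem (hF'mem P hP.1).2 (hF'mem P' hP'.1).2
      rwa [sub_sub_sub_cancel_right] at this
    · simp [hP.2 d hd, hP'.2 d hd])
  have hb2 := hbound Kout F2 (by
    intro P hP P' hP'
    rw [hF2] at hP hP'
    refine ⟨?_, fun d hd => ?_⟩
    · have := sub_mem (hF'mem P hP.1).2 (hF'mem P' hP'.1).2
      rwa [sub_sub_sub_cancel_right] at this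
    · simp [hP.2 d hd, hP'.2 d hd])
  have hF'card : F'.card ≤ Nat.card Kin + Nat.card Kout := by
    refine le_trans ?_ (Nat.add_le_add hb1 hb2)
    refine le_trans (Finset.card_le_card ?_) (Finset.card_union_le _ _)
    intro P hP
    rw [Finset.mem_union, hF1, hF2]
    rcases hside P hP with h | h
    · exact Or.inl ⟨hP, h⟩
    · exact Or.inr ⟨hP, h⟩
  -- numerical contradiction
  have hcK' : Nat.card Kin * Nat.card Kout ≤ Nat.card K' := by
    rw [cr_natCard_sub, cr_natCard_sub, cr_natCard_sub, ← pow_add]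
    exact Nat.pow_le_pow_right (by norm_num) hprod
  have hu : 2 ^ m ≤ Nat.card Kin := by
    rw [cr_natCard_sub]
    exact Nat.pow_le_pow_right (by norm_num) hin'
  have hw : 2 ^ m ≤ Nat.card Kout := by
    rw [cr_natCard_sub]
    exact Nat.pow_le_pow_right (by norm_num) hout'
  have hF'R : (F'.card : ℝ) ≤ (Nat.card Kin : ℝ) + (Nat.card Kout : ℝ) := by
    exact_mod_cast hF'card
  have hcR : (Nat.card Kin : ℝ) * (Nat.card Kout : ℝ) ≤ (Nat.card K' : ℝ) := by
    exact_mod_cast hcK'
  have huR : (2 : ℝ) ^ m ≤ (Nat.card Kin : ℝ) := by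
    exact_mod_cast hu
  have hwR : (2 : ℝ) ^ m ≤ (Nat.card Kout : ℝ) := by
    exact_mod_cast hw
  set u : ℝ := (Nat.card Kin : ℝ) with hudef
  set w : ℝ := (Nat.card Kout : ℝ) with hwdef
  have hg' : c / 2 * (Nat.card K' : ℝ) ≤ (F'.card : ℝ) := hg
  have h1 : c / 2 * (u * w) ≤ u + w :=
    (mul_le_mul_of_nonneg_left hcR (by positivity)).trans (hg'.trans hF'R)
  have hpos : (0 : ℝ) < 2 ^ m := by positivity
  have h2 : 4 * u < c * (u * w) := by
    have : c * 2 ^ m * u ≤ c * (u * w) := by
      have := mul_le_mul_of_nonneg_left hwR hc.le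
      nlinarith
    have h3 : 0 < u := hpos.trans_le huR
    nlinarith
  have h3 : 4 * w < c * (u * w) := by
    have : c * 2 ^ m * w ≤ c * (u * w) := by
      have := mul_le_mul_of_nonneg_left huR hc.le
      nlinarith
    have h3 : 0 < w := hpos.trans_le hwR
    nlinarith
  linarith

end stepc

end Pool.Agent.LibMP58b56d
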