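import Mathlib
import Pool.Agent.LibMP58b56d.Interface
import Pool.Agent.LibMP58b56d.GoodCoset
import Pool.Agent.LibMP58b56d.Through
import Pool.Agent.LibMP58b56d.CarryA
import Pool.Agent.LibMP58b56d.CarryB
import Pool.Agent.LibMP58b56d.CarryC

set_option autoImplicit false

open Finset Classical

namespace Pool.Agent.LibMP58b56d

section stepe

variable {V : Type} [Fintype V] {G : Cub V} {b S : ℕ} (R : Run G b S)

/-- the covers of different circuits of a run are disjoint -/
lemma Run.C_inj {x y : ℕ} (hx : x < R.N) (hy : y < R.N) {v : V} (h1 : v ∈ cover (R.D x))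
    (h2 : v ∈ cover (R.D y)) : x = y := by
  rcases lt_trichotomy x y with h | h | h
  · exact absurd h2 (R.notMem_C hy (R.C_lt h hy h1))
  · exact h
  · exact absurd h1 (R.notMem_C hx (R.C_lt h hx h2))

/-- the total contribution of a block to the transport formula -/
noncomputable def Run.contr (i j : ℕ) (z s : Vec V) : ZMod 2 :=
  ∑ d ∈ univ.filter (fun d : Dt V => d.1 ∈ R.arc i j ∪ cover (R.D j) ∧
        (G.ι d).1 ∈ R.arc i j ∪ cover (R.D j)), z d * s d +
      ∑ d ∈ R.cXp i, z d * (s d + s (G.ι d))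

lemma Run.contr_add (i j : ℕ) (z s s' : Vec V) :
    R.contr i j z (s + s') = R.contr i j z s + R.contr i j z s' := by
  unfold Run.contr
  simp only [Pi.add_apply]
  rw [add_add_add_comm, ← Finset.sum_add_distrib, ← Finset.sum_add_distrib]
  congr 1
  · refine Finset.sum_congr rfl fun d _ => ?_
    ring
  · refine Finset.sum_congr rfl fun d _ => ?_
    ring

lemma Run.supp_iota {i l r : ℕ} (hi : i < R.N) (hl : l < R.N) (hr : r < R.N) {s : Vec V}
    (hs : ∀ d, s d ≠ 0 → d ∈ R.cXp l ∨ d ∈ R.cXm r) {d : Dt V} (hd : d ∈ R.cXp i) :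
    s (G.ι d) = 0 := by
  by_contra h
  rw [R.mem_cXp] at hd
  rcases hs _ h with h1 | h1
  · rw [R.mem_cXp] at h1
    have := R.sep i hi l hl d hd.1 h1.1
    subst this
    exact hd.2.2 h1.1
  · rw [R.mem_cXm] at h1
    have := R.sep i hi r hr d hd.1 h1.1
    subst this
    exact hd.2.2 h1.1

lemma Run.contr_eq {i j l r : ℕ} (hij : i < j) (hj : j < R.N) (hlr : l < r) (hr : r < R.N)
    {z s : Vec V} (hs : ∀ d, s d ≠ 0 → d ∈ R.cXp l ∨ d ∈ R.cXm r) :
    R.contr i j z s = ∑ d ∈ univ.filter (fun d : Dt V => (d.1 ∈ R.arc i j ∪ cover (R.D j) ∧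
        (G.ι d).1 ∈ R.arc i j ∪ cover (R.D j)) ∨ d ∈ R.cXp i), z d * s d := by
  have hi : i < R.N := hij.trans hj
  unfold Run.contr
  have h1 : ∑ d ∈ R.cXp i, z d * (s d + s (G.ι d)) = ∑ d ∈ R.cXp i, z d * s d := by
    refine Finset.sum_congr rfl fun d hd => ?_
    rw [R.supp_iota hi (hlr.trans hr) hr hs hd, add_zero]
  rw [h1, Finset.filter_or, Finset.sum_union]
  · congr 1
    refine Finset.sum_congr ?_ fun _ _ => rfl
    ext d
    simp
  · rw [Finset.disjoint_left]
    intro d hd hd'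
    simp only [Finset.mem_filter, Finset.mem_univ, true_and] at hd hd'
    rw [R.mem_cXp] at hd'
    have h2 := hd.1
    rw [Finset.mem_union] at h2
    rcases h2 with h2 | h2
    · exact R.notMem_arc_left hd'.1 h2
    · exact absurd (R.C_inj hi hj hd'.1 h2) hij.ne

/-- a block inside contributes `dot s z` -/
lemma Run.contr_one {i j l r : ℕ} (hij : i < j) (hj : j < R.N) (hlr : l < r)
    (hil : i ≤ l) (hrj : r ≤ j) {z s : Vec V} (hs : ∀ d, s d ≠ 0 → d ∈ R.cXp l ∨ d ∈ R.cXm r) :
    R.contr i j z s = dot s z := by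
  have hr : r < R.N := hrj.trans_lt hj
  have hi : i < R.N := hij.trans hj
  have hl : l < R.N := hlr.trans hr
  rw [R.contr_eq hij hj hlr hr hs]
  unfold dot
  rw [Finset.sum_filter]
  refine Finset.sum_congr rfl fun d _ => ?_
  by_cases hd : s d = 0
  · simp [hd]
  rw [if_pos, mul_comm]
  -- general facts
  have key : ∀ x, i < x → x ≤ j → ∀ v ∈ cover (R.D x), v ∈ R.arc i j ∪ cover (R.D j) := by
    intro x hix hxj v hv
    rw [Finset.mem_union]
    rcases hxj.lt_or_eq with h | h
    · left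
      rw [R.mem_carc]
      refine ⟨R.C_lt h hj hv, fun h2 => ?_, fun h2 => ?_⟩
      · exact R.notMem_C (h.trans hj) (R.M_lt hix (h.trans hj) h2) hv
      · exact absurd (R.C_inj hi (h.trans hj) h2 hv) hix.ne
    · right
      rw [← h]
      exact hv
  rcases hs d hd with h | h
  · rcases hil.lt_or_eq with h1 | h1
    · left
      refine ⟨key l h1 (hlr.le.trans hrj) _ (R.mem_cXp.1 h).1, ?_⟩
      have h2 := R.Xp_arc (hlr.trans_le hrj) hj h
      rw [R.mem_carc] at h2
      rw [Finset.mem_union, R.mem_carc]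
      left
      refine ⟨h2.1, fun h3 => h2.2.1 (R.M_lt h1 hl h3), fun h3 => h2.2.1 (R.C_lt h1 hl h3)⟩
    · right
      rw [h1]
      exact h
  · left
    refine ⟨key r (hil.trans_lt hlr) hrj _ (R.mem_cXm.1 h).1, ?_⟩
    have h2 := R.Xm_arc (hil.trans_lt hlr) hr h
    rw [R.mem_carc] at h2
    rw [Finset.mem_union, R.mem_carc]
    left
    exact ⟨R.M_le hrj hj h2.1, h2.2⟩

/-- a block to the right contributes nothing -/
lemma Run.contr_right {i j l r : ℕ} (hij : i < j) (hj : j < R.N) (hlr : l < r) (hr : r < R.N)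
    (hjl : j ≤ l) {z s : Vec V} (hs : ∀ d, s d ≠ 0 → d ∈ R.cXp l ∨ d ∈ R.cXm r) :
    R.contr i j z s = 0 := by
  have hi : i < R.N := hij.trans hj
  have hl : l < R.N := hlr.trans hr
  rw [R.contr_eq hij hj hlr hr hs]
  refine Finset.sum_eq_zero fun d hd => ?_
  rw [Finset.mem_filter] at hd
  by_cases hd0 : s d = 0
  · simp [hd0]
  exfalso
  -- a vertex of `C x` with `x ≥ j` in the arc is impossible
  have key : ∀ x, j ≤ x → x < R.N → ∀ v ∈ cover (R.D x), v ∉ R.arc i j := by
    intro x hjx hx v hv h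
    rw [R.mem_carc] at h
    exact R.notMem_C hx (R.M_le hjx hx h.1) hv
  have keyj : ∀ x, j ≤ x → x < R.N → ∀ v ∈ cover (R.D x), v ∈ R.arc i j ∪ cover (R.D j) →
      x = j := by
    intro x hjx hx v hv h
    rw [Finset.mem_union] at h
    rcases h with h | h
    · exact absurd h (key x hjx hx v hv)
    · exact R.C_inj hx hj hv h
  rcases hs d hd0 with h | h
  · have h1 := (R.mem_cXp.1 h).1
    rcases hd.2 with h2 | h2
    · have h3 := keyj l hjl hl _ h1 h2.1
      subst h3
      have h4 := h2.2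
      have h5 := R.mem_cXp.1 h
      rw [Finset.mem_union, R.mem_carc] at h4
      tauto
    · have := R.C_inj hi hl (R.mem_cXp.1 h2).1 h1
      omega
  · have h1 := (R.mem_cXm.1 h).1
    rcases hd.2 with h2 | h2
    · have h3 := keyj r (hjl.trans hlr.le) hr _ h1 h2.1
      omega
    · have := R.C_inj hi hr (R.mem_cXp.1 h2).1 h1
      omega

/-- a block to the left contributes nothing -/
lemma Run.contr_left {i j l r : ℕ} (hij : i < j) (hj : j < R.N) (hlr : l < r)
    (hri : r ≤ i) {z s : Vec V} (hs : ∀ d, s d ≠ 0 → d ∈ R.cXp l ∨ d ∈ R.cXm r) :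
    R.contr i j z s = 0 := by
  have hi : i < R.N := hij.trans hj
  have hr : r < R.N := hri.trans_lt hi
  have hl : l < R.N := hlr.trans hr
  rw [R.contr_eq hij hj hlr hr hs]
  refine Finset.sum_eq_zero fun d hd => ?_
  rw [Finset.mem_filter] at hd
  by_cases hd0 : s d = 0
  · simp [hd0]
  exfalso
  have keyj : ∀ x, x ≤ i → ∀ v ∈ cover (R.D x), v ∉ R.arc i j ∪ cover (R.D j) := by
    intro x hxi v hv h
    rw [Finset.mem_union] at h
    rcases h with h | h
    · rw [R.mem_carc] at h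
      rcases hxi.lt_or_eq with h1 | h1
      · exact h.2.1 (R.C_lt h1 hi hv)
      · rw [h1] at hv
        exact h.2.2 hv
    · have := R.C_inj (hxi.trans_lt hi) hj hv h
      omega
  rcases hs d hd0 with h | h
  · have h1 := (R.mem_cXp.1 h).1
    rcases hd.2 with h2 | h2
    · exact keyj l (hlr.le.trans hri) _ h1 h2.1
    · have := R.C_inj hi hl (R.mem_cXp.1 h2).1 h1
      omega
  · have h1 := (R.mem_cXm.1 h).1
    rcases hd.2 with h2 | h2
    · exact keyj r hri _ h1 h2.1
    · have h3 := R.C_inj hi hr (R.mem_cXp.1 h2).1 h1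
      subst h3
      exact (R.mem_cXp.1 h2).2.1 (R.mem_cXm.1 h).2

/-- the coefficients of a block vanish on the edges at an arc not containing its ends -/
lemma Run.supp_arc {i j l r : ℕ} (hij : i < j) (hj : j < R.N) (hlr : l < r) (hr : r < R.N)
    (hl1 : l < i ∨ j ≤ l) (hr1 : r ≤ i ∨ j < r) {s : Vec V}
    (hs : ∀ d, s d ≠ 0 → d ∈ R.cXp l ∨ d ∈ R.cXm r) {d : Dt V} (hd : d.1 ∈ R.arc i j) :
    s d = 0 ∧ s (G.ι d) = 0 := by
  have hi : i < R.N := hij.trans hj
  have hl : l < R.N := hlr.trans hr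
  have key : ∀ x, x < R.N → (x ≤ i ∨ j ≤ x) → ∀ v ∈ cover (R.D x), v ∉ R.arc i j := by
    intro x hx hxi v hv h
    rw [R.mem_carc] at h
    rcases hxi with hxi | hxi
    · rcases hxi.lt_or_eq with h1 | h1
      · exact h.2.1 (R.C_lt h1 hi hv)
      · rw [h1] at hv
        exact h.2.2 hv
    · exact R.notMem_C hx (R.M_le hxi hx h.1) hv
  constructor
  · by_contra h
    rcases hs d h with h1 | h1
    · exact key l hl (by omega) _ (R.mem_cXp.1 h1).1 hd
    · exact key r hr (by omega) _ (R.mem_cXm.1 h1).1 hd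
  · by_contra h
    have hin : (G.ι d).1 ∉ R.arc i j := by
      rcases hs _ h with h1 | h1
      · exact key l hl (by omega) _ (R.mem_cXp.1 h1).1
      · exact key r hr (by omega) _ (R.mem_cXm.1 h1).1
    rcases R.arc_leave hij hj hd hin with h2 | h2
    · rcases hs _ h with h1 | h1
      · have := R.C_inj hi hl (R.mem_cXp.1 h2).1 (R.mem_cXp.1 h1).1
        omega
      · have h3 := R.C_inj hi hr (R.mem_cXp.1 h2).1 (R.mem_cXm.1 h1).1
        subst h3
        exact (R.mem_cXp.1 h2).2.1 (R.mem_cXm.1 h1).2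
    · rcases hs _ h with h1 | h1
      · have h3 := R.C_inj hj hl (R.mem_cXm.1 h2).1 (R.mem_cXp.1 h1).1
        subst h3
        exact (R.mem_cXp.1 h1).2.1 (R.mem_cXm.1 h2).2
      · have := R.C_inj hj hr (R.mem_cXm.1 h2).1 (R.mem_cXm.1 h1).1
        omega

end stepe

/-! ### pigeonhole on functionals -/

section pigeon

variable {V : Type} [Fintype V]

lemma pigeon {Z K : Submodule (ZMod 2) (Vec V)} (hK : K ≤ Z) {r : ℕ}
    (hr : Nat.card Z ≤ 2 ^ r * Nat.card K) (s : ℕ → Vec V) (m' q : ℕ)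
    (hs : ∀ h < m', ∀ z ∈ K, dot (s h) z = 0) (hm' : 2 ^ (2 ^ r) * q < m') :
    ∃ H : Finset ℕ, H ⊆ range m' ∧ q < H.card ∧
      ∀ a ∈ H, ∀ a' ∈ H, ∀ z ∈ Z, dot (s a) z = dot (s a') z := by
  obtain ⟨C, hC⟩ := Submodule.exists_isCompl K
  set C' : Submodule (ZMod 2) (Vec V) := C ⊓ Z with hC'
  have h1 : K ⊔ C' = Z := by
    rw [hC', ← sup_inf_assoc_of_le C hK, hC.sup_eq_top, top_inf_eq]
  have h2 : K ⊓ C' = ⊥ := by
    rw [hC', ← inf_assoc, hC.inf_eq_bot, bot_inf_eq]
  have h3 : Nat.card C' ≤ 2 ^ r := by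
    have e1 := Submodule.finrank_sup_add_finrank_inf_eq K C'
    rw [h1, h2, finrank_bot, add_zero] at e1
    rw [cr_natCard_sub, cr_natCard_sub, ← pow_add] at hr
    have e2 := (Nat.pow_le_pow_iff_right (by norm_num : 1 < 2)).1 hr
    rw [cr_natCard_sub]
    exact Nat.pow_le_pow_right (by norm_num) (by omega)
  have h4 : (Finset.univ : Finset (C' → ZMod 2)).card ≤ 2 ^ (2 ^ r) := by
    rw [Finset.card_univ, Fintype.card_fun, ZMod.card]
    refine Nat.pow_le_pow_right (by norm_num) ?_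
    rw [← Nat.card_eq_fintype_card]
    exact h3
  obtain ⟨y, -, hy⟩ := Finset.exists_lt_card_fiber_of_mul_lt_card_of_maps_to
    (s := range m') (t := (Finset.univ : Finset (C' → ZMod 2)))
    (f := fun h => fun z : C' => dot (s h) z.1) (n := q) (fun _ _ => Finset.mem_univ _)
    (by
      rw [Finset.card_range]
      exact (Nat.mul_le_mul_right q h4).trans_lt hm')
  refine ⟨_, Finset.filter_subset _ _, hy, ?_⟩
  intro a ha a' ha' z hz
  rw [Finset.mem_filter, Finset.mem_range] at ha ha'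
  rw [← h1, Submodule.mem_sup] at hz
  obtain ⟨k, hk, w, hw, rfl⟩ := hz
  rw [dot_add, dot_add, hs a ha.1 k hk, hs a' ha'.1 k hk]
  have := congrFun (ha.2.trans ha'.2.symm) ⟨w, hw⟩
  simp only at this
  rw [this]

end pigeon

/-- task B3a -/
theorem carrying_exist (b S q : ℕ) (c : ℝ) (hc : 0 < c) : ∃ n0 : ℕ,
    ∀ (V : Type) [Fintype V] (G : Cub V) (R : Run G b S) (A : Set (Dt V)), G.Inv A →
      (∀ d ∈ A, ∃ z ∈ G.ZH A, z d ≠ 0) → (∀ z ∈ G.ZH A, dot R.lam z = 0) →
      c * (G.zs A).card ≤ ((G.circs.filter (fun x => x ∈ G.ZH A)).card : ℝ) →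
      n0 < (R.region.filter (fun v => ∀ i, (v, i) ∈ A)).card →
      ∃ i j : ℕ → ℕ, (∀ k < q, R.Carries (i k) (j k)) ∧ (∀ k, k + 1 < q → j k ≤ i (k + 1)) := by
  obtain ⟨r, hr⟩ := exists_goodCoset c hc (6 * b)
  obtain ⟨m, hm⟩ : ∃ m : ℕ, 4 < c * 2 ^ m := by
    obtain ⟨m, hm⟩ := pow_unbounded_of_one_lt (4 / c) (by norm_num : (1 : ℝ) < 2)
    refine ⟨m, ?_⟩
    rwa [div_lt_iff₀' hc] at hm
  set C1 := 2 * (r + m) + 6 * b + (24 * b + 1) with hC1
  set m' := 2 ^ (2 ^ r) * (q + 1) + 1 with hm'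
  refine ⟨(2 * m') * (C1 + S + b + 1), ?_⟩
  intro V _ G R A hA hA' hlam hdens hbig
  obtain ⟨ix, hixN, hix⟩ := R.greedy (fun v => ∀ i, (v, i) ∈ A) C1 (2 * m') hbig
  obtain ⟨X, hX, K, hK, hrK, hgood⟩ := hr (Vec V)
    (G.circs.filter (fun x => x ∈ G.ZH A)) (G.ZH A)
    (by
      intro y hy
      rw [Finset.mem_filter] at hy
      exact hy.2)
    (by
      rw [cr_natCard_sub]
      rw [Cub.zs_card] at hdens
      exact hdens)
  have hmono : ∀ x y, x < y → y ≤ 2 * m' → ix x < ix y := by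
    intro x y hxy hy
    induction y with
    | zero => omega
    | succ y ih =>
      have := (hix y (by omega)).1
      rcases Nat.lt_succ_iff_lt_or_eq.1 hxy with h | h
      · exact (ih h (by omega)).trans this
      · rw [h]
        exact this
  have hmono' : ∀ x y, x ≤ y → y ≤ 2 * m' → ix x ≤ ix y := by
    intro x y hxy hy
    rcases hxy.lt_or_eq with h | h
    · exact (hmono x y h hy).le
    · rw [h]
  -- the functionals
  have hfun : ∀ h, ∃ s : Vec V, h < m' →
      ((∀ d, s d ≠ 0 → d ∈ R.cXp (ix (2 * h)) ∨ d ∈ R.cXm (ix (2 * h + 1))) ∧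
        (∀ z ∈ K, dot s z = 0) ∧ dot s X = 1) := by
    intro h
    by_cases hh : h < m'
    swap
    · exact ⟨0, fun h' => absurd h' hh⟩
    have a1 := hix (2 * h) (by omega)
    have a2 := hix (2 * h + 1) (by omega)
    have a3 := hixN (2 * h + 1) (by omega)
    have a4 := hixN (2 * h + 1 + 1) (by omega)
    obtain ⟨s, hs⟩ := R.functional hc hA hA' hK hrK hgood hm a1.1 a3 a2.1 a4
      (by
        rw [Finset.disjoint_left]
        intro v hv hv'
        rw [R.mem_carc] at hv hv'
        exact hv'.2.1 hv.1)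
      (by omega) (by omega)
    exact ⟨s, fun _ => hs⟩
  choose s hs using hfun
  obtain ⟨H, hHm, hHq, hH⟩ := pigeon hK hrK s m' (q + 1) (fun h hh => (hs h hh).2.1)
    (by rw [hm']; omega)
  -- enumeration
  set hh : ℕ → ℕ := fun a => if ha : a < H.card then (H.orderEmbOfFin rfl ⟨a, ha⟩) else 0
    with hhdef
  have hhH : ∀ a ≤ q + 1, hh a ∈ H := by
    intro a ha
    have h1 : a < H.card := by omega
    simp only [hhdef, dif_pos h1]
    exact Finset.orderEmbOfFin_mem _ _ _
  have hhlt : ∀ a a', a < a' → a' ≤ q + 1 → hh a < hh a' := by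
    intro a a' haa' ha'
    have h1 : a' < H.card := by omega
    have h2 : a < H.card := by omega
    simp only [hhdef, dif_pos h1, dif_pos h2]
    exact (H.orderEmbOfFin rfl).strictMono haa'
  have hhm : ∀ a ≤ q + 1, hh a < m' := fun a ha => Finset.mem_range.1 (hHm (hhH a ha))
  set l : ℕ → ℕ := fun a => ix (2 * hh a) with hl
  set rr : ℕ → ℕ := fun a => ix (2 * hh a + 1) with hrr
  have hlr : ∀ a ≤ q + 1, l a < rr a := by
    intro a ha
    have := hhm a ha
    exact hmono _ _ (by omega) (by omega)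
  have hrl : ∀ a a', a < a' → a' ≤ q + 1 → rr a < l a' := by
    intro a a' haa' ha'
    have h1 := hhm a' ha'
    have h2 := hhlt a a' haa' ha'
    exact hmono _ _ (by omega) (by omega)
  have hrN : ∀ a ≤ q + 1, rr a < R.N := by
    intro a ha
    have := hhm a ha
    exact hixN _ (by omega)
  have hlN : ∀ a ≤ q + 1, l a < R.N := fun a ha => (hlr a ha).trans (hrN a ha)
  have hll : ∀ a a', a ≤ a' → a' ≤ q + 1 → l a ≤ l a' := by
    intro a a' haa' ha'
    rcases haa'.lt_or_eq with h | h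
    · exact ((hlr a (by omega)).trans (hrl a a' h ha')).le
    · rw [h]
  have hrr' : ∀ a a', a ≤ a' → a' ≤ q + 1 → rr a ≤ rr a' := by
    intro a a' haa' ha'
    rcases haa'.lt_or_eq with h | h
    · exact ((hrl a a' h ha').trans (hlr a' ha')).le
    · rw [h]
  have hsb : ∀ a ≤ q + 1, ∀ d, s (hh a) d ≠ 0 → d ∈ R.cXp (l a) ∨ d ∈ R.cXm (rr a) :=
    fun a ha => (hs (hh a) (hhm a ha)).1
  have hsX : ∀ a ≤ q + 1, dot (s (hh a)) X = 1 := fun a ha => (hs (hh a) (hhm a ha)).2.2
  -- the potentials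
  have hWex : ∀ a, ∃ W : V → ZMod 2, a ≤ q → ∀ d ∈ A,
      (s (hh a) + s (hh (a + 1))) d + (s (hh a) + s (hh (a + 1))) (G.ι d) =
        W d.1 + W (G.ι d).1 := by
    intro a
    by_cases ha : a ≤ q
    swap
    · exact ⟨0, fun h' => absurd h' ha⟩
    have h1 : ∀ x ∈ G.ZH A, dot (s (hh a) + s (hh (a + 1))) x = 0 := by
      intro x hx
      rw [add_dot, hH _ (hhH a (by omega)) _ (hhH (a + 1) (by omega)) x hx]
      exact zmod2_add_self _
    obtain ⟨W, hW⟩ := (Cub.dual hA _).1 h1
    exact ⟨W, fun _ => hW⟩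
  choose W hW using hWex
  have hXZ : X ∈ G.Z := hX.1
  have hXA : ∀ d, X d ≠ 0 → d ∈ A := by
    intro d hd
    by_contra h
    exact hd (hX.2 d h)
  -- parity
  set φ : ℕ → ℕ → ZMod 2 := fun a i => ∑ d ∈ R.cXp i, X d * W a d.1 with hφ
  have htr : ∀ a ≤ q, ∀ i j, i < j → j < R.N →
      φ a i + φ a j = R.contr i j X (s (hh a)) + R.contr i j X (s (hh (a + 1))) := by
    intro a ha i j hij hj
    rw [← R.contr_add]
    exact R.transport hij hj hXZ (W a) _ (fun d hd => hW a ha d (hXA d hd))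
  have hflip : ∀ a ≤ q, ∀ a' ≤ q, a' ≠ a → φ a (rr a) + φ a (rr a') = 1 := by
    intro a ha a' ha' hne
    rcases lt_or_gt_of_ne hne with h | h
    · have h1 : rr a' < rr a := (hrl a' a h (by omega)).trans (hlr a (by omega))
      rw [add_comm, htr a ha _ _ h1 (hrN a (by omega)),
        R.contr_one h1 (hrN a (by omega)) (hlr a (by omega)) (hrl a' a h (by omega)).le le_rfl
          (hsb a (by omega)),
        R.contr_right h1 (hrN a (by omega)) (hlr (a + 1) (by omega)) (hrN (a + 1) (by omega))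
          (hrl a (a + 1) (by omega) (by omega)).le (hsb (a + 1) (by omega)),
        hsX a (by omega), add_zero]
    · have h1 : rr a < rr a' := (hrl a a' h (by omega)).trans (hlr a' (by omega))
      rw [htr a ha _ _ h1 (hrN a' (by omega)),
        R.contr_left h1 (hrN a' (by omega)) (hlr a (by omega)) le_rfl (hsb a (by omega)),
        R.contr_one h1 (hrN a' (by omega)) (hlr (a + 1) (by omega))
          (hrl a (a + 1) (by omega) (by omega)).le (hrr' (a + 1) a' h (by omega))
          (hsb (a + 1) (by omega)),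
        hsX (a + 1) (by omega), zero_add]
  -- carrying
  have hcarry : ∀ a ≤ q, ∀ a' ≤ q, φ a (rr a') = 1 → R.Carries (rr a') (l (a' + 1)) := by
    intro a ha a' ha' h1
    have hij : rr a' < l (a' + 1) := hrl a' (a' + 1) (by omega) (by omega)
    refine R.carries_of hij (hlN (a' + 1) (by omega)) hXZ (hlam X hX) hXA (W := W a) ?_ h1 ?_
    · intro d hd hdarc
      have h2 := hW a ha d hd
      have h3 : ∀ a0, (a0 = a ∨ a0 = a + 1) → s (hh a0) d = 0 ∧ s (hh a0) (G.ι d) = 0 := by
        intro a0 ha0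
        have hq0 : a0 ≤ q + 1 := by omega
        have b1 : l a0 < rr a' ∨ l (a' + 1) ≤ l a0 := by
          rcases le_or_gt a0 a' with h | h
          · left
            exact (hll a0 a' h (by omega)).trans_lt (hlr a' (by omega))
          · right
            exact hll (a' + 1) a0 h hq0
        have b2 : rr a0 ≤ rr a' ∨ l (a' + 1) < rr a0 := by
          rcases le_or_gt a0 a' with h | h
          · left
            exact hrr' a0 a' h (by omega)
          · right
            exact (hll (a' + 1) a0 h hq0).trans_lt (hlr a0 hq0)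
        exact R.supp_arc hij (hlN (a' + 1) (by omega)) (hlr a0 hq0) (hrN a0 hq0) b1 b2
          (hsb a0 hq0) hdarc
      obtain ⟨c1, c2⟩ := h3 a (Or.inl rfl)
      obtain ⟨c3, c4⟩ := h3 (a + 1) (Or.inr rfl)
      simp only [Pi.add_apply, c1, c2, c3, c4, add_zero] at h2
      exact zmod2_eq_of_add h2.symm
    · have h2 := hhm a' (by omega)
      have h3 := (hix (2 * hh a' + 1) (by omega)).2
      have h4 : R.arc (ix (2 * hh a' + 1)) (ix (2 * hh a' + 1 + 1)) ⊆
          R.arc (rr a') (l (a' + 1)) := by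
        intro v hv
        rw [R.mem_carc] at hv ⊢
        refine ⟨R.M_le ?_ (hlN (a' + 1) (by omega)) hv.1, hv.2⟩
        have h5 := hhlt a' (a' + 1) (by omega) (by omega)
        have h6 := hhm (a' + 1) (by omega)
        exact hmono' _ _ (by omega) (by omega)
      have h5 := Finset.card_le_card (Finset.filter_subset_filter
        (fun v => ∀ i, (v, i) ∈ A) h4)
      omega
  -- conclusion
  by_cases hall : ∀ a ≤ q, φ a (rr a) = 1
  · refine ⟨rr, fun k => l (k + 1), fun k hk => hcarry k hk.le k hk.le (hall k hk.le),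
      fun k hk => ?_⟩
    exact (hlr (k + 1) (by omega)).le
  · push Not at hall
    obtain ⟨a0, ha0, h0⟩ := hall
    have h0' : φ a0 (rr a0) = 0 := zmod2_ne_one h0
    have hoth : ∀ a' ≤ q, a' ≠ a0 → R.Carries (rr a') (l (a' + 1)) := by
      intro a' ha' hne
      apply hcarry a0 ha0 a' ha'
      have := hflip a0 ha0 a' ha' hne
      rwa [h0', zero_add] at this
    set f : ℕ → ℕ := fun k => if k < a0 then k else k + 1 with hf
    refine ⟨fun k => rr (f k), fun k => l (f k + 1), fun k hk => ?_, fun k hk => ?_⟩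
    · apply hoth
      · simp only [hf]
        split_ifs <;> omega
      · simp only [hf]
        split_ifs <;> omega
    · have h1 : f k + 1 ≤ f (k + 1) := by
        simp only [hf]
        split_ifs <;> omega
      have h2 : f (k + 1) ≤ q := by
        simp only [hf]
        split_ifs <;> omega
      exact (hll _ _ h1 (by omega)).trans (hlr (f (k + 1)) (by omega)).le

end Pool.Agent.LibMP58b56d
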