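import Mathlib
import Pool.Agent.LibMP58b56d.Basic

/-!
# Sites: trees of free darts in a context
A context is an `ι`-invariant dart set `H` with a root dart `g`;
`Om H g = {x ∈ Z(H) : x g = 1}`, `Dir H g = {x ∈ Z(H) : x g = 0}`.
-/

set_option autoImplicit false

open Finset Classical

namespace Pool.Agent.LibMP58b56d

section defs

variable {V : Type}

/-- directions of a context -/
def Cub.Dir (G : Cub V) (H : Set (Dt V)) (g : Dt V) : Submodule (ZMod 2) (Vec V) where
  carrier := {x | x ∈ G.ZH H ∧ x g = 0}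
  add_mem' := by
    rintro x y ⟨hx, hx'⟩ ⟨hy, hy'⟩
    exact ⟨add_mem hx hy, by simp [hx', hy']⟩
  zero_mem' := ⟨zero_mem _, rfl⟩
  smul_mem' := by
    rintro c x ⟨hx, hx'⟩
    exact ⟨Submodule.smul_mem _ _ hx, by simp [hx']⟩

/-- the even subgraphs of the context -/
noncomputable def Cub.Om [Fintype V] (G : Cub V) (H : Set (Dt V)) (g : Dt V) : Finset (Vec V) :=
  univ.filter (fun x => x ∈ G.ZH H ∧ x g = 1)

/-- free darts of a context -/
def Cub.Free (G : Cub V) (H : Set (Dt V)) (g : Dt V) (a : Dt V) : Prop :=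
  ∃ z ∈ G.Dir H g, z a ≠ 0

/-- the two darts following `a` -/
def Cub.ch (G : Cub V) (f : Bool) (a : Dt V) : Dt V :=
  ((G.ι a).1, (G.ι a).2 + (if f then 1 else 2))

/-- site data: a binary tree of darts with single-child steps;
`sg a f s`: the child `ch f a` is the root of `s`, the sibling is `ch (!f) a` -/
inductive St (V : Type) : ℕ → Type
  | leaf (a : Dt V) : St V 0
  | sg {k : ℕ} (a : Dt V) (f : Bool) (s : St V k) : St V k
  | br {k : ℕ} (a : Dt V) (s t : St V k) : St V (k + 1)

/-- root dart -/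
def St.root : {k : ℕ} → St V k → Dt V
  | _, .leaf a => a
  | _, .sg a _ _ => a
  | _, .br a _ _ => a

/-- vertices at the single-child and branching steps -/
noncomputable def St.foot (G : Cub V) : {k : ℕ} → St V k → Finset V
  | _, .leaf _ => ∅
  | _, .sg a _ s => insert (G.ι a).1 (St.foot G s)
  | _, .br a s t => insert (G.ι a).1 (St.foot G s ∪ St.foot G t)

/-- validity of a site in a context: all tree darts are free, the siblings of the single-child
steps are not free, and the vertices of the site are distinct -/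
def St.Ok (G : Cub V) (H : Set (Dt V)) (g : Dt V) : {k : ℕ} → St V k → Prop
  | _, .leaf a => G.Free H g a
  | _, .sg a f s => G.Free H g a ∧ s.root = G.ch f a ∧ ¬ G.Free H g (G.ch (!f) a) ∧
      St.Ok G H g s ∧ (G.ι a).1 ∉ St.foot G s
  | _, .br a s t => G.Free H g a ∧ s.root = G.ch true a ∧ t.root = G.ch false a ∧
      St.Ok G H g s ∧ St.Ok G H g t ∧ (G.ι a).1 ∉ St.foot G s ∧ (G.ι a).1 ∉ St.foot G t ∧
      Disjoint (St.foot G s) (St.foot G t)

/-- patterns: values on the `2 ^ k` leaves -/
def Pt : ℕ → Type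
  | 0 => ZMod 2
  | k + 1 => Pt k × Pt k

instance Pt.instFintype : (k : ℕ) → Fintype (Pt k)
  | 0 => inferInstanceAs (Fintype (ZMod 2))
  | k + 1 => by
      have := Pt.instFintype k
      exact inferInstanceAs (Fintype (Pt k × Pt k))

instance Pt.instAddCommGroup : (k : ℕ) → AddCommGroup (Pt k)
  | 0 => inferInstanceAs (AddCommGroup (ZMod 2))
  | k + 1 => by
      have := Pt.instAddCommGroup k
      exact inferInstanceAs (AddCommGroup (Pt k × Pt k))

/-- total sum of a pattern -/
def Pt.tot : (k : ℕ) → Pt k → ZMod 2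
  | 0, a => a
  | k + 1, p => Pt.tot k p.1 + Pt.tot k p.2

/-- the pattern of `x` on the leaves of a site -/
def St.pat (x : Vec V) : {k : ℕ} → St V k → Pt k
  | _, .leaf a => x a
  | _, .sg _ _ s => St.pat x s
  | _, .br _ s t => (St.pat x s, St.pat x t)

/-- all single-child siblings vanish on all of `Om` -/
def St.SibZero [Fintype V] (G : Cub V) (H : Set (Dt V)) (g : Dt V) : {k : ℕ} → St V k → Prop
  | _, .leaf _ => True
  | _, .sg a f s => (∀ x ∈ G.Om H g, x (G.ch (!f) a) = 0) ∧ St.SibZero G H g s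
  | _, .br _ s t => St.SibZero G H g s ∧ St.SibZero G H g t

/-- good sites: siblings vanish and all patterns are realised by directions -/
def St.Good [Fintype V] (G : Cub V) (H : Set (Dt V)) (g : Dt V) {k : ℕ} (s : St V k) : Prop :=
  s.SibZero G H g ∧ ∀ p : Pt k, ∃ z ∈ G.Dir H g, s.pat z = p

/-- some tree dart of branching depth at most `n` lies on a component of `x` other than the
main component -/
def St.Near [Fintype V] (G : Cub V) (g : Dt V) (x : Vec V) : {k : ℕ} → ℕ → St V k → Prop
  | _, _, .leaf a => x a ≠ G.main g x a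
  | _, n, .sg a _ s => x a ≠ G.main g x a ∨ St.Near G g x n s
  | _, 0, .br a _ _ => x a ≠ G.main g x a
  | _, n + 1, .br a s t => x a ≠ G.main g x a ∨ St.Near G g x n s ∨ St.Near G g x n t

/-- an uncovered descending path of `l` branching steps starting at the root -/
def Pt.Up : ℕ → (k : ℕ) → Pt k → Prop
  | 0, k, p => Pt.tot k p = 0
  | _ + 1, 0, _ => False
  | l + 1, k + 1, p => Pt.tot k p.1 = 0 ∧ Pt.tot k p.2 = 0 ∧
      (Pt.Up l k p.1 ∨ Pt.Up l k p.2)

/-- an uncovered descending path of `θ j` steps starting at some node of depth `j - m` -/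
def Pt.LU (θ : ℕ → ℕ) : ℕ → (k : ℕ) → Pt k → Prop
  | m, 0, p => Pt.Up (θ m) 0 p
  | m, k + 1, p => Pt.Up (θ m) (k + 1) p ∨ Pt.LU θ (m + 1) k p.1 ∨ Pt.LU θ (m + 1) k p.2

end defs

end Pool.Agent.LibMP58b56d
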