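import Mathlib
import Pool.Agent.LibMP58b56d.Site

/-!
# Vertex-level data of a site all of whose sub-sites are bad
-/

set_option autoImplicit false

open Finset Classical

namespace Pool.Agent.LibMP58b56d

section basics

variable {V : Type} {G : Cub V} {H : Set (Dt V)} {g : Dt V}

lemma Cub.Free.tl_iota {a : Dt V} (h : G.Free H g a) : G.Free H g (G.ι a) := by
  obtain ⟨z, hz, hz'⟩ := h
  exact ⟨z, hz, by rw [hz.1.1.1 a]; exact hz'⟩

lemma Cub.Free.tl_mem {a : Dt V} (h : G.Free H g a) : a ∈ H := by
  obtain ⟨z, hz, hz'⟩ := h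
  by_contra h1
  exact hz' (hz.1.2 a h1)

lemma Cub.Free.tl_ne_g {a : Dt V} (h : G.Free H g a) : a ≠ g := by
  rintro rfl
  obtain ⟨z, hz, hz'⟩ := h
  exact hz' hz.2

lemma Cub.Free.tl_ne_g' {a : Dt V} (h : G.Free H g a) : G.ι a ≠ g := h.tl_iota.tl_ne_g

lemma tl_fin3_cases : ∀ i j : Fin 3, i = j ∨ i = j + 1 ∨ i = j + 2 := by decide

lemma Cub.tl_dart_cases (G : Cub V) (a : Dt V) (i : Fin 3) :
    ((G.ι a).1, i) = G.ι a ∨ ((G.ι a).1, i) = G.ch true a ∨ ((G.ι a).1, i) = G.ch false a := by
  rcases tl_fin3_cases i (G.ι a).2 with h | h | h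
  · left; rw [h]
  · right; left; simp [Cub.ch, h]
  · right; right; simp [Cub.ch, h]

/-- `T` is connected through free edges inside `T` -/
def Cub.TConn (G : Cub V) (H : Set (Dt V)) (g : Dt V) (T : Finset V) : Prop :=
  ∀ U : V → ZMod 2, (∀ d, G.Free H g d → d.1 ∈ T → (G.ι d).1 ∈ T → U d.1 = U (G.ι d).1) →
    ∀ v ∈ T, ∀ w ∈ T, U v = U w

lemma Cub.TConn.empty : G.TConn H g ∅ := by
  intro U _ v hv
  simp at hv

lemma Cub.TConn.join {v : V} {T1 T2 : Finset V} (h1 : G.TConn H g T1) (h2 : G.TConn H g T2)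
    (c1 : T1 = ∅ ∨ ∃ c, G.Free H g c ∧ c.1 = v ∧ (G.ι c).1 ∈ T1)
    (c2 : T2 = ∅ ∨ ∃ c, G.Free H g c ∧ c.1 = v ∧ (G.ι c).1 ∈ T2) :
    G.TConn H g (insert v (T1 ∪ T2)) := by
  intro U hU
  have key : ∀ w ∈ insert v (T1 ∪ T2), U w = U v := by
    intro w hw
    rw [Finset.mem_insert, Finset.mem_union] at hw
    rcases hw with hw | hw | hw
    · rw [hw]
    · rcases c1 with c1 | ⟨c, hc, hcv, hc1⟩
      · rw [c1] at hw; simp at hw
      · rw [h1 U (fun d hd hd1 hd2 => hU d hd (by simp [hd1]) (by simp [hd2])) w hw _ hc1,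
          ← hU c hc (by simp [hcv]) (by simp [hc1]), hcv]
    · rcases c2 with c2 | ⟨c, hc, hcv, hc1⟩
      · rw [c2] at hw; simp at hw
      · rw [h2 U (fun d hd hd1 hd2 => hU d hd (by simp [hd1]) (by simp [hd2])) w hw _ hc1,
          ← hU c hc (by simp [hcv]) (by simp [hc1]), hcv]
  intro w hw w' hw'
  rw [key w hw, key w' hw']

lemma St.Ok.tl_free_root {k : ℕ} {s : St V k} (h : s.Ok G H g) : G.Free H g s.root := by
  cases s with
  | leaf a => exact h
  | sg a f s => exact h.1
  | br a s t => exact h.1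

lemma St.tl_foot_cases {k : ℕ} (s : St V k) : s.foot G = ∅ ∨ (G.ι s.root).1 ∈ s.foot G := by
  cases s with
  | leaf a => left; rfl
  | sg a f s => right; simp [St.foot, St.root]
  | br a s t => right; simp [St.foot, St.root]

lemma St.tl_foot_pos {k : ℕ} (s : St V k) (hk : 0 < k) : (G.ι s.root).1 ∈ s.foot G := by
  cases s with
  | leaf a => omega
  | sg a f s => simp [St.foot, St.root]
  | br a s t => simp [St.foot, St.root]

lemma St.tl_foot_conn {k : ℕ} (s : St V k) (hs : s.Ok G H g) : G.TConn H g (s.foot G) := by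
  induction s with
  | leaf a => exact Cub.TConn.empty
  | sg a f s ih =>
    obtain ⟨h1, h2, h3, h4, h5⟩ := hs
    have h6 := Cub.TConn.join (v := (G.ι a).1) (ih h4) Cub.TConn.empty (T2 := ∅)
      (by
        rcases s.tl_foot_cases (G := G) with h | h
        · exact Or.inl h
        · refine Or.inr ⟨s.root, h4.tl_free_root, ?_, h⟩
          rw [h2]; rfl) (Or.inl rfl)
    rw [Finset.union_empty] at h6
    exact h6
  | br a s t ihs iht =>
    obtain ⟨h1, h2, h3, h4, h5, h6, h7, h8⟩ := hs
    exact Cub.TConn.join (v := (G.ι a).1) (ihs h4) (iht h5)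
      (by
        rcases s.tl_foot_cases (G := G) with h | h
        · exact Or.inl h
        · refine Or.inr ⟨s.root, h4.tl_free_root, ?_, h⟩
          rw [h2]; rfl)
      (by
        rcases t.tl_foot_cases (G := G) with h | h
        · exact Or.inl h
        · refine Or.inr ⟨t.root, h5.tl_free_root, ?_, h⟩
          rw [h3]; rfl)

/-- a site of positive depth has a vertex with three free darts -/
lemma St.tl_br_vertex {k : ℕ} (s : St V k) (hk : 0 < k) (hs : s.Ok G H g) :
    ∃ v ∈ s.foot G, ∀ i, G.Free H g (v, i) := by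
  induction s with
  | leaf a => omega
  | sg a f s ih =>
    obtain ⟨v, hv, hv'⟩ := ih hk hs.2.2.2.1
    exact ⟨v, by simp [St.foot, hv], hv'⟩
  | br a s t _ _ =>
    obtain ⟨h1, h2, h3, h4, h5, _, _, _⟩ := hs
    refine ⟨(G.ι a).1, by simp [St.foot], fun i => ?_⟩
    rcases G.tl_dart_cases a i with h | h | h
    · rw [h]; exact h1.tl_iota
    · rw [h, ← h2]; exact h4.tl_free_root
    · rw [h, ← h3]; exact h5.tl_free_root

/-- a nonvanishing sibling -/
lemma St.tl_sib_bad [Fintype V] {k : ℕ} (s : St V k) (hs : s.Ok G H g) (hn : ¬ s.SibZero G H g) :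
    ∃ b : Dt V, b.1 ∈ s.foot G ∧ ¬ G.Free H g b ∧ ∃ x ∈ G.Om H g, x b ≠ 0 := by
  induction s with
  | leaf a => exact absurd trivial hn
  | sg a f s ih =>
    obtain ⟨h1, h2, h3, h4, h5⟩ := hs
    by_cases h : ∀ x ∈ G.Om H g, x (G.ch (!f) a) = 0
    · obtain ⟨b, hb, hb', hb''⟩ := ih h4 (fun h6 => hn ⟨h, h6⟩)
      exact ⟨b, by simp [St.foot, hb], hb', hb''⟩
    · push Not at h
      exact ⟨G.ch (!f) a, by simp [St.foot, Cub.ch], h3, h⟩
  | br a s t ihs iht =>
    obtain ⟨h1, h2, h3, h4, h5, h6, h7, h8⟩ := hs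
    by_cases h : s.SibZero G H g
    · obtain ⟨b, hb, hb', hb''⟩ := iht h5 (fun h6 => hn ⟨h, h6⟩)
      exact ⟨b, by simp [St.foot, hb], hb', hb''⟩
    · obtain ⟨b, hb, hb', hb''⟩ := ihs h4 h
      exact ⟨b, by simp [St.foot, hb], hb', hb''⟩

namespace TL1

/-- data of a truncated site -/
structure Trunc [Fintype V] (G : Cub V) (H : Set (Dt V)) (g : Dt V) (F : Finset V) (r : Dt V)
    {k : ℕ}
    (u' : St V k) (Lf : Finset (Dt V)) (f : Dt V → Finset V) : Prop where
  ok : u'.Ok G H g
  root : u'.root = r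
  sub : u'.foot G ⊆ F
  top : (u'.foot G = ∅ ∧ u'.Good G H g ∧ ∀ l ∈ Lf, l = r) ∨ ∀ l ∈ Lf, l.1 ∈ u'.foot G
  free : ∀ l ∈ Lf, G.Free H g l
  bot : ∀ l ∈ Lf, (G.ι l).1 ∈ f l
  conn : ∀ l ∈ Lf, G.TConn H g (f l)
  fsub : ∀ l ∈ Lf, f l ⊆ F \ u'.foot G
  three : ∀ l ∈ Lf, ∃ v ∈ f l, ∀ i, G.Free H g (v, i)
  disj : ∀ l ∈ Lf, ∀ l' ∈ Lf, l ≠ l' → Disjoint (f l) (f l')
  card : Lf.card ≤ 2 ^ k
  surj : ∀ p : Pt k, ∃ v : Vec V, u'.pat v = p
  dep : ∀ x y : Vec V, (∀ l ∈ Lf, x l = y l) → u'.pat x = u'.pat y

variable [Fintype V]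

lemma trunc_base {n : ℕ} (u : St V n) (hn : 0 < n) (hu : u.Ok G H g) :
    Trunc G H g (u.foot G) u.root (St.leaf u.root : St V 0) {u.root} (fun _ => u.foot G) where
  ok := hu.tl_free_root
  root := rfl
  sub := by simp [St.foot]
  top := by
    left
    refine ⟨rfl, ⟨trivial, fun p => ?_⟩, by simp⟩
    obtain ⟨z, hz, hz'⟩ := hu.tl_free_root
    rcases zmod2_cases p with h | h
    · exact ⟨0, zero_mem _, h.symm⟩
    · exact ⟨z, hz, (zmod2_ne_zero hz').trans h.symm⟩
  free := by simpa using hu.tl_free_root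
  bot := by simpa using u.tl_foot_pos hn
  conn := by simpa using u.tl_foot_conn hu
  fsub := by simp [St.foot]
  three := by simpa using u.tl_br_vertex hn hu
  disj := by
    intro l hl l' hl' h
    rw [Finset.mem_singleton] at hl hl'
    exact absurd (hl.trans hl'.symm) h
  card := by simp
  surj := fun p => ⟨fun _ => p, rfl⟩
  dep := fun x y h => h _ (by simp)

/-- truncation of a site -/
theorem trunc_exists {n : ℕ} (u : St V n) (hu : u.Ok G H g) : ∀ k, n = k + 1 →
    ∃ (u' : St V k) (Lf : Finset (Dt V)) (f : Dt V → Finset V),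
      Trunc G H g (u.foot G) u.root u' Lf f := by
  induction u with
  | leaf a => intro k hk; omega
  | sg a f s ih =>
    intro k hk
    rcases k with _ | k
    · exact ⟨_, _, _, trunc_base _ (by omega) hu⟩
    · have hu0 := hu
      obtain ⟨h1, h2, h3, h4, h5⟩ := hu
      obtain ⟨s', Lf, fl, hT⟩ := ih h4 (k + 1) hk
      refine ⟨St.sg a f s', Lf, fl, ?_⟩
      refine
        { ok := ⟨h1, by rw [hT.root, h2], h3, hT.ok, fun h => h5 (hT.sub h)⟩
          root := rfl
          sub := Finset.insert_subset_insert _ hT.sub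
          top := ?_
          free := hT.free
          bot := hT.bot
          conn := hT.conn
          fsub := ?_
          three := hT.three
          disj := hT.disj
          card := hT.card
          surj := hT.surj
          dep := hT.dep }
      · right
        intro l hl
        rcases hT.top with ⟨_, _, h⟩ | h
        · rw [h l hl, h2]
          simp [St.foot, Cub.ch]
        · simp [St.foot, h l hl]
      · intro l hl v hv
        have h6 := hT.fsub l hl hv
        rw [Finset.mem_sdiff] at h6 ⊢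
        refine ⟨Finset.mem_insert_of_mem h6.1, ?_⟩
        simp only [St.foot, Finset.mem_insert, not_or]
        refine ⟨?_, h6.2⟩
        rintro rfl
        exact h5 h6.1
  | br a s t ihs iht =>
    intro k hk
    rcases k with _ | k
    · exact ⟨_, _, _, trunc_base _ (by omega) hu⟩
    · obtain ⟨h1, h2, h3, h4, h5, h6, h7, h8⟩ := hu
      have hk' : _ = k + 1 := Nat.succ.inj hk
      subst hk'
      obtain ⟨s', Ls, fs, hS⟩ := ihs h4 k rfl
      obtain ⟨t', Lt, ft, hT⟩ := iht h5 k rfl
      -- leaf darts of the two sides differ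
      have hdis : ∀ l ∈ Ls, l ∉ Lt := by
        intro l hl hl'
        have e1 := (Finset.mem_sdiff.1 (hS.fsub l hl (hS.bot l hl))).1
        have e2 := (Finset.mem_sdiff.1 (hT.fsub l hl' (hT.bot l hl'))).1
        exact Finset.disjoint_left.1 h8 e1 e2
      have hdis' : ∀ l ∈ Lt, l ∉ Ls := fun l hl hl' => hdis l hl' hl
      refine ⟨St.br a s' t', Ls ∪ Lt, fun l => if l ∈ Ls then fs l else ft l, ?_⟩
      refine
        { ok := ⟨h1, by rw [hS.root, h2], by rw [hT.root, h3], hS.ok, hT.ok,
            fun h => h6 (hS.sub h), fun h => h7 (hT.sub h),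
            Finset.disjoint_of_subset_left hS.sub (Finset.disjoint_of_subset_right hT.sub h8)⟩
          root := rfl
          sub := Finset.insert_subset_insert _ (Finset.union_subset_union hS.sub hT.sub)
          top := ?_
          free := ?_
          bot := ?_
          conn := ?_
          fsub := ?_
          three := ?_
          disj := ?_
          card := ?_
          surj := ?_
          dep := ?_ }
      · right
        intro l hl
        rcases Finset.mem_union.1 hl with hl | hl
        · rcases hS.top with ⟨_, _, h⟩ | h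
          · rw [h l hl, h2]
            simp [St.foot, Cub.ch]
          · simp [St.foot, h l hl]
        · rcases hT.top with ⟨_, _, h⟩ | h
          · rw [h l hl, h3]
            simp [St.foot, Cub.ch]
          · simp [St.foot, h l hl]
      · intro l hl
        rcases Finset.mem_union.1 hl with hl | hl
        · exact hS.free l hl
        · exact hT.free l hl
      · intro l hl
        rcases Finset.mem_union.1 hl with hl | hl
        · simp only [hl, if_true]; exact hS.bot l hl
        · simp only [hdis' l hl, if_false]; exact hT.bot l hl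
      · intro l hl
        rcases Finset.mem_union.1 hl with hl | hl
        · simp only [hl, if_true]; exact hS.conn l hl
        · simp only [hdis' l hl, if_false]; exact hT.conn l hl
      · intro l hl v hv
        rcases Finset.mem_union.1 hl with hl | hl
        · simp only [hl, if_true] at hv
          have h9 := hS.fsub l hl hv
          rw [Finset.mem_sdiff] at h9 ⊢
          refine ⟨by simp [St.foot, h9.1], ?_⟩
          simp only [St.foot, Finset.mem_insert, Finset.mem_union, not_or]
          refine ⟨?_, h9.2, fun h => Finset.disjoint_left.1 h8 h9.1 (hT.sub h)⟩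
          rintro rfl
          exact h6 h9.1
        · simp only [hdis' l hl, if_false] at hv
          have h9 := hT.fsub l hl hv
          rw [Finset.mem_sdiff] at h9 ⊢
          refine ⟨by simp [St.foot, h9.1], ?_⟩
          simp only [St.foot, Finset.mem_insert, Finset.mem_union, not_or]
          refine ⟨?_, fun h => Finset.disjoint_left.1 h8 (hS.sub h) h9.1, h9.2⟩
          rintro rfl
          exact h7 h9.1
      · intro l hl
        rcases Finset.mem_union.1 hl with hl | hl
        · simp only [hl, if_true]; exact hS.three l hl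
        · simp only [hdis' l hl, if_false]; exact hT.three l hl
      · intro l hl l' hl' hne
        rcases Finset.mem_union.1 hl with hl | hl <;> rcases Finset.mem_union.1 hl' with hl' | hl'
        · simp only [hl, hl', if_true]
          exact hS.disj l hl l' hl' hne
        · simp only [hl, hdis' l' hl', if_true, if_false]
          exact Finset.disjoint_of_subset_left ((hS.fsub l hl).trans Finset.sdiff_subset)
            (Finset.disjoint_of_subset_right ((hT.fsub l' hl').trans Finset.sdiff_subset) h8)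
        · simp only [hl', hdis' l hl, if_true, if_false]
          exact Finset.disjoint_of_subset_left ((hT.fsub l hl).trans Finset.sdiff_subset)
            (Finset.disjoint_of_subset_right ((hS.fsub l' hl').trans Finset.sdiff_subset) h8.symm)
        · simp only [hdis' l hl, hdis' l' hl', if_false]
          exact hT.disj l hl l' hl' hne
      · have := Finset.card_union_le Ls Lt
        have e1 := hS.card
        have e2 := hT.card
        rw [pow_succ]
        omega
      · rintro ⟨p1, p2⟩
        obtain ⟨v1, hv1⟩ := hS.surj p1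
        obtain ⟨v2, hv2⟩ := hT.surj p2
        refine ⟨fun d => if d ∈ Ls then v1 d else v2 d, ?_⟩
        change ((s'.pat _, t'.pat _) : Pt k × Pt k) = (p1, p2)
        rw [hS.dep _ v1 (fun l hl => by simp [hl]), hT.dep _ v2 (fun l hl => by simp [hdis' l hl]),
          hv1, hv2]
      · intro x y h
        change ((s'.pat x, t'.pat x) : Pt k × Pt k) = (s'.pat y, t'.pat y)
        rw [hS.dep x y (fun l hl => h l (Finset.mem_union_left _ hl)),
          hT.dep x y (fun l hl => h l (Finset.mem_union_right _ hl))]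

/-- bad core: a forced sibling at `C`, or a dependent set of leaf darts hanging below `C` -/
def BadCore (G : Cub V) (H : Set (Dt V)) (g : Dt V) (P : ℕ) (T F C : Finset V) : Prop :=
  (∃ b : Dt V, b.1 ∈ C ∧ ¬ G.Free H g b ∧ ∃ x ∈ G.Om H g, x b ≠ 0) ∨
  ∃ (X : Finset (Dt V)) (f : Dt V → Finset V), X.Nonempty ∧ X.card ≤ P ∧ G.TConn H g C ∧
    (∀ z ∈ G.Dir H g, ∑ l ∈ X, z l = 0) ∧
    (∀ l ∈ X, G.Free H g l ∧ l.1 ∈ C ∧ (G.ι l).1 ∈ f l ∧ G.TConn H g (f l) ∧ f l ⊆ F \ T ∧
      ∃ v ∈ f l, ∀ i, G.Free H g (v, i)) ∧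
    ∀ l ∈ X, ∀ l' ∈ X, l ≠ l' → Disjoint (f l) (f l')

lemma BadCore.mono {P : ℕ} {T F C T' F' : Finset V} (h : BadCore G H g P T F C) (hF : F ⊆ F')
    (hT : ∀ v ∈ F, v ∈ T' → v ∈ T) : BadCore G H g P T' F' C := by
  rcases h with h | ⟨X, f, h1, h2, h3, h4, h5, h6⟩
  · exact Or.inl h
  · refine Or.inr ⟨X, f, h1, h2, h3, h4, fun l hl => ?_, h6⟩
    obtain ⟨e1, e2, e3, e4, e5, e6⟩ := h5 l hl
    refine ⟨e1, e2, e3, e4, fun v hv => ?_, e6⟩
    have := e5 hv
    rw [Finset.mem_sdiff] at this ⊢
    exact ⟨hF this.1, fun h => this.2 (hT v this.1 h)⟩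

lemma badCore_of_trunc {F : Finset V} {r : Dt V} {k : ℕ} {u' : St V k} {Lf : Finset (Dt V)}
    {f : Dt V → Finset V} (hT : Trunc G H g F r u' Lf f) (hbad : ¬ u'.Good G H g) :
    BadCore G H g (2 ^ k) (u'.foot G) F (u'.foot G) := by
  by_cases hsib : u'.SibZero G H g
  · right
    have h1 : ∃ p : Pt k, ∀ z ∈ G.Dir H g, u'.pat z ≠ p := by
      by_contra h
      push Not at h
      exact hbad ⟨hsib, h⟩
    obtain ⟨p, hp⟩ := h1
    obtain ⟨v, hv⟩ := hT.surj p
    let S0 : Submodule (ZMod 2) (Vec V) :=
      { carrier := {x | ∀ l ∈ Lf, x l = 0}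
        add_mem' := by
          intro x y hx hy l hl
          rw [Pi.add_apply, hx l hl, hy l hl, add_zero]
        zero_mem' := fun _ _ => rfl
        smul_mem' := by
          intro c x hx l hl
          rw [Pi.smul_apply, hx l hl, smul_zero] }
    have hv' : v ∉ G.Dir H g ⊔ S0 := by
      intro h
      obtain ⟨z, hz, w, hw, hzw⟩ := Submodule.mem_sup.1 h
      apply hp z hz
      rw [← hv]
      apply hT.dep
      intro l hl
      rw [← hzw, Pi.add_apply, hw l hl, add_zero]
    obtain ⟨β, hβ, hβ'⟩ := sep _ _ hv'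
    have hβ0 : ∀ d, d ∉ Lf → β d = 0 := by
      intro d hd
      have h2 := hβ (Pi.single d 1) (Submodule.mem_sup_right (by
        intro l hl
        rw [Pi.single_apply, if_neg]
        rintro rfl
        exact hd hl))
      rw [Finset.sum_eq_single d] at h2
      · simpa using h2
      · intro e _ he
        simp [he]
      · simp
    have hsum : ∀ x : Vec V, ∑ i, β i * x i = ∑ l ∈ Lf.filter (fun l => β l ≠ 0), x l := by
      intro x
      have h3 : ∑ l ∈ Lf.filter (fun l => β l ≠ 0), x l = ∑ l ∈ Lf.filter (fun l => β l ≠ 0),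
          β l * x l := by
        refine Finset.sum_congr rfl fun l hl => ?_
        rw [zmod2_ne_zero (Finset.mem_filter.1 hl).2, one_mul]
      rw [h3]
      symm
      apply Finset.sum_subset (Finset.subset_univ _)
      intro d _ hd
      rw [Finset.mem_filter, not_and_or, not_not] at hd
      rcases hd with hd | hd
      · rw [hβ0 d hd, zero_mul]
      · rw [hd, zero_mul]
    have htop : ∀ l ∈ Lf, l.1 ∈ u'.foot G := by
      rcases hT.top with ⟨_, h, _⟩ | h
      · exact absurd h hbad
      · exact h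
    refine ⟨Lf.filter (fun l => β l ≠ 0), f, ?_, ?_, u'.tl_foot_conn hT.ok, ?_, ?_, ?_⟩
    · by_contra h
      rw [Finset.not_nonempty_iff_eq_empty] at h
      rw [hsum v, h, Finset.sum_empty] at hβ'
      exact zero_ne_one hβ'
    · exact (Finset.card_filter_le _ _).trans hT.card
    · intro z hz
      rw [← hsum z]
      exact hβ z (Submodule.mem_sup_left hz)
    · intro l hl
      have hl' := (Finset.mem_filter.1 hl).1
      exact ⟨hT.free l hl', htop l hl', hT.bot l hl', hT.conn l hl', hT.fsub l hl',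
        hT.three l hl'⟩
    · intro l hl l' hl' h
      exact hT.disj l (Finset.mem_filter.1 hl).1 l' (Finset.mem_filter.1 hl').1 h
  · left
    exact u'.tl_sib_bad hT.ok hsib

/-- the family of bad cores in a site all of whose sub-sites are bad -/
theorem tree_family (R : ℕ) {n : ℕ} (s : St V n) (hs : s.Ok G H g)
    (hbad : ∀ s' : St V R, s'.Ok G H g → s'.foot G ⊆ s.foot G → ¬ s'.Good G H g) :
    ∀ d, n = R + 1 + d → ∃ (T : Finset V) (𝒞 : Finset (Finset V)), T ⊆ s.foot G ∧
      (G.ι s.root).1 ∈ T ∧ G.TConn H g T ∧ 𝒞.card = 2 ^ d ∧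
      (∀ C ∈ 𝒞, C ⊆ T ∧ C.Nonempty ∧ BadCore G H g (2 ^ R) T (s.foot G) C) ∧
      ∀ C ∈ 𝒞, ∀ C' ∈ 𝒞, C ≠ C' → Disjoint C C' := by
  -- the case `d = 0`
  have base : ∀ {m : ℕ} (s : St V m), s.Ok G H g →
      (∀ s' : St V R, s'.Ok G H g → s'.foot G ⊆ s.foot G → ¬ s'.Good G H g) → m = R + 1 + 0 →
      ∃ (T : Finset V) (𝒞 : Finset (Finset V)), T ⊆ s.foot G ∧
      (G.ι s.root).1 ∈ T ∧ G.TConn H g T ∧ 𝒞.card = 2 ^ 0 ∧
      (∀ C ∈ 𝒞, C ⊆ T ∧ C.Nonempty ∧ BadCore G H g (2 ^ R) T (s.foot G) C) ∧
      ∀ C ∈ 𝒞, ∀ C' ∈ 𝒞, C ≠ C' → Disjoint C C' := by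
    intro m s hs hbad hm
    obtain ⟨u', Lf, f, hT⟩ := trunc_exists s hs R hm
    have hng := hbad u' hT.ok hT.sub
    have hne : (G.ι s.root).1 ∈ u'.foot G := by
      rcases u'.tl_foot_cases (G := G) with h | h
      · exfalso
        rcases hT.top with ⟨_, h1, _⟩ | h1
        · exact hng h1
        · -- `Lf` is empty, then all patterns agree
          apply hng
          have hLf : Lf = ∅ := by
            rw [Finset.eq_empty_iff_forall_notMem]
            intro l hl
            have := h1 l hl
            rw [h] at this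
            simp at this
          by_contra hg
          rcases badCore_of_trunc hT hg with ⟨b, hb, _⟩ | ⟨X, f', hX, _, _, _, h5, _⟩
          · rw [h] at hb
            simp at hb
          · obtain ⟨l, hl⟩ := hX
            have := (h5 l hl).2.1
            rw [h] at this
            simp at this
      · rwa [hT.root] at h
    refine ⟨u'.foot G, {u'.foot G}, hT.sub, hne, u'.tl_foot_conn hT.ok, by simp, ?_, ?_⟩
    · intro C hC
      rw [Finset.mem_singleton] at hC
      subst hC
      exact ⟨subset_rfl, ⟨_, hne⟩, badCore_of_trunc hT hng⟩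
    · intro C hC C' hC' h
      rw [Finset.mem_singleton] at hC hC'
      exact absurd (hC.trans hC'.symm) h
  induction s with
  | leaf a => intro d hd; omega
  | sg a f s ih =>
    intro d hd
    rcases d with _ | d
    · exact base _ hs hbad hd
    · obtain ⟨h1, h2, h3, h4, h5⟩ := hs
      have hsub : s.foot G ⊆ (St.sg a f s).foot G := Finset.subset_insert _ _
      obtain ⟨T, 𝒞, e1, e2, e3, e4, e5, e6⟩ := ih h4 (fun s' hs' hf => hbad s' hs' (hf.trans hsub))
        (d + 1) hd
      refine ⟨insert (G.ι a).1 T, 𝒞, ?_, Finset.mem_insert_self _ _, ?_, e4, ?_, e6⟩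
      · exact Finset.insert_subset_insert _ e1
      · have h6 := Cub.TConn.join (v := (G.ι a).1) e3 Cub.TConn.empty (T2 := ∅)
          (Or.inr ⟨s.root, h4.tl_free_root, by rw [h2]; rfl, e2⟩) (Or.inl rfl)
        rw [Finset.union_empty] at h6
        exact h6
      · intro C hC
        obtain ⟨c1, c2, c3⟩ := e5 C hC
        refine ⟨c1.trans (Finset.subset_insert _ _), c2, c3.mono hsub ?_⟩
        intro v hv hv'
        rcases Finset.mem_insert.1 hv' with h | h
        · rw [h] at hv
          exact absurd hv h5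
        · exact h
  | br a s t ihs iht =>
    intro d hd
    rcases d with _ | d
    · exact base _ hs hbad hd
    · obtain ⟨h1, h2, h3, h4, h5, h6, h7, h8⟩ := hs
      have hsubs : s.foot G ⊆ (St.br a s t).foot G :=
        Finset.subset_union_left.trans (Finset.subset_insert _ _)
      have hsubt : t.foot G ⊆ (St.br a s t).foot G :=
        Finset.subset_union_right.trans (Finset.subset_insert _ _)
      obtain ⟨T, 𝒞, e1, e2, e3, e4, e5, e6⟩ := ihs h4
        (fun s' hs' hf => hbad s' hs' (hf.trans hsubs)) d (by omega)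
      obtain ⟨T', 𝒞', e1', e2', e3', e4', e5', e6'⟩ := iht h5
        (fun s' hs' hf => hbad s' hs' (hf.trans hsubt)) d (by omega)
      have hcross : ∀ C ∈ 𝒞, ∀ C' ∈ 𝒞', Disjoint C C' := by
        intro C hC C' hC'
        exact Finset.disjoint_of_subset_left ((e5 C hC).1.trans e1)
          (Finset.disjoint_of_subset_right ((e5' C' hC').1.trans e1') h8)
      refine ⟨insert (G.ι a).1 (T ∪ T'), 𝒞 ∪ 𝒞', ?_, Finset.mem_insert_self _ _, ?_, ?_, ?_, ?_⟩
      · exact Finset.insert_subset_insert _ (Finset.union_subset_union e1 e1')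
      · exact Cub.TConn.join (v := (G.ι a).1) e3 e3'
          (Or.inr ⟨s.root, h4.tl_free_root, by rw [h2]; rfl, e2⟩)
          (Or.inr ⟨t.root, h5.tl_free_root, by rw [h3]; rfl, e2'⟩)
      · rw [Finset.card_union_of_disjoint, e4, e4', pow_succ]
        · ring
        · rw [Finset.disjoint_left]
          intro C hC hC'
          obtain ⟨v, hv⟩ := (e5 C hC).2.1
          exact Finset.disjoint_left.1 (hcross C hC C hC') hv hv
      · intro C hC
        rcases Finset.mem_union.1 hC with hC | hC
        · obtain ⟨c1, c2, c3⟩ := e5 C hC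
          refine ⟨c1.trans (Finset.subset_union_left.trans (Finset.subset_insert _ _)), c2,
            c3.mono hsubs ?_⟩
          intro v hv hv'
          rcases Finset.mem_insert.1 hv' with h | h
          · rw [h] at hv
            exact absurd hv h6
          · rcases Finset.mem_union.1 h with h | h
            · exact h
            · exact absurd (e1' h) (Finset.disjoint_left.1 h8 hv)
        · obtain ⟨c1, c2, c3⟩ := e5' C hC
          refine ⟨c1.trans (Finset.subset_union_right.trans (Finset.subset_insert _ _)), c2,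
            c3.mono hsubt ?_⟩
          intro v hv hv'
          rcases Finset.mem_insert.1 hv' with h | h
          · rw [h] at hv
            exact absurd hv h7
          · rcases Finset.mem_union.1 h with h | h
            · exact absurd hv (Finset.disjoint_left.1 h8 (e1 h))
            · exact h
      · intro C hC C' hC' hne
        rcases Finset.mem_union.1 hC with hC | hC <;> rcases Finset.mem_union.1 hC' with hC' | hC'
        · exact e6 C hC C' hC' hne
        · exact hcross C hC C' hC'
        · exact (hcross C' hC' C hC).symm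
        · exact e6' C hC C' hC' hne

end TL1

end basics

end Pool.Agent.LibMP58b56d
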