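import Mathlib
import Pool.Agent.LibMP58b56d.Site
import Pool.Agent.LibMP58b56d.TreeData

/-!
# Regions behind bad cores and the product bound
-/

set_option autoImplicit false

open Finset Classical

namespace Pool.Agent.LibMP58b56d

variable {V : Type} [Fintype V] {G : Cub V} {H : Set (Dt V)} {g : Dt V}

namespace TL1

/-- boundary vector of a cut -/
noncomputable def eb (G : Cub V) (g : Dt V) (Y : Finset (Dt V)) (ε : ZMod 2) (d : Dt V) : ZMod 2 :=
  (if d ∈ Y then 1 else 0) + (if G.ι d ∈ Y then 1 else 0) +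
    ε * ((if d = g then 1 else 0) + (if G.ι d = g then 1 else 0))

/-- a region with prescribed boundary, away from `T`, and without proper closed parts -/
structure RegionOf (G : Cub V) (H : Set (Dt V)) (g : Dt V) (T : Finset V) (Y : Finset (Dt V))
    (ε : ZMod 2) (U : Finset V) : Prop where
  disj : Disjoint U T
  bd : ∀ d ∈ H, (if d.1 ∈ U then (1 : ZMod 2) else 0) + (if (G.ι d).1 ∈ U then 1 else 0) =
    eb G g Y ε d
  min : ∀ I ⊆ U, (∀ d ∈ H, d.1 ∈ I → (G.ι d).1 ∈ I) → I = ∅

theorem region_exists (hH : G.Inv H) {T : Finset V} (hT : G.TConn H g T) (Y : Finset (Dt V))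
    (ε : ZMod 2) (hsum : ∀ x ∈ G.ZH H, ∑ l ∈ Y, x l = ε * x g)
    (hY : ∀ d, G.Free H g d → d.1 ∈ T → (G.ι d).1 ∈ T → d ∉ Y) :
    ∃ U : Finset V, RegionOf G H g T Y ε U := by
  let b : Vec V := fun d => (if d ∈ Y then 1 else 0) + ε * (if d = g then 1 else 0)
  have hb : ∀ x ∈ G.ZH H, dot b x = 0 := by
    intro x hx
    have h1 : dot b x = ∑ l ∈ Y, x l + ε * x g := by
      simp only [dot, b, add_mul, Finset.sum_add_distrib, ite_mul, one_mul, zero_mul, mul_ite,
        mul_one, mul_zero]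
      congr 1
      · rw [← Finset.sum_filter]
        simp
      · simp
    rw [h1, hsum x hx]
    exact zmod2_add_self _
  obtain ⟨U0, hU0⟩ := (Cub.dual hH b).1 hb
  have heb : ∀ d, b d + b (G.ι d) = eb G g Y ε d := by
    intro d
    simp only [b, eb]
    ring
  -- constant on T
  have hconst : ∀ v ∈ T, ∀ w ∈ T, U0 v = U0 w := by
    apply hT
    intro d hd h1 h2
    have h3 := hU0 d hd.tl_mem
    rw [heb d, eb, if_neg (hY d hd h1 h2), if_neg (hY _ hd.tl_iota h2 (by rw [G.inv]; exact h1)),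
      if_neg hd.tl_ne_g, if_neg hd.tl_ne_g'] at h3
    simp only [add_zero, mul_zero] at h3
    exact zmod2_eq_of_add h3.symm
  obtain ⟨t, ht⟩ : ∃ t : ZMod 2, ∀ v ∈ T, U0 v = t := by
    rcases T.eq_empty_or_nonempty with h | ⟨w, hw⟩
    · exact ⟨0, by simp [h]⟩
    · exact ⟨U0 w, fun v hv => hconst v hv w hw⟩
  let P : Finset V → Prop := fun U => Disjoint U T ∧
    ∀ d ∈ H, (if d.1 ∈ U then (1 : ZMod 2) else 0) + (if (G.ι d).1 ∈ U then 1 else 0) =
    eb G g Y ε d
  have hP : P (univ.filter (fun v => U0 v ≠ t)) := by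
    refine ⟨?_, ?_⟩
    · rw [Finset.disjoint_left]
      intro v hv hv'
      rw [Finset.mem_filter] at hv
      exact hv.2 (ht v hv')
    · intro d hd
      rw [← heb d, hU0 d hd]
      have aux : ∀ a b t : ZMod 2, (if a ≠ t then (1 : ZMod 2) else 0) +
          (if b ≠ t then 1 else 0) = a + b := by decide
      simp only [Finset.mem_filter, Finset.mem_univ, true_and]
      exact aux _ _ _
  obtain ⟨U, hU, hmin⟩ := Finset.exists_min_image (univ.filter P) Finset.card
    ⟨_, Finset.mem_filter.2 ⟨Finset.mem_univ _, hP⟩⟩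
  rw [Finset.mem_filter] at hU
  refine ⟨U, hU.2.1, hU.2.2, ?_⟩
  intro I hI hcl
  have hcl' : ∀ d ∈ H, (d.1 ∈ I ↔ (G.ι d).1 ∈ I) := by
    intro d hd
    refine ⟨hcl d hd, fun h => ?_⟩
    have := hcl (G.ι d) (hH d hd) h
    rwa [G.inv] at this
  have h1 : P (U \ I) := by
    refine ⟨Finset.disjoint_of_subset_left Finset.sdiff_subset hU.2.1, ?_⟩
    intro d hd
    rw [← hU.2.2 d hd]
    simp only [Finset.mem_sdiff]
    by_cases h2 : d.1 ∈ I
    · have h3 := (hcl' d hd).1 h2
      simp only [h2, h3, hI h2, hI h3, not_true, and_false, if_false, if_true]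
      decide
    · have h3 : (G.ι d).1 ∉ I := fun h => h2 ((hcl' d hd).2 h)
      simp only [h2, h3, not_false_eq_true, and_true]
  have h2 := hmin (U \ I) (Finset.mem_filter.2 ⟨Finset.mem_univ _, h1⟩)
  rw [Finset.card_sdiff_of_subset hI] at h2
  have h3 := Finset.card_le_card hI
  rw [← Finset.card_eq_zero]
  omega

lemma Om.tl_mem_g {x : Vec V} (hx : x ∈ G.Om H g) : g ∈ H := by
  rw [Cub.Om, Finset.mem_filter] at hx
  by_contra h
  have := hx.2.1.2 g h
  rw [hx.2.2] at this
  exact one_ne_zero this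

theorem region_disjoint (hne : (G.Om H g).Nonempty) {T C C' U U' : Finset V}
    {Y Y' : Finset (Dt V)} {ε ε' : ZMod 2} (hU : RegionOf G H g T Y ε U)
    (hU' : RegionOf G H g T Y' ε' U') (hC : C ⊆ T) (hC' : C' ⊆ T) (hCC : Disjoint C C')
    (hY : ∀ l ∈ Y, l.1 ∈ C ∧ l ≠ g ∧ G.ι l ≠ g) (hY' : ∀ l ∈ Y', l.1 ∈ C' ∧ l ≠ g ∧ G.ι l ≠ g) :
    Disjoint U U' := by
  -- a boundary dart of the intersection is the root edge
  have key : ∀ (C C' U U' : Finset V) (Y Y' : Finset (Dt V)) (ε ε' : ZMod 2),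
      RegionOf G H g T Y ε U → RegionOf G H g T Y' ε' U' → C ⊆ T → C' ⊆ T → Disjoint C C' →
      (∀ l ∈ Y, l.1 ∈ C ∧ l ≠ g ∧ G.ι l ≠ g) → (∀ l ∈ Y', l.1 ∈ C' ∧ l ≠ g ∧ G.ι l ≠ g) →
      ∀ d ∈ H, d.1 ∈ U → d.1 ∈ U' → (G.ι d).1 ∉ U → d = g ∨ G.ι d = g := by
    intro C C' U U' Y Y' ε ε' hU hU' hC hC' hCC hY hY' d hd h1 h1' h2
    by_contra hg
    rw [not_or] at hg
    have h3 := hU.bd d hd
    rw [if_pos h1, if_neg h2, eb, if_neg hg.1, if_neg hg.2] at h3
    simp only [add_zero, mul_zero] at h3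
    have h4 : d ∉ Y := fun h => Finset.disjoint_left.1 hU.disj h1 (hC (hY d h).1)
    rw [if_neg h4, zero_add] at h3
    have h5 : G.ι d ∈ Y := by
      by_contra h
      rw [if_neg h] at h3
      exact one_ne_zero h3
    have h6 := (hY _ h5).1
    have h7 : (G.ι d).1 ∉ U' := fun h => Finset.disjoint_left.1 hU'.disj h (hC h6)
    have h8 := hU'.bd d hd
    rw [if_pos h1', if_neg h7, eb, if_neg hg.1, if_neg hg.2] at h8
    simp only [add_zero, mul_zero] at h8
    have h9 : d ∉ Y' := fun h => Finset.disjoint_left.1 hU'.disj h1' (hC' (hY' d h).1)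
    have h10 : G.ι d ∉ Y' := fun h => Finset.disjoint_left.1 hCC h6 (hY' _ h).1
    rw [if_neg h9, if_neg h10, add_zero] at h8
    exact one_ne_zero h8
  have key2 : ∀ d ∈ H, d.1 ∈ U ∩ U' → (G.ι d).1 ∉ U ∩ U' → d = g ∨ G.ι d = g := by
    intro d hd h1 h2
    rw [Finset.mem_inter] at h1
    by_cases h3 : (G.ι d).1 ∈ U
    · have h4 : (G.ι d).1 ∉ U' := fun h => h2 (Finset.mem_inter.2 ⟨h3, h⟩)
      exact key C' C U' U Y' Y ε' ε hU' hU hC' hC hCC.symm hY' hY d hd h1.2 h1.1 h4
    · exact key C C' U U' Y Y' ε ε' hU hU' hC hC' hCC hY hY' d hd h1.1 h1.2 h3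
  have hcl : ∀ d ∈ H, d.1 ∈ U ∩ U' → (G.ι d).1 ∈ U ∩ U' := by
    intro d hd h1
    by_contra h2
    obtain ⟨x, hx⟩ := hne
    rw [Cub.Om, Finset.mem_filter] at hx
    have hg := key2 d hd h1 h2
    have hxd : x d = 1 := by
      rcases hg with h | h
      · rw [h]; exact hx.2.2
      · rw [← hx.2.1.1.1 d, h]; exact hx.2.2
    have h3 := Cub.parity hx.2.1.1 (U ∩ U')
    rw [Finset.sum_eq_single d] at h3
    · rw [hxd] at h3
      exact one_ne_zero h3
    · intro e he hed
      rw [Finset.mem_filter] at he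
      by_contra h4
      have h5 : e ∈ H := by
        by_contra h6
        exact h4 (hx.2.1.2 e h6)
      have hg' := key2 e h5 he.2.1 he.2.2
      have h6 : e = G.ι d := by
        rcases hg with h | h <;> rcases hg' with h' | h'
        · exact absurd (h'.trans h.symm) hed
        · rw [h, ← h', G.inv]
        · rw [h, h']
        · exfalso
          apply hed
          have := congrArg G.ι (h'.trans h.symm)
          rwa [G.inv, G.inv] at this
      rw [h6] at he
      exact h2 he.2.1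
    · intro h4
      exact absurd (Finset.mem_filter.2 ⟨Finset.mem_univ _, h1, h2⟩) h4
  have := hU.min (U ∩ U') Finset.inter_subset_left hcl
  rw [Finset.disjoint_iff_inter_eq_empty]
  exact this

/-- product bound for local events -/
theorem product_bound {J0 : Type} (Om : Finset (Vec V)) (D : Submodule (ZMod 2) (Vec V))
    (hOm : ∀ x ∈ Om, ∀ z ∈ D, x + z ∈ Om) (Ev : J0 → Finset (Vec V))
    (Gr : J0 → Submodule (ZMod 2) (Vec V)) (P : ℕ) (hP : 0 < P) (J : Finset J0)
    (h1 : ∀ j ∈ J, Gr j ≤ D)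
    (h2 : ∀ j ∈ J, ∀ x ∈ Om, (univ.filter (fun z => z ∈ Gr j)).card ≤
      P * (univ.filter (fun z => z ∈ Gr j ∧ x + z ∈ Ev j)).card)
    (h3 : ∀ j ∈ J, ∀ j' ∈ J, j ≠ j' → ∀ x ∈ Ev j, ∀ z ∈ Gr j', x + z ∈ Ev j) :
    ((Om.filter (fun x => ∀ j ∈ J, x ∉ Ev j)).card : ℝ) ≤ (1 - 1 / P) ^ J.card * Om.card := by
  induction J using Finset.induction_on with
  | empty => simp
  | insert j J hj ih =>
    have ih' := ih (fun i hi => h1 i (Finset.mem_insert_of_mem hi))
      (fun i hi => h2 i (Finset.mem_insert_of_mem hi))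
      (fun i hi i' hi' => h3 i (Finset.mem_insert_of_mem hi) i' (Finset.mem_insert_of_mem hi'))
    set A := Om.filter (fun x => ∀ i ∈ J, x ∉ Ev i) with hA
    have hPr : (0 : ℝ) < P := by exact_mod_cast hP
    have hA' : Om.filter (fun x => ∀ i ∈ insert j J, x ∉ Ev i) = A.filter (fun x => x ∉ Ev j) := by
      ext x
      simp only [hA, Finset.mem_filter, Finset.mem_insert, forall_eq_or_imp]
      tauto
    have hinv : ∀ x ∈ A, ∀ z ∈ Gr j, x + z ∈ A := by
      intro x hx z hz
      rw [hA, Finset.mem_filter] at hx ⊢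
      refine ⟨hOm x hx.1 z (h1 j (Finset.mem_insert_self _ _) hz), fun i hi hmem => ?_⟩
      have hij : i ≠ j := by
        rintro rfl
        exact hj hi
      have := h3 i (Finset.mem_insert_of_mem hi) j (Finset.mem_insert_self _ _) hij _ hmem z hz
      rw [add_assoc] at this
      have h0 : z + z = 0 := by
        funext d
        exact zmod2_add_self _
      rw [h0, add_zero] at this
      exact hx.2 i hi this
    -- double counting
    have hdc : ∑ x ∈ A, (univ.filter (fun z => z ∈ Gr j ∧ x + z ∈ Ev j)).card =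
        (univ.filter (fun z => z ∈ Gr j)).card * (A.filter (fun x => x ∈ Ev j)).card := by
      rw [← Finset.card_sigma, ← Finset.card_product]
      refine Finset.card_bij' (fun p _ => (p.2, p.1 + p.2))
        (fun p _ => (⟨p.2 + p.1, p.1⟩ : Σ _ : Vec V, Vec V)) ?_ ?_ ?_ ?_
      · rintro ⟨x, z⟩ hp
        simp only [Finset.mem_sigma, Finset.mem_filter, Finset.mem_univ, true_and] at hp
        simp only [Finset.mem_product, Finset.mem_filter, Finset.mem_univ, true_and]
        exact ⟨hp.2.1, hinv x hp.1 z hp.2.1, hp.2.2⟩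
      · rintro ⟨z, y⟩ hp
        simp only [Finset.mem_product, Finset.mem_filter, Finset.mem_univ, true_and] at hp
        simp only [Finset.mem_sigma, Finset.mem_filter, Finset.mem_univ, true_and]
        have h0 : y + z + z = y := by
          funext d
          simp only [Pi.add_apply]
          rw [add_assoc, zmod2_add_self, add_zero]
        exact ⟨hinv y hp.2.1 z hp.1, hp.1, by rw [h0]; exact hp.2.2⟩
      · rintro ⟨x, z⟩ _
        simp only [Sigma.mk.injEq, heq_eq_eq, and_true]
        funext d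
        simp only [Pi.add_apply]
        rw [add_assoc, zmod2_add_self, add_zero]
      · rintro ⟨z, y⟩ _
        simp only [Prod.mk.injEq, true_and]
        funext d
        simp only [Pi.add_apply]
        rw [add_assoc, zmod2_add_self, add_zero]
    have h4 : A.card * (univ.filter (fun z => z ∈ Gr j)).card ≤
        P * ((univ.filter (fun z => z ∈ Gr j)).card * (A.filter (fun x => x ∈ Ev j)).card) := by
      rw [← hdc, Finset.mul_sum]
      have : ∑ x ∈ A, (univ.filter (fun z => z ∈ Gr j)).card ≤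
          ∑ x ∈ A, P * (univ.filter (fun z => z ∈ Gr j ∧ x + z ∈ Ev j)).card :=
        Finset.sum_le_sum fun x hx => h2 j (Finset.mem_insert_self _ _) x
          (Finset.mem_of_mem_filter x hx)
      rwa [Finset.sum_const, smul_eq_mul] at this
    have hGpos : 0 < (univ.filter (fun z => z ∈ Gr j)).card :=
      Finset.card_pos.2 ⟨0, by simp⟩
    have h5 : A.card ≤ P * (A.filter (fun x => x ∈ Ev j)).card := by
      have : (univ.filter (fun z => z ∈ Gr j)).card * A.card ≤
          (univ.filter (fun z => z ∈ Gr j)).card * (P * (A.filter (fun x => x ∈ Ev j)).card) := by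
        calc _ = A.card * (univ.filter (fun z => z ∈ Gr j)).card := mul_comm _ _
          _ ≤ _ := h4
          _ = _ := by ring
      exact Nat.le_of_mul_le_mul_left this hGpos
    have h6 : (A.filter (fun x => x ∈ Ev j)).card + (A.filter (fun x => x ∉ Ev j)).card =
        A.card := Finset.card_filter_add_card_filter_not _
    have h5' : (A.card : ℝ) ≤ P * ((A.filter (fun x => x ∈ Ev j)).card : ℝ) := by
      exact_mod_cast h5
    have h6' : ((A.filter (fun x => x ∈ Ev j)).card : ℝ) +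
        ((A.filter (fun x => x ∉ Ev j)).card : ℝ) = A.card := by exact_mod_cast h6
    rw [hA', Finset.card_insert_of_notMem hj, pow_succ]
    have h7 : (A.card : ℝ) / P ≤ ((A.filter (fun x => x ∈ Ev j)).card : ℝ) := by
      rw [div_le_iff₀ hPr]
      linarith
    have h8 : ((A.filter (fun x => x ∉ Ev j)).card : ℝ) ≤ (1 - 1 / P) * A.card := by
      have : (1 - 1 / (P : ℝ)) * A.card = A.card - A.card / P := by ring
      rw [this]
      linarith
    have h9 : (0 : ℝ) ≤ 1 - 1 / P := by
      rw [sub_nonneg, div_le_one hPr]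
      exact_mod_cast hP
    calc ((A.filter (fun x => x ∉ Ev j)).card : ℝ) ≤ (1 - 1 / P) * A.card := h8
      _ ≤ (1 - 1 / P) * ((1 - 1 / P) ^ J.card * Om.card) := mul_le_mul_of_nonneg_left ih' h9
      _ = _ := by ring

end TL1

end Pool.Agent.LibMP58b56d
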