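import Mathlib
import Pool.Agent.LibMP58b56d.Site
import Pool.Agent.LibMP58b56d.TreeData
import Pool.Agent.LibMP58b56d.RegionCut

/-!
# If many circuits are present, some sub-site is good (task TL1)
-/

set_option autoImplicit false

open Finset Classical

namespace Pool.Agent.LibMP58b56d

variable {V : Type} [Fintype V] {G : Cub V} {H : Set (Dt V)} {g : Dt V}

namespace TL1

/-- vectors vanishing on `X` -/
def vanish (X : Finset (Dt V)) : Submodule (ZMod 2) (Vec V) where
  carrier := {x | ∀ l ∈ X, x l = 0}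
  add_mem' := by
    intro x y hx hy l hl
    rw [Pi.add_apply, hx l hl, hy l hl, add_zero]
  zero_mem' := fun _ _ => rfl
  smul_mem' := by
    intro c x hx l hl
    rw [Pi.smul_apply, hx l hl, smul_zero]

/-- interpolation on a finite set of darts by duality -/
lemma interpolate (S : Submodule (ZMod 2) (Vec V)) (X : Finset (Dt V)) (x : Vec V)
    (h : ∀ c : Vec V, (∀ d, c d ≠ 0 → d ∈ X) → (∀ s ∈ S, dot c s = 0) → dot c x = 0) :
    ∃ s ∈ S, ∀ l ∈ X, s l = x l := by
  by_cases hx : x ∈ S ⊔ vanish X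
  · obtain ⟨s, hs, w, hw, hsw⟩ := Submodule.mem_sup.1 hx
    refine ⟨s, hs, fun l hl => ?_⟩
    rw [← hsw, Pi.add_apply, hw l hl, add_zero]
  · exfalso
    obtain ⟨β, hβ, hβ'⟩ := sep _ _ hx
    have h1 : dot β x = 0 := by
      apply h β
      · intro d hd
        by_contra hdX
        apply hd
        have h2 := hβ (Pi.single d 1) (Submodule.mem_sup_right (by
          intro l hl
          rw [Pi.single_apply, if_neg]
          rintro rfl
          exact hdX hl))
        rw [Finset.sum_eq_single d] at h2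
        · simpa using h2
        · intro e _ he
          simp [he]
        · simp
      · intro s hs
        exact hβ s (Submodule.mem_sup_left hs)
    rw [dot] at h1
    rw [h1] at hβ'
    exact zero_ne_one hβ'

/-- vanishing on `X` has index at most `2 ^ |X|` -/
lemma vanish_index (S : Submodule (ZMod 2) (Vec V)) (X : Finset (Dt V)) :
    (univ.filter (fun z => z ∈ S)).card ≤
      2 ^ X.card * (univ.filter (fun z => z ∈ S ∧ z ∈ vanish X)).card := by
  have h1 : ∀ φ ∈ (univ : Finset (X → ZMod 2)),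
      ((univ.filter (fun z => z ∈ S)).filter (fun z : Vec V => (fun l : X => z l.1) = φ)).card ≤
      (univ.filter (fun z => z ∈ S ∧ z ∈ vanish X)).card := by
    intro φ _
    rcases ((univ.filter (fun z => z ∈ S)).filter
      (fun z : Vec V => (fun l : X => z l.1) = φ)).eq_empty_or_nonempty with h | ⟨z0, hz0⟩
    · rw [h]; simp
    · simp only [Finset.mem_filter, Finset.mem_univ, true_and] at hz0
      refine Finset.card_le_card_of_injOn (fun z => z + z0) ?_ ?_
      · intro z hz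
        simp only [Finset.coe_filter, Finset.mem_filter, Finset.mem_univ, true_and,
          Set.mem_ofPred_eq] at hz ⊢
        refine ⟨add_mem hz.1 hz0.1, fun l hl => ?_⟩
        have e1 := congrFun hz.2 ⟨l, hl⟩
        have e2 := congrFun hz0.2 ⟨l, hl⟩
        simp only at e1 e2
        rw [Pi.add_apply, e1, e2]
        exact zmod2_add_self _
      · intro a _ b _ hab
        exact add_right_cancel hab
  have h2 := Finset.card_eq_sum_card_fiberwise (s := univ.filter (fun z => z ∈ S))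
    (t := (univ : Finset (X → ZMod 2))) (f := fun z : Vec V => (fun l : X => z l.1))
    (fun _ _ => Finset.mem_coe.2 (Finset.mem_univ _))
  rw [h2]
  refine (Finset.sum_le_card_nsmul _ _ _ h1).trans ?_
  rw [smul_eq_mul, Finset.card_univ, Fintype.card_fun, ZMod.card, Fintype.card_coe]

/-- the local moves on `W` -/
def moves (G : Cub V) (H : Set (Dt V)) (g : Dt V) (W : Finset V) :
    Submodule (ZMod 2) (Vec V) where
  carrier := {z | z ∈ G.Dir H g ∧ ∀ d : Dt V, d.1 ∉ W → z d = 0}
  add_mem' := by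
    rintro x y ⟨hx, hx'⟩ ⟨hy, hy'⟩
    exact ⟨add_mem hx hy, fun d hd => by rw [Pi.add_apply, hx' d hd, hy' d hd, add_zero]⟩
  zero_mem' := ⟨zero_mem _, fun _ _ => rfl⟩
  smul_mem' := by
    rintro c x ⟨hx, hx'⟩
    exact ⟨Submodule.smul_mem _ _ hx, fun d hd => by rw [Pi.smul_apply, hx' d hd, smul_zero]⟩

/-- existence of a cycle behind a dependent set of leaf darts -/
theorem behind_cycle {T F C U : Finset V} {X : Finset (Dt V)} {f : Dt V → Finset V}
    (hU : RegionOf G H g T X 0 U) (hC : C ⊆ T) (hX : X.Nonempty)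
    (h5 : ∀ l ∈ X, G.Free H g l ∧ l.1 ∈ C ∧ (G.ι l).1 ∈ f l ∧ G.TConn H g (f l) ∧ f l ⊆ F \ T ∧
      ∃ v ∈ f l, ∀ i, G.Free H g (v, i))
    (h6 : ∀ l ∈ X, ∀ l' ∈ X, l ≠ l' → Disjoint (f l) (f l')) :
    ∃ y ∈ G.Dir H g, y ≠ 0 ∧ ∀ d, y d ≠ 0 → d.1 ∈ U := by
  have hXT : ∀ l ∈ X, l.1 ∈ T := fun l hl => hC (h5 l hl).2.1
  have hTU : ∀ v ∈ T, v ∉ U := fun v hv hv' => Finset.disjoint_left.1 hU.disj hv' hv
  have hfT : ∀ l ∈ X, ∀ v ∈ f l, v ∉ T := fun l hl v hv =>
    (Finset.mem_sdiff.1 ((h5 l hl).2.2.2.2.1 hv)).2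
  have heb : ∀ d, eb G g X 0 d = (if d ∈ X then 1 else 0) + (if G.ι d ∈ X then 1 else 0) := by
    intro d
    rw [eb, zero_mul, add_zero]
  -- the darts of `H` leaving `U`
  have hleave : ∀ d ∈ H, d.1 ∈ U → (G.ι d).1 ∉ U → G.ι d ∈ X := by
    intro d hd h1 h2
    have h3 := hU.bd d hd
    rw [heb, if_pos h1, if_neg h2, if_neg (fun h => hTU _ (hXT d h) h1)] at h3
    by_contra h
    rw [if_neg h] at h3
    simp at h3
  have hbot : ∀ l ∈ X, (G.ι l).1 ∈ U := by
    intro l hl
    have h3 := hU.bd l (h5 l hl).1.tl_mem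
    rw [heb, if_pos hl, if_neg (hTU _ (hXT l hl)),
      if_neg (fun h => hfT l hl _ (h5 l hl).2.2.1 (hXT _ h))] at h3
    by_contra h
    rw [if_neg h] at h3
    simp at h3
  have hfU : ∀ l ∈ X, f l ⊆ U := by
    intro l hl v hv
    obtain ⟨_, _, e3, e4, _, _⟩ := h5 l hl
    have h7 := e4 (fun w => if w ∈ U then 1 else 0) (by
      intro d hd h1 h2
      have h3 := hU.bd d hd.tl_mem
      rw [heb, if_neg (fun h => hfT l hl _ h1 (hXT _ h)),
        if_neg (fun h => hfT l hl _ h2 (hXT _ h)), add_zero] at h3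
      exact zmod2_eq_of_add h3) v hv _ e3
    simp only [if_pos (hbot l hl)] at h7
    by_contra h
    rw [if_neg h] at h7
    exact zero_ne_one h7
  have : Nonempty V := by
    obtain ⟨l, _⟩ := hX
    exact ⟨l.1⟩
  have hv5 : ∀ l ∈ X, ∃ v, v ∈ f l ∧ ∀ i, G.Free H g (v, i) := fun l hl => (h5 l hl).2.2.2.2.2
  choose! vv hvv hvv' using hv5
  -- the vertices of `U` with a free dart
  let A : Finset V := U.filter (fun v => ∃ i, G.Free H g (v, i))
  let E0 : Finset (Dt V) := univ.filter (fun d => G.Free H g d ∧ d.1 ∈ U ∧ (G.ι d).1 ∈ U)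
  let Fd : Finset (Dt V) := univ.filter (fun d => G.Free H g d ∧ d.1 ∈ U)
  have hA : A.Nonempty := by
    obtain ⟨l, hl⟩ := hX
    exact ⟨vv l, Finset.mem_filter.2 ⟨hfU l hl (hvv l hl), 0, hvv' l hl 0⟩⟩
  have hr := G.rank_ge (E0 := E0) (by
      intro d hd
      simp only [E0, Finset.mem_filter, Finset.mem_univ, true_and, G.inv] at hd ⊢
      exact ⟨hd.1.tl_iota, hd.2.2, hd.2.1⟩) hA (by
      intro d hd
      simp only [E0, A, Finset.mem_filter, Finset.mem_univ, true_and] at hd ⊢
      exact ⟨hd.2.1, d.2, hd.1⟩)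
  have hFd : Fd.card ≤ E0.card + X.card := by
    have e1 := Finset.card_filter_add_card_filter_not (s := Fd) (fun d => (G.ι d).1 ∈ U)
    have e2 : Fd.filter (fun d => (G.ι d).1 ∈ U) = E0 := by
      ext d
      simp only [Fd, E0, Finset.mem_filter, Finset.mem_univ, true_and]
      tauto
    have e3 : (Fd.filter (fun d => (G.ι d).1 ∉ U)).card ≤ X.card := by
      refine Finset.card_le_card_of_injOn (fun d => G.ι d) ?_ ?_
      · intro d hd
        simp only [Fd, Finset.coe_filter, Finset.mem_filter, Finset.mem_univ, true_and,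
          Set.mem_ofPred_eq] at hd
        exact hleave d hd.1.1.tl_mem hd.1.2 hd.2
      · intro d _ e _ hde
        have := congrArg G.ι hde
        simpa [G.inv] using this
    rw [e2] at e1
    omega
  have hVX : (X.image vv).card = X.card := by
    apply Finset.card_image_of_injOn
    intro l hl l' hl' h
    by_contra hne
    have := Finset.disjoint_left.1 (h6 l hl l' hl' hne) (hvv l hl)
    rw [h] at this
    exact this (hvv l' hl')
  have hVA : X.image vv ⊆ A := by
    intro v hv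
    rw [Finset.mem_image] at hv
    obtain ⟨l, hl, rfl⟩ := hv
    exact Finset.mem_filter.2 ⟨hfU l hl (hvv l hl), 0, hvv' l hl 0⟩
  have hdeg : ∀ v ∈ A, 2 + (if v ∈ X.image vv then 1 else 0) ≤
      (Fd.filter (fun d => d.1 = v)).card := by
    intro v hv
    rw [Finset.mem_filter] at hv
    obtain ⟨hvU, i, hi⟩ := hv
    have e1 : (univ.filter (fun i : Fin 3 => G.Free H g (v, i))).card ≤
        (Fd.filter (fun d => d.1 = v)).card := by
      refine Finset.card_le_card_of_injOn (fun i => (v, i)) ?_ ?_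
      · intro i hi
        simp only [Finset.coe_filter, Finset.mem_univ, true_and, Set.mem_ofPred_eq] at hi
        simp only [Fd, Finset.coe_filter, Finset.mem_filter, Finset.mem_univ, true_and,
          Set.mem_ofPred_eq]
        exact ⟨⟨hi, hvU⟩, trivial⟩
      · intro a _ b _ hab
        exact (Prod.mk.inj hab).2
    refine le_trans ?_ e1
    by_cases hvX : v ∈ X.image vv
    · rw [if_pos hvX]
      rw [Finset.mem_image] at hvX
      obtain ⟨l, hl, rfl⟩ := hvX
      have : univ.filter (fun i : Fin 3 => G.Free H g (vv l, i)) = univ := by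
        apply Finset.filter_true_of_mem
        intro i _
        exact hvv' l hl i
      rw [this]
      simp
    · rw [if_neg hvX, add_zero]
      obtain ⟨z, hz, hzi⟩ := hi
      have hsum := hz.1.1.2 v
      have : ∃ j, j ≠ i ∧ z (v, j) ≠ 0 := by
        by_contra hcon
        push Not at hcon
        rw [Finset.sum_eq_single i (fun j _ hj => hcon j hj) (by simp)] at hsum
        exact hzi hsum
      obtain ⟨j, hji, hj⟩ := this
      have h7 : ({i, j} : Finset (Fin 3)) ⊆ univ.filter (fun i : Fin 3 => G.Free H g (v, i)) := by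
        intro k hk
        rw [Finset.mem_insert, Finset.mem_singleton] at hk
        rw [Finset.mem_filter]
        refine ⟨Finset.mem_univ _, ?_⟩
        rcases hk with rfl | rfl
        · exact ⟨z, hz, hzi⟩
        · exact ⟨z, hz, hj⟩
      have h8 := Finset.card_le_card h7
      rw [Finset.card_pair hji.symm] at h8
      exact h8
  have hFd2 : 2 * A.card + X.card ≤ Fd.card := by
    have e1 := Finset.card_eq_sum_card_fiberwise (s := Fd) (t := A) (f := fun d : Dt V => d.1) (by
      intro d hd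
      simp only [Fd, Finset.coe_filter, Finset.mem_univ, true_and, Set.mem_ofPred_eq] at hd
      exact Finset.mem_coe.2 (Finset.mem_filter.2 ⟨hd.2, d.2, hd.1⟩))
    rw [e1]
    refine le_trans (le_of_eq ?_) (Finset.sum_le_sum hdeg)
    rw [Finset.sum_add_distrib, Finset.sum_const, smul_eq_mul, ← Finset.sum_filter]
    have e2 : A.filter (fun v => v ∈ X.image vv) = X.image vv := by
      ext v
      rw [Finset.mem_filter]
      exact ⟨fun h => h.2, fun h => ⟨hVA h, h⟩⟩
    rw [e2, Finset.sum_const, smul_eq_mul, mul_one, hVX, mul_comm]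
  have hpos : 0 < Module.finrank (ZMod 2) (G.ZH (E0 : Set (Dt V))) := by omega
  have hne : G.ZH (E0 : Set (Dt V)) ≠ ⊥ := by
    intro h
    rw [h, finrank_bot] at hpos
    exact lt_irrefl _ hpos
  obtain ⟨y, hy, hy0⟩ := Submodule.exists_mem_ne_zero_of_ne_bot hne
  have hyE : ∀ d, y d ≠ 0 → d ∈ E0 := by
    intro d hd
    by_contra h
    exact hd (hy.2 d (by simpa using h))
  refine ⟨y, ⟨⟨hy.1, fun d hd => ?_⟩, ?_⟩, hy0, fun d hd => ?_⟩
  · by_contra h
    exact hd ((Finset.mem_filter.1 (hyE d h)).2.1.tl_mem)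
  · by_contra h
    exact (Finset.mem_filter.1 (hyE g h)).2.1.tl_ne_g rfl
  · exact (Finset.mem_filter.1 (hyE d hd)).2.2.1

/-- local routing -/
theorem local_route {T C U : Finset V} {X : Finset (Dt V)}
    (hH : G.Inv H) (hU : RegionOf G H g T X 0 U) (hC : C ⊆ T) (hCn : C.Nonempty)
    (hCc : G.TConn H g C) (hX : ∀ l ∈ X, l.1 ∈ C ∧ (G.ι l).1 ∉ T)
    (hg : g.1 ∉ U ∪ C) {x : Vec V} (hx : x ∈ G.ZH H) :
    ∃ z ∈ moves G H g (U ∪ C), ∀ l ∈ X, z l = x l := by
  have hTU : ∀ v ∈ T, v ∉ U := fun v hv hv' => Finset.disjoint_left.1 hU.disj hv' hv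
  have heb : ∀ d, eb G g X 0 d = (if d ∈ X then 1 else 0) + (if G.ι d ∈ X then 1 else 0) := by
    intro d
    rw [eb, zero_mul, add_zero]
  have hleave : ∀ d ∈ H, d.1 ∈ U → (G.ι d).1 ∉ U → G.ι d ∈ X := by
    intro d hd h1 h2
    have h3 := hU.bd d hd
    rw [heb, if_pos h1, if_neg h2, if_neg (fun h => hTU _ (hC (hX d h).1) h1)] at h3
    by_contra h
    rw [if_neg h] at h3
    simp at h3
  let HW : Set (Dt V) := {d | d ∈ H ∧ d.1 ∈ U ∪ C ∧ (G.ι d).1 ∈ U ∪ C}
  have hHW : G.Inv HW := by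
    intro d hd
    refine ⟨hH d hd.1, hd.2.2, ?_⟩
    rw [G.inv]
    exact hd.2.1
  obtain ⟨z, hz, hzX⟩ := interpolate (G.ZH HW) X x (by
    intro c hc hcS
    obtain ⟨U0, hU0⟩ := (Cub.dual hHW c).1 hcS
    have hc0 : ∀ d : Dt V, d ∉ X → c d = 0 := fun d hd => by
      by_contra h
      exact hd (hc d h)
    obtain ⟨w, hw⟩ := hCn
    have hconst : ∀ v ∈ C, U0 v = U0 w := by
      intro v hv
      refine hCc U0 ?_ v hv w hw
      intro d hd h1 h2
      have h3 := hU0 d ⟨hd.tl_mem, Finset.mem_union_right _ h1, Finset.mem_union_right _ h2⟩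
      rw [hc0 d (fun h => (hX d h).2 (hC h2)), hc0 (G.ι d) (fun h => (hX _ h).2 (by
        rw [G.inv]; exact hC h1)), add_zero] at h3
      exact zmod2_eq_of_add h3.symm
    refine (Cub.dual hH c).2 ⟨fun v => if v ∈ U then U0 v + U0 w else 0, ?_⟩ x hx
    -- the boundary case
    have key : ∀ d ∈ H, d.1 ∈ U → (G.ι d).1 ∉ U → c d + c (G.ι d) = U0 d.1 + U0 w := by
      intro d hd h1 h2
      have h3 := hleave d hd h1 h2
      have h4 := (hX _ h3).1
      have h5 := hU0 d ⟨hd, Finset.mem_union_left _ h1, Finset.mem_union_right _ h4⟩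
      rw [h5, hconst _ h4]
    intro d hd
    change c d + c (G.ι d) = (if d.1 ∈ U then U0 d.1 + U0 w else 0) +
      (if (G.ι d).1 ∈ U then U0 (G.ι d).1 + U0 w else 0)
    by_cases h1 : d.1 ∈ U <;> by_cases h2 : (G.ι d).1 ∈ U
    · rw [if_pos h1, if_pos h2, hU0 d ⟨hd, Finset.mem_union_left _ h1,
        Finset.mem_union_left _ h2⟩]
      generalize U0 d.1 = a1
      generalize U0 (G.ι d).1 = a2
      generalize U0 w = a3
      revert a1 a2 a3
      decide
    · rw [if_pos h1, if_neg h2, add_zero]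
      exact key d hd h1 h2
    · rw [if_neg h1, if_pos h2, zero_add, add_comm]
      have := key (G.ι d) (hH d hd) h2 (by rw [G.inv]; exact h1)
      rwa [G.inv] at this
    · rw [if_neg h1, if_neg h2, add_zero]
      have h3 := hU.bd d hd
      rw [heb, if_neg h1, if_neg h2, add_zero] at h3
      have h4 : d ∉ X := by
        intro h
        rw [if_pos h, if_neg (fun h' => (hX d h).2 (hC (hX _ h').1))] at h3
        simp at h3
      have h5 : G.ι d ∉ X := by
        intro h
        rw [if_neg h4, if_pos h] at h3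
        simp at h3
      rw [hc0 d h4, hc0 _ h5, add_zero])
  have hzW : ∀ d, z d ≠ 0 → d ∈ HW := by
    intro d hd
    by_contra h
    exact hd (hz.2 d h)
  refine ⟨z, ⟨⟨⟨hz.1, fun d hd => ?_⟩, ?_⟩, fun d hd => ?_⟩, hzX⟩
  · by_contra h
    exact hd (hzW d h).1
  · by_contra h
    exact hg (hzW g h).2.1
  · by_contra h
    exact hd (hzW d h).2.1

/-- a local event whose elements are not circuits -/
def LocalEvent (G : Cub V) (H : Set (Dt V)) (g : Dt V) (P : ℕ) (W : Finset V) : Prop :=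
  ∃ E : Finset (Vec V), (∀ x ∈ E, x ∈ G.Om H g ∧ ¬ G.IsCirc x) ∧
    (∀ x ∈ G.Om H g, (univ.filter (fun z => z ∈ moves G H g W)).card ≤
      P * (univ.filter (fun z => z ∈ moves G H g W ∧ x + z ∈ E)).card) ∧
    ∀ x ∈ E, ∀ y ∈ G.Om H g, (∀ d : Dt V, d.1 ∈ W → x d = y d) → y ∈ E

theorem region_event {T F C U : Finset V} {X : Finset (Dt V)} {f : Dt V → Finset V} {p : ℕ}
    (hH : G.Inv H) (hU : RegionOf G H g T X 0 U) (hC : C ⊆ T) (hCn : C.Nonempty)
    (hX : X.Nonempty) (hXp : X.card ≤ p) (hCc : G.TConn H g C)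
    (h5 : ∀ l ∈ X, G.Free H g l ∧ l.1 ∈ C ∧ (G.ι l).1 ∈ f l ∧ G.TConn H g (f l) ∧ f l ⊆ F \ T ∧
      ∃ v ∈ f l, ∀ i, G.Free H g (v, i))
    (h6 : ∀ l ∈ X, ∀ l' ∈ X, l ≠ l' → Disjoint (f l) (f l'))
    (hg : g.1 ∉ U ∪ C) : LocalEvent G H g (2 ^ (p + 1)) (U ∪ C) := by
  have hXC : ∀ l ∈ X, l.1 ∈ C ∧ (G.ι l).1 ∉ T := fun l hl =>
    ⟨(h5 l hl).2.1, (Finset.mem_sdiff.1 ((h5 l hl).2.2.2.2.1 (h5 l hl).2.2.1)).2⟩
  have hTU : ∀ v ∈ T, v ∉ U := fun v hv hv' => Finset.disjoint_left.1 hU.disj hv' hv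
  have heb : ∀ d, eb G g X 0 d = (if d ∈ X then 1 else 0) + (if G.ι d ∈ X then 1 else 0) := by
    intro d
    rw [eb, zero_mul, add_zero]
  have hleave : ∀ d ∈ H, d.1 ∈ U → (G.ι d).1 ∉ U → G.ι d ∈ X := by
    intro d hd h1 h2
    have h3 := hU.bd d hd
    rw [heb, if_pos h1, if_neg h2, if_neg (fun h => hTU _ (hC (hXC d h).1) h1)] at h3
    by_contra h
    rw [if_neg h] at h3
    simp at h3
  obtain ⟨y, hy, hy0, hyU⟩ := behind_cycle hU hC hX h5 h6
  have hyU' : ∀ d, y d ≠ 0 → (G.ι d).1 ∈ U := fun d hd =>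
    hyU (G.ι d) (by rw [hy.1.1.1 d]; exact hd)
  have hself : ∀ z : Vec V, z + z = 0 := fun z => by
    funext d
    exact zmod2_add_self _
  have hOm : ∀ x ∈ G.Om H g, ∀ z ∈ G.Dir H g, x + z ∈ G.Om H g := by
    intro x hx z hz
    rw [Cub.Om, Finset.mem_filter] at hx ⊢
    refine ⟨Finset.mem_univ _, add_mem hx.2.1 hz.1, ?_⟩
    rw [Pi.add_apply, hx.2.2, hz.2, add_zero]
  refine ⟨(G.Om H g).filter (fun x => (∀ l ∈ X, x l = 0) ∧ ∃ d : Dt V, d.1 ∈ U ∧
    (G.ι d).1 ∈ U ∧ x d ≠ 0), ?_, ?_, ?_⟩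
  · intro x hx
    rw [Finset.mem_filter] at hx
    obtain ⟨hxO, hxX, d, hd1, hd2, hd3⟩ := hx
    refine ⟨hxO, fun hcirc => ?_⟩
    rw [Cub.Om, Finset.mem_filter] at hxO
    have hxZ := hxO.2.1
    -- the part of `x` inside `U`
    let y' : Vec V := fun e => if e.1 ∈ U ∧ (G.ι e).1 ∈ U then x e else 0
    have hval : ∀ v ∈ U, ∀ k, y' (v, k) = x (v, k) := by
      intro v hv k
      by_cases h1 : (G.ι (v, k)).1 ∈ U
      · exact if_pos ⟨hv, h1⟩
      · have h2 : y' (v, k) = 0 := if_neg (fun h => h1 h.2)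
        rw [h2]
        by_cases h3 : (v, k) ∈ H
        · rw [← hxZ.1.1 (v, k), hxX _ (hleave _ h3 hv h1)]
        · exact (hxZ.2 _ h3).symm
    have hy' : y' ∈ G.Z := by
      refine ⟨fun e => ?_, fun v => ?_⟩
      · simp only [y', G.inv, hxZ.1.1 e]
        simp only [and_comm]
      · by_cases hv : v ∈ U
        · simp only [hval v hv]
          exact hxZ.1.2 v
        · refine Finset.sum_eq_zero fun k _ => ?_
          exact if_neg (fun h => hv h.1)
    rcases hcirc.2.2 y' hy' (fun e he => by simp only [y', he, ite_self]) with h | h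
    · have := congrFun h d
      simp only [y', Pi.zero_apply, if_pos (show d.1 ∈ U ∧ (G.ι d).1 ∈ U from ⟨hd1, hd2⟩)] at this
      exact hd3 this
    · have := congrFun h g
      have hgU : ¬ (g.1 ∈ U ∧ (G.ι g).1 ∈ U) := fun h => hg (Finset.mem_union_left _ h.1)
      simp only [y', if_neg hgU, hxO.2.2] at this
      exact zero_ne_one this
  · intro x hx
    have hx' := hx
    rw [Cub.Om, Finset.mem_filter] at hx'
    obtain ⟨z0, hz0, hz0X⟩ := local_route hH hU hC hCn hCc hXC hg hx'.2.1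
    have h1 := vanish_index (moves G H g (U ∪ C)) X
    set E := (G.Om H g).filter (fun x => (∀ l ∈ X, x l = 0) ∧ ∃ d : Dt V, d.1 ∈ U ∧
      (G.ι d).1 ∈ U ∧ x d ≠ 0) with hE
    set S := univ.filter (fun z => z ∈ moves G H g (U ∪ C) ∧ x + z ∈ E) with hS
    set S0 := univ.filter (fun z => z ∈ moves G H g (U ∪ C) ∧ z ∈ vanish X) with hS0
    have hym : y ∈ moves G H g (U ∪ C) := by
      refine ⟨hy, fun d hd => ?_⟩
      by_contra h
      exact hd (Finset.mem_union_left _ (hyU d h))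
    have hyX : ∀ l ∈ X, y l = 0 := by
      intro l hl
      by_contra h
      exact hTU _ (hC (hXC l hl).1) (hyU l h)
    have h2 : S0.card ≤ 2 * S.card := by
      have h3 : S0.card = (S0.filter (fun z => z0 + z ∈ S)).card +
          (S0.filter (fun z => z0 + z ∉ S)).card :=
        (Finset.card_filter_add_card_filter_not _).symm
      have h4 : (S0.filter (fun z => z0 + z ∈ S)).card ≤ S.card := by
        refine Finset.card_le_card_of_injOn (fun z => z0 + z) ?_ ?_
        · intro z hz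
          exact (Finset.mem_filter.1 hz).2
        · intro a _ b _ hab
          exact add_left_cancel hab
      have h5' : (S0.filter (fun z => z0 + z ∉ S)).card ≤ S.card := by
        refine Finset.card_le_card_of_injOn (fun z => z0 + z + y) ?_ ?_
        · intro z hz
          rw [Finset.mem_coe, Finset.mem_filter] at hz
          obtain ⟨hz, hzn⟩ := hz
          rw [hS0, Finset.mem_filter] at hz
          have hmv : z0 + z ∈ moves G H g (U ∪ C) := add_mem hz0 hz.2.1
          have hmv' : z0 + z + y ∈ moves G H g (U ∪ C) := add_mem hmv hym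
          -- `x + z0 + z` vanishes inside `U`
          have hins : ∀ d : Dt V, d.1 ∈ U → (G.ι d).1 ∈ U → (x + (z0 + z)) d = 0 := by
            intro d hd1 hd2
            by_contra h
            apply hzn
            rw [hS, Finset.mem_filter]
            refine ⟨Finset.mem_univ _, hmv, ?_⟩
            rw [hE, Finset.mem_filter]
            refine ⟨hOm x hx _ hmv.1, fun l hl => ?_, d, hd1, hd2, h⟩
            rw [Pi.add_apply, Pi.add_apply, hz0X l hl, hz.2.2 l hl, add_zero]
            exact zmod2_add_self _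
          rw [Finset.mem_coe, hS, Finset.mem_filter]
          refine ⟨Finset.mem_univ _, hmv', ?_⟩
          rw [hE, Finset.mem_filter]
          refine ⟨hOm x hx _ hmv'.1, fun l hl => ?_, ?_⟩
          · change x l + (z0 l + z l + y l) = 0
            rw [hz0X l hl, hz.2.2 l hl, hyX l hl, add_zero, add_zero]
            exact zmod2_add_self _
          · have : ∃ d, y d ≠ 0 := by
              by_contra h
              push Not at h
              exact hy0 (funext h)
            obtain ⟨d, hd⟩ := this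
            refine ⟨d, hyU d hd, hyU' d hd, ?_⟩
            have h7 : (x + (z0 + z + y)) d = (x + (z0 + z)) d + y d := by
              simp only [Pi.add_apply]
              ring
            rw [h7, hins d (hyU d hd) (hyU' d hd), zero_add]
            exact hd
        · intro a _ b _ hab
          exact add_left_cancel (add_right_cancel hab)
      omega
    calc _ ≤ 2 ^ X.card * S0.card := h1
      _ ≤ 2 ^ X.card * (2 * S.card) := Nat.mul_le_mul_left _ h2
      _ = 2 ^ (X.card + 1) * S.card := by ring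
      _ ≤ 2 ^ (p + 1) * S.card :=
        Nat.mul_le_mul_right _ (Nat.pow_le_pow_right (by norm_num) (by omega))
  · intro x hx y' hy' hxy
    rw [Finset.mem_filter] at hx ⊢
    obtain ⟨_, hxX, d, hd1, hd2, hd3⟩ := hx
    refine ⟨hy', fun l hl => ?_, d, hd1, hd2, ?_⟩
    · rw [← hxy l (Finset.mem_union_right _ (hXC l hl).1)]
      exact hxX l hl
    · rw [← hxy d (Finset.mem_union_left _ hd1)]
      exact hd3

/-- the region behind a bad core, with its event -/
theorem badCore_region {T F C : Finset V} {p : ℕ} (hH : G.Inv H) (hne : (G.Om H g).Nonempty)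
    (hT : G.TConn H g T) (hC : C ⊆ T) (hCn : C.Nonempty) (hbad : BadCore G H g p T F C) :
    ∃ U : Finset V, Disjoint U T ∧ (U = ∅ ∨ ∃ (Y : Finset (Dt V)) (ε : ZMod 2),
      (∀ l ∈ Y, l.1 ∈ C ∧ l ≠ g ∧ G.ι l ≠ g) ∧ RegionOf G H g T Y ε U) ∧
      (g.1 ∉ U ∪ C → (G.ι g).1 ∉ U ∪ C → LocalEvent G H g (2 ^ (p + 1)) (U ∪ C)) := by
  obtain ⟨x0, hx0⟩ := hne
  have hgH : g ∈ H := Om.tl_mem_g hx0
  rw [Cub.Om, Finset.mem_filter] at hx0
  have hdir : ∀ x ∈ G.ZH H, x g = 1 → x + x0 ∈ G.Dir H g := by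
    intro x hx hxg
    refine ⟨add_mem hx hx0.2.1, ?_⟩
    rw [Pi.add_apply, hxg, hx0.2.2]
    exact zmod2_add_self 1
  -- if `g` is in the boundary, then the core is exceptional
  have hexc : ∀ (Y : Finset (Dt V)) (U : Finset V), (∀ l ∈ Y, l ≠ g ∧ G.ι l ≠ g) →
      RegionOf G H g T Y 1 U → g.1 ∉ U ∪ C → (G.ι g).1 ∉ U ∪ C → False := by
    intro Y U hY hU h1 h2
    have h3 := hU.bd g hgH
    rw [if_neg (fun h => h1 (Finset.mem_union_left _ h)),
      if_neg (fun h => h2 (Finset.mem_union_left _ h)), eb, if_neg (fun h => (hY g h).1 rfl),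
      if_neg (fun h => (hY _ h).2 (G.inv g)), if_pos rfl, if_neg (G.nofix g)] at h3
    simp at h3
  rcases hbad with ⟨b, hbC, hbF, x1, hx1, hx1b⟩ | ⟨X, f, h1, h2, h3, h4, h5, h6⟩
  · by_cases hbg : b = g ∨ G.ι b = g
    · refine ⟨∅, Finset.disjoint_empty_left _, Or.inl rfl, fun e1 e2 => ?_⟩
      exfalso
      rcases hbg with h | h
      · rw [h] at hbC
        exact e1 (Finset.mem_union_right _ hbC)
      · have : G.ι g = b := by rw [← h, G.inv]
        rw [this] at e2
        exact e2 (Finset.mem_union_right _ hbC)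
    · rw [not_or] at hbg
      rw [Cub.Om, Finset.mem_filter] at hx1
      have hYg : ∀ l ∈ ({b} : Finset (Dt V)), l ≠ g ∧ G.ι l ≠ g := by
        intro l hl
        rw [Finset.mem_singleton] at hl
        rw [hl]
        exact hbg
      obtain ⟨U, hU⟩ := region_exists (G := G) (g := g) hH hT {b} 1 (by
        intro x hx
        rw [Finset.sum_singleton, one_mul]
        rcases zmod2_cases (x g) with h | h
        · rw [h]
          by_contra h7
          exact hbF ⟨x, ⟨hx, h⟩, h7⟩
        · rw [h]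
          have h7 : x + x1 ∈ G.Dir H g := by
            refine ⟨add_mem hx hx1.2.1, ?_⟩
            rw [Pi.add_apply, h, hx1.2.2]
            exact zmod2_add_self 1
          have h8 : (x + x1) b = 0 := by
            by_contra h9
            exact hbF ⟨_, h7, h9⟩
          rw [Pi.add_apply, zmod2_ne_zero hx1b] at h8
          exact zmod2_eq_of_add h8) (by
        intro d hd _ _ hdb
        rw [Finset.mem_singleton] at hdb
        rw [hdb] at hd
        exact hbF hd)
      refine ⟨U, hU.disj, Or.inr ⟨{b}, 1, ?_, hU⟩, fun e1 e2 => (hexc {b} U hYg hU e1 e2).elim⟩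
      intro l hl
      refine ⟨?_, hYg l hl⟩
      rw [Finset.mem_singleton] at hl
      rw [hl]
      exact hbC
  · have hXT : ∀ l ∈ X, (G.ι l).1 ∉ T := fun l hl =>
      (Finset.mem_sdiff.1 ((h5 l hl).2.2.2.2.1 (h5 l hl).2.2.1)).2
    have hXg : ∀ l ∈ X, l ≠ g ∧ G.ι l ≠ g := fun l hl => ⟨(h5 l hl).1.tl_ne_g, (h5 l hl).1.tl_ne_g'⟩
    obtain ⟨U, hU⟩ := region_exists (G := G) (g := g) hH hT X (∑ l ∈ X, x0 l) (by
        intro x hx
        rcases zmod2_cases (x g) with h | h
        · rw [h, mul_zero]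
          exact h4 x ⟨hx, h⟩
        · rw [h, mul_one]
          have h7 := h4 _ (hdir x hx h)
          simp only [Pi.add_apply, Finset.sum_add_distrib] at h7
          exact zmod2_eq_of_add h7) (by
        intro d _ _ hd2 hdX
        exact hXT d hdX hd2)
    refine ⟨U, hU.disj, Or.inr ⟨X, _, fun l hl => ⟨(h5 l hl).2.1, hXg l hl⟩, hU⟩, ?_⟩
    intro e1 e2
    rcases zmod2_cases (∑ l ∈ X, x0 l) with h | h
    · rw [h] at hU
      exact region_event hH hU hC hCn h1 h2 h3 h5 h6 e1
    · rw [h] at hU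
      exact (hexc X U hXg hU e1 e2).elim

end TL1

open TL1 in
/-- task TL1 -/
theorem good_site (R : ℕ) (η : ℝ) (hη : 0 < η) : ∃ h : ℕ, ∀ (V : Type) [Fintype V] (G : Cub V)
    (H : Set (Dt V)) (g : Dt V), G.Inv H → ∀ s : St V h, s.Ok G H g →
    η * (G.Om H g).card < (((G.Om H g).filter (fun x => G.IsCirc x)).card : ℝ) →
    ∃ s' : St V R, s'.Ok G H g ∧ s'.Good G H g ∧ s'.foot G ⊆ s.foot G := by
  set P : ℕ := 2 ^ (2 ^ R + 1) with hPdef
  have hP : 0 < P := by positivity
  have hPr : (0 : ℝ) < P := by exact_mod_cast hP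
  obtain ⟨m, hm⟩ := exists_pow_lt_of_lt_one hη (show (1 - 1 / (P : ℝ)) < 1 by
    have : (0 : ℝ) < 1 / P := by positivity
    linarith)
  refine ⟨R + 1 + (m + 2), ?_⟩
  intro V _ G H g hH s hs hlt
  by_contra hcon
  push Not at hcon
  have hne : (G.Om H g).Nonempty := by
    by_contra h
    rw [Finset.not_nonempty_iff_eq_empty] at h
    rw [h] at hlt
    simp at hlt
  obtain ⟨T, 𝒞, hTs, _, hTc, hcard, hall, hdisj⟩ := tree_family R s hs
    (fun s' h1 h2 h3 => hcon s' h1 h3 h2) (m + 2) rfl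
  have hreg := fun C (hC : C ∈ 𝒞) => badCore_region hH hne hTc (hall C hC).1 (hall C hC).2.1
    (hall C hC).2.2
  choose! U hUT hUr hUe using hreg
  -- the regions are disjoint
  have hUU : ∀ C ∈ 𝒞, ∀ C' ∈ 𝒞, C ≠ C' → Disjoint (U C) (U C') := by
    intro C hC C' hC' hCC
    rcases hUr C hC with h | ⟨Y, ε, hY, hR⟩
    · rw [h]; exact Finset.disjoint_empty_left _
    rcases hUr C' hC' with h | ⟨Y', ε', hY', hR'⟩
    · rw [h]; exact Finset.disjoint_empty_right _
    exact region_disjoint hne hR hR' (hall C hC).1 (hall C' hC').1 (hdisj C hC C' hC' hCC) hY hY'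
  have hWW : ∀ C ∈ 𝒞, ∀ C' ∈ 𝒞, C ≠ C' → Disjoint (U C ∪ C) (U C' ∪ C') := by
    intro C hC C' hC' hCC
    rw [Finset.disjoint_union_left, Finset.disjoint_union_right, Finset.disjoint_union_right]
    exact ⟨⟨hUU C hC C' hC' hCC, Finset.disjoint_of_subset_right (hall C' hC').1 (hUT C hC)⟩,
      ⟨(Finset.disjoint_of_subset_right (hall C hC).1 (hUT C' hC')).symm, hdisj C hC C' hC' hCC⟩⟩
  -- at most one region contains a given vertex
  have hone : ∀ v : V, (𝒞.filter (fun C => v ∈ U C ∪ C)).card ≤ 1 := by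
    intro v
    rw [Finset.card_le_one]
    intro C hC C' hC'
    rw [Finset.mem_filter] at hC hC'
    by_contra hCC
    exact Finset.disjoint_left.1 (hWW C hC.1 C' hC'.1 hCC) hC.2 hC'.2
  set J := 𝒞.filter (fun C => g.1 ∉ U C ∪ C ∧ (G.ι g).1 ∉ U C ∪ C) with hJ
  have hJcard : m ≤ J.card := by
    have h1 : 𝒞 ⊆ J ∪ 𝒞.filter (fun C => g.1 ∈ U C ∪ C) ∪
        𝒞.filter (fun C => (G.ι g).1 ∈ U C ∪ C) := by
      intro C hC
      rw [hJ]
      simp only [Finset.mem_union, Finset.mem_filter]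
      tauto
    have h2 := Finset.card_le_card h1
    have h3 := Finset.card_union_le (J ∪ 𝒞.filter (fun C => g.1 ∈ U C ∪ C))
      (𝒞.filter (fun C => (G.ι g).1 ∈ U C ∪ C))
    have h4 := Finset.card_union_le J (𝒞.filter (fun C => g.1 ∈ U C ∪ C))
    have h5 := hone g.1
    have h6 := hone (G.ι g).1
    have h7 : m + 2 < 2 ^ (m + 2) := Nat.lt_two_pow_self
    omega
  have hev := fun C (hC : C ∈ J) => hUe C (Finset.mem_filter.1 hC).1 (Finset.mem_filter.1 hC).2.1
    (Finset.mem_filter.1 hC).2.2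
  unfold LocalEvent at hev
  choose! Ev hE1 hE2 hE3 using hev
  have hOm : ∀ x ∈ G.Om H g, ∀ z ∈ G.Dir H g, x + z ∈ G.Om H g := by
    intro x hx z hz
    rw [Cub.Om, Finset.mem_filter] at hx ⊢
    refine ⟨Finset.mem_univ _, add_mem hx.2.1 hz.1, ?_⟩
    rw [Pi.add_apply, hx.2.2, hz.2, add_zero]
  have hprod := product_bound (G.Om H g) (G.Dir H g) hOm Ev (fun C => moves G H g (U C ∪ C)) P hP J
    (fun C _ z hz => hz.1)
    (fun C hC x hx => hE2 C hC x hx)
    (by
      intro C hC C' hC' hCC x hx z hz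
      refine hE3 C hC x hx _ (hOm x (hE1 C hC x hx).1 z hz.1) ?_
      intro d hd
      have : d.1 ∉ U C' ∪ C' := Finset.disjoint_left.1
        (hWW C (Finset.mem_filter.1 hC).1 C' (Finset.mem_filter.1 hC').1 hCC) hd
      rw [Pi.add_apply, hz.2 d this, add_zero])
  have hsub : ((G.Om H g).filter (fun x => G.IsCirc x)).card ≤
      ((G.Om H g).filter (fun x => ∀ C ∈ J, x ∉ Ev C)).card := by
    apply Finset.card_le_card
    intro x hx
    rw [Finset.mem_filter] at hx ⊢
    exact ⟨hx.1, fun C hC hmem => (hE1 C hC x hmem).2 hx.2⟩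
  have hsub' : (((G.Om H g).filter (fun x => G.IsCirc x)).card : ℝ) ≤
      (((G.Om H g).filter (fun x => ∀ C ∈ J, x ∉ Ev C)).card : ℝ) := by exact_mod_cast hsub
  have h0 : (0 : ℝ) ≤ 1 - 1 / P := by
    rw [sub_nonneg, div_le_one hPr]
    exact_mod_cast hP
  have h1 : (1 - 1 / (P : ℝ)) ^ J.card ≤ (1 - 1 / (P : ℝ)) ^ m :=
    pow_le_pow_of_le_one h0 (by
      have : (0 : ℝ) < 1 / P := by positivity
      linarith) hJcard
  have h2 : (1 - 1 / (P : ℝ)) ^ J.card * (G.Om H g).card ≤ η * (G.Om H g).card :=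
    mul_le_mul_of_nonneg_right (h1.trans hm.le) (Nat.cast_nonneg _)
  have hprod' : (((G.Om H g).filter (fun x => ∀ C ∈ J, x ∉ Ev C)).card : ℝ) ≤
      (1 - 1 / (P : ℝ)) ^ J.card * (G.Om H g).card := by convert hprod
  exact absurd hlt (not_lt.2 (hsub'.trans (hprod'.trans h2)))

end Pool.Agent.LibMP58b56d
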