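import Mathlib
import Pool.Agent.LibMP58b56d.Site

set_option autoImplicit false

open Finset Classical

namespace Pool.Agent.LibMP58b56d

/-! ### patterns -/

lemma Pt.np_tot_add : ∀ (k : ℕ) (p q : Pt k), Pt.tot k (p + q) = Pt.tot k p + Pt.tot k q
  | 0, _, _ => rfl
  | k + 1, p, q => by
    change Pt.tot k (p.1 + q.1) + Pt.tot k (p.2 + q.2) =
      (Pt.tot k p.1 + Pt.tot k p.2) + (Pt.tot k q.1 + Pt.tot k q.2)
    rw [Pt.np_tot_add k, Pt.np_tot_add k]
    ring

lemma Pt.np_exists_tot_one : ∀ k : ℕ, ∃ e : Pt k, Pt.tot k e = 1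
  | 0 => ⟨(1 : ZMod 2), rfl⟩
  | k + 1 => by
    obtain ⟨e, he⟩ := Pt.np_exists_tot_one k
    refine ⟨((e, 0) : Pt k × Pt k), ?_⟩
    change Pt.tot k e + Pt.tot k 0 = 1
    have h0 : Pt.tot k 0 = 0 := by
      have := Pt.np_tot_add k 0 0
      rw [add_zero] at this
      generalize Pt.tot k 0 = a at *
      revert a
      decide
    rw [he, h0, add_zero]

/-- number of patterns with a property -/
noncomputable def Pt.cn {k : ℕ} (P : Pt k → Prop) : ℕ :=
  @Finset.card _ (@Finset.filter _ P (fun _ => Classical.propDecidable _) univ)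

lemma Pt.cn_eq {k : ℕ} (P : Pt k → Prop) [DecidablePred P] :
    (univ.filter P).card = Pt.cn P := by
  unfold Pt.cn
  congr

lemma Pt.cn_congr {k : ℕ} {P Q : Pt k → Prop} (h : ∀ p, P p ↔ Q p) : Pt.cn P = Pt.cn Q := by
  have : P = Q := funext fun p => propext (h p)
  rw [this]

lemma Pt.cn_add_not {k : ℕ} (P Q : Pt k → Prop) :
    Pt.cn (fun p => P p ∧ Q p) + Pt.cn (fun p => P p ∧ ¬ Q p) = Pt.cn P := by
  have e3 := Finset.card_filter_add_card_filter_not (s := univ.filter P) Q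
  rw [Finset.filter_filter, Finset.filter_filter, Pt.cn_eq, Pt.cn_eq, Pt.cn_eq] at e3
  exact e3

lemma Pt.cn_le_add {k : ℕ} {P Q R : Pt k → Prop} (h : ∀ p, P p → Q p ∨ R p) :
    Pt.cn P ≤ Pt.cn Q + Pt.cn R := by
  rw [← Pt.cn_eq P, ← Pt.cn_eq Q, ← Pt.cn_eq R]
  refine le_trans (Finset.card_le_card ?_) (Finset.card_union_le _ _)
  intro p hp
  simp only [Finset.mem_filter, Finset.mem_univ, true_and, Finset.mem_union] at hp ⊢
  exact h p hp

lemma Pt.cn_true (k : ℕ) : Pt.cn (fun _ : Pt k => True) = Fintype.card (Pt k) := by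
  rw [← Pt.cn_eq]
  simp [Finset.card_univ]

lemma Pt.cn_prod (k : ℕ) (A B : Pt k → Prop) :
    Pt.cn (fun p : Pt (k + 1) => A p.1 ∧ B p.2) = Pt.cn A * Pt.cn B := by
  have h : (univ.filter (fun p : Pt k × Pt k => A p.1 ∧ B p.2)) =
      (univ.filter A) ×ˢ (univ.filter B) := by
    ext p
    simp
  have h2 := congrArg Finset.card h
  rw [Finset.card_product, Pt.cn_eq, Pt.cn_eq] at h2
  rw [← h2]
  rw [← Pt.cn_eq]
  rfl

lemma Pt.cn_tot_eq (k : ℕ) :
    Pt.cn (fun p : Pt k => Pt.tot k p = 0) = Pt.cn (fun p : Pt k => Pt.tot k p = 1) := by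
  obtain ⟨e, he⟩ := Pt.np_exists_tot_one k
  rw [← Pt.cn_eq, ← Pt.cn_eq]
  refine Finset.card_bij' (fun p _ => p + e) (fun p _ => p - e) ?_ ?_ ?_ ?_
  · intro p hp
    simp only [Finset.mem_filter, Finset.mem_univ, true_and] at hp ⊢
    rw [Pt.np_tot_add, hp, he, zero_add]
  · intro p hp
    simp only [Finset.mem_filter, Finset.mem_univ, true_and] at hp ⊢
    have h1 := Pt.np_tot_add k (p - e) e
    rw [sub_add_cancel, hp, he] at h1
    generalize Pt.tot k (p - e) = a at *
    revert a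
    decide
  · intro p _
    simp
  · intro p _
    simp

lemma Pt.cn_tot_zero (k : ℕ) :
    2 * Pt.cn (fun p : Pt k => Pt.tot k p = 0) = Fintype.card (Pt k) := by
  have h1 := Pt.cn_add_not (fun _ : Pt k => True) (fun p => Pt.tot k p = 0)
  have h2 : Pt.cn (fun p : Pt k => True ∧ ¬ Pt.tot k p = 0) =
      Pt.cn (fun p : Pt k => Pt.tot k p = 1) := by
    apply Pt.cn_congr
    intro p
    constructor
    · intro h
      exact zmod2_ne_zero h.2
    · intro h
      refine ⟨trivial, fun h' => ?_⟩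
      rw [h] at h'
      exact one_ne_zero h'
  have h3 : Pt.cn (fun p : Pt k => True ∧ Pt.tot k p = 0) =
      Pt.cn (fun p : Pt k => Pt.tot k p = 0) := Pt.cn_congr fun p => by simp
  rw [h2, h3, ← Pt.cn_tot_eq, Pt.cn_true] at h1
  omega

lemma Pt.cn_tot_one (k : ℕ) :
    2 * Pt.cn (fun p : Pt k => Pt.tot k p = 1) = Fintype.card (Pt k) := by
  rw [← Pt.cn_tot_eq, Pt.cn_tot_zero]

lemma Pt.np_card_succ (k : ℕ) :
    Fintype.card (Pt (k + 1)) = Fintype.card (Pt k) * Fintype.card (Pt k) := by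
  rw [← Fintype.card_prod]
  rfl

lemma Pt.np_Up_tot : ∀ (l k : ℕ) (p : Pt k), Pt.Up l k p → Pt.tot k p = 0
  | 0, _, _, h => by simpa [Pt.Up] using h
  | l + 1, 0, _, h => by simp [Pt.Up] at h
  | l + 1, k + 1, p, h => by
    obtain ⟨h1, h2, _⟩ := h
    change Pt.tot k p.1 + Pt.tot k p.2 = 0
    rw [h1, h2, add_zero]

/-- task TL2 (ii) -/
theorem Pt.card_Up (l k : ℕ) :
    (l + 2) * (univ.filter (fun p : Pt k => Pt.Up l k p)).card ≤ Fintype.card (Pt k) := by
  rw [Pt.cn_eq]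
  induction l generalizing k with
  | zero =>
    have h1 := Pt.cn_tot_zero k
    have h2 : Pt.cn (fun p : Pt k => Pt.Up 0 k p) = Pt.cn (fun p : Pt k => Pt.tot k p = 0) :=
      Pt.cn_congr fun p => by simp [Pt.Up]
    rw [h2]
    omega
  | succ l ih =>
    cases k with
    | zero =>
      have : Pt.cn (fun p : Pt 0 => Pt.Up (l + 1) 0 p) = 0 := by
        rw [← Pt.cn_eq, Finset.card_eq_zero, Finset.filter_eq_empty_iff]
        intro p _
        simp [Pt.Up]
      rw [this]
      simp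
    | succ k =>
      have ih := ih k
      have hT := Pt.cn_tot_zero k
      have e1 := Pt.cn_prod k (fun p => Pt.tot k p = 0) (fun p => Pt.tot k p = 0)
      have e2 := Pt.cn_prod k (fun p => Pt.tot k p = 0 ∧ ¬ Pt.Up l k p)
        (fun p => Pt.tot k p = 0 ∧ ¬ Pt.Up l k p)
      have e3 := Pt.cn_add_not (fun p : Pt k => Pt.tot k p = 0) (fun p => Pt.Up l k p)
      have e4 : Pt.cn (fun p : Pt k => Pt.tot k p = 0 ∧ Pt.Up l k p) =
          Pt.cn (fun p : Pt k => Pt.Up l k p) := by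
        apply Pt.cn_congr
        intro p
        simp only [and_iff_right_iff_imp]
        exact Pt.np_Up_tot l k p
      rw [e4] at e3
      have e5 := Pt.cn_add_not (fun p : Pt (k + 1) => Pt.tot k p.1 = 0 ∧ Pt.tot k p.2 = 0)
        (fun p => Pt.Up l k p.1 ∨ Pt.Up l k p.2)
      have e6 : Pt.cn (fun p : Pt (k + 1) => (Pt.tot k p.1 = 0 ∧ Pt.tot k p.2 = 0) ∧
          (Pt.Up l k p.1 ∨ Pt.Up l k p.2)) =
          Pt.cn (fun p : Pt (k + 1) => Pt.Up (l + 1) (k + 1) p) := by
        apply Pt.cn_congr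
        intro p
        simp only [Pt.Up]
        tauto
      have e7 : Pt.cn (fun p : Pt (k + 1) => (Pt.tot k p.1 = 0 ∧ Pt.tot k p.2 = 0) ∧
          ¬ (Pt.Up l k p.1 ∨ Pt.Up l k p.2)) =
          Pt.cn (fun p : Pt (k + 1) => (Pt.tot k p.1 = 0 ∧ ¬ Pt.Up l k p.1) ∧
            (Pt.tot k p.2 = 0 ∧ ¬ Pt.Up l k p.2)) := by
        apply Pt.cn_congr
        intro p
        tauto
      have e8 := (congrArg₂ (· + ·) e6.symm (e2.symm.trans e7.symm)).trans (e5.trans e1)
      rw [Pt.np_card_succ]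
      generalize Pt.cn (fun p : Pt (k + 1) => Pt.Up (l + 1) (k + 1) p) = n at *
      generalize Pt.cn (fun p : Pt k => Pt.tot k p = 0) = h at *
      generalize Pt.cn (fun p : Pt k => Pt.tot k p = 0 ∧ ¬ Pt.Up l k p) = w at *
      generalize Pt.cn (fun p : Pt k => Pt.Up l k p) = u at *
      generalize Fintype.card (Pt k) = T at *
      clear e1 e2 e4 e5 e6 e7
      subst hT
      subst e3
      obtain ⟨t, ht⟩ := Nat.exists_eq_add_of_le ih
      have h1 : n = u * (2 * w + u) := by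
        have : (u + w) * (u + w) = u * (2 * w + u) + w * w := by ring
        rw [this] at e8
        exact Nat.add_right_cancel e8
      rw [h1]
      zify at ht ⊢
      have h3 : (2 : ℤ) * (u + w) * (2 * (u + w)) - (l + 1 + 2) * (u * (2 * w + u)) =
        t * (2 * (u + w) - u) + u * u := by
        have h4 : (2 * w + u : ℤ) = 2 * (u + w) - u := by ring
        rw [h4, ht]
        ring
      have h5 : (0 : ℤ) ≤ t * (2 * (u + w) - u) + u * u := by
        have h6 : (0 : ℤ) ≤ 2 * (u + w) - u := by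
          have : (0 : ℤ) ≤ u := Int.natCast_nonneg u
          have : (0 : ℤ) ≤ w := Int.natCast_nonneg w
          linarith
        have : (0 : ℤ) ≤ t := Int.natCast_nonneg t
        have h7 := mul_nonneg this h6
        have h8 := mul_self_nonneg (u : ℤ)
        linarith
      linarith

/-- task TL2 (iii) -/
theorem Pt.card_LU (N : ℕ) (hN : 0 < N) (k m : ℕ) :
    2 * N * 4 ^ m * (univ.filter (fun p : Pt k => Pt.LU (fun j => N * 4 ^ (j + 1)) m k p)).card ≤
      Fintype.card (Pt k) := by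
  rw [Pt.cn_eq]
  induction k generalizing m with
  | zero =>
    have h1 : ∀ p : Pt 0, ¬ Pt.LU (fun j => N * 4 ^ (j + 1)) m 0 p := by
      intro p
      simp only [Pt.LU]
      have h2 : 0 < N * 4 ^ (m + 1) := by positivity
      obtain ⟨q, hq⟩ := Nat.exists_eq_succ_of_ne_zero h2.ne'
      rw [hq]
      simp [Pt.Up]
    have : Pt.cn (fun p : Pt 0 => Pt.LU (fun j => N * 4 ^ (j + 1)) m 0 p) = 0 := by
      rw [← Pt.cn_eq, Finset.card_eq_zero, Finset.filter_eq_empty_iff]
      intro p _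
      exact h1 p
    rw [this]
    simp
  | succ k ih =>
    have h1 := Pt.card_Up (N * 4 ^ (m + 1)) (k + 1)
    rw [Pt.cn_eq] at h1
    have h2 := ih (m + 1)
    have h3 : Pt.cn (fun p : Pt (k + 1) => Pt.LU (fun j => N * 4 ^ (j + 1)) m (k + 1) p) ≤
        Pt.cn (fun p : Pt (k + 1) => Pt.Up (N * 4 ^ (m + 1)) (k + 1) p) +
        (Pt.cn (fun p : Pt (k + 1) =>
          Pt.LU (fun j => N * 4 ^ (j + 1)) (m + 1) k p.1 ∧ True) +
        Pt.cn (fun p : Pt (k + 1) =>
          True ∧ Pt.LU (fun j => N * 4 ^ (j + 1)) (m + 1) k p.2)) := by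
      refine le_trans (Pt.cn_le_add (Q := fun p : Pt (k + 1) => Pt.Up (N * 4 ^ (m + 1)) (k + 1) p)
        (R := fun p : Pt (k + 1) => Pt.LU (fun j => N * 4 ^ (j + 1)) (m + 1) k p.1 ∨
          Pt.LU (fun j => N * 4 ^ (j + 1)) (m + 1) k p.2) ?_)
        (Nat.add_le_add_left (Pt.cn_le_add ?_) _)
      · intro p hp
        exact hp
      · intro p hp
        tauto
    have h6 := Pt.cn_prod k (fun p => Pt.LU (fun j => N * 4 ^ (j + 1)) (m + 1) k p)
      (fun _ => True)
    have h7 := Pt.cn_prod k (fun _ => True)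
      (fun p => Pt.LU (fun j => N * 4 ^ (j + 1)) (m + 1) k p)
    rw [Pt.cn_true] at h6 h7
    have h8 := h3.trans_eq (congrArg₂ (fun a b => Pt.cn (fun p : Pt (k + 1) =>
      Pt.Up (N * 4 ^ (m + 1)) (k + 1) p) + (a + b)) h6 h7)
    rw [Pt.np_card_succ] at h1 ⊢
    clear h3 h6 h7
    generalize Pt.cn (fun p : Pt (k + 1) => Pt.LU (fun j => N * 4 ^ (j + 1)) m (k + 1) p) = A at *
    generalize Pt.cn (fun p : Pt (k + 1) => Pt.Up (N * 4 ^ (m + 1)) (k + 1) p) = B at *
    generalize Pt.cn (fun p : Pt k =>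
        Pt.LU (fun j => N * 4 ^ (j + 1)) (m + 1) k p) = C at *
    generalize Fintype.card (Pt k) = T at *
    rw [pow_succ] at h1 h2
    generalize 4 ^ m = q at *
    have h5 : 4 * (N * q) * B ≤ T * T := by nlinarith
    have h6 : 8 * (N * q) * (C * T) ≤ T * T := by nlinarith
    have h7 := Nat.mul_le_mul_left (2 * N * q) h8
    nlinarith

/-! ### even subgraphs on sites -/

section site

variable {V : Type}

lemma St.np_pat_add (x y : Vec V) : ∀ {k : ℕ} (s : St V k), s.pat (x + y) = s.pat x + s.pat y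
  | _, .leaf _ => rfl
  | _, .sg _ _ s => St.np_pat_add x y s
  | _, .br _ s t => by
    change (s.pat (x + y), t.pat (x + y)) = (s.pat x + s.pat y, t.pat x + t.pat y)
    rw [St.np_pat_add x y s, St.np_pat_add x y t]

lemma Cub.np_add_mem_Om [Fintype V] {G : Cub V} {H : Set (Dt V)} {g : Dt V} {x z : Vec V}
    (hx : x ∈ G.Om H g) (hz : z ∈ G.Dir H g) : x + z ∈ G.Om H g := by
  simp only [Cub.Om, Finset.mem_filter, Finset.mem_univ, true_and] at hx ⊢
  exact ⟨add_mem hx.1 hz.1, by rw [Pi.add_apply, hx.2, hz.2, add_zero]⟩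

lemma Cub.np_mem_Om [Fintype V] {G : Cub V} {H : Set (Dt V)} {g : Dt V} {x : Vec V} :
    x ∈ G.Om H g ↔ x ∈ G.ZH H ∧ x g = 1 := by
  simp only [Cub.Om, Finset.mem_filter, Finset.mem_univ, true_and]

lemma Cub.np_mem_Dir {G : Cub V} {H : Set (Dt V)} {g : Dt V} {x : Vec V} :
    x ∈ G.Dir H g ↔ x ∈ G.ZH H ∧ x g = 0 := Iff.rfl

lemma np_vec_add_self (x : Vec V) : x + x = 0 := by
  funext d
  exact zmod2_add_self _

/-- task TL2 (i): patterns are uniformly distributed in a good site -/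
theorem pat_uniform [Fintype V] (G : Cub V) (H : Set (Dt V)) (g : Dt V) {k : ℕ}
    (s : St V k) (hgood : s.Good G H g) (S : Pt k → Prop) :
    ((G.Om H g).filter (fun x => S (s.pat x))).card * Fintype.card (Pt k) =
      (univ.filter (fun p : Pt k => S p)).card * (G.Om H g).card := by
  have h1 : ∀ p q : Pt k, ((G.Om H g).filter (fun x => s.pat x = p)).card ≤
      ((G.Om H g).filter (fun x => s.pat x = q)).card := by
    intro p q
    obtain ⟨z, hz, hzp⟩ := hgood.2 (q - p)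
    refine Finset.card_le_card_of_injOn (fun x => x + z) ?_ ?_
    · intro x hx
      simp only [Finset.coe_filter, Set.mem_ofPred_eq] at hx ⊢
      refine ⟨Cub.np_add_mem_Om hx.1 hz, ?_⟩
      rw [St.np_pat_add, hzp, hx.2]
      abel
    · intro x _ y _ h
      exact add_right_cancel h
  have h2 : ∀ p q : Pt k, ((G.Om H g).filter (fun x => s.pat x = p)).card =
      ((G.Om H g).filter (fun x => s.pat x = q)).card := fun p q => le_antisymm (h1 p q) (h1 q p)
  set c := ((G.Om H g).filter (fun x => s.pat x = 0)).card with hc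
  have h3 : ∀ P : Pt k → Prop, ((G.Om H g).filter (fun x => P (s.pat x))).card =
      Pt.cn P * c := by
    intro P
    rw [← Pt.cn_eq, Finset.card_eq_sum_card_fiberwise (f := fun x => s.pat x)
      (t := univ.filter P)]
    · rw [Finset.sum_congr rfl (g := fun _ => c), Finset.sum_const, smul_eq_mul]
      intro p hp
      rw [hc, ← h2 p 0, Finset.filter_filter]
      congr 1
      ext x
      simp only [Finset.mem_filter, Finset.mem_univ, true_and] at hp ⊢
      constructor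
      · rintro ⟨h4, -, h5⟩
        exact ⟨h4, h5⟩
      · rintro ⟨h4, h5⟩
        exact ⟨h4, by rw [h5]; exact hp, h5⟩
    · intro x hx
      simp only [Finset.coe_filter, Set.mem_ofPred_eq, Finset.mem_univ, true_and] at hx ⊢
      exact hx.2
  have h4 : (G.Om H g).card = Fintype.card (Pt k) * c := by
    rw [← Pt.cn_true, ← h3 (fun _ => True)]
    congr 1
    ext x
    simp
  rw [h3 S, h4, Pt.cn_eq]
  ring

/-- `x` vanishes on the siblings of the single-child steps -/
def St.SibZ (G : Cub V) (x : Vec V) : {k : ℕ} → St V k → Prop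
  | _, .leaf _ => True
  | _, .sg a f s => x (G.ch (!f) a) = 0 ∧ St.SibZ G x s
  | _, .br _ s t => St.SibZ G x s ∧ St.SibZ G x t

lemma Cub.np_ZH_cases {G : Cub V} {H : Set (Dt V)} {g : Dt V} [Fintype V] {x : Vec V}
    (hx : x ∈ G.ZH H) : x ∈ G.Dir H g ∨ x ∈ G.Om H g := by
  rcases zmod2_cases (x g) with h | h
  · exact Or.inl ⟨hx, h⟩
  · exact Or.inr (Cub.np_mem_Om.2 ⟨hx, h⟩)

lemma Cub.np_zero_of_Om {G : Cub V} {H : Set (Dt V)} {g : Dt V} [Fintype V] {x0 x : Vec V}
    (h0 : x0 ∈ G.Om H g) (hx : x ∈ G.ZH H) {d : Dt V} (h : ∀ y ∈ G.Om H g, y d = 0) :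
    x d = 0 := by
  rcases Cub.np_ZH_cases (g := g) hx with h1 | h1
  · have h2 := h _ (Cub.np_add_mem_Om h0 h1)
    rw [Pi.add_apply, h x0 h0, zero_add] at h2
    exact h2
  · exact h x h1

lemma St.np_SibZ_of {G : Cub V} {H : Set (Dt V)} {g : Dt V} [Fintype V] {x0 x : Vec V}
    (h0 : x0 ∈ G.Om H g) (hx : x ∈ G.ZH H) :
    ∀ {k : ℕ} (s : St V k), s.SibZero G H g → s.SibZ G x
  | _, .leaf _, _ => trivial
  | _, .sg _ _ s, h => ⟨Cub.np_zero_of_Om h0 hx h.1, St.np_SibZ_of h0 hx s h.2⟩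
  | _, .br _ s t, h => ⟨St.np_SibZ_of h0 hx s h.1, St.np_SibZ_of h0 hx t h.2⟩

lemma np_fin3_sum (f : Fin 3 → ZMod 2) (j : Fin 3) : ∑ i, f i = f j + f (j + 1) + f (j + 2) := by
  fin_cases j <;> simp [Fin.sum_univ_three] <;> ring

lemma Cub.np_vsum (G : Cub V) (x : Vec V) (a : Dt V) :
    ∑ i, x ((G.ι a).1, i) = x (G.ι a) + x (G.ch true a) + x (G.ch false a) := by
  rw [np_fin3_sum (fun i => x ((G.ι a).1, i)) (G.ι a).2]
  rfl

lemma np_three_a : ∀ {a b c : ZMod 2}, a + b + c = 0 → b = 0 → c = a := by decide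
lemma np_three_b : ∀ {a b c : ZMod 2}, a + b + c = 0 → c = 0 → b = a := by decide
lemma np_three_c : ∀ {a b c : ZMod 2}, a + b + c = 0 → b + c = a := by decide

lemma Cub.np_ch_fst (G : Cub V) (f : Bool) (a : Dt V) : (G.ch f a).1 = (G.ι a).1 := rfl

/-- at a vertex where `x` is even and one child vanishes the value passes to the other child -/
lemma Cub.np_ch_eq {G : Cub V} {x : Vec V} (hs : ∀ d, x (G.ι d) = x d) {a : Dt V}
    (hv : ∑ i, x ((G.ι a).1, i) = 0) {f : Bool} (hf : x (G.ch (!f) a) = 0) :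
    x (G.ch f a) = x a := by
  rw [G.np_vsum, hs] at hv
  cases f
  · exact np_three_a hv hf
  · exact np_three_b hv hf

/-- the total of the pattern is the value at the root -/
lemma St.np_tot_pat {G : Cub V} {H : Set (Dt V)} {g : Dt V} {x : Vec V} (hx : x ∈ G.Z) :
    ∀ {k : ℕ} (s : St V k), s.Ok G H g → s.SibZ G x → Pt.tot k (s.pat x) = x s.root
  | _, .leaf _, _, _ => rfl
  | _, .sg a f s, hok, hs => by
    change Pt.tot _ (s.pat x) = x a
    rw [St.np_tot_pat hx s hok.2.2.2.1 hs.2, hok.2.1]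
    exact Cub.np_ch_eq hx.1 (hx.2 _) hs.1
  | _, .br a s t, hok, hs => by
    change Pt.tot _ (s.pat x) + Pt.tot _ (t.pat x) = x a
    rw [St.np_tot_pat hx s hok.2.2.2.1 hs.1, St.np_tot_pat hx t hok.2.2.2.2.1 hs.2, hok.2.1,
      hok.2.2.1]
    have h1 := hx.2 (G.ι a).1
    rw [G.np_vsum, hx.1] at h1
    exact np_three_c h1

lemma St.np_near_root [Fintype V] {G : Cub V} {g : Dt V} {x : Vec V} :
    ∀ {k n : ℕ} (s : St V k), ¬ s.Near G g x n → x s.root = G.main g x s.root
  | _, _, .leaf _, h => by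
    by_contra h1
    apply h
    rw [St.Near]
    exact h1
  | _, _, .sg _ _ _, h => by
    by_contra h1
    exact h (Or.inl h1)
  | _, 0, .br _ _ _, h => by
    by_contra h1
    apply h
    rw [St.Near]
    exact h1
  | _, n + 1, .br _ _ _, h => by
    by_contra h1
    exact h (Or.inl h1)

/-- descending along a cycle outside the main component: an uncovered path -/
lemma St.np_descend [Fintype V] {G : Cub V} {H : Set (Dt V)} {g : Dt V} {K Q : Vec V}
    (hK : K ∈ G.Z) (hP : G.main g K ∈ G.Z) (hQs : ∀ d, Q (G.ι d) = Q d)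
    (hQP : ∀ d, Q d = 1 → G.main g K d = 0) :
    ∀ {k : ℕ} (t : St V k) (n : ℕ), n ≤ k → t.Ok G H g → t.SibZ G K → t.SibZ G Q →
      (∀ v ∈ t.foot G, ∑ i, Q (v, i) = 0) → ¬ t.Near G g K n → Q t.root = 1 →
      Pt.Up n k (t.pat K)
  | _, .leaf a, n, hn, _, _, _, _, hnear, hQ => by
    have hn0 : n = 0 := Nat.le_zero.1 hn
    subst hn0
    have h1 := St.np_near_root _ hnear
    exact h1.trans (hQP _ hQ)
  | _, .sg a f s, n, hn, hok, hKs, hQs', hfoot, hnear, hQ => by
    have h1 : Q s.root = 1 := by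
      rw [hok.2.1, Cub.np_ch_eq hQs (hfoot _ (Finset.mem_insert_self _ _)) hQs'.1]
      exact hQ
    exact St.np_descend hK hP hQs hQP s n hn hok.2.2.2.1 hKs.2 hQs'.2
      (fun v hv => hfoot v (Finset.mem_insert_of_mem hv)) (fun h => hnear (Or.inr h)) h1
  | _, .br (k := k) a s t, 0, _, hok, hKs, _, _, hnear, hQ => by
    change Pt.tot (k + 1) (St.pat K (St.br a s t)) = 0
    rw [St.np_tot_pat hK _ hok hKs, St.np_near_root _ hnear]
    exact hQP _ hQ
  | _, .br (k := k) a s t, n + 1, hn, hok, hKs, hQs', hfoot, hnear, hQ => by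
    have hns : ¬ s.Near G g K n := fun h => hnear (Or.inr (Or.inl h))
    have hnt : ¬ t.Near G g K n := fun h => hnear (Or.inr (Or.inr h))
    have hQv := hfoot _ (Finset.mem_insert_self _ _)
    rw [G.np_vsum, hQs] at hQv
    have hQa : Q a = 1 := hQ
    have hPv := hP.2 (G.ι a).1
    rw [G.np_vsum, hP.1, hQP a hQa] at hPv
    have hcases : Q (G.ch true a) = 1 ∨ Q (G.ch false a) = 1 := by
      rw [hQa] at hQv
      generalize Q (G.ch true a) = u at *
      generalize Q (G.ch false a) = v at *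
      revert u v
      decide
    have hP1 : G.main g K (G.ch true a) = 0 ∧ G.main g K (G.ch false a) = 0 := by
      rcases hcases with h | h
      · have h1 := hQP _ h
        exact ⟨h1, np_three_a hPv h1⟩
      · have h1 := hQP _ h
        exact ⟨np_three_b hPv h1, h1⟩
    have hs0 : Pt.tot k (s.pat K) = 0 := by
      rw [St.np_tot_pat hK s hok.2.2.2.1 hKs.1, St.np_near_root s hns, hok.2.1]
      exact hP1.1
    have ht0 : Pt.tot k (t.pat K) = 0 := by
      rw [St.np_tot_pat hK t hok.2.2.2.2.1 hKs.2, St.np_near_root t hnt, hok.2.2.1]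
      exact hP1.2
    refine ⟨hs0, ht0, ?_⟩
    rcases hcases with h | h
    · left
      exact St.np_descend hK hP hQs hQP s n (Nat.le_of_succ_le_succ hn) hok.2.2.2.1 hKs.1 hQs'.1
        (fun v hv => hfoot v (Finset.mem_insert_of_mem (Finset.mem_union_left _ hv))) hns
        (by rw [hok.2.1]; exact h)
    · right
      exact St.np_descend hK hP hQs hQP t n (Nat.le_of_succ_le_succ hn) hok.2.2.2.2.1 hKs.2 hQs'.2
        (fun v hv => hfoot v (Finset.mem_insert_of_mem (Finset.mem_union_right _ hv))) hnt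
        (by rw [hok.2.2.1]; exact h)

/-- peeling off the single-child steps at the root -/
theorem St.np_peel [Fintype V] (G : Cub V) (H : Set (Dt V)) (g : Dt V) :
    ∀ {k : ℕ} (s : St V (k + 1)), s.Ok G H g → s.SibZero G H g →
    ∃ (π : Finset (Dt V)) (b : Dt V) (t0 t1 : St V k),
      s.root ∈ π ∧ b ∈ π ∧ (∀ d ∈ π, G.Free H g d) ∧ St.Ok G H g (.br b t0 t1) ∧
      St.SibZero G H g (.br b t0 t1) ∧
      (∀ x, s.pat x = St.pat x (.br b t0 t1)) ∧
      (∀ d ∈ π, d.1 = s.root.1 ∨ d.1 ∈ s.foot G) ∧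
      (∀ d ∈ π, (G.ι d).1 ∈ s.foot G) ∧
      (∀ d ∈ π, (G.ι d).1 ∉ t0.foot G ∧ (G.ι d).1 ∉ t1.foot G) ∧
      t0.foot G ⊆ s.foot G ∧ t1.foot G ⊆ s.foot G ∧
      (∀ x ∈ G.Z, s.SibZ G x → ∀ d ∈ π, x d = x s.root) ∧
      (∀ x n, ¬ s.Near G g x n → ¬ St.Near G g x n (.br b t0 t1)) ∧
      (s.root.1 ∉ s.foot G → (∀ d ∈ π, d.1 ∉ t0.foot G ∧ d.1 ∉ t1.foot G) ∧
        ∀ U : V → ZMod 2, (∀ d ∈ π, d ≠ s.root → U d.1 = U (G.ι d).1) →
          U (G.ι s.root).1 = U (G.ι b).1)
  | k, .br a s t, hok, hsib => by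
    refine ⟨{a}, a, s, t, Finset.mem_singleton_self _, Finset.mem_singleton_self _, ?_, hok, hsib,
      fun _ => rfl, ?_, ?_, ?_, ?_, ?_, ?_, fun _ _ h => h, ?_⟩
    · intro d hd
      rw [Finset.mem_singleton.1 hd]
      exact hok.1
    · intro d hd
      rw [Finset.mem_singleton.1 hd]
      exact Or.inl rfl
    · intro d hd
      rw [Finset.mem_singleton.1 hd]
      exact Finset.mem_insert_self _ _
    · intro d hd
      rw [Finset.mem_singleton.1 hd]
      exact ⟨hok.2.2.2.2.2.1, hok.2.2.2.2.2.2.1⟩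
    · intro v hv
      exact Finset.mem_insert_of_mem (Finset.mem_union_left _ hv)
    · intro v hv
      exact Finset.mem_insert_of_mem (Finset.mem_union_right _ hv)
    · intro x _ _ d hd
      rw [Finset.mem_singleton.1 hd]
      rfl
    · intro hr
      refine ⟨?_, fun U _ => rfl⟩
      intro d hd
      rw [Finset.mem_singleton.1 hd]
      exact ⟨fun h => hr (Finset.mem_insert_of_mem (Finset.mem_union_left _ h)),
        fun h => hr (Finset.mem_insert_of_mem (Finset.mem_union_right _ h))⟩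
  | k, .sg a f s, hok, hsib => by
    obtain ⟨π, b, t0, t1, h1, h2, h3, h4, h5, h6, h16, h7, h8, h9, h10, h11, h12, h13⟩ :=
      St.np_peel G H g s hok.2.2.2.1 hsib.2
    have hsr : s.root.1 = (G.ι a).1 := by rw [hok.2.1]; rfl
    have hnf : (G.ι a).1 ∉ s.foot G := hok.2.2.2.2
    rw [hsr] at h13
    obtain ⟨h14, h15⟩ := h13 hnf
    refine ⟨insert a π, b, t0, t1, Finset.mem_insert_self _ _, Finset.mem_insert_of_mem h2, ?_,
      h4, h5, h6, ?_, ?_, ?_, ?_, ?_, ?_, ?_, ?_⟩
    · intro d hd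
      rcases Finset.mem_insert.1 hd with h | h
      · rw [h]; exact hok.1
      · exact h3 d h
    · intro d hd
      rcases Finset.mem_insert.1 hd with h | h
      · rw [h]; exact Or.inl rfl
      · right
        rcases h16 d h with h' | h'
        · rw [h', hsr]; exact Finset.mem_insert_self _ _
        · exact Finset.mem_insert_of_mem h'
    · intro d hd
      rcases Finset.mem_insert.1 hd with h | h
      · rw [h]; exact Finset.mem_insert_self _ _
      · exact Finset.mem_insert_of_mem (h7 d h)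
    · intro d hd
      rcases Finset.mem_insert.1 hd with h | h
      · rw [h]; exact ⟨fun h' => hnf (h9 h'), fun h' => hnf (h10 h')⟩
      · exact h8 d h
    · exact h9.trans (Finset.subset_insert _ _)
    · exact h10.trans (Finset.subset_insert _ _)
    · intro x hx hxs d hd
      rcases Finset.mem_insert.1 hd with h | h
      · rw [h]; rfl
      · rw [h11 x hx hxs.2 d h, hok.2.1]
        exact Cub.np_ch_eq hx.1 (hx.2 _) hxs.1
    · intro x n h
      exact h12 x n (fun h' => h (Or.inr h'))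
    · intro hr
      change a.1 ∉ insert (G.ι a).1 (s.foot G) at hr
      have hr1 : a.1 ≠ (G.ι a).1 := fun h => hr (by rw [h]; exact Finset.mem_insert_self _ _)
      have hr2 : a.1 ∉ s.foot G := fun h => hr (Finset.mem_insert_of_mem h)
      refine ⟨?_, ?_⟩
      · intro d hd
        rcases Finset.mem_insert.1 hd with h | h
        · rw [h]; exact ⟨fun h' => hr2 (h9 h'), fun h' => hr2 (h10 h')⟩
        · exact h14 d h
      · intro U hU
        have hna : ∀ d ∈ π, d ≠ a := by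
          intro d hd hda
          rcases h16 d hd with h' | h'
          · rw [hda, hsr] at h'; exact hr1 h'
          · rw [hda] at h'; exact hr2 h'
        have hU' : ∀ d ∈ π, U d.1 = U (G.ι d).1 := fun d hd =>
          hU d (Finset.mem_insert_of_mem hd) (hna d hd)
        have e1 := hU' _ h1
        rw [hsr] at e1
        exact e1.trans (h15 U (fun d hd _ => hU' d hd))

/-- the switching construction: rerouting the main circuit through an uncovered path -/
theorem np_key_switch [Fintype V] {G : Cub V} {H : Set (Dt V)} (hH : G.Inv H) {g : Dt V} {J : Vec V}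
    (hJ : J ∈ G.Om H g) {a0 b : Dt V} {π : Finset (Dt V)} (ha0 : a0 ∈ π) (hb : b ∈ π)
    (hfree : ∀ d ∈ π, G.Free H g d)
    (hconst : ∀ x ∈ G.ZH H, ∀ d ∈ π, x d = x a0)
    (hin : ∀ d ∈ π, (G.ι d).1 ≠ a0.1)
    (hU : ∀ U : V → ZMod 2, (∀ d ∈ π, d ≠ a0 → U d.1 = U (G.ι d).1) →
      U (G.ι a0).1 = U (G.ι b).1)
    (hJa : J a0 = 0)
    (hm0 : a0.1 ∈ cover (G.main g J))
    (hmt : G.main g J (G.ch true b) = 1) (hmf : G.main g J (G.ch false b) = 1) :
    ∃ (P D Q : Vec V), G.IsCirc P ∧ P g = 1 ∧ D ∈ G.Dir H g ∧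
      P * D = (fun d => if d ∈ π ∨ G.ι d ∈ π then 1 else 0) ∧
      J * P = P + (fun d => if d ∈ π ∨ G.ι d ∈ π then 1 else 0) ∧
      (Q (G.ch true b) = 1 ∨ Q (G.ch false b) = 1) ∧ (∀ d, Q (G.ι d) = Q d) ∧
      (∀ d, Q d = 1 → P d = 0) ∧ (∀ d, D d = 0 → Q d = 0) ∧
      (∀ d, d ∉ π → G.ι d ∉ π → Q d = D d) := by
  obtain ⟨hJH, hJg⟩ := Cub.np_mem_Om.1 hJ
  have hJZ : J ∈ G.Z := hJH.1
  set m := G.main g J with hm
  have hmc : G.IsCirc m := Cub.main_circ hJZ hJg
  have hmZ : m ∈ G.Z := hmc.1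
  have hmJ : ∀ d, J d = 0 → m d = 0 := (Cub.main_mem_sub hJZ hJg).2
  have hmg : m g = 1 := Cub.main_g
  have hmH : m ∈ G.ZH H := ⟨hmZ, fun d hd => hmJ d (hJH.2 d hd)⟩
  have hma : m a0 = 0 := hmJ _ hJa
  have hmπ : ∀ d, (d ∈ π ∨ G.ι d ∈ π) → m d = 0 := by
    rintro d (h | h)
    · rw [hconst m hmH d h, hma]
    · rw [← hmZ.1 d, hconst m hmH _ h, hma]
  have hJπ : ∀ d, (d ∈ π ∨ G.ι d ∈ π) → J d = 0 := by
    rintro d (h | h)
    · rw [hconst J hJH d h, hJa]
    · rw [← hJZ.1 d, hconst J hJH _ h, hJa]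
  let H' : Set (Dt V) := {d | m d ≠ 0 ∨ d ∈ π ∨ G.ι d ∈ π}
  have hH' : G.Inv H' := by
    intro d hd
    rcases hd with h | h | h
    · left; rw [hmZ.1 d]; exact h
    · right; right; rw [G.inv]; exact h
    · right; left; exact h
  have hfH : ∀ d ∈ π, d ∈ H := by
    intro d hd
    obtain ⟨z, hz, hzd⟩ := hfree d hd
    by_contra h
    exact hzd (hz.1.2 d h)
  have hH'H : H' ⊆ H := by
    rintro d (h | h | h)
    · by_contra h'
      exact h (hmH.2 d h')
    · exact hfH d h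
    · have := hH _ (hfH _ h)
      rwa [G.inv] at this
  have hD : ∃ D ∈ G.ZH H', D a0 = 1 := by
    by_contra hcon
    push Not at hcon
    have h1 : ∀ x ∈ G.ZH H', dot (Pi.single a0 1) x = 0 := by
      intro x hx
      have : dot (Pi.single a0 1) x = x a0 := by
        unfold dot
        rw [Finset.sum_eq_single a0]
        · simp
        · intro e _ he
          simp [he]
        · simp
      rw [this]
      exact zmod2_ne_one (hcon x hx)
    rw [Cub.dual hH'] at h1
    obtain ⟨U, hU'⟩ := h1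
    have h2 : ∀ d, m d ≠ 0 → U d.1 = U (G.ι d).1 := by
      intro d hd
      have h3 := hU' d (Or.inl hd)
      have h4 : d ≠ a0 := fun h => hd (by rw [h, hma])
      have h5 : G.ι d ≠ a0 := fun h => hd (by rw [← hmZ.1 d, h, hma])
      rw [Pi.single_eq_of_ne h4, Pi.single_eq_of_ne h5, add_zero] at h3
      exact zmod2_eq_of_add h3.symm
    have h6 : ∀ d ∈ π, d ≠ a0 → U d.1 = U (G.ι d).1 := by
      intro d hd hda
      have h3 := hU' d (Or.inr (Or.inl hd))
      have h5 : G.ι d ≠ a0 := fun h => hin d hd (by rw [h])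
      rw [Pi.single_eq_of_ne hda, Pi.single_eq_of_ne h5, add_zero] at h3
      exact zmod2_eq_of_add h3.symm
    have h7 := hU U h6
    have h8 : (G.ι b).1 ∈ cover m := by
      have : m (G.ch true b) ≠ 0 := by rw [hmt]; exact one_ne_zero
      exact mem_cover_of_ne (d := G.ch true b) this
    have h9 := hmc.side h2 hm0 h8
    have h10 := hU' a0 (Or.inr (Or.inl ha0))
    have h5 : G.ι a0 ≠ a0 := G.nofix a0
    rw [Pi.single_eq_same, Pi.single_eq_of_ne h5, add_zero, h9, h7, zmod2_add_self] at h10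
    exact one_ne_zero h10
  -- choose it in `Dir`
  have hD2 : ∃ D ∈ G.ZH H', D a0 = 1 ∧ D g = 0 := by
    obtain ⟨D, hD1, hD3⟩ := hD
    rcases zmod2_cases (D g) with h | h
    · exact ⟨D, hD1, hD3, h⟩
    · refine ⟨D + m, add_mem hD1 ⟨hmZ, fun d hd => ?_⟩, ?_, ?_⟩
      · by_contra h'
        exact hd (Or.inl h')
      · rw [Pi.add_apply, hD3, hma, add_zero]
      · rw [Pi.add_apply, h, hmg]
        exact zmod2_add_self 1
  obtain ⟨D, hD1, hDa, hDg⟩ := hD2
  have hDZ : D ∈ G.Z := hD1.1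
  have hDH : D ∈ G.ZH H := Cub.ZH_mono hH'H hD1
  have hDπ : ∀ d, (d ∈ π ∨ G.ι d ∈ π) → D d = 1 := by
    rintro d (h | h)
    · rw [hconst D hDH d h, hDa]
    · rw [← hDZ.1 d, hconst D hDH _ h, hDa]
  have hDm : ∀ d, ¬ (d ∈ π ∨ G.ι d ∈ π) → m d = 0 → D d = 0 := by
    intro d h1 h2
    apply hD1.2
    rintro (h | h)
    · exact h h2
    · exact h1 h
  have hbch : D (G.ch true b) = 1 ∨ D (G.ch false b) = 1 := by
    have h1 := hDZ.2 (G.ι b).1
    rw [G.np_vsum, hDZ.1, hDπ b (Or.inl hb)] at h1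
    generalize D (G.ch true b) = u at *
    generalize D (G.ch false b) = v at *
    revert u v
    decide
  have hPH : m + D ∈ G.ZH H := add_mem hmH hDH
  have hPH' : m + D ∈ G.ZH H' := by
    refine add_mem ⟨hmZ, fun d hd => ?_⟩ hD1
    by_contra h'
    exact hd (Or.inl h')
  -- no even subset of `m + D` avoids the path
  have hsub : ∀ y ∈ G.Z, (∀ d, (m + D) d = 0 → y d = 0) → y a0 = 0 → y = 0 := by
    intro y hy hyP hya
    have hyH : y ∈ G.ZH H := ⟨hy, fun d hd => hyP d (hPH.2 d hd)⟩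
    have hyπ : ∀ d, (d ∈ π ∨ G.ι d ∈ π) → y d = 0 := by
      rintro d (h | h)
      · rw [hconst y hyH d h, hya]
      · rw [← hy.1 d, hconst y hyH _ h, hya]
    have hym : ∀ d, m d = 0 → y d = 0 := by
      intro d hd
      by_cases h : d ∈ π ∨ G.ι d ∈ π
      · exact hyπ d h
      · apply hyP
        rw [Pi.add_apply, hd, hDm d h hd, add_zero]
    rcases hmc.2.2 y hy hym with h | h
    · exact h
    · exfalso
      have h1 : ∀ d, m d = 1 → D d = 0 := by
        intro d hd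
        by_contra h2
        have h3 := hyP d (by rw [Pi.add_apply, hd, zmod2_ne_zero h2]; exact zmod2_add_self 1)
        rw [h, hd] at h3
        exact one_ne_zero h3
      rcases hbch with h2 | h2
      · rw [h1 _ hmt] at h2
        exact zero_ne_one h2
      · rw [h1 _ hmf] at h2
        exact zero_ne_one h2
  have hPa : (m + D) a0 = 1 := by rw [Pi.add_apply, hma, hDa, zero_add]
  refine ⟨m + D, D, fun d => D d * m d, ⟨hPH.1, ?_, ?_⟩, ?_, ⟨hDH, hDg⟩, ?_, ?_, ?_, ?_, ?_,
    ?_, ?_⟩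
  · intro h
    rw [h] at hPa
    exact zero_ne_one hPa
  · intro y hy hyP
    rcases zmod2_cases (y a0) with h | h
    · exact Or.inl (hsub y hy hyP h)
    · right
      have h1 := hsub (m + D + y) (add_mem hPH.1 hy)
        (fun d hd => by
          rw [Pi.add_apply, hd, hyP d hd, add_zero])
        (by rw [Pi.add_apply, hPa, h]; exact zmod2_add_self 1)
      funext d
      have h2 := congrFun h1 d
      rw [Pi.add_apply, Pi.zero_apply] at h2
      exact (zmod2_eq_of_add h2).symm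
  · rw [Pi.add_apply, hmg, hDg, add_zero]
  · funext d
    rw [Pi.mul_apply, Pi.add_apply]
    by_cases h : d ∈ π ∨ G.ι d ∈ π
    · rw [if_pos h, hmπ d h, hDπ d h]
      decide
    · rw [if_neg h]
      rcases zmod2_cases (m d) with h1 | h1
      · rw [hDm d h h1, mul_zero]
      · rw [h1]
        generalize D d = u
        revert u
        decide
  · funext d
    simp only [Pi.mul_apply, Pi.add_apply]
    by_cases h : d ∈ π ∨ G.ι d ∈ π
    · rw [if_pos h, hJπ d h, hmπ d h, hDπ d h]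
      decide
    · rw [if_neg h]
      rcases zmod2_cases (m d) with h1 | h1
      · rw [hDm d h h1, h1]
        simp
      · have h2 : J d = 1 := by
          by_contra h3
          rw [hmJ d (zmod2_ne_one h3)] at h1
          exact zero_ne_one h1
        rw [h2, one_mul, add_zero]
  · simp only
    rw [hmt, hmf, mul_one, mul_one]
    exact hbch
  · intro d
    simp only
    rw [hDZ.1, hmZ.1]
  · intro d h
    simp only at h
    rw [Pi.add_apply]
    generalize m d = u at *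
    generalize D d = v at *
    revert u v
    decide
  · intro d h
    simp only
    rw [h, zero_mul]
  · intro d h1 h2
    simp only
    rcases zmod2_cases (m d) with h3 | h3
    · rw [hDm d (by tauto) h3, zero_mul]
    · rw [h3, mul_one]

lemma np_vec_add_cancel (x y : Vec V) : x + y + y = x := by
  rw [add_assoc, np_vec_add_self, add_zero]

/-- task TL2 (iv) -/
theorem near_prob [Fintype V] (G : Cub V) (H : Set (Dt V)) (hH : G.Inv H) (g : Dt V)
    {k : ℕ} (hk : 64 ≤ k) (s : St V k) (hok : s.Ok G H g) (hgood : s.Good G H g) :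
    3 * (G.Om H g).card ≤ 64 * ((G.Om H g).filter (fun x => St.Near G g x 64 s)).card := by
  rcases (G.Om H g).eq_empty_or_nonempty with hne | ⟨x0, hx0⟩
  · rw [hne]; simp
  obtain ⟨k, rfl⟩ : ∃ k', k = k' + 2 := ⟨k - 2, by omega⟩
  obtain ⟨π1, a, s0, s1, -, -, -, hok1, hsib1, hpat1, -, -, -, -, -, -, hnear1, -⟩ :=
    St.np_peel G H g s hok hgood.1
  have hok0 : s0.Ok G H g := hok1.2.2.2.1
  have hoks1 : s1.Ok G H g := hok1.2.2.2.2.1
  have hr0 : s0.root = G.ch true a := hok1.2.1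
  have hr1 : s1.root = G.ch false a := hok1.2.2.1
  obtain ⟨π, b, t0, t1, hrπ, hbπ, hfree, hok2, hsib2, hpat2, -, hinfoot, hnfoot, -, -, hconst,
    hnear2, hlast⟩ := St.np_peel G H g s0 hok0 hsib1.1
  have hr0v : s0.root.1 = (G.ι a).1 := by rw [hr0]; rfl
  obtain ⟨hdfoot, hpot⟩ := hlast (by rw [hr0v]; exact hok1.2.2.2.2.2.1)
  have hokt0 : t0.Ok G H g := hok2.2.2.2.1
  have hokt1 : t1.Ok G H g := hok2.2.2.2.2.1
  have hrt0 : t0.root = G.ch true b := hok2.2.1
  have hrt1 : t1.root = G.ch false b := hok2.2.2.1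
  have hpat : ∀ x, s.pat x = (((t0.pat x, t1.pat x), s1.pat x) : (Pt k × Pt k) × Pt (k + 1)) := by
    intro x
    rw [hpat1 x]
    change (s0.pat x, s1.pat x) = _
    rw [hpat2 x]
    rfl
  have hSib0 : ∀ x ∈ G.ZH H, s0.SibZ G x := fun x hx => St.np_SibZ_of hx0 hx s0 hsib1.1
  have hSib1 : ∀ x ∈ G.ZH H, s1.SibZ G x := fun x hx => St.np_SibZ_of hx0 hx s1 hsib1.2
  have hSibt0 : ∀ x ∈ G.ZH H, t0.SibZ G x := fun x hx => St.np_SibZ_of hx0 hx t0 hsib2.1
  have hSibt1 : ∀ x ∈ G.ZH H, t1.SibZ G x := fun x hx => St.np_SibZ_of hx0 hx t1 hsib2.2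
  have hconst' : ∀ x ∈ G.ZH H, ∀ d ∈ π, x d = x s0.root := fun x hx =>
    hconst x hx.1 (hSib0 x hx)
  -- the two pattern events
  let S1 : Pt (k + 2) → Prop := fun p => (Pt.tot k p.1.1 = 1 ∧ Pt.tot k p.1.2 = 1) ∧
    Pt.tot (k + 1) p.2 = 1
  let S2 : Pt (k + 2) → Prop := fun p => Pt.Up 62 k p.1.1 ∨ Pt.Up 62 k p.1.2
  set T := Fintype.card (Pt k) with hT
  have hTpos : 0 < T := by
    rw [hT, ← Pt.cn_true k, ← Pt.cn_eq]
    refine Finset.card_pos.2 ⟨0, by simp⟩
  have hS1 : 8 * Pt.cn S1 = (T * T) * (T * T) := by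
    have e1 : Pt.cn S1 = Pt.cn (fun p : Pt (k + 1) => Pt.tot k p.1 = 1 ∧ Pt.tot k p.2 = 1) *
      Pt.cn (fun p : Pt (k + 1) => Pt.tot (k + 1) p = 1) :=
      Pt.cn_prod (k + 1) (fun p => Pt.tot k p.1 = 1 ∧ Pt.tot k p.2 = 1)
        (fun p => Pt.tot (k + 1) p = 1)
    have e2 := Pt.cn_prod k (fun p => Pt.tot k p = 1) (fun p => Pt.tot k p = 1)
    have e3 := Pt.cn_tot_one k
    have e4 := Pt.cn_tot_one (k + 1)
    rw [Pt.np_card_succ] at e4
    rw [e1]
    generalize Pt.cn (fun p : Pt (k + 1) => Pt.tot k p.1 = 1 ∧ Pt.tot k p.2 = 1) = A at *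
    generalize Pt.cn (fun p : Pt (k + 1) => Pt.tot (k + 1) p = 1) = B at *
    generalize Pt.cn (fun p : Pt k => Pt.tot k p = 1) = C at *
    rw [← hT] at e3 e4
    clear_value T
    subst e3
    have e5 : B = 2 * (C * C) :=
      Nat.eq_of_mul_eq_mul_left (by norm_num : 0 < 2) (by rw [e4]; ring)
    rw [e2, e5]
    ring
  have hS2 : 32 * Pt.cn S2 ≤ (T * T) * (T * T) := by
    have e1 : Pt.cn S2 ≤ Pt.cn (fun p : Pt (k + 2) => Pt.Up 62 k p.1.1 ∧ True) +
        Pt.cn (fun p : Pt (k + 2) => Pt.Up 62 k p.1.2 ∧ True) :=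
      Pt.cn_le_add fun p hp => by
        rcases hp with h | h
        · exact Or.inl ⟨h, trivial⟩
        · exact Or.inr ⟨h, trivial⟩
    have e2 : Pt.cn (fun p : Pt (k + 2) => Pt.Up 62 k p.1.1 ∧ True) =
        Pt.cn (fun p : Pt (k + 1) => Pt.Up 62 k p.1) * Pt.cn (fun _ : Pt (k + 1) => True) :=
      Pt.cn_prod (k + 1) (fun p => Pt.Up 62 k p.1) (fun _ => True)
    have e3 : Pt.cn (fun p : Pt (k + 2) => Pt.Up 62 k p.1.2 ∧ True) =
        Pt.cn (fun p : Pt (k + 1) => Pt.Up 62 k p.2) * Pt.cn (fun _ : Pt (k + 1) => True) :=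
      Pt.cn_prod (k + 1) (fun p => Pt.Up 62 k p.2) (fun _ => True)
    have e4 : Pt.cn (fun p : Pt (k + 1) => Pt.Up 62 k p.1) =
        Pt.cn (fun p : Pt k => Pt.Up 62 k p) * Pt.cn (fun _ : Pt k => True) :=
      (Pt.cn_congr fun p => (and_iff_left trivial).symm).trans
        (Pt.cn_prod k (fun p => Pt.Up 62 k p) (fun _ => True))
    have e5 : Pt.cn (fun p : Pt (k + 1) => Pt.Up 62 k p.2) =
        Pt.cn (fun _ : Pt k => True) * Pt.cn (fun p : Pt k => Pt.Up 62 k p) :=
      (Pt.cn_congr fun p => (and_iff_right trivial).symm).trans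
        (Pt.cn_prod k (fun _ => True) (fun p => Pt.Up 62 k p))
    have e6 := Pt.card_Up 62 k
    rw [Pt.cn_eq, ← hT] at e6
    rw [e2, e3, e4, e5, Pt.cn_true, Pt.cn_true, Pt.np_card_succ, ← hT] at e1
    generalize Pt.cn (fun p : Pt k => Pt.Up 62 k p) = u at *
    have e7 : Pt.cn S2 ≤ 2 * u * (T * T * T) := by
      refine e1.trans (le_of_eq ?_)
      ring
    have e8 : 64 * u * (T * T * T) ≤ T * (T * T * T) := Nat.mul_le_mul_right _ (by omega)
    nlinarith
  set X1 := (G.Om H g).filter (fun x => S1 (s.pat x)) with hX1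
  set X2 := (G.Om H g).filter (fun x => S2 (s.pat x)) with hX2
  have hu1 : X1.card * ((T * T) * (T * T)) = Pt.cn S1 * (G.Om H g).card := by
    have h := pat_uniform G H g s hgood S1
    rw [Pt.cn_eq, Pt.np_card_succ, Pt.np_card_succ, ← hT] at h
    rw [hX1]
    convert h
  have hu2 : X2.card * ((T * T) * (T * T)) = Pt.cn S2 * (G.Om H g).card := by
    have h := pat_uniform G H g s hgood S2
    rw [Pt.cn_eq, Pt.np_card_succ, Pt.np_card_succ, ← hT] at h
    rw [hX2]
    convert h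
  set L := (G.Om H g).filter (fun x => St.Near G g x 64 s) with hL
  have hT4 : 0 < (T * T) * (T * T) := by positivity
  have c1 : 8 * X1.card = (G.Om H g).card := by
    have : (8 * X1.card) * ((T * T) * (T * T)) = (G.Om H g).card * ((T * T) * (T * T)) := by
      rw [mul_assoc, hu1, ← hS1]
      ring
    exact Nat.eq_of_mul_eq_mul_right hT4 this
  have c2 : 32 * X2.card ≤ (G.Om H g).card := by
    have : (32 * X2.card) * ((T * T) * (T * T)) ≤ (G.Om H g).card * ((T * T) * (T * T)) := by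
      rw [mul_assoc, hu2, ← mul_assoc, mul_comm ((G.Om H g).card)]
      exact Nat.mul_le_mul_right _ hS2
    exact Nat.le_of_mul_le_mul_right this hT4
  -- the injection
  set pe : Vec V := fun d => if d ∈ π ∨ G.ι d ∈ π then 1 else 0 with hpe
  have key : ∀ J ∈ X1 \ L, ∃ (P D Q : Vec V), G.IsCirc P ∧ P g = 1 ∧ D ∈ G.Dir H g ∧
      P * D = pe ∧ J * P = P + pe ∧
      (Q (G.ch true b) = 1 ∨ Q (G.ch false b) = 1) ∧ (∀ d, Q (G.ι d) = Q d) ∧
      (∀ d, Q d = 1 → P d = 0) ∧ (∀ d, D d = 0 → Q d = 0) ∧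
      (∀ d, d ∉ π → G.ι d ∉ π → Q d = D d) := by
    intro J hJ
    rw [Finset.mem_sdiff] at hJ
    obtain ⟨hJ1, hJL⟩ := hJ
    rw [hX1, Finset.mem_filter] at hJ1
    obtain ⟨hJO, hJS⟩ := hJ1
    obtain ⟨hJH, hJg⟩ := Cub.np_mem_Om.1 hJO
    have hnear : ¬ St.Near G g J 64 s := fun h => hJL (Finset.mem_filter.2 ⟨hJO, h⟩)
    have hn1 := hnear1 J 64 hnear
    have hns0 : ¬ s0.Near G g J 63 := fun h => hn1 (Or.inr (Or.inl h))
    have hns1 : ¬ s1.Near G g J 63 := fun h => hn1 (Or.inr (Or.inr h))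
    have hn2 := hnear2 J 63 hns0
    have hnt0 : ¬ t0.Near G g J 62 := fun h => hn2 (Or.inr (Or.inl h))
    have hnt1 : ¬ t1.Near G g J 62 := fun h => hn2 (Or.inr (Or.inr h))
    rw [hpat J] at hJS
    obtain ⟨⟨hq1, hq2⟩, hq3⟩ := hJS
    change Pt.tot k (t0.pat J) = 1 at hq1
    change Pt.tot k (t1.pat J) = 1 at hq2
    change Pt.tot (k + 1) (s1.pat J) = 1 at hq3
    rw [St.np_tot_pat hJH.1 t0 hokt0 (hSibt0 J hJH)] at hq1
    rw [St.np_tot_pat hJH.1 t1 hokt1 (hSibt1 J hJH)] at hq2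
    rw [St.np_tot_pat hJH.1 s1 hoks1 (hSib1 J hJH)] at hq3
    have hmt : G.main g J (G.ch true b) = 1 := by
      rw [← hrt0, ← St.np_near_root t0 hnt0, hq1]
    have hmf : G.main g J (G.ch false b) = 1 := by
      rw [← hrt1, ← St.np_near_root t1 hnt1, hq2]
    have hm1 : G.main g J (G.ch false a) = 1 := by
      rw [← hr1, ← St.np_near_root s1 hns1, hq3]
    have hJb : J s0.root = 0 := by
      rw [← hconst' J hJH b hbπ]
      have h1 := hJH.1.2 (G.ι b).1
      rw [G.np_vsum, hJH.1.1, ← hrt0, ← hrt1, hq1, hq2] at h1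
      generalize J b = u at *
      revert u
      decide
    refine np_key_switch hH hJO hrπ hbπ hfree hconst' ?_ hpot hJb ?_ hmt hmf
    · intro d hd h
      have h1 := hinfoot d hd
      rw [h, hr0v] at h1
      exact hok1.2.2.2.2.2.1 h1
    · rw [hr0v]
      have : G.main g J (G.ch false a) ≠ 0 := by rw [hm1]; exact one_ne_zero
      exact mem_cover_of_ne (d := G.ch false a) this
  choose! PJ DJ QJ hkey using key
  set D0 : Vec V → Vec V := fun P => if h : ∃ D ∈ G.Dir H g, P * D = pe then h.choose else 0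
    with hD0
  have hD0s : ∀ J ∈ X1 \ L, D0 (PJ J) ∈ G.Dir H g ∧ PJ J * D0 (PJ J) = pe := by
    intro J hJ
    have h : ∃ D ∈ G.Dir H g, PJ J * D = pe := ⟨DJ J, (hkey J hJ).2.2.1, (hkey J hJ).2.2.2.1⟩
    rw [hD0]
    simp only [dif_pos h]
    exact h.choose_spec
  have hmain : ∀ J ∈ X1 \ L, J + D0 (PJ J) ∈ G.Om H g ∧ G.main g (J + D0 (PJ J)) = PJ J := by
    intro J hJ
    have hJO : J ∈ G.Om H g := (Finset.mem_filter.1 (Finset.mem_sdiff.1 hJ).1).1
    have h1 := Cub.np_add_mem_Om hJO (hD0s J hJ).1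
    refine ⟨h1, ?_⟩
    refine Cub.main_eq (Cub.np_mem_Om.1 h1).1.1 (hkey J hJ).1 ?_ (hkey J hJ).2.1
    have h2 : (J + D0 (PJ J)) * PJ J = PJ J := by
      rw [add_mul, (hkey J hJ).2.2.2.2.1, mul_comm (D0 (PJ J)), (hD0s J hJ).2,
        np_vec_add_cancel]
    intro d hd
    have h3 := congrFun h2 d
    rw [Pi.mul_apply, hd, zero_mul] at h3
    exact h3.symm
  have c3 : (X1 \ L).card ≤ (L ∪ X2).card := by
    refine Finset.card_le_card_of_injOn (fun J => J + D0 (PJ J)) ?_ ?_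
    · intro J hJ
      rw [Finset.mem_coe] at hJ
      obtain ⟨hKO, hKm⟩ := hmain J hJ
      obtain ⟨hP1, hP2, hP3, hP4, hP5, hP6, hP7, hP8, hP9, hP10⟩ := hkey J hJ
      change J + D0 (PJ J) ∈ ((L ∪ X2 : Finset (Vec V)) : Set (Vec V))
      rw [Finset.mem_coe, Finset.mem_union]
      generalize J + D0 (PJ J) = K at *
      by_cases hKL : St.Near G g K 64 s
      · left
        exact Finset.mem_filter.2 ⟨hKO, hKL⟩
      · right
        refine Finset.mem_filter.2 ⟨hKO, ?_⟩
        rw [hpat K]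
        change Pt.Up 62 k (t0.pat K) ∨ Pt.Up 62 k (t1.pat K)
        obtain ⟨hKH, hKg⟩ := Cub.np_mem_Om.1 hKO
        have hn1 := hnear1 K 64 hKL
        have hns0 : ¬ s0.Near G g K 63 := fun h => hn1 (Or.inr (Or.inl h))
        have hn2 := hnear2 K 63 hns0
        have hnt0 : ¬ t0.Near G g K 62 := fun h => hn2 (Or.inr (Or.inl h))
        have hnt1 : ¬ t1.Near G g K 62 := fun h => hn2 (Or.inr (Or.inr h))
        have hQP : ∀ d, QJ J d = 1 → G.main g K d = 0 := by rw [hKm]; exact hP8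
        have hPZ : G.main g K ∈ G.Z := by rw [hKm]; exact hP1.1
        have hDZ : DJ J ∈ G.Z := hP3.1.1
        have hQS : ∀ {j : ℕ} (t : St V j), t.SibZ G (DJ J) → t.SibZ G (QJ J) := by
          intro j t
          induction t with
          | leaf a => exact fun _ => trivial
          | sg a f s ih => exact fun h => ⟨hP9 _ h.1, ih h.2⟩
          | br a s t ihs iht => exact fun h => ⟨ihs h.1, iht h.2⟩
        have hQv : ∀ v, (∀ d ∈ π, d.1 ≠ v ∧ (G.ι d).1 ≠ v) → ∑ i, QJ J (v, i) = 0 := by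
          intro v hv
          rw [← hDZ.2 v]
          refine Finset.sum_congr rfl fun i _ => hP10 _ ?_ ?_
          · intro h
            exact (hv _ h).1 rfl
          · intro h
            apply (hv _ h).2
            rw [G.inv]
        rcases hP6 with h | h
        · left
          refine St.np_descend hKH.1 hPZ hP7 hQP t0 62 (by omega) hokt0 (hSibt0 K hKH)
            (hQS t0 (hSibt0 _ hP3.1)) ?_ hnt0 (by rw [hrt0]; exact h)
          intro v hv
          apply hQv
          intro d hd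
          exact ⟨fun h => (hdfoot d hd).1 (by rw [h]; exact hv),
            fun h => (hnfoot d hd).1 (by rw [h]; exact hv)⟩
        · right
          refine St.np_descend hKH.1 hPZ hP7 hQP t1 62 (by omega) hokt1 (hSibt1 K hKH)
            (hQS t1 (hSibt1 _ hP3.1)) ?_ hnt1 (by rw [hrt1]; exact h)
          intro v hv
          apply hQv
          intro d hd
          exact ⟨fun h => (hdfoot d hd).2 (by rw [h]; exact hv),
            fun h => (hnfoot d hd).2 (by rw [h]; exact hv)⟩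
    · intro J hJ J' hJ' h
      rw [Finset.mem_coe] at hJ hJ'
      simp only at h
      have h1 := (hmain J hJ).2
      have h2 := (hmain J' hJ').2
      rw [h, h2] at h1
      rw [← h1] at h
      exact add_right_cancel h
  have c4 : X1.card ≤ (X1 \ L).card + L.card := by
    exact Finset.card_le_card_sdiff_add_card
  have c5 := Finset.card_union_le L X2
  omega

end site

end Pool.Agent.LibMP58b56d
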