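import Mathlib
import Pool.Agent.LibMP58b56d.Site

set_option autoImplicit false

open Finset Classical

namespace Pool.Agent.LibMP58b56d

section

variable {V : Type} {G : Cub V} {H : Set (Dt V)} {g : Dt V}

lemma Cub.mem_Dir {x : Vec V} : x ∈ G.Dir H g ↔ x ∈ G.ZH H ∧ x g = 0 := Iff.rfl

lemma Cub.mem_Om [Fintype V] {x : Vec V} : x ∈ G.Om H g ↔ x ∈ G.ZH H ∧ x g = 1 := by
  simp [Cub.Om]

lemma Cub.Free.mem {a : Dt V} (h : G.Free H g a) : a ∈ H := by
  obtain ⟨z, hz, hza⟩ := h
  by_contra hc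
  exact hza (hz.1.2 a hc)

lemma Cub.Free.iota {a : Dt V} (h : G.Free H g a) : G.Free H g (G.ι a) := by
  obtain ⟨z, hz, hza⟩ := h
  exact ⟨z, hz, by rwa [hz.1.1.1 a]⟩

lemma Cub.free_iota {a : Dt V} : G.Free H g (G.ι a) ↔ G.Free H g a :=
  ⟨fun h => by have := h.iota; rwa [G.inv] at this, fun h => h.iota⟩

lemma Cub.not_free_g : ¬ G.Free H g g := by
  rintro ⟨z, hz, hzg⟩
  exact hzg hz.2

lemma Cub.Om_add [Fintype V] {x y : Vec V} (hx : x ∈ G.Om H g) (hy : y ∈ G.Om H g) :
    x + y ∈ G.Dir H g := by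
  rw [Cub.mem_Om] at hx hy
  refine ⟨add_mem hx.1 hy.1, ?_⟩
  rw [Pi.add_apply, hx.2, hy.2]
  exact zmod2_add_self 1

lemma Cub.Om_add_Dir [Fintype V] {x z : Vec V} (hx : x ∈ G.Om H g) (hz : z ∈ G.Dir H g) :
    x + z ∈ G.Om H g := by
  rw [Cub.mem_Om] at hx ⊢
  refine ⟨add_mem hx.1 hz.1, ?_⟩
  rw [Pi.add_apply, hx.2, hz.2, add_zero]

/-- a dart which is not free is constant on `Om` -/
lemma Cub.const_of_not_free [Fintype V] {a : Dt V} (h : ¬ G.Free H g a) {x y : Vec V}
    (hx : x ∈ G.Om H g) (hy : y ∈ G.Om H g) : x a = y a := by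
  by_contra hne
  apply h
  refine ⟨x + y, Cub.Om_add hx hy, fun h0 => hne ?_⟩
  exact zmod2_eq_of_add h0

/-- a forced dart equals `g` as a functional -/
lemma Cub.eq_g_of_forced [Fintype V] {a : Dt V} (h : ¬ G.Free H g a)
    (ho : ∃ x ∈ G.Om H g, x a = 1) {x : Vec V} (hx : x ∈ G.ZH H) : x a = x g := by
  rcases zmod2_cases (x g) with h1 | h1
  · rw [h1]
    by_contra hne
    exact h ⟨x, ⟨hx, h1⟩, hne⟩
  · obtain ⟨y, hy, hya⟩ := ho
    rw [h1, ← hya]
    exact Cub.const_of_not_free h (Cub.mem_Om.2 ⟨hx, h1⟩) hy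

end

/-- connection through free edges -/
def Cub.FConn {V : Type} (G : Cub V) (H : Set (Dt V)) (g : Dt V) (u v : V) : Prop :=
  ∀ U : V → ZMod 2, (∀ d, G.Free H g d → U d.1 = U (G.ι d).1) → U u = U v

section

variable {V : Type} {G : Cub V} {H : Set (Dt V)} {g : Dt V}

lemma Cub.FConn.refl (u : V) : G.FConn H g u u := fun _ _ => rfl

lemma Cub.FConn.symm {u v : V} (h : G.FConn H g u v) : G.FConn H g v u :=
  fun U hU => (h U hU).symm

lemma Cub.FConn.trans {u v w : V} (h : G.FConn H g u v) (h' : G.FConn H g v w) :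
    G.FConn H g u w := fun U hU => (h U hU).trans (h' U hU)

lemma Cub.FConn.of_free {d : Dt V} (h : G.Free H g d) : G.FConn H g d.1 (G.ι d).1 :=
  fun _ hU => hU d h

end

/-- the cut given by two equal functionals `x s = x t` -/
lemma Cub.pair_cut {V : Type} [Fintype V] {G : Cub V} {H : Set (Dt V)} (hH : G.Inv H)
    (s t : Dt V) (h : ∀ x ∈ G.ZH H, x s = x t) : ∃ U : V → ZMod 2, ∀ d ∈ H,
      (if d = s then (1 : ZMod 2) else 0) + (if d = t then 1 else 0) +
      ((if G.ι d = s then 1 else 0) + (if G.ι d = t then 1 else 0)) = U d.1 + U (G.ι d).1 := by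
  refine (Cub.dual hH (fun d => (if d = s then (1 : ZMod 2) else 0) +
    (if d = t then 1 else 0))).1 ?_
  intro x hx
  unfold dot
  simp only [add_mul, ite_mul, one_mul, zero_mul, Finset.sum_add_distrib, Finset.sum_ite_eq',
    Finset.mem_univ, if_true]
  rw [h x hx]
  exact zmod2_add_self _

/-- three forced darts cannot sit at free-connected vertices -/
theorem terminal {V : Type} [Fintype V] (G : Cub V) (H : Set (Dt V)) (hH : G.Inv H) (g : Dt V)
    (hne : (G.Om H g).Nonempty) (s1 s2 s3 : Dt V) (h12 : s1 ≠ s2) (h13 : s1 ≠ s3) (h23 : s2 ≠ s3)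
    (f1 : ¬ G.Free H g s1) (f2 : ¬ G.Free H g s2) (f3 : ¬ G.Free H g s3)
    (o1 : ∃ x ∈ G.Om H g, x s1 = 1) (o2 : ∃ x ∈ G.Om H g, x s2 = 1)
    (o3 : ∃ x ∈ G.Om H g, x s3 = 1)
    (c12 : G.FConn H g s1.1 s2.1) (c13 : G.FConn H g s1.1 s3.1) : False := by
  have e1 : ∀ x ∈ G.ZH H, x s1 = x g := fun x hx => Cub.eq_g_of_forced f1 o1 hx
  have e2 : ∀ x ∈ G.ZH H, x s2 = x g := fun x hx => Cub.eq_g_of_forced f2 o2 hx
  have e3 : ∀ x ∈ G.ZH H, x s3 = x g := fun x hx => Cub.eq_g_of_forced f3 o3 hx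
  obtain ⟨x, hx⟩ := hne
  rw [Cub.mem_Om] at hx
  have x1 : x s1 = 1 := by rw [e1 x hx.1, hx.2]
  have x2 : x s2 = 1 := by rw [e2 x hx.1, hx.2]
  have x3 : x s3 = 1 := by rw [e3 x hx.1, hx.2]
  have m1 : s1 ∈ H := by
    by_contra h; rw [hx.1.2 s1 h] at x1; exact zero_ne_one x1
  have m2 : s2 ∈ H := by
    by_contra h; rw [hx.1.2 s2 h] at x2; exact zero_ne_one x2
  have m3 : s3 ∈ H := by
    by_contra h; rw [hx.1.2 s3 h] at x3; exact zero_ne_one x3
  obtain ⟨U, hU⟩ := Cub.pair_cut hH s1 s2 (fun x hx => by rw [e1 x hx, e2 x hx])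
  obtain ⟨U', hU'⟩ := Cub.pair_cut hH s1 s3 (fun x hx => by rw [e1 x hx, e3 x hx])
  -- both are constant along free edges
  have hfree : ∀ s : Dt V, ¬ G.Free H g s → ∀ d, G.Free H g d → d ≠ s ∧ G.ι d ≠ s := by
    intro s hs d hd
    refine ⟨fun h => hs (h ▸ hd), fun h => hs (h ▸ hd.iota)⟩
  have k1 : ∀ d, G.Free H g d → U d.1 = U (G.ι d).1 := by
    intro d hd
    have := hU d hd.mem
    rw [if_neg (hfree s1 f1 d hd).1, if_neg (hfree s2 f2 d hd).1, if_neg (hfree s1 f1 d hd).2,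
      if_neg (hfree s2 f2 d hd).2] at this
    exact zmod2_eq_of_add (by rw [← this]; rfl)
  have k2 : ∀ d, G.Free H g d → U' d.1 = U' (G.ι d).1 := by
    intro d hd
    have := hU' d hd.mem
    rw [if_neg (hfree s1 f1 d hd).1, if_neg (hfree s3 f3 d hd).1, if_neg (hfree s1 f1 d hd).2,
      if_neg (hfree s3 f3 d hd).2] at this
    exact zmod2_eq_of_add (by rw [← this]; rfl)
  have u12 := c12 U k1
  have u13 := c13 U k1
  have v12 := c12 U' k2
  have v13 := c13 U' k2
  -- the three darts lie on three different edges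
  have n12 : s1 ≠ G.ι s2 := by
    intro h
    have h' : G.ι s1 = s2 := by rw [h, G.inv]
    have := hU' s1 m1
    rw [if_pos rfl, if_neg h13, if_neg (G.nofix s1), h', if_neg h23, ← v12,
      zmod2_add_self (U' s1.1)] at this
    revert this; decide
  have n13 : s1 ≠ G.ι s3 := by
    intro h
    have h' : G.ι s1 = s3 := by rw [h, G.inv]
    have := hU s1 m1
    rw [if_pos rfl, if_neg h12, if_neg (G.nofix s1), h', if_neg h23.symm, ← u13,
      zmod2_add_self (U s1.1)] at this
    revert this; decide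
  have n23 : s2 ≠ G.ι s3 := by
    intro h
    have h' : G.ι s2 = s3 := by rw [h, G.inv]
    have := hU s2 m2
    rw [if_neg h12.symm, if_pos rfl, h', if_neg h13.symm, if_neg h23.symm, ← u12, ← u13,
      zmod2_add_self (U s1.1)] at this
    revert this; decide
  have n21 : s2 ≠ G.ι s1 := fun h => n12 (by rw [h, G.inv])
  have n31 : s3 ≠ G.ι s1 := fun h => n13 (by rw [h, G.inv])
  have n32 : s3 ≠ G.ι s2 := fun h => n23 (by rw [h, G.inv])
  -- values at the far ends
  have w1 : U s1.1 + U (G.ι s1).1 = 1 := by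
    have := hU s1 m1
    rw [if_pos rfl, if_neg h12, if_neg (G.nofix s1), if_neg n21.symm] at this
    rw [← this]; rfl
  have w2 : U s1.1 + U (G.ι s2).1 = 1 := by
    have := hU s2 m2
    rw [if_neg h12.symm, if_pos rfl, if_neg n12.symm, if_neg (G.nofix s2)] at this
    rw [u12, ← this]; rfl
  have w3 : U' s1.1 + U' (G.ι s3).1 = 1 := by
    have := hU' s3 m3
    rw [if_neg h13.symm, if_pos rfl, if_neg n13.symm, if_neg (G.nofix s3)] at this
    rw [v13, ← this]; rfl
  have hpar := Cub.parity hx.1.1 (univ.filter (fun v => U v = U s1.1 ∧ U' v = U' s1.1))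
  have hset : ∑ d ∈ univ.filter (fun d : Dt V =>
      d.1 ∈ univ.filter (fun v => U v = U s1.1 ∧ U' v = U' s1.1) ∧
      (G.ι d).1 ∉ univ.filter (fun v => U v = U s1.1 ∧ U' v = U' s1.1)), x d =
      ∑ d ∈ ({s1, s2, s3} : Finset (Dt V)), x d := by
    symm
    apply Finset.sum_subset
    · intro d hd
      simp only [Finset.mem_insert, Finset.mem_singleton] at hd
      simp only [Finset.mem_filter, Finset.mem_univ, true_and]
      rcases hd with rfl | rfl | rfl
      · refine ⟨⟨rfl, rfl⟩, fun h => ?_⟩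
        rw [h.1, zmod2_add_self] at w1
        exact zero_ne_one w1
      · refine ⟨⟨u12.symm, v12.symm⟩, fun h => ?_⟩
        rw [h.1, zmod2_add_self] at w2
        exact zero_ne_one w2
      · refine ⟨⟨u13.symm, v13.symm⟩, fun h => ?_⟩
        rw [h.2, zmod2_add_self] at w3
        exact zero_ne_one w3
    · intro d hd hd'
      simp only [Finset.mem_filter, Finset.mem_univ, true_and] at hd
      simp only [Finset.mem_insert, Finset.mem_singleton, not_or] at hd'
      by_contra hxd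
      have hdH : d ∈ H := by
        by_contra h
        exact hxd (hx.1.2 d h)
      have q1 : G.ι d ≠ s1 := by
        intro h
        have : G.ι s1 = d := by rw [← h, G.inv]
        rw [this, hd.1.1, zmod2_add_self] at w1
        exact zero_ne_one w1
      have q2 : G.ι d ≠ s2 := by
        intro h
        have : G.ι s2 = d := by rw [← h, G.inv]
        rw [this, hd.1.1, zmod2_add_self] at w2
        exact zero_ne_one w2
      have q3 : G.ι d ≠ s3 := by
        intro h
        have : G.ι s3 = d := by rw [← h, G.inv]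
        rw [this, hd.1.2, zmod2_add_self] at w3
        exact zero_ne_one w3
      have r1 := hU d hdH
      have r2 := hU' d hdH
      rw [if_neg hd'.1, if_neg hd'.2.1, if_neg q1, if_neg q2] at r1
      rw [if_neg hd'.1, if_neg hd'.2.2, if_neg q1, if_neg q3] at r2
      apply hd.2
      constructor
      · rw [← hd.1.1]
        exact (zmod2_eq_of_add (by rw [← r1]; rfl)).symm
      · rw [← hd.1.2]
        exact (zmod2_eq_of_add (by rw [← r2]; rfl)).symm
  rw [hset, Finset.sum_insert (by simp [h12, h13]), Finset.sum_insert (by simp [h23]),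
    Finset.sum_singleton, x1, x2, x3] at hpar
  revert hpar
  decide

end Pool.Agent.LibMP58b56d
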