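import Mathlib
import Pool.Agent.LibMP58b56d.Site
import Pool.Agent.LibMP58b56d.Terminal

set_option autoImplicit false

open Finset Classical

namespace Pool.Agent.LibMP58b56d

section basics

variable {V : Type} {G : Cub V} {H q : Set (Dt V)} {g : Dt V}

/-- the vertex relation along a dart and its two children -/
lemma Cub.child_sum {x : Vec V} (hx : x ∈ G.Z) (a : Dt V) :
    x a = x (G.ch true a) + x (G.ch false a) := by
  have h := hx.2 (G.ι a).1
  have h2 : x a = x ((G.ι a).1, (G.ι a).2) := by
    rw [← hx.1 a]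
  rw [Fin.sum_univ_three] at h
  rw [h2]
  unfold Cub.ch
  generalize (G.ι a).1 = v at *
  generalize (G.ι a).2 = i at *
  fin_cases i
  · change x (v, 0) = x (v, 1) + x (v, 2)
    generalize x (v, 0) = a0 at *
    generalize x (v, 1) = a1 at *
    generalize x (v, 2) = a2 at *
    revert a0 a1 a2; decide
  · change x (v, 1) = x (v, 2) + x (v, 0)
    generalize x (v, 0) = a0 at *
    generalize x (v, 1) = a1 at *
    generalize x (v, 2) = a2 at *
    revert a0 a1 a2; decide
  · change x (v, 2) = x (v, 0) + x (v, 1)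
    generalize x (v, 0) = a0 at *
    generalize x (v, 1) = a1 at *
    generalize x (v, 2) = a2 at *
    revert a0 a1 a2; decide

lemma Cub.child_sum' {x : Vec V} (hx : x ∈ G.Z) (a : Dt V) (f : Bool) :
    x a = x (G.ch f a) + x (G.ch (!f) a) := by
  cases f
  · rw [Cub.child_sum hx a, add_comm]; rfl
  · rw [Cub.child_sum hx a]; rfl

lemma Cub.ch_fst (f : Bool) (a : Dt V) : (G.ch f a).1 = (G.ι a).1 := rfl

lemma Cub.Dir_mono (h : q ⊆ H) : G.Dir q g ≤ G.Dir H g :=
  fun _ hx => ⟨Cub.ZH_mono h hx.1, hx.2⟩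

lemma Cub.Free.mono (h : q ⊆ H) {a : Dt V} (ha : G.Free q g a) : G.Free H g a := by
  obtain ⟨z, hz, hza⟩ := ha
  exact ⟨z, Cub.Dir_mono h hz, hza⟩

lemma Cub.Om_mono [Fintype V] (h : q ⊆ H) : G.Om q g ⊆ G.Om H g := by
  intro x hx
  rw [Cub.mem_Om] at hx ⊢
  exact ⟨Cub.ZH_mono h hx.1, hx.2⟩

/-- a sibling which vanishes on `Om` vanishes on `Dir` -/
lemma Cub.dir_zero [Fintype V] (hne : (G.Om H g).Nonempty) {b : Dt V}
    (h : ∀ x ∈ G.Om H g, x b = 0) {z : Vec V} (hz : z ∈ G.Dir H g) : z b = 0 := by
  obtain ⟨x, hx⟩ := hne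
  have h1 := h _ (Cub.Om_add_Dir hx hz)
  rwa [Pi.add_apply, h x hx, zero_add] at h1

end basics

/-- vanishing of the siblings of `s` at `x` -/
def St.Sib0 {V : Type} (G : Cub V) (x : Vec V) : {k : ℕ} → St V k → Prop
  | _, .leaf _ => True
  | _, .sg a f s => x (G.ch (!f) a) = 0 ∧ St.Sib0 G x s
  | _, .br _ s t => St.Sib0 G x s ∧ St.Sib0 G x t

section sites

variable {V : Type} [Fintype V] {G : Cub V} {H q : Set (Dt V)} {g : Dt V}

omit [Fintype V] in
lemma St.tot_pat' {k : ℕ} (s : St V k) (hok : s.Ok G H g) {x : Vec V} (hx : x ∈ G.Z)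
    (hsib : s.Sib0 G x) : Pt.tot k (s.pat x) = x s.root := by
  induction s with
  | leaf a => rfl
  | sg a f s ih =>
    obtain ⟨_, h1, _, h2, _⟩ := hok
    change Pt.tot _ (s.pat x) = x a
    rw [ih h2 hsib.2, Cub.child_sum' hx a f, hsib.1, add_zero, h1]
  | br a s t ihs iht =>
    obtain ⟨_, h1, h2, h3, h4, _⟩ := hok
    change Pt.tot _ (s.pat x) + Pt.tot _ (t.pat x) = x a
    rw [ihs h3 hsib.1, iht h4 hsib.2, Cub.child_sum hx a, h1, h2]

lemma St.SibZero.sib0 {k : ℕ} (s : St V k) (h : s.SibZero G H g) {x : Vec V}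
    (hx : x ∈ G.Om H g) : s.Sib0 G x := by
  induction s with
  | leaf a => trivial
  | sg a f s ih => exact ⟨h.1 x hx, ih h.2⟩
  | br a s t ihs iht => exact ⟨ihs h.1, iht h.2⟩

omit [Fintype V] in
lemma St.Ok.free {k : ℕ} {s : St V k} (h : s.Ok G H g) : G.Free H g s.root := by
  cases s with
  | leaf a => exact h
  | sg a f s => exact h.1
  | br a s t => exact h.1

end sites

/-- half of `Om` vanishes at a free dart -/
lemma Cub.half_card {V : Type} [Fintype V] {G : Cub V} {H : Set (Dt V)} {g : Dt V} {a : Dt V}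
    (ha : G.Free H g a) : (G.Om H g).card = 2 * ((G.Om H g).filter (fun x => x a = 0)).card := by
  obtain ⟨z, hz, hza⟩ := ha
  have hza' : z a = 1 := zmod2_ne_zero hza
  rw [← Finset.card_filter_add_card_filter_not (s := G.Om H g) (fun x => x a = 0), two_mul]
  congr 1
  refine Finset.card_bij' (fun x _ => x + z) (fun x _ => x + z) ?_ ?_ ?_ ?_
  · intro x hx
    simp only [Finset.mem_filter] at hx ⊢
    refine ⟨Cub.Om_add_Dir hx.1 hz, ?_⟩
    rw [Pi.add_apply, zmod2_ne_zero hx.2, hza']
    exact zmod2_add_self 1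
  · intro x hx
    simp only [Finset.mem_filter] at hx ⊢
    refine ⟨Cub.Om_add_Dir hx.1 hz, ?_⟩
    rw [Pi.add_apply, hx.2, hza']
    decide
  · intro x _
    funext d
    simp only [Pi.add_apply]
    rw [add_assoc, zmod2_add_self, add_zero]
  · intro x _
    funext d
    simp only [Pi.add_apply]
    rw [add_assoc, zmod2_add_self, add_zero]

lemma Pt.LU_of_Up (θ : ℕ → ℕ) (m k : ℕ) (p : Pt k) (h : Pt.Up (θ m) k p) : Pt.LU θ m k p := by
  cases k with
  | zero => exact h
  | succ k => exact Or.inl h

/-- many elements of `Om q` have a long uncovered path near `s` -/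
def LUbig {V : Type} [Fintype V] (G : Cub V) (q : Set (Dt V)) (g : Dt V) (θ : ℕ → ℕ) {k : ℕ}
    (s : St V k) (m : ℕ) : Prop :=
  (G.Om q g).card ≤ 2 * ((G.Om q g).filter (fun x => Pt.LU θ m k (s.pat x))).card

section LUbig

variable {V : Type} [Fintype V] {G : Cub V} {H q : Set (Dt V)} {g : Dt V} {θ : ℕ → ℕ}

lemma LUbig.sg {k : ℕ} {a : Dt V} {f : Bool} {s : St V k} {m : ℕ} (h : LUbig G q g θ s m) :
    LUbig G q g θ (St.sg a f s) m := h

lemma LUbig.brl {k : ℕ} {a : Dt V} {s t : St V k} {m : ℕ} (h : LUbig G q g θ s (m + 1)) :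
    LUbig G q g θ (St.br a s t) m := by
  refine le_trans h (Nat.mul_le_mul_left _ (Finset.card_le_card ?_))
  intro x hx
  simp only [Finset.mem_filter] at hx ⊢
  exact ⟨hx.1, Or.inr (Or.inl hx.2)⟩

lemma LUbig.brr {k : ℕ} {a : Dt V} {s t : St V k} {m : ℕ} (h : LUbig G q g θ t (m + 1)) :
    LUbig G q g θ (St.br a s t) m := by
  refine le_trans h (Nat.mul_le_mul_left _ (Finset.card_le_card ?_))
  intro x hx
  simp only [Finset.mem_filter] at hx ⊢
  exact ⟨hx.1, Or.inr (Or.inr hx.2)⟩

end LUbig

/-- closure properties of a family of alternatives, used by `walk` -/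
structure WalkAlt {V : Type} [Fintype V] (G : Cub V) (H q : Set (Dt V)) (g : Dt V) (θ : ℕ → ℕ)
    (D3 : ℕ → ℕ) (Alt : {k : ℕ} → St V k → ℕ → Prop) : Prop where
  sg : ∀ {k : ℕ} (a : Dt V) (f : Bool) (s : St V k) (m : ℕ), (St.sg a f s).Ok G H g →
    G.Free q g a → Alt s m → Alt (St.sg a f s) m
  brl : ∀ {k : ℕ} (a : Dt V) (s t : St V k) (m : ℕ), (St.br a s t).Ok G H g →
    G.Free q g a → ¬ G.Free q g t.root → Alt s (m + 1) → Alt (St.br a s t) m
  brr : ∀ {k : ℕ} (a : Dt V) (s t : St V k) (m : ℕ), (St.br a s t).Ok G H g →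
    G.Free q g a → ¬ G.Free q g s.root → Alt t (m + 1) → Alt (St.br a s t) m
  both : ∀ {k : ℕ} (a : Dt V) (s t : St V k) (m : ℕ), (St.br a s t).Ok G H g →
    (St.br a s t).SibZero G H g → G.Free q g a → G.Free q g s.root → G.Free q g t.root →
    D3 m ≤ k → Alt (St.br a s t) m
  lu : ∀ {k : ℕ} (s : St V k) (m : ℕ), LUbig G q g θ s m → Alt s m

/-- bounds for the walk lemma -/
def walkD (θ D3 : ℕ → ℕ) : ℕ → ℕ → ℕ
  | 0, _ => 0
  | j + 1, m => θ m + 1 + (range (m + θ m + 2)).sup (fun i => walkD θ D3 j i + D3 i)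

section walk

variable {V : Type} [Fintype V] {G : Cub V} {H q : Set (Dt V)} {g : Dt V} {θ D3 : ℕ → ℕ}
  {Alt : {k : ℕ} → St V k → ℕ → Prop}

/-- invariant: the set `S` of forced darts seen so far, connected to the current root -/
def WalkInv (G : Cub V) (q : Set (Dt V)) (g : Dt V) (S : Finset (Dt V)) {k : ℕ} (s : St V k) :
    Prop :=
  ∀ d ∈ S, ¬ G.Free q g d ∧ (∃ x ∈ G.Om q g, x d = 1) ∧ G.FConn q g d.1 s.root.1 ∧
    d.1 ∉ s.foot G

lemma walk_aux (hq : q ⊆ H) (hqi : G.Inv q) (hne : (G.Om q g).Nonempty)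
    (hA : WalkAlt G H q g θ D3 Alt) (j m n E : ℕ)
    (hE : ∀ i, i ≤ m + n + 1 → walkD θ D3 j i + D3 i ≤ E)
    (S : Finset (Dt V)) (hS : S.card + (j + 1) = 3)
    (IC : ∀ (S' : Finset (Dt V)), S'.card + j = 3 → ∀ (m' k : ℕ) (s : St V k),
      walkD θ D3 j m' ≤ k → s.Ok G H g → s.SibZero G H g → G.Free q g s.root →
      WalkInv G q g S' s → Alt s m') :
    ∀ (n' : ℕ) (k : ℕ) (s : St V k) (m' : ℕ), m' + n' = m + n → n' + E ≤ k → s.Ok G H g →
      s.SibZero G H g → G.Free q g s.root → WalkInv G q g S s →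
      (∀ x ∈ G.Om q g, x s.root = 0 → Pt.Up n' k (s.pat x)) ∨ Alt s m' := by
  intro n'
  induction n' with
  | zero =>
    intro k s m' _ _ hok hsz _ _
    left
    intro x hx hx0
    change Pt.tot k (s.pat x) = 0
    rw [St.tot_pat' s hok (Cub.mem_Om.1 hx).1.1 (St.SibZero.sib0 s hsz (Cub.Om_mono hq hx))]
    exact hx0
  | succ n' ih =>
    intro k s
    induction s with
    | leaf a =>
      intro m' _ hk
      omega
    | @sg k a f s ihs =>
      intro m' hm hk hok hsz hfree hinv
      have hok' := hok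
      obtain ⟨h0, h1, h2, h3, h4⟩ := hok
      -- the child has the same functional
      have hval : ∀ x ∈ G.Om q g, x a = x s.root := by
        intro x hx
        rw [Cub.child_sum' (Cub.mem_Om.1 hx).1.1 a f, hsz.1 x (Cub.Om_mono hq hx), add_zero, h1]
      have hfree' : G.Free q g s.root := by
        obtain ⟨z, hz, hza⟩ := hfree
        refine ⟨z, hz, ?_⟩
        have h5 : z (G.ch (!f) a) = 0 := by
          obtain ⟨x, hx⟩ := hne
          have h6 := hsz.1 _ (Cub.Om_mono hq (Cub.Om_add_Dir hx hz))
          rwa [Pi.add_apply, hsz.1 x (Cub.Om_mono hq hx), zero_add] at h6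
        have h6 := Cub.child_sum' hz.1.1 a f
        rw [h5, add_zero] at h6
        rw [h1, ← h6]
        exact hza
      have hinv' : WalkInv G q g S s := by
        intro d hd
        obtain ⟨i1, i2, i3, i4⟩ := hinv d hd
        refine ⟨i1, i2, ?_, ?_⟩
        · rw [h1]
          exact i3.trans (Cub.FConn.of_free hfree)
        · intro h
          exact i4 (Finset.mem_insert_of_mem h)
      rcases ihs m' hm hk h3 hsz.2 hfree' hinv' with h | h
      · left
        intro x hx hx0
        exact h x hx (by rw [← hval x hx]; exact hx0)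
      · right
        exact hA.sg a f s m' hok' hfree h
    | @br k a s t _ _ =>
      intro m' hm hk hok hsz hfree hinv
      have hok' := hok
      obtain ⟨h0, h1, h2, h3, h4, h5, h6, h7⟩ := hok
      have hE' := hE m' (by omega)
      have hE'' := hE (m' + 1) (by omega)
      have hconn : ∀ d ∈ S, G.FConn q g d.1 (G.ι a).1 := fun d hd =>
        (hinv d hd).2.2.1.trans (Cub.FConn.of_free hfree)
      by_cases hs : G.Free q g s.root
      · by_cases ht : G.Free q g t.root
        · right
          exact hA.both a s t m' hok' hsz hfree hs ht (by omega)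
        · -- only `s` is free
          by_cases hv : ∃ x ∈ G.Om q g, x t.root = 1
          · right
            apply hA.brl a s t m' hok' hfree ht
            refine IC (insert t.root S) ?_ (m' + 1) k s (by omega) h3 hsz.1 hs ?_
            · rw [Finset.card_insert_of_notMem]
              · omega
              · intro h
                apply (hinv _ h).2.2.2
                rw [h2]
                exact Finset.mem_insert_self _ _
            · intro d hd
              rw [Finset.mem_insert] at hd
              rcases hd with rfl | hd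
              · refine ⟨ht, hv, ?_, ?_⟩
                · rw [h1, h2]
                  exact Cub.FConn.refl _
                · rw [h2]
                  exact h5
              · refine ⟨(hinv d hd).1, (hinv d hd).2.1, ?_, ?_⟩
                · rw [h1]
                  exact hconn d hd
                · intro h
                  exact (hinv d hd).2.2.2 (Finset.mem_insert_of_mem (Finset.mem_union_left _ h))
          · have hv0 : ∀ x ∈ G.Om q g, x t.root = 0 := fun x hx =>
              zmod2_ne_one (fun h => hv ⟨x, hx, h⟩)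
            have hinv' : WalkInv G q g S s := by
              intro d hd
              refine ⟨(hinv d hd).1, (hinv d hd).2.1, ?_, ?_⟩
              · rw [h1]
                exact hconn d hd
              · intro h
                exact (hinv d hd).2.2.2 (Finset.mem_insert_of_mem (Finset.mem_union_left _ h))
            rcases ih k s (m' + 1) (by omega) (by omega) h3 hsz.1 hs hinv' with h | h
            · left
              intro x hx hx0
              change x a = 0 at hx0
              have hx' := (Cub.mem_Om.1 hx).1.1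
              have hxs : x s.root = 0 := by
                have := Cub.child_sum hx' a
                rw [← h1, ← h2, hx0, hv0 x hx, add_zero] at this
                exact this.symm
              refine ⟨?_, ?_, Or.inl (h x hx hxs)⟩
              · rw [← hxs]
                exact St.tot_pat' s h3 hx' (St.SibZero.sib0 s hsz.1 (Cub.Om_mono hq hx))
              · rw [← hv0 x hx]
                exact St.tot_pat' t h4 hx' (St.SibZero.sib0 t hsz.2 (Cub.Om_mono hq hx))
            · right
              exact hA.brl a s t m' hok' hfree ht h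
      · by_cases ht : G.Free q g t.root
        · -- only `t` is free
          by_cases hv : ∃ x ∈ G.Om q g, x s.root = 1
          · right
            apply hA.brr a s t m' hok' hfree hs
            refine IC (insert s.root S) ?_ (m' + 1) k t (by omega) h4 hsz.2 ht ?_
            · rw [Finset.card_insert_of_notMem]
              · omega
              · intro h
                apply (hinv _ h).2.2.2
                rw [h1]
                exact Finset.mem_insert_self _ _
            · intro d hd
              rw [Finset.mem_insert] at hd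
              rcases hd with rfl | hd
              · refine ⟨hs, hv, ?_, ?_⟩
                · rw [h1, h2]
                  exact Cub.FConn.refl _
                · rw [h1]
                  exact h6
              · refine ⟨(hinv d hd).1, (hinv d hd).2.1, ?_, ?_⟩
                · rw [h2]
                  exact hconn d hd
                · intro h
                  exact (hinv d hd).2.2.2 (Finset.mem_insert_of_mem (Finset.mem_union_right _ h))
          · have hv0 : ∀ x ∈ G.Om q g, x s.root = 0 := fun x hx =>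
              zmod2_ne_one (fun h => hv ⟨x, hx, h⟩)
            have hinv' : WalkInv G q g S t := by
              intro d hd
              refine ⟨(hinv d hd).1, (hinv d hd).2.1, ?_, ?_⟩
              · rw [h2]
                exact hconn d hd
              · intro h
                exact (hinv d hd).2.2.2 (Finset.mem_insert_of_mem (Finset.mem_union_right _ h))
            rcases ih k t (m' + 1) (by omega) (by omega) h4 hsz.2 ht hinv' with h | h
            · left
              intro x hx hx0
              change x a = 0 at hx0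
              have hx' := (Cub.mem_Om.1 hx).1.1
              have hxt : x t.root = 0 := by
                have := Cub.child_sum hx' a
                rw [← h1, ← h2, hx0, hv0 x hx, zero_add] at this
                exact this.symm
              refine ⟨?_, ?_, Or.inr (h x hx hxt)⟩
              · rw [← hv0 x hx]
                exact St.tot_pat' s h3 hx' (St.SibZero.sib0 s hsz.1 (Cub.Om_mono hq hx))
              · rw [← hxt]
                exact St.tot_pat' t h4 hx' (St.SibZero.sib0 t hsz.2 (Cub.Om_mono hq hx))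
            · right
              exact hA.brr a s t m' hok' hfree hs h
        · exfalso
          obtain ⟨z, hz, hza⟩ := hfree
          apply hza
          change z a = 0
          rw [Cub.child_sum hz.1.1 a, ← h1, ← h2]
          have e1 : z s.root = 0 := by
            by_contra h; exact hs ⟨z, hz, h⟩
          have e2 : z t.root = 0 := by
            by_contra h; exact ht ⟨z, hz, h⟩
          rw [e1, e2, add_zero]

/-- the walk lemma -/
theorem walk (hq : q ⊆ H) (hqi : G.Inv q) (hne : (G.Om q g).Nonempty)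
    (hA : WalkAlt G H q g θ D3 Alt) (j : ℕ) :
    ∀ (S : Finset (Dt V)), S.card + j = 3 → ∀ (m k : ℕ) (s : St V k),
      walkD θ D3 j m ≤ k → s.Ok G H g → s.SibZero G H g → G.Free q g s.root →
      WalkInv G q g S s → Alt s m := by
  induction j with
  | zero =>
    intro S hS m k s _ _ _ _ hinv
    exfalso
    rw [add_zero, Finset.card_eq_three] at hS
    obtain ⟨s1, s2, s3, h12, h13, h23, rfl⟩ := hS
    obtain ⟨a1, b1, c1, _⟩ := hinv s1 (by simp)
    obtain ⟨a2, b2, c2, _⟩ := hinv s2 (by simp)
    obtain ⟨a3, b3, c3, _⟩ := hinv s3 (by simp)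
    exact terminal G q hqi g hne s1 s2 s3 h12 h13 h23 a1 a2 a3 b1 b2 b3 (c1.trans c2.symm)
      (c1.trans c3.symm)
  | succ j ih =>
    intro S hS m k s hk hok hsz hfree hinv
    have hE : ∀ i, i ≤ m + θ m + 1 → walkD θ D3 j i + D3 i ≤
        (range (m + θ m + 2)).sup (fun i => walkD θ D3 j i + D3 i) := by
      intro i hi
      exact Finset.le_sup (f := fun i => walkD θ D3 j i + D3 i) (Finset.mem_range.2 (by omega))
    have hk' : θ m + 1 + (range (m + θ m + 2)).sup (fun i => walkD θ D3 j i + D3 i) ≤ k := hk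
    rcases walk_aux hq hqi hne hA j m (θ m) _ hE S hS (fun S' hS' m' k s => ih S' hS' m' k s)
      (θ m) k s m rfl (by omega) hok hsz hfree hinv with h | h
    · apply hA.lu
      unfold LUbig
      rw [Cub.half_card hfree]
      refine Nat.mul_le_mul_left _ (Finset.card_le_card ?_)
      intro x hx
      simp only [Finset.mem_filter] at hx ⊢
      exact ⟨hx.1, Pt.LU_of_Up θ m k _ (h x hx.1 hx.2)⟩
    · exact h

end walk

/-- the context `q` has an Ok site of depth `h` with the same root inside the foot of `s` -/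
def HasSite {V : Type} (G : Cub V) (q : Set (Dt V)) (g : Dt V) (h : ℕ) {k : ℕ} (s : St V k) :
    Prop :=
  ∃ t : St V h, t.Ok G q g ∧ t.root = s.root ∧ t.foot G ⊆ s.foot G

section hasSite

variable {V : Type} {G : Cub V} {H q : Set (Dt V)} {g : Dt V}

lemma HasSite.sg (hq : q ⊆ H) {h k : ℕ} {a : Dt V} {f : Bool} {s : St V k}
    (hok : (St.sg a f s).Ok G H g) (ha : G.Free q g a) (hs : HasSite G q g h s) :
    HasSite G q g h (St.sg a f s) := by
  obtain ⟨t, h1, h2, h3⟩ := hs
  obtain ⟨o1, o2, o3, o4, o5⟩ := hok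
  refine ⟨St.sg a f t, ⟨ha, by rw [h2, o2], fun hf => o3 (hf.mono hq), h1, fun hf => o5 (h3 hf)⟩,
    rfl, ?_⟩
  exact Finset.insert_subset_insert _ h3

lemma HasSite.brl {h k : ℕ} {a : Dt V} {s t : St V k}
    (hok : (St.br a s t).Ok G H g) (ha : G.Free q g a) (ht : ¬ G.Free q g t.root)
    (hs : HasSite G q g h s) : HasSite G q g h (St.br a s t) := by
  obtain ⟨u, h1, h2, h3⟩ := hs
  obtain ⟨o1, o2, o3, o4, o5, o6, o7, o8⟩ := hok
  refine ⟨St.sg a true u, ⟨ha, by rw [h2, o2], ?_, h1, fun hf => o6 (h3 hf)⟩, rfl, ?_⟩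
  · change ¬ G.Free q g (G.ch false a)
    rw [← o3]
    exact ht
  · exact Finset.insert_subset_insert _ (h3.trans Finset.subset_union_left)

lemma HasSite.brr {h k : ℕ} {a : Dt V} {s t : St V k}
    (hok : (St.br a s t).Ok G H g) (ha : G.Free q g a) (hs : ¬ G.Free q g s.root)
    (ht : HasSite G q g h t) : HasSite G q g h (St.br a s t) := by
  obtain ⟨u, h1, h2, h3⟩ := ht
  obtain ⟨o1, o2, o3, o4, o5, o6, o7, o8⟩ := hok
  refine ⟨St.sg a false u, ⟨ha, by rw [h2, o3], ?_, h1, fun hf => o7 (h3 hf)⟩, rfl, ?_⟩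
  · change ¬ G.Free q g (G.ch true a)
    rw [← o2]
    exact hs
  · exact Finset.insert_subset_insert _ (h3.trans Finset.subset_union_right)

lemma HasSite.both {h k : ℕ} {a : Dt V} {s t : St V k}
    (hok : (St.br a s t).Ok G H g) (ha : G.Free q g a) (hs : HasSite G q g h s)
    (ht : HasSite G q g h t) : HasSite G q g (h + 1) (St.br a s t) := by
  obtain ⟨u, h1, h2, h3⟩ := hs
  obtain ⟨w, g1, g2, g3⟩ := ht
  obtain ⟨o1, o2, o3, o4, o5, o6, o7, o8⟩ := hok
  refine ⟨St.br a u w, ⟨ha, by rw [h2, o2], by rw [g2, o3], h1, g1, fun hf => o6 (h3 hf),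
    fun hf => o7 (g3 hf), ?_⟩, rfl, ?_⟩
  · exact Finset.disjoint_of_subset_left h3 (Finset.disjoint_of_subset_right g3 o8)
  · exact Finset.insert_subset_insert _ (Finset.union_subset_union h3 g3)

end hasSite

/-- depth bounds for `ra` -/
def raD (θ : ℕ → ℕ) : ℕ → ℕ → ℕ
  | 0, _ => 0
  | h + 1, m => walkD θ (fun i => raD θ h (i + 1)) 3 m

lemma walkInv_empty {V : Type} [Fintype V] (G : Cub V) (q : Set (Dt V)) (g : Dt V) {k : ℕ}
    (s : St V k) : WalkInv G q g ∅ s := by
  intro d hd
  simp at hd

/-- a free node of a deep site either carries a site of the subcontext or there are long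
uncovered paths -/
theorem ra (θ : ℕ → ℕ) (h : ℕ) {V : Type} [Fintype V] {G : Cub V} {H q : Set (Dt V)} {g : Dt V}
    (hq : q ⊆ H) (hqi : G.Inv q) (hne : (G.Om q g).Nonempty) :
    ∀ (m k : ℕ) (s : St V k), raD θ h m ≤ k → s.Ok G H g → s.SibZero G H g →
      G.Free q g s.root → HasSite G q g h s ∨ LUbig G q g θ s m := by
  induction h with
  | zero =>
    intro m k s _ _ _ hf
    left
    exact ⟨St.leaf s.root, hf, rfl, by simp [St.foot]⟩
  | succ h ih =>
    intro m k s hk hok hsz hf
    have hA : WalkAlt G H q g θ (fun i => raD θ h (i + 1))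
        (fun {k} (s : St V k) m => HasSite G q g (h + 1) s ∨ LUbig G q g θ s m) := by
      refine ⟨?_, ?_, ?_, ?_, ?_⟩
      · intro k a f s m hok ha hs
        rcases hs with hs | hs
        · exact Or.inl (hs.sg hq hok ha)
        · exact Or.inr hs.sg
      · intro k a s t m hok ha ht hs
        rcases hs with hs | hs
        · exact Or.inl (hs.brl hok ha ht)
        · exact Or.inr hs.brl
      · intro k a s t m hok ha hs ht
        rcases ht with ht | ht
        · exact Or.inl (ht.brr hok ha hs)
        · exact Or.inr ht.brr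
      · intro k a s t m hok hsz ha hs ht hk
        have hok' := hok
        obtain ⟨o1, o2, o3, o4, o5, o6, o7, o8⟩ := hok
        rcases ih (m + 1) k s hk o4 hsz.1 hs with h1 | h1
        · rcases ih (m + 1) k t hk o5 hsz.2 ht with h2 | h2
          · exact Or.inl (HasSite.both hok' ha h1 h2)
          · exact Or.inr h2.brr
        · exact Or.inr h1.brl
      · intro k s m hs
        exact Or.inr hs
    exact walk hq hqi hne hA 3 ∅ rfl m k s hk hok hsz hf (walkInv_empty G q g s)

section del

variable {V : Type} [Fintype V] {G : Cub V} {q : Set (Dt V)} {g e : Dt V}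

/-- deletion of an edge -/
def Cub.del (G : Cub V) (q : Set (Dt V)) (e : Dt V) : Set (Dt V) := q \ {e, G.ι e}

omit [Fintype V] in
lemma Cub.del_sub : G.del q e ⊆ q := Set.diff_subset

omit [Fintype V] in
lemma Cub.del_inv (hq : G.Inv q) : G.Inv (G.del q e) := by
  rintro d ⟨hd, hd'⟩
  refine ⟨hq d hd, ?_⟩
  simp only [Set.mem_insert_iff, Set.mem_singleton_iff, not_or] at hd' ⊢
  refine ⟨fun h => hd'.2 (by rw [← h, G.inv]), fun h => hd'.1 ?_⟩
  rw [← G.inv d, h, G.inv]

omit [Fintype V] in
lemma Cub.mem_ZH_del {x : Vec V} : x ∈ G.ZH (G.del q e) ↔ x ∈ G.ZH q ∧ x e = 0 := by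
  constructor
  · intro hx
    refine ⟨Cub.ZH_mono Cub.del_sub hx, hx.2 e ?_⟩
    rintro ⟨_, h⟩
    exact h (by simp)
  · rintro ⟨hx, hxe⟩
    refine ⟨hx.1, fun d hd => ?_⟩
    by_cases hdq : d ∈ q
    · have : d = e ∨ d = G.ι e := by
        by_contra h
        push Not at h
        exact hd ⟨hdq, by simp [h]⟩
      rcases this with rfl | rfl
      · exact hxe
      · rw [hx.1.1 e]
        exact hxe
    · exact hx.2 d hdq

lemma Cub.Om_del : G.Om (G.del q e) g = (G.Om q g).filter (fun x => x e = 0) := by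
  ext x
  simp only [Cub.mem_Om, Finset.mem_filter, Cub.mem_ZH_del]
  tauto

omit [Fintype V] in
lemma Cub.mem_Dir_del {x : Vec V} : x ∈ G.Dir (G.del q e) g ↔ x ∈ G.Dir q g ∧ x e = 0 := by
  simp only [Cub.mem_Dir, Cub.mem_ZH_del]
  tauto

omit [Fintype V] in
/-- if both children of a free dart are free, then one of them stays free after a deletion -/
lemma Cub.free_child_del {a : Dt V} (ha : G.Free q g a) (h0 : G.Free q g (G.ch true a))
    (h1 : G.Free q g (G.ch false a)) :
    G.Free (G.del q e) g (G.ch true a) ∨ G.Free (G.del q e) g (G.ch false a) := by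
  have key : ∀ f : Bool, ∀ z ∈ G.Dir q g, z (G.ch f a) ≠ 0 → z (G.ch (!f) a) = 0 →
      G.Free q g (G.ch (!f) a) → G.Free (G.del q e) g (G.ch true a) ∨
        G.Free (G.del q e) g (G.ch false a) := by
    intro f z hz hzf hzf' hfr
    have aux : ∀ f' : Bool, G.Free (G.del q e) g (G.ch f' a) →
        G.Free (G.del q e) g (G.ch true a) ∨ G.Free (G.del q e) g (G.ch false a) := by
      intro f' hf'
      cases f'
      · exact Or.inr hf'
      · exact Or.inl hf'
    rcases zmod2_cases (z e) with h | h
    · exact aux f ⟨z, Cub.mem_Dir_del.2 ⟨hz, h⟩, hzf⟩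
    · obtain ⟨z', hz', hz'f⟩ := hfr
      rcases zmod2_cases (z' e) with h' | h'
      · exact aux (!f) ⟨z', Cub.mem_Dir_del.2 ⟨hz', h'⟩, hz'f⟩
      · refine aux (!f) ⟨z + z', Cub.mem_Dir_del.2 ⟨add_mem hz hz', ?_⟩, ?_⟩
        · rw [Pi.add_apply, h, h']
          exact zmod2_add_self 1
        · rw [Pi.add_apply, hzf', zero_add]
          exact hz'f
  obtain ⟨z, hz, hza⟩ := ha
  have hsum := Cub.child_sum hz.1.1 a
  rcases zmod2_cases (z (G.ch true a)) with h | h
  · have h2 : z (G.ch false a) ≠ 0 := by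
      intro h3
      apply hza
      rw [hsum, h, h3, add_zero]
    exact key false z hz h2 h h0
  · have h2 : z (G.ch false a) = 0 := by
      by_contra h3
      apply hza
      rw [hsum, h, zmod2_ne_zero h3]
      exact zmod2_add_self 1
    exact key true z hz (by rw [h]; exact one_ne_zero) h2 h1

end del

/-- the alternatives used for `region` -/
def RegAlt {V : Type} [Fintype V] (G : Cub V) (q : Set (Dt V)) (g e : Dt V) (θ : ℕ → ℕ) (h : ℕ)
    {k : ℕ} (s : St V k) (m : ℕ) : Prop :=
  (∃ t : St V h, t.Ok G (G.del q e) g ∧ t.foot G ⊆ s.foot G) ∨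
    LUbig G (G.del q e) g θ s m ∨ LUbig G q g θ s m

section reg

variable {V : Type} [Fintype V] {G : Cub V} {H q : Set (Dt V)} {g e : Dt V} {θ : ℕ → ℕ} {h : ℕ}

lemma RegAlt.sg {k : ℕ} {a : Dt V} {f : Bool} {s : St V k} {m : ℕ}
    (hs : RegAlt G q g e θ h s m) : RegAlt G q g e θ h (St.sg a f s) m := by
  rcases hs with ⟨t, h1, h2⟩ | hs | hs
  · exact Or.inl ⟨t, h1, h2.trans (Finset.subset_insert _ _)⟩
  · exact Or.inr (Or.inl hs.sg)
  · exact Or.inr (Or.inr hs.sg)

lemma RegAlt.brl {k : ℕ} {a : Dt V} {s t : St V k} {m : ℕ}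
    (hs : RegAlt G q g e θ h s (m + 1)) : RegAlt G q g e θ h (St.br a s t) m := by
  rcases hs with ⟨t, h1, h2⟩ | hs | hs
  · exact Or.inl ⟨t, h1, h2.trans (Finset.subset_union_left.trans (Finset.subset_insert _ _))⟩
  · exact Or.inr (Or.inl hs.brl)
  · exact Or.inr (Or.inr hs.brl)

lemma RegAlt.brr {k : ℕ} {a : Dt V} {s t : St V k} {m : ℕ}
    (ht : RegAlt G q g e θ h t (m + 1)) : RegAlt G q g e θ h (St.br a s t) m := by
  rcases ht with ⟨t, h1, h2⟩ | hs | hs
  · exact Or.inl ⟨t, h1, h2.trans (Finset.subset_union_right.trans (Finset.subset_insert _ _))⟩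
  · exact Or.inr (Or.inl hs.brr)
  · exact Or.inr (Or.inr hs.brr)

/-- at a `q`-free node -/
lemma reg_free (hq : q ⊆ H) (hqi : G.Inv q) (hne : (G.Om q g).Nonempty)
    (hne' : (G.Om (G.del q e) g).Nonempty) (m k : ℕ) (s : St V k)
    (hk : walkD θ (fun i => raD θ h (i + 1)) 3 m ≤ k) (hok : s.Ok G H g)
    (hsz : s.SibZero G H g) (hf : G.Free q g s.root) : RegAlt G q g e θ h s m := by
  have hA : WalkAlt G H q g θ (fun i => raD θ h (i + 1))
      (fun {k} (s : St V k) m => RegAlt G q g e θ h s m) := by
    refine ⟨?_, ?_, ?_, ?_, ?_⟩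
    · intro k a f s m hok ha hs
      exact hs.sg
    · intro k a s t m hok ha ht hs
      exact hs.brl
    · intro k a s t m hok ha hs ht
      exact ht.brr
    · intro k a s t m hok hsz ha hs ht hk
      obtain ⟨o1, o2, o3, o4, o5, o6, o7, o8⟩ := hok
      have hdel : G.del q e ⊆ H := Cub.del_sub.trans hq
      rcases Cub.free_child_del (e := e) ha (by rw [← o2]; exact hs) (by rw [← o3]; exact ht)
        with h1 | h1
      · rw [← o2] at h1
        rcases ra θ h hdel (Cub.del_inv hqi) hne' (m + 1) k s hk o4 hsz.1 h1 with h2 | h2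
        · obtain ⟨t', g1, _, g3⟩ := h2
          exact Or.inl ⟨t', g1,
            g3.trans (Finset.subset_union_left.trans (Finset.subset_insert _ _))⟩
        · exact Or.inr (Or.inl h2.brl)
      · rw [← o3] at h1
        rcases ra θ h hdel (Cub.del_inv hqi) hne' (m + 1) k t hk o5 hsz.2 h1 with h2 | h2
        · obtain ⟨t', g1, _, g3⟩ := h2
          exact Or.inl ⟨t', g1,
            g3.trans (Finset.subset_union_right.trans (Finset.subset_insert _ _))⟩
        · exact Or.inr (Or.inl h2.brr)
    · intro k s m hs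
      exact Or.inr (Or.inr hs)
  exact walk hq hqi hne hA 3 ∅ rfl m k s hk hok hsz hf (walkInv_empty G q g s)

/-- descending to the node given by `Near` -/
lemma reg_near (hq : q ⊆ H) (hqi : G.Inv q) (hne : (G.Om q g).Nonempty)
    (hne' : (G.Om (G.del q e) g).Nonempty) (E : ℕ) (n : ℕ) {x : Vec V} (hx : x ∈ G.Om q g) :
    ∀ (k : ℕ) (s : St V k) (m : ℕ), (∀ i, i ≤ m + n →
      walkD θ (fun i => raD θ h (i + 1)) 3 i ≤ E) → n + E ≤ k → s.Ok G H g → s.SibZero G H g →
      St.Near G g x n s → RegAlt G q g e θ h s m := by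
  have hfree : ∀ a : Dt V, x a ≠ G.main g x a → G.Free q g a := by
    intro a ha
    have hx' := Cub.mem_Om.1 hx
    have hm := Cub.main_mem_sub hx'.1.1 hx'.2
    refine ⟨x + G.main g x, ⟨add_mem hx'.1 ⟨hm.1, fun d hd => hm.2 d (hx'.1.2 d hd)⟩, ?_⟩, ?_⟩
    · rw [Pi.add_apply, hx'.2, Cub.main_g]
      exact zmod2_add_self 1
    · intro h0
      exact ha (zmod2_eq_of_add h0)
  induction n with
  | zero =>
    intro k s
    induction s with
    | leaf a =>
      intro m hE hk hok hsz hnear
      exact reg_free hq hqi hne hne' m _ _ ((hE m (by omega)).trans (by omega)) hok hsz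
        (hfree a hnear)
    | @sg k a f s ih =>
      intro m hE hk hok hsz hnear
      by_cases ha : x a ≠ G.main g x a
      · exact reg_free hq hqi hne hne' m _ _ ((hE m (by omega)).trans (by omega)) hok hsz
          (hfree a ha)
      · exact (ih m hE hk hok.2.2.2.1 hsz.2 (hnear.resolve_left ha)).sg
    | @br k a s t _ _ =>
      intro m hE hk hok hsz hnear
      exact reg_free hq hqi hne hne' m _ _ ((hE m (by omega)).trans (by omega)) hok hsz
        (hfree a hnear)
  | succ n ihn =>
    intro k s
    induction s with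
    | leaf a =>
      intro m hE hk hok hsz hnear
      omega
    | @sg k a f s ih =>
      intro m hE hk hok hsz hnear
      by_cases ha : x a ≠ G.main g x a
      · exact reg_free hq hqi hne hne' m _ _ ((hE m (by omega)).trans (by omega)) hok hsz
          (hfree a ha)
      · exact (ih m hE hk hok.2.2.2.1 hsz.2 (hnear.resolve_left ha)).sg
    | @br k a s t _ _ =>
      intro m hE hk hok hsz hnear
      by_cases ha : x a ≠ G.main g x a
      · exact reg_free hq hqi hne hne' m _ _ ((hE m (by omega)).trans (by omega)) hok hsz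
          (hfree a ha)
      · obtain ⟨o1, o2, o3, o4, o5, o6, o7, o8⟩ := hok
        rcases hnear.resolve_left ha with h1 | h1
        · exact (ihn k s (m + 1) (fun i hi => hE i (by omega)) (by omega) o4 hsz.1 h1).brl
        · exact (ihn k t (m + 1) (fun i hi => hE i (by omega)) (by omega) o5 hsz.2 h1).brr

end reg

/-- the region lemma -/
theorem region (N h : ℕ) : ∃ R : ℕ, 64 ≤ R ∧ ∀ (V : Type) [Fintype V] (G : Cub V)
    (H : Set (Dt V)) (g : Dt V), ∀ s : St V R, s.Ok G H g → s.SibZero G H g →
    ∀ (q : Set (Dt V)) (e : Dt V), q ⊆ H → G.Inv q → G.Free q g e →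
    (∃ x ∈ G.Om q g, St.Near G g x 64 s) →
    (∃ t : St V h, t.Ok G (G.del q e) g ∧ t.foot G ⊆ s.foot G) ∨
    (G.Om q g).card ≤ 4 * ((G.Om q g).filter
      (fun x => Pt.LU (fun j => N * 4 ^ (j + 1)) 0 R (s.pat x))).card := by
  set θ : ℕ → ℕ := fun j => N * 4 ^ (j + 1) with hθ
  set E : ℕ := (range 65).sup (fun m => walkD θ (fun i => raD θ h (i + 1)) 3 m) with hEdef
  refine ⟨64 + E, by omega, ?_⟩
  intro V _ G H g s hok hsz q e hq hqi he hnear
  obtain ⟨x, hx, hnx⟩ := hnear
  have hne : (G.Om q g).Nonempty := ⟨x, hx⟩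
  have hne' : (G.Om (G.del q e) g).Nonempty := by
    rw [Cub.Om_del]
    rw [← Finset.card_pos]
    have h1 := Cub.half_card he
    have h2 := Finset.card_pos.2 hne
    omega
  have key := reg_near (θ := θ) (h := h) hq hqi hne hne' E 64 hx (64 + E) s 0
    (fun i hi => Finset.le_sup (f := fun m => walkD θ (fun i => raD θ h (i + 1)) 3 m)
      (Finset.mem_range.2 (by omega))) le_rfl hok hsz hnx
  rcases key with h1 | h1 | h1
  · exact Or.inl h1
  · right
    unfold LUbig at h1
    rw [Cub.Om_del] at h1
    have h2 := Cub.half_card he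
    have h3 : (((G.Om q g).filter (fun x => x e = 0)).filter
        (fun x => Pt.LU θ 0 (64 + E) (s.pat x))).card ≤ ((G.Om q g).filter
        (fun x => Pt.LU θ 0 (64 + E) (s.pat x))).card := by
      apply Finset.card_le_card
      intro y hy
      simp only [Finset.mem_filter] at hy ⊢
      exact ⟨hy.1.1, hy.2⟩
    omega
  · right
    unfold LUbig at h1
    omega

end Pool.Agent.LibMP58b56d
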