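import Mathlib
import Pool.Agent.LibMP58b56d.Site
import Pool.Agent.LibMP58b56d.Terminal
import Pool.Agent.LibMP58b56d.GoodSite
import Pool.Agent.LibMP58b56d.NearProb
import Pool.Agent.LibMP58b56d.Region

set_option autoImplicit false

open Finset Classical

namespace Pool.Agent.LibMP58b56d

/-- the context contains `M` sites of depth `h` with pairwise disjoint vertex sets -/
def Rich {V : Type} (G : Cub V) (H : Set (Dt V)) (g : Dt V) (h M : ℕ) : Prop :=
  ∃ s : Fin M → St V h, (∀ i, (s i).Ok G H g) ∧
    ∀ i j, i ≠ j → Disjoint ((s i).foot G) ((s j).foot G)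

section sub

variable {V : Type} {G : Cub V} {H : Set (Dt V)} {g : Dt V}

lemma St.Ok.sub_one {n k : ℕ} (s : St V n) (hn : n = k + 1) (hok : s.Ok G H g) :
    ∃ t : St V k, t.Ok G H g ∧ t.foot G ⊆ s.foot G := by
  induction s with
  | leaf a => omega
  | sg a f s ih =>
    obtain ⟨t, h1, h2⟩ := ih hn hok.2.2.2.1
    exact ⟨t, h1, h2.trans (Finset.subset_insert _ _)⟩
  | @br k' a s t _ _ =>
    obtain rfl : k' = k := by omega
    exact ⟨s, hok.2.2.2.1, Finset.subset_union_left.trans (Finset.subset_insert _ _)⟩

lemma St.Ok.sub {k n : ℕ} (s : St V (k + n)) (hok : s.Ok G H g) :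
    ∃ t : St V k, t.Ok G H g ∧ t.foot G ⊆ s.foot G := by
  induction n with
  | zero => exact ⟨s, hok, Finset.Subset.refl _⟩
  | succ n ih =>
    obtain ⟨t, h1, h2⟩ := St.Ok.sub_one (k := k + n) s rfl hok
    obtain ⟨u, h3, h4⟩ := ih t h1
    exact ⟨u, h3, h4.trans h2⟩

lemma Rich.sub {h h' M : ℕ} (hr : Rich G H g h M) (hh : h' ≤ h) : Rich G H g h' M := by
  obtain ⟨n, rfl⟩ := Nat.exists_eq_add_of_le hh
  obtain ⟨s, h1, h2⟩ := hr
  choose t ht1 ht2 using fun i => St.Ok.sub (s i) (h1 i)
  exact ⟨t, ht1, fun i j hij => Finset.disjoint_of_subset_left (ht2 i)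
    (Finset.disjoint_of_subset_right (ht2 j) (h2 i j hij))⟩

lemma Rich.sub' {h M M' : ℕ} (hr : Rich G H g h M) (hh : M' ≤ M) : Rich G H g h M' := by
  obtain ⟨s, h1, h2⟩ := hr
  refine ⟨fun i => s (Fin.castLE hh i), fun i => h1 _, fun i j hij => h2 _ _ ?_⟩
  intro h
  apply hij
  exact Fin.castLE_injective hh h

/-- a family of sites indexed by a large finset gives richness -/
lemma Rich.of_finset {h M : ℕ} {I : Type} (A : Finset I) (hA : M ≤ A.card) (t : I → St V h)
    (h1 : ∀ i ∈ A, (t i).Ok G H g)
    (h2 : ∀ i ∈ A, ∀ j ∈ A, i ≠ j → Disjoint ((t i).foot G) ((t j).foot G)) :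
    Rich G H g h M := by
  have e := A.equivFin
  refine Rich.sub' (M := A.card) ⟨fun i => t (e.symm i).1, fun i => h1 _ (e.symm i).2, ?_⟩ hA
  intro i j hij
  apply h2 _ (e.symm i).2 _ (e.symm j).2
  intro h
  exact hij (e.symm.injective (Subtype.ext h))

lemma darts_at (a : Dt V) (i : Fin 3) :
    ((G.ι a).1, i) = G.ι a ∨ ((G.ι a).1, i) = G.ch true a ∨ ((G.ι a).1, i) = G.ch false a := by
  have h3 : ∀ i j : Fin 3, i = j ∨ i = j + 1 ∨ i = j + 2 := by decide
  rcases h3 i (G.ι a).2 with h | h | h
  · left
    rw [h]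
  · right; left
    rw [h]
    rfl
  · right; right
    rw [h]
    rfl

/-- a site of positive depth has a vertex with three free darts -/
lemma St.Ok.exists_branch {k : ℕ} (s : St V k) (hk : 1 ≤ k) (hok : s.Ok G H g) :
    ∃ v ∈ s.foot G, ∀ i, G.Free H g (v, i) := by
  induction s with
  | leaf a => omega
  | sg a f s ih =>
    obtain ⟨v, hv, h⟩ := ih hk hok.2.2.2.1
    exact ⟨v, Finset.mem_insert_of_mem hv, h⟩
  | br a s t _ _ =>
    obtain ⟨o1, o2, o3, o4, o5, _⟩ := hok
    refine ⟨(G.ι a).1, Finset.mem_insert_self _ _, fun i => ?_⟩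
    rcases darts_at (G := G) a i with h | h | h
    · rw [h]; exact o1.iota
    · rw [h, ← o2]; exact o4.free
    · rw [h, ← o3]; exact o5.free

end sub

section ended

variable {V : Type} [Fintype V] {G : Cub V} {q : Set (Dt V)} {g : Dt V}

/-- `q` has a vertex with one forced dart and two free darts -/
def Active (G : Cub V) (q : Set (Dt V)) (g : Dt V) : Prop :=
  ∃ v i, (∀ x ∈ G.Om q g, x (v, i) = 1) ∧ G.Free q g (v, i + 1) ∧ G.Free q g (v, i + 2)

omit [Fintype V] in
lemma sum_rot (y : Vec V) (v : V) (i : Fin 3) :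
    ∑ j, y (v, j) = y (v, i) + y (v, i + 1) + y (v, i + 2) := by
  rw [Fin.sum_univ_three]
  fin_cases i
  · rfl
  · change _ = y (v, 1) + y (v, 2) + y (v, 0)
    ring
  · change _ = y (v, 2) + y (v, 0) + y (v, 1)
    ring

/-- in a context which is not active there is at most one circuit -/
lemma ended_le_one (h : ¬ Active G q g) :
    ((G.Om q g).filter (fun x => G.IsCirc x)).card ≤ 1 := by
  by_cases hne : (G.Om q g).Nonempty
  swap
  · rw [Finset.not_nonempty_iff_eq_empty.1 hne]
    simp
  obtain ⟨x0, hx0⟩ := hne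
  let P : Vec V := fun d => if G.Free q g d then 0 else x0 d
  have hx0' := Cub.mem_Om.1 hx0
  have hPZ : P ∈ G.Z := by
    refine ⟨fun d => ?_, fun v => ?_⟩
    · simp only [P, Cub.free_iota, hx0'.1.1.1 d]
    · by_cases hf : ∃ i, x0 (v, i) = 1 ∧ ¬ G.Free q g (v, i)
      · obtain ⟨i, hi1, hi2⟩ := hf
        -- all three darts are not free
        have hconst : ∀ x ∈ G.Om q g, x (v, i) = 1 := fun x hx => by
          rw [Cub.const_of_not_free hi2 hx hx0, hi1]
        have hdir : ∀ z ∈ G.Dir q g, z (v, i + 1) = z (v, i + 2) := by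
          intro z hz
          have h1 := hz.1.1.2 v
          rw [sum_rot z v i] at h1
          have h2 : z (v, i) = 0 := by
            by_contra h3
            exact hi2 ⟨z, hz, h3⟩
          rw [h2, zero_add] at h1
          exact zmod2_eq_of_add h1
        have hnf : ¬ G.Free q g (v, i + 1) ∧ ¬ G.Free q g (v, i + 2) := by
          constructor
          · rintro ⟨z, hz, hz'⟩
            exact h ⟨v, i, hconst, ⟨z, hz, hz'⟩, ⟨z, hz, by rwa [← hdir z hz]⟩⟩
          · rintro ⟨z, hz, hz'⟩
            exact h ⟨v, i, hconst, ⟨z, hz, by rwa [hdir z hz]⟩, ⟨z, hz, hz'⟩⟩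
        have h3 := hx0'.1.1.2 v
        rw [sum_rot x0 v i] at h3
        rw [sum_rot P v i]
        simp only [P, if_neg hi2, if_neg hnf.1, if_neg hnf.2]
        exact h3
      · push Not at hf
        refine Finset.sum_eq_zero fun j _ => ?_
        by_cases hj : G.Free q g (v, j)
        · simp [P, hj]
        · simp only [P, if_neg hj]
          exact zmod2_ne_one (fun h1 => hj (hf j h1))
  have hPne : P ≠ 0 := by
    intro h0
    have h1 := congrFun h0 g
    simp only [P, if_neg Cub.not_free_g, Pi.zero_apply, hx0'.2] at h1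
    exact one_ne_zero h1
  have key : ∀ x ∈ (G.Om q g).filter (fun x => G.IsCirc x), x = P := by
    intro x hx
    rw [Finset.mem_filter] at hx
    rcases hx.2.2.2 P hPZ (fun d hd => by
      by_cases hf : G.Free q g d
      · simp [P, hf]
      · simp only [P, if_neg hf]
        rw [Cub.const_of_not_free hf hx0 hx.1, hd]) with h1 | h1
    · exact absurd h1 hPne
    · exact h1.symm
  rw [Finset.card_le_one]
  intro x hx y hy
  rw [key x hx, key y hy]

/-- rich contexts are large -/
lemma rich_large {h M : ℕ} (hh : 1 ≤ h) (hr : Rich G q g h M) (hne : (G.Om q g).Nonempty)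
    (hM : 1 ≤ M) : 2 ^ (M / 2) ≤ (G.Om q g).card := by
  obtain ⟨s, hs1, hs2⟩ := hr
  choose v hv1 hv2 using fun i => St.Ok.exists_branch (s i) hh (hs1 i)
  have hvinj : Function.Injective v := by
    intro i j hij
    by_contra hne
    exact Finset.disjoint_left.1 (hs2 i j hne) (hv1 i) (hij ▸ hv1 j)
  let E0 : Finset (Dt V) := univ.filter (fun d => G.Free q g d)
  let U : Finset V := univ.filter (fun v => ∃ i, G.Free q g (v, i))
  have hU : U.Nonempty := by
    refine ⟨v ⟨0, hM⟩, ?_⟩
    simp only [U, Finset.mem_filter, Finset.mem_univ, true_and]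
    exact ⟨0, hv2 _ 0⟩
  have h1 := G.rank_ge (E0 := E0)
    (by
      intro d hd
      simp only [E0, Finset.mem_filter, Finset.mem_univ, true_and] at hd ⊢
      exact hd.iota) hU
    (by
      intro d hd
      simp only [E0, U, Finset.mem_filter, Finset.mem_univ, true_and] at hd ⊢
      exact ⟨d.2, hd⟩)
  -- counting free darts
  have hcount : 2 * U.card + M ≤ E0.card := by
    have e1 : E0.card = ∑ w : V, (univ.filter (fun i : Fin 3 => G.Free q g (w, i))).card := by
      simp only [E0, Finset.card_filter]
      rw [Fintype.sum_prod_type]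
    have e2 : U.card = ∑ w : V, (if w ∈ U then 1 else 0) := by
      simp
    have e3 : M ≤ ∑ w : V, (if ∀ i, G.Free q g (w, i) then 1 else 0) := by
      rw [← Finset.card_filter]
      calc M = (univ : Finset (Fin M)).card := by simp
        _ = (univ.image v).card := (Finset.card_image_of_injective _ hvinj).symm
        _ ≤ _ := by
          apply Finset.card_le_card
          intro w hw
          simp only [Finset.mem_image, Finset.mem_univ, true_and] at hw
          obtain ⟨i, rfl⟩ := hw
          simp only [Finset.mem_filter, Finset.mem_univ, true_and]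
          exact hv2 i
    have e4 : ∀ w : V, 2 * (if w ∈ U then 1 else 0) + (if ∀ i, G.Free q g (w, i) then 1 else 0) ≤
        (univ.filter (fun i : Fin 3 => G.Free q g (w, i))).card := by
      intro w
      by_cases hw : w ∈ U
      · rw [if_pos hw]
        by_cases hall : ∀ i, G.Free q g (w, i)
        · rw [if_pos hall, Finset.filter_true_of_mem (fun i _ => hall i)]
          simp
        · rw [if_neg hall]
          simp only [U, Finset.mem_filter, Finset.mem_univ, true_and] at hw
          obtain ⟨i, z, hz, hzi⟩ := hw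
          have h2 := hz.1.1.2 w
          rw [sum_rot z w i] at h2
          have h3 : ∃ j, j ≠ i ∧ z (w, j) ≠ 0 := by
            by_contra hcon
            push Not at hcon
            have q1 : ∀ i : Fin 3, i + 1 ≠ i := by decide
            have q2 : ∀ i : Fin 3, i + 2 ≠ i := by decide
            rw [hcon _ (q1 i), hcon _ (q2 i), add_zero, add_zero] at h2
            exact hzi h2
          obtain ⟨j, hj, hzj⟩ := h3
          have h4 : ({i, j} : Finset (Fin 3)) ⊆
              univ.filter (fun i : Fin 3 => G.Free q g (w, i)) := by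
            intro l hl
            simp only [Finset.mem_insert, Finset.mem_singleton] at hl
            simp only [Finset.mem_filter, Finset.mem_univ, true_and]
            rcases hl with rfl | rfl
            · exact ⟨z, hz, hzi⟩
            · exact ⟨z, hz, hzj⟩
          have h5 := Finset.card_le_card h4
          rw [Finset.card_pair hj.symm] at h5
          omega
      · rw [if_neg hw]
        have : ¬ ∀ i, G.Free q g (w, i) := by
          intro hall
          apply hw
          simp only [U, Finset.mem_filter, Finset.mem_univ, true_and]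
          exact ⟨0, hall 0⟩
        rw [if_neg this]
        omega
    calc 2 * U.card + M ≤ 2 * ∑ w : V, (if w ∈ U then 1 else 0) +
          ∑ w : V, (if ∀ i, G.Free q g (w, i) then 1 else 0) := by
            rw [← e2]; omega
      _ = ∑ w : V, (2 * (if w ∈ U then 1 else 0) +
          (if ∀ i, G.Free q g (w, i) then 1 else 0)) := by
            rw [Finset.sum_add_distrib, Finset.mul_sum]
      _ ≤ _ := by
        rw [e1]
        exact Finset.sum_le_sum fun w _ => e4 w
  have h2 : M / 2 ≤ Module.finrank (ZMod 2) (G.ZH (E0 : Set (Dt V))) := by omega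
  obtain ⟨x0, hx0⟩ := hne
  calc 2 ^ (M / 2) ≤ 2 ^ Module.finrank (ZMod 2) (G.ZH (E0 : Set (Dt V))) :=
        Nat.pow_le_pow_right (by norm_num) h2
    _ = (G.zs (E0 : Set (Dt V))).card := (G.zs_card _).symm
    _ ≤ (G.Om q g).card := by
      refine Finset.card_le_card_of_injOn (fun z => x0 + z) ?_ ?_
      · intro z hz
        simp only [Cub.zs, Finset.coe_filter, Finset.mem_univ, true_and, Set.mem_ofPred_eq] at hz
        apply Cub.Om_add_Dir hx0
        refine ⟨⟨hz.1, fun d hd => hz.2 d (fun h1 => hd ?_)⟩, hz.2 g (fun h1 => ?_)⟩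
        · simp only [E0, Finset.coe_filter, Finset.mem_univ, true_and, Set.mem_ofPred_eq] at h1
          exact h1.mem
        · simp only [E0, Finset.coe_filter, Finset.mem_univ, true_and, Set.mem_ofPred_eq] at h1
          exact Cub.not_free_g h1
      · intro a _ b _ hab
        exact add_left_cancel hab

end ended

section explore

variable {V : Type} [Fintype V] {G : Cub V} {H : Set (Dt V)} {g : Dt V}

/-- at a stopping context -/
lemma stop_case {h M R : ℕ} {c δ : ℝ} (hh : 1 ≤ h) (hM : 1 ≤ M)
    (hclaim : ∀ q : Set (Dt V), q ⊆ H → G.Inv q → Rich G q g h M →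
      (((G.Om q g).filter (fun x => G.IsCirc x)).card : ℝ) ≤ c * (G.Om q g).card)
    {I : Type} [Fintype I] (s : I → St V R)
    (hdis : ∀ i j, i ≠ j → Disjoint ((s i).foot G) ((s j).foot G))
    (hreg : ∀ i, ∀ (q : Set (Dt V)) (e : Dt V), q ⊆ H → G.Inv q → G.Free q g e →
      (∃ x ∈ G.Om q g, St.Near G g x 64 (s i)) →
      (∃ t : St V h, t.Ok G (G.del q e) g ∧ t.foot G ⊆ (s i).foot G) ∨
      (G.Om q g).card ≤ 4 * ((G.Om q g).filter
        (fun x => Pt.LU (fun j => 128 * 4 ^ (j + 1)) 0 R ((s i).pat x))).card)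
    (q : Set (Dt V)) (hq : q ⊆ H) (hqi : G.Inv q) (hr : Rich G q g h M) (e : Dt V)
    (he : G.Free q g e) (hnr : ¬ Rich G (G.del q e) g h M) :
      ∃ S E : Finset (Vec V), Disjoint S E ∧ S ∪ E = G.Om q g ∧
        ((S.filter (fun x => G.IsCirc x)).card : ℝ) ≤ c * S.card ∧
        ((E.filter (fun x => G.IsCirc x)).card : ℝ) ≤ δ * E.card ∧
        ∑ i, (S.filter (fun x => St.Near G g x 64 (s i))).card ≤ M * S.card +
          4 * ∑ i, (S.filter
            (fun x => Pt.LU (fun j => 128 * 4 ^ (j + 1)) 0 R ((s i).pat x))).card := by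
  refine ⟨G.Om q g, ∅, by simp, by simp, hclaim q hq hqi hr, by simp, ?_⟩
  -- the indices with a site of the child
  let A : Finset I := univ.filter (fun i =>
    ∃ t : St V h, t.Ok G (G.del q e) g ∧ t.foot G ⊆ (s i).foot G)
  have hA : A.card < M := by
    by_contra hcon
    push Not at hcon
    apply hnr
    have hex : ∀ i, ∃ t : St V h, i ∈ A → (t.Ok G (G.del q e) g ∧ t.foot G ⊆ (s i).foot G) := by
      intro i
      by_cases hi : i ∈ A
      · have := hi
        simp only [A, Finset.mem_filter, Finset.mem_univ, true_and] at this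
        obtain ⟨t, ht⟩ := this
        exact ⟨t, fun _ => ht⟩
      · obtain ⟨s0, _⟩ := hr
        exact ⟨s0 ⟨0, hM⟩, fun h => absurd h hi⟩
    choose t ht using hex
    refine Rich.of_finset A hcon t (fun i hi => (ht i hi).1) (fun i hi j hj hij => ?_)
    exact Finset.disjoint_of_subset_left (ht i hi).2
      (Finset.disjoint_of_subset_right (ht j hj).2 (hdis i j hij))
  have key : ∀ i, ((G.Om q g).filter (fun x => St.Near G g x 64 (s i))).card ≤
      (if i ∈ A then (G.Om q g).card else 0) + 4 * ((G.Om q g).filter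
        (fun x => Pt.LU (fun j => 128 * 4 ^ (j + 1)) 0 R ((s i).pat x))).card := by
    intro i
    by_cases hi : i ∈ A
    · rw [if_pos hi]
      have := Finset.card_filter_le (G.Om q g) (fun x => St.Near G g x 64 (s i))
      omega
    · rw [if_neg hi, zero_add]
      by_cases hex : ∃ x ∈ G.Om q g, St.Near G g x 64 (s i)
      · rcases hreg i q e hq hqi he hex with h1 | h1
        · exact absurd (by simpa [A] using h1) hi
        · exact (Finset.card_filter_le _ _).trans h1
      · rw [Finset.card_eq_zero.2]
        · omega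
        · rw [Finset.filter_eq_empty_iff]
          intro x hx h2
          exact hex ⟨x, hx, h2⟩
  calc ∑ i, ((G.Om q g).filter (fun x => St.Near G g x 64 (s i))).card ≤
      ∑ i, ((if i ∈ A then (G.Om q g).card else 0) + 4 * ((G.Om q g).filter
        (fun x => Pt.LU (fun j => 128 * 4 ^ (j + 1)) 0 R ((s i).pat x))).card) :=
        Finset.sum_le_sum fun i _ => key i
    _ = A.card * (G.Om q g).card + 4 * ∑ i, ((G.Om q g).filter
        (fun x => Pt.LU (fun j => 128 * 4 ^ (j + 1)) 0 R ((s i).pat x))).card := by
        rw [Finset.sum_add_distrib, Finset.mul_sum]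
        congr 1
        simp
    _ ≤ _ := by
      have := Nat.mul_le_mul_right (G.Om q g).card hA.le
      omega

/-- the exploration lemma -/
lemma explore {h M R : ℕ} {c δ : ℝ} (hh : 1 ≤ h) (hM : 1 ≤ M) (hδ : 1 ≤ δ * 2 ^ (M / 2))
    (hclaim : ∀ q : Set (Dt V), q ⊆ H → G.Inv q → Rich G q g h M →
      (((G.Om q g).filter (fun x => G.IsCirc x)).card : ℝ) ≤ c * (G.Om q g).card)
    {I : Type} [Fintype I] (s : I → St V R)
    (hdis : ∀ i j, i ≠ j → Disjoint ((s i).foot G) ((s j).foot G))
    (hreg : ∀ i, ∀ (q : Set (Dt V)) (e : Dt V), q ⊆ H → G.Inv q → G.Free q g e →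
      (∃ x ∈ G.Om q g, St.Near G g x 64 (s i)) →
      (∃ t : St V h, t.Ok G (G.del q e) g ∧ t.foot G ⊆ (s i).foot G) ∨
      (G.Om q g).card ≤ 4 * ((G.Om q g).filter
        (fun x => Pt.LU (fun j => 128 * 4 ^ (j + 1)) 0 R ((s i).pat x))).card) (n : ℕ) :
    ∀ q : Set (Dt V), q.ncard ≤ n → q ⊆ H → G.Inv q → Rich G q g h M →
      ∃ S E : Finset (Vec V), Disjoint S E ∧ S ∪ E = G.Om q g ∧
        ((S.filter (fun x => G.IsCirc x)).card : ℝ) ≤ c * S.card ∧
        ((E.filter (fun x => G.IsCirc x)).card : ℝ) ≤ δ * E.card ∧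
        ∑ i, (S.filter (fun x => St.Near G g x 64 (s i))).card ≤ M * S.card +
          4 * ∑ i, (S.filter
            (fun x => Pt.LU (fun j => 128 * 4 ^ (j + 1)) 0 R ((s i).pat x))).card := by
  induction n with
  | zero =>
    intro q hqn hq hqi hr
    exfalso
    obtain ⟨s, hs1, _⟩ := hr
    have := (hs1 ⟨0, hM⟩).free.mem
    have h0 : q.ncard = 0 := by omega
    rw [Set.ncard_eq_zero (Set.toFinite q)] at h0
    rw [h0] at this
    exact this
  | succ n ih =>
    intro q hqn hq hqi hr
    by_cases hne : (G.Om q g).Nonempty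
    swap
    · rw [Finset.not_nonempty_iff_eq_empty.1 hne]
      exact ⟨∅, ∅, by simp, by simp, by simp, by simp, by simp⟩
    by_cases hact : Active G q g
    · obtain ⟨v, i, hf, h1, h2⟩ := hact
      have hdisj : ∀ x ∈ G.Om q g, (x (v, i + 1) = 0 ↔ ¬ x (v, i + 2) = 0) := by
        intro x hx
        have h3 := (Cub.mem_Om.1 hx).1.1.2 v
        rw [sum_rot x v i, hf x hx] at h3
        generalize x (v, i + 1) = a at *
        generalize x (v, i + 2) = b at *
        revert a b
        decide
      have hless : ∀ e, G.Free q g e → (G.del q e).ncard ≤ n := by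
        intro e he
        have h3 : G.del q e ⊂ q := by
          refine ⟨Cub.del_sub, fun h => ?_⟩
          have := h he.mem
          exact this.2 (by simp)
        have := Set.ncard_lt_ncard h3 (Set.toFinite q)
        omega
      by_cases hr1 : Rich G (G.del q (v, i + 1)) g h M
      · by_cases hr2 : Rich G (G.del q (v, i + 2)) g h M
        · -- both children rich
          obtain ⟨S1, E1, a1, a2, a3, a4, a5⟩ := ih _ (hless _ h1) (Cub.del_sub.trans hq)
            (Cub.del_inv hqi) hr1
          obtain ⟨S2, E2, b1, b2, b3, b4, b5⟩ := ih _ (hless _ h2) (Cub.del_sub.trans hq)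
            (Cub.del_inv hqi) hr2
          rw [Cub.Om_del] at a2 b2
          have hD : Disjoint (S1 ∪ E1) (S2 ∪ E2) := by
            rw [a2, b2, Finset.disjoint_left]
            intro x hx hx'
            rw [Finset.mem_filter] at hx hx'
            exact (hdisj x hx.1).1 hx.2 hx'.2
          have hU : (S1 ∪ E1) ∪ (S2 ∪ E2) = G.Om q g := by
            rw [a2, b2]
            ext x
            simp only [Finset.mem_union, Finset.mem_filter]
            constructor
            · rintro (hx | hx)
              · exact hx.1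
              · exact hx.1
            · intro hx
              by_cases h3 : x (v, i + 1) = 0
              · exact Or.inl ⟨hx, h3⟩
              · right
                refine ⟨hx, ?_⟩
                by_contra h4
                exact h3 ((hdisj x hx).2 h4)
          rw [Finset.disjoint_union_left, Finset.disjoint_union_right,
            Finset.disjoint_union_right] at hD
          obtain ⟨⟨d1, d2⟩, d3, d4⟩ := hD
          have hcS : (S1 ∪ S2).card = S1.card + S2.card := Finset.card_union_of_disjoint d1
          have hcE : (E1 ∪ E2).card = E1.card + E2.card := Finset.card_union_of_disjoint d4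
          have hfil : ∀ (A B : Finset (Vec V)) (p : Vec V → Prop), Disjoint A B →
              ((A ∪ B).filter p).card = (A.filter p).card + (B.filter p).card := by
            intro A B p hAB
            rw [Finset.filter_union, Finset.card_union_of_disjoint]
            exact Finset.disjoint_of_subset_left (Finset.filter_subset _ _)
              (Finset.disjoint_of_subset_right (Finset.filter_subset _ _) hAB)
          refine ⟨S1 ∪ S2, E1 ∪ E2, ?_, ?_, ?_, ?_, ?_⟩
          · rw [Finset.disjoint_union_left, Finset.disjoint_union_right,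
              Finset.disjoint_union_right]
            exact ⟨⟨a1, d2⟩, d3.symm, b1⟩
          · rw [← hU]
            ext x
            simp only [Finset.mem_union]
            tauto
          · rw [hfil _ _ _ d1, hcS]
            push_cast
            linarith
          · rw [hfil _ _ _ d4, hcE]
            push_cast
            linarith
          · have e1 : ∑ i, ((S1 ∪ S2).filter (fun x => St.Near G g x 64 (s i))).card =
                ∑ i, (S1.filter (fun x => St.Near G g x 64 (s i))).card +
                ∑ i, (S2.filter (fun x => St.Near G g x 64 (s i))).card := by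
              rw [← Finset.sum_add_distrib]
              exact Finset.sum_congr rfl fun i _ => hfil _ _ _ d1
            have e2 : ∑ i, ((S1 ∪ S2).filter
                (fun x => Pt.LU (fun j => 128 * 4 ^ (j + 1)) 0 R ((s i).pat x))).card =
                ∑ i, (S1.filter
                (fun x => Pt.LU (fun j => 128 * 4 ^ (j + 1)) 0 R ((s i).pat x))).card +
                ∑ i, (S2.filter
                (fun x => Pt.LU (fun j => 128 * 4 ^ (j + 1)) 0 R ((s i).pat x))).card := by
              rw [← Finset.sum_add_distrib]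
              exact Finset.sum_congr rfl fun i _ => hfil _ _ _ d1
            rw [e1, e2, hcS, mul_add, mul_add]
            omega
        · exact stop_case hh hM hclaim s hdis hreg q hq hqi hr _ h2 hr2
      · exact stop_case hh hM hclaim s hdis hreg q hq hqi hr _ h1 hr1
    · -- ended
      refine ⟨∅, G.Om q g, by simp, by simp, by simp, ?_, by simp⟩
      have h1 := ended_le_one hact
      have h2 := rich_large hh hr hne hM
      have h3 : (2 : ℝ) ^ (M / 2) ≤ ((G.Om q g).card : ℝ) := by exact_mod_cast h2
      have h4 : (((G.Om q g).filter (fun x => G.IsCirc x)).card : ℝ) ≤ 1 := by exact_mod_cast h1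
      have hδ0 : 0 < δ := by
        by_contra hcon
        push Not at hcon
        have : δ * 2 ^ (M / 2) ≤ 0 := mul_nonpos_of_nonpos_of_nonneg hcon (by positivity)
        linarith
      calc (((G.Om q g).filter (fun x => G.IsCirc x)).card : ℝ) ≤ 1 := h4
        _ ≤ δ * 2 ^ (M / 2) := hδ
        _ ≤ _ := mul_le_mul_of_nonneg_left h3 hδ0.le

end explore

/-- one step of the decay -/
lemma decay_step {c δ : ℝ} (hc : 0 < c) (hδ : 0 < δ)
    (hcl : ∃ h M : ℕ, ∀ (V : Type) [Fintype V] (G : Cub V)
      (H : Set (Dt V)) (g : Dt V), G.Inv H → Rich G H g h M →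
      (((G.Om H g).filter (fun x => G.IsCirc x)).card : ℝ) ≤ c * (G.Om H g).card) :
    ∃ h M : ℕ, ∀ (V : Type) [Fintype V] (G : Cub V)
      (H : Set (Dt V)) (g : Dt V), G.Inv H → Rich G H g h M →
      (((G.Om H g).filter (fun x => G.IsCirc x)).card : ℝ) ≤
        (63 / 64 * c + δ) * (G.Om H g).card := by
  obtain ⟨h0, M0, hcl⟩ := hcl
  -- enlarge the parameters
  obtain ⟨n, hn⟩ := pow_unbounded_of_one_lt (1 / δ) (show (1 : ℝ) < 2 by norm_num)
  set h1 := h0 + 1 with hh1
  set M1 := M0 + 2 * n + 1 with hM1
  have hδ1 : 1 ≤ δ * 2 ^ (M1 / 2) := by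
    have e1 : (2 : ℝ) ^ n ≤ 2 ^ (M1 / 2) := pow_le_pow_right₀ (by norm_num) (by omega)
    have e2 : 1 / δ ≤ 2 ^ (M1 / 2) := hn.le.trans e1
    calc (1 : ℝ) = δ * (1 / δ) := by field_simp
      _ ≤ _ := mul_le_mul_of_nonneg_left e2 hδ.le
  obtain ⟨R, hR64, hreg⟩ := region 128 h1
  obtain ⟨h2, hgood⟩ := good_site R (63 / 64 * c) (by positivity)
  refine ⟨h2 + h1, 64 * M1, ?_⟩
  intro V _ G H g hH hrich
  by_cases hsmall : (((G.Om H g).filter (fun x => G.IsCirc x)).card : ℝ) ≤
      63 / 64 * c * (G.Om H g).card
  · refine hsmall.trans ?_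
    have : (0 : ℝ) ≤ ((G.Om H g).card : ℝ) := by positivity
    nlinarith
  · push Not at hsmall
    have hrich1 : Rich G H g h1 M1 := (hrich.sub (by omega)).sub' (by omega)
    obtain ⟨s0, hs0, hs0'⟩ := hrich.sub (h' := h2) (by omega)
    choose s hs1 hs2 hs3 using fun i => hgood V G H g hH (s0 i) (hs0 i) hsmall
    have hdis : ∀ i j, i ≠ j → Disjoint ((s i).foot G) ((s j).foot G) := fun i j hij =>
      Finset.disjoint_of_subset_left (hs3 i) (Finset.disjoint_of_subset_right (hs3 j) (hs0' i j hij))
    have hclaim : ∀ q : Set (Dt V), q ⊆ H → G.Inv q → Rich G q g h1 M1 →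
        (((G.Om q g).filter (fun x => G.IsCirc x)).card : ℝ) ≤ c * (G.Om q g).card := by
      intro q _ hqi hr
      exact hcl V G q g hqi ((hr.sub (by omega)).sub' (by omega))
    obtain ⟨S, E, a1, a2, a3, a4, a5⟩ := explore (h := h1) (M := M1) (R := R) (c := c) (δ := δ)
      (by omega) (by omega) hδ1 hclaim s hdis
      (fun i q e hq hqi he hx => hreg V G H g (s i) (hs1 i) (hs2 i).1 q e hq hqi he hx)
      H.ncard H le_rfl Set.Subset.rfl hH hrich1
    have hfil : ∀ (p : Vec V → Prop), ((G.Om H g).filter p).card =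
        (S.filter p).card + (E.filter p).card := by
      intro p
      rw [← a2, Finset.filter_union, Finset.card_union_of_disjoint]
      exact Finset.disjoint_of_subset_left (Finset.filter_subset _ _)
        (Finset.disjoint_of_subset_right (Finset.filter_subset _ _) a1)
    have hcard : (G.Om H g).card = S.card + E.card := by
      rw [← a2, Finset.card_union_of_disjoint a1]
    -- loops near the sites
    have hnear : ∀ i, 3 * (G.Om H g).card ≤
        64 * ((S.filter (fun x => St.Near G g x 64 (s i))).card + E.card) := by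
      intro i
      have e1 := near_prob G H hH g hR64 (s i) (hs1 i) (hs2 i)
      rw [hfil] at e1
      have e2 := Finset.card_filter_le E (fun x => St.Near G g x 64 (s i))
      omega
    have hLU : ∀ i, 256 * (S.filter
        (fun x => Pt.LU (fun j => 128 * 4 ^ (j + 1)) 0 R ((s i).pat x))).card ≤
        (G.Om H g).card := by
      intro i
      have e1 := pat_uniform G H g (s i) (hs2 i)
        (fun p => Pt.LU (fun j => 128 * 4 ^ (j + 1)) 0 R p)
      have e2 := Pt.card_LU 128 (by norm_num) R 0
      rw [pow_zero, mul_one] at e2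
      have e3 : 0 < Fintype.card (Pt R) := Fintype.card_pos_iff.2 ⟨0⟩
      have e4 : 256 * ((G.Om H g).filter
          (fun x => Pt.LU (fun j => 128 * 4 ^ (j + 1)) 0 R ((s i).pat x))).card ≤
          (G.Om H g).card := by
        apply Nat.le_of_mul_le_mul_right _ e3
        calc _ = 256 * (((G.Om H g).filter
              (fun x => Pt.LU (fun j => 128 * 4 ^ (j + 1)) 0 R ((s i).pat x))).card *
              Fintype.card (Pt R)) := by ring
          _ = 256 * ((univ.filter
              (fun p : Pt R => Pt.LU (fun j => 128 * 4 ^ (j + 1)) 0 R p)).card *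
              (G.Om H g).card) := by rw [e1]
          _ = (2 * 128 * (univ.filter
              (fun p : Pt R => Pt.LU (fun j => 128 * 4 ^ (j + 1)) 0 R p)).card) *
              (G.Om H g).card := by ring
          _ ≤ Fintype.card (Pt R) * (G.Om H g).card := Nat.mul_le_mul_right _ e2
          _ = _ := by ring
      refine le_trans (Nat.mul_le_mul_left _ (Finset.card_le_card ?_)) e4
      apply Finset.filter_subset_filter
      rw [← a2]
      exact Finset.subset_union_left
    -- sum over the sites
    have s1 : ∑ i : Fin (64 * M1), 3 * (G.Om H g).card ≤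
        ∑ i : Fin (64 * M1), 64 * ((S.filter (fun x => St.Near G g x 64 (s i))).card + E.card) :=
      Finset.sum_le_sum fun i _ => hnear i
    have s2 : ∑ i : Fin (64 * M1), 256 * (S.filter
        (fun x => Pt.LU (fun j => 128 * 4 ^ (j + 1)) 0 R ((s i).pat x))).card ≤
        ∑ i : Fin (64 * M1), (G.Om H g).card :=
      Finset.sum_le_sum fun i _ => hLU i
    rw [Finset.sum_const, Finset.card_univ, Fintype.card_fin, smul_eq_mul, ← Finset.mul_sum,
      Finset.sum_add_distrib, Finset.sum_const, Finset.card_univ, Fintype.card_fin,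
      smul_eq_mul] at s1
    rw [Finset.sum_const, Finset.card_univ, Fintype.card_fin, smul_eq_mul, ← Finset.mul_sum] at s2
    set X := ∑ i : Fin (64 * M1), (S.filter (fun x => St.Near G g x 64 (s i))).card with hX
    set Y := ∑ i : Fin (64 * M1), (S.filter
        (fun x => Pt.LU (fun j => 128 * 4 ^ (j + 1)) 0 R ((s i).pat x))).card with hY
    have hE : (G.Om H g).card ≤ 64 * E.card := by
      have hMpos : 0 < M1 := by omega
      have e1 : 4 * 64 * Y ≤ 64 * M1 * (G.Om H g).card := by linarith
      have e2 : S.card ≤ (G.Om H g).card := by omega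
      have e3 : M1 * S.card ≤ M1 * (G.Om H g).card := Nat.mul_le_mul_left _ e2
      have e4 : M1 * (G.Om H g).card ≤ M1 * (64 * E.card) := by
        nlinarith
      exact Nat.le_of_mul_le_mul_left e4 hMpos
    have hcardR : ((G.Om H g).card : ℝ) = S.card + E.card := by exact_mod_cast hcard
    have hER : ((G.Om H g).card : ℝ) ≤ 64 * E.card := by exact_mod_cast hE
    have hfilR : (((G.Om H g).filter (fun x => G.IsCirc x)).card : ℝ) =
        ((S.filter (fun x => G.IsCirc x)).card : ℝ) + ((E.filter (fun x => G.IsCirc x)).card : ℝ) := by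
      exact_mod_cast hfil _
    rw [hfilR]
    have hS0 : (0 : ℝ) ≤ (S.card : ℝ) := by positivity
    have f1 : c * (S.card : ℝ) ≤ 63 / 64 * c * (G.Om H g).card := by
      have : (S.card : ℝ) ≤ 63 / 64 * (G.Om H g).card := by linarith
      nlinarith
    have f2 : δ * (E.card : ℝ) ≤ δ * (G.Om H g).card := by
      apply mul_le_mul_of_nonneg_left _ hδ.le
      linarith
    nlinarith

/-- rich contexts have few circuits -/
theorem rich_decay (ε : ℝ) (hε : 0 < ε) : ∃ h M : ℕ, ∀ (V : Type) [Fintype V] (G : Cub V)
    (H : Set (Dt V)) (g : Dt V), G.Inv H → Rich G H g h M →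
    (((G.Om H g).filter (fun x => G.IsCirc x)).card : ℝ) ≤ ε * (G.Om H g).card := by
  have key : ∀ n : ℕ, ∃ h M : ℕ, ∀ (V : Type) [Fintype V] (G : Cub V)
      (H : Set (Dt V)) (g : Dt V), G.Inv H → Rich G H g h M →
      (((G.Om H g).filter (fun x => G.IsCirc x)).card : ℝ) ≤
        (127 / 128 : ℝ) ^ n * (G.Om H g).card := by
    intro n
    induction n with
    | zero =>
      refine ⟨0, 0, fun V _ G H g _ _ => ?_⟩
      rw [pow_zero, one_mul]
      exact_mod_cast Finset.card_filter_le _ _
    | succ n ih =>
      obtain ⟨h, M, hM⟩ := decay_step (c := (127 / 128 : ℝ) ^ n)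
        (δ := (127 / 128 : ℝ) ^ n / 128) (by positivity) (by positivity) ih
      refine ⟨h, M, fun V _ G H g hH hr => (hM V G H g hH hr).trans (le_of_eq ?_)⟩
      rw [pow_succ]
      ring
  obtain ⟨n, hn⟩ := exists_pow_lt_of_lt_one hε (show (127 / 128 : ℝ) < 1 by norm_num)
  obtain ⟨h, M, hM⟩ := key n
  refine ⟨h, M, fun V _ G H g hH hr => (hM V G H g hH hr).trans ?_⟩
  exact mul_le_mul_of_nonneg_right hn.le (by positivity)

end Pool.Agent.LibMP58b56d
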