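import Mathlib
import Pool.Agent.LibMP58b56d.Interface
import Pool.Agent.LibMP58b56d.CarryExist
import Pool.Agent.LibMP58b56d.CarryBound

set_option autoImplicit false

open Finset Classical

namespace Pool.Agent.LibMP58b56d

theorem lemmaE (b S r : ℕ) (c : ℝ) (hc : 0 < c) : ∃ n0 : ℕ, ∀ (V : Type) [Fintype V] (G : Cub V)
    (R : Run G b S) (K : Submodule (ZMod 2) (Vec V)) (X : Vec V), K ≤ G.Z → X ∈ G.Z →
    (G.zs Set.univ).card ≤ 2 ^ r * Nat.card K → (∀ z ∈ K, dot R.lam z = 0) → dot R.lam X = 1 →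
    Obstructed G K X (100 * (b + 1) * (S + 1)) →
    ∀ A : Set (Dt V), G.Inv A → (∀ d ∈ A, ∃ z ∈ G.ZH A, z d ≠ 0) →
      (∀ z ∈ G.ZH A, dot R.lam z = 0) →
      c * (G.zs A).card ≤ ((G.circs.filter (fun x => x ∈ G.ZH A)).card : ℝ) →
      (R.region.filter (fun v => ∀ i, (v, i) ∈ A)).card ≤ n0 := by
  obtain ⟨n0, hn0⟩ := carrying_exist b S (2 * 2 ^ r + 1) c hc
  refine ⟨n0, fun V _ G R K X hK hX hr hlam hlamX hobs A hA hA' hA'' hdens => ?_⟩
  by_contra hcon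
  obtain ⟨i, j, h1, h2⟩ := hn0 V G R A hA hA' hA'' hdens (not_le.1 hcon)
  have := carrying_bound b S r V G R K X hK hX hr hlam hlamX hobs _ i j h1 h2
  omega

end Pool.Agent.LibMP58b56d
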