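import Mathlib
import Pool.Agent.LibMP58b56d.Interface

set_option autoImplicit false

open Finset Classical

namespace Pool.Agent.LibMP58b56d

namespace Lev

/-! ### circuits in `Z(H)` modulo the elements avoiding the branch vertices -/

section branch

variable {V : Type}

lemma prod_aux : ∀ a b : Fin 3 → ZMod 2, ∑ i, a i = 0 → ∑ i, b i = 0 →
    (∃ i, a i = 0 ∧ b i = 0) → ∑ i, a i * b i = 0 := by
  decide

/-- darts of `H` at vertices which are not branch vertices of `H` -/
def nb (H : Set (Dt V)) : Set (Dt V) := {d | d ∈ H ∧ ¬ ∀ i, (d.1, i) ∈ H}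

lemma nb_sub (H : Set (Dt V)) : nb H ⊆ H := fun _ hd => hd.1

lemma mul_mem' {G : Cub V} {H : Set (Dt V)} {x k : Vec V} (hx : x ∈ G.ZH H)
    (hk : k ∈ G.ZH (nb H)) : x * k ∈ G.Z := by
  refine ⟨fun d => ?_, fun v => ?_⟩
  · rw [Pi.mul_apply, Pi.mul_apply, hx.1.1 d, hk.1.1 d]
  · change ∑ i, x (v, i) * k (v, i) = 0
    by_cases h : ∀ i, (v, i) ∈ H
    · refine Finset.sum_eq_zero fun i _ => ?_
      have h1 : (v, i) ∉ nb H := fun h2 => h2.2 h
      rw [hk.2 _ h1, mul_zero]
    · have h' := h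
      rw [not_forall] at h
      obtain ⟨i, hi⟩ := h
      exact prod_aux (fun i => x (v, i)) (fun i => k (v, i)) (hx.1.2 v) (hk.1.2 v)
        ⟨i, hx.2 _ hi, hk.2 _ (fun h2 => hi h2.1)⟩

lemma circ_mul {G : Cub V} {H : Set (Dt V)} {z k : Vec V} (hz : G.IsCirc z)
    (hzH : z ∈ G.ZH H) (hzR : z ∉ G.ZH (nb H)) (hk : k ∈ G.ZH (nb H)) : z * k = 0 := by
  rcases hz.2.2 (z * k) (mul_mem' hzH hk) (fun d hd => by simp [hd]) with h | h
  · exact h
  · exfalso
    apply hzR
    refine ⟨hz.1, fun d hd => ?_⟩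
    have := congrFun h d
    rw [← this, Pi.mul_apply, hk.2 d hd, mul_zero]

lemma circ_coset {G : Cub V} {H : Set (Dt V)} {z k : Vec V} (hz : G.IsCirc z)
    (hzH : z ∈ G.ZH H) (hzR : z ∉ G.ZH (nb H)) (hk : k ∈ G.ZH (nb H))
    (hzk : G.IsCirc (z + k)) : k = 0 := by
  have h1 := circ_mul hz hzH hzR hk
  rcases hzk.2.2 z hz.1 (fun d hd => by
    have h2 := congrFun h1 d
    rw [Pi.mul_apply, Pi.zero_apply] at h2
    rw [Pi.add_apply] at hd
    have h3 := zmod2_eq_of_add hd
    rw [← h3, zmod2_mul_self] at h2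
    exact h2) with h | h
  · exact absurd h hz.2.1
  · have h3 : z + 0 = z + k := by rw [add_zero]; exact h
    exact (add_left_cancel h3).symm

lemma circ_disj {G : Cub V} {H : Set (Dt V)} {z z' : Vec V} (hz : G.IsCirc z)
    (hz' : G.IsCirc z') (hzR : z ∈ G.ZH (nb H)) (hzR' : z' ∈ G.ZH (nb H)) (hne : z ≠ z') :
    z * z' = 0 := by
  have h1 : z ∈ G.ZH H := Cub.ZH_mono (nb_sub H) hzR
  have h2 := mul_mem' h1 hzR'
  rcases hz.2.2 _ h2 (fun d hd => by simp [hd]) with h | h
  · exact h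
  · rcases hz'.2.2 _ h2 (fun d hd => by simp [hd]) with h' | h'
    · exact h'
    · exact absurd (h.symm.trans h') hne

variable [Fintype V]

lemma mem_zs {G : Cub V} {H : Set (Dt V)} {x : Vec V} : x ∈ G.zs H ↔ x ∈ G.ZH H := by
  simp [Cub.zs]

lemma mem_circs {G : Cub V} {x : Vec V} : x ∈ G.circs ↔ G.IsCirc x := by
  simp [Cub.circs]

/-- circuits outside `R` -/
lemma count_out (G : Cub V) (H : Set (Dt V)) :
    (G.circs.filter (fun x => x ∈ G.ZH H ∧ x ∉ G.ZH (nb H))).card * (G.zs (nb H)).card ≤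
      (G.zs H).card := by
  rw [← Finset.card_product]
  refine Finset.card_le_card_of_injOn (fun p => p.1 + p.2) ?_ ?_
  · rintro ⟨z, k⟩ hp
    simp only [Finset.coe_product, Set.mem_prod, Finset.mem_coe, Finset.mem_filter, mem_zs,
      mem_circs] at hp ⊢
    exact add_mem hp.1.2.1 (Cub.ZH_mono (nb_sub H) hp.2)
  · rintro ⟨z, k⟩ hp ⟨z', k'⟩ hp' he
    simp only [Finset.coe_product, Set.mem_prod, Finset.mem_coe, Finset.mem_filter, mem_zs,
      mem_circs] at hp hp' he
    have h1 : z' = z + (k + k') := by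
      have h2 : z + (k + k') = (z + k) + k' := by rw [add_assoc]
      rw [h2, he, add_assoc]
      have h3 : k' + k' = 0 := by
        funext d
        exact zmod2_add_self _
      rw [h3, add_zero]
    have h4 : k + k' = 0 :=
      circ_coset hp.1.1 hp.1.2.1 hp.1.2.2 (add_mem hp.2 hp'.2) (by rw [← h1]; exact hp'.1.1)
    have h5 : z' = z := by rw [h1, h4, add_zero]
    have h6 : k = k' := by
      funext d
      have := congrFun h4 d
      exact zmod2_eq_of_add this
    rw [h5, h6]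

/-- circuits inside `R` -/
lemma count_in (G : Cub V) (H : Set (Dt V)) :
    2 ^ (G.circs.filter (fun x => x ∈ G.ZH (nb H))).card ≤ (G.zs H).card := by
  rw [← Finset.card_powerset]
  have hval : ∀ S ∈ (G.circs.filter (fun x => x ∈ G.ZH (nb H))).powerset,
      ∀ z ∈ G.circs.filter (fun x => x ∈ G.ZH (nb H)), ∀ d, z d ≠ 0 →
        ((∑ y ∈ S, y) d = 1 ↔ z ∈ S) := by
    intro S hS z hz d hd
    rw [Finset.mem_powerset] at hS
    rw [Finset.sum_apply]
    have h0 : ∀ y ∈ S, y ≠ z → y d = 0 := by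
      intro y hy hyz
      have h1 := hS hy
      simp only [Finset.mem_filter, mem_circs] at h1 hz
      have h2 := congrFun (circ_disj h1.1 hz.1 h1.2 hz.2 hyz) d
      rw [Pi.mul_apply, Pi.zero_apply, zmod2_ne_zero hd, mul_one] at h2
      exact h2
    constructor
    · intro h
      by_contra hzS
      rw [Finset.sum_eq_zero] at h
      · exact zero_ne_one h
      · intro y hy
        exact h0 y hy (fun h3 => hzS (h3 ▸ hy))
    · intro hzS
      rw [Finset.sum_eq_single z]
      · exact zmod2_ne_zero hd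
      · exact h0
      · intro h
        exact absurd hzS h
  refine Finset.card_le_card_of_injOn (fun S => ∑ y ∈ S, y) ?_ ?_
  · intro S hS
    rw [Finset.mem_coe, Finset.mem_powerset] at hS
    rw [Finset.mem_coe, mem_zs]
    refine Submodule.sum_mem _ fun y hy => ?_
    have h1 := hS hy
    simp only [Finset.mem_filter, mem_circs] at h1
    exact Cub.ZH_mono (nb_sub H) h1.2
  · intro S hS S' hS' he
    simp only at he
    have key : ∀ z ∈ G.circs.filter (fun x => x ∈ G.ZH (nb H)), (z ∈ S ↔ z ∈ S') := by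
      intro z hz
      have hz' := hz
      simp only [Finset.mem_filter, mem_circs] at hz'
      have h1 : ∃ d, z d ≠ 0 := by
        by_contra h2
        apply hz'.1.2.1
        funext d
        by_contra h3
        exact h2 ⟨d, h3⟩
      obtain ⟨d, hd⟩ := h1
      rw [← hval S hS z hz d hd, ← hval S' hS' z hz d hd, he]
    ext z
    rw [Finset.mem_coe, Finset.mem_powerset] at hS hS'
    constructor
    · intro h
      exact (key z (hS h)).1 h
    · intro h
      exact (key z (hS' h)).2 h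

/-- few branch vertices: `R` is large in `Z(H)` -/
lemma count_R (G : Cub V) (H : Set (Dt V)) :
    (G.zs H).card ≤
      (G.zs (nb H)).card * 2 ^ (3 * (univ.filter (fun v => ∀ i, (v, i) ∈ H)).card) := by
  set Br := univ.filter (fun v : V => ∀ i, (v, i) ∈ H) with hBr
  have hc : (univ : Finset (Br × Fin 3 → ZMod 2)).card = 2 ^ (3 * Br.card) := by
    rw [Finset.card_univ, Fintype.card_fun]
    simp [ZMod.card, mul_comm]
  rw [← hc]
  refine Finset.card_le_mul_card_image_of_maps_to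
    (f := fun (x : Vec V) (p : Br × Fin 3) => x (p.1.1, p.2)) (fun _ _ => mem_univ _) _ ?_
  intro b _
  by_cases hne : ((G.zs H).filter
      (fun x => (fun (p : Br × Fin 3) => x (p.1.1, p.2)) = b)).Nonempty
  · obtain ⟨x0, hx0⟩ := hne
    rw [Finset.mem_filter, mem_zs] at hx0
    refine Finset.card_le_card_of_injOn (fun x => x + x0) ?_ ?_
    · intro x hx
      rw [Finset.mem_coe, Finset.mem_filter, mem_zs] at hx
      rw [Finset.mem_coe, mem_zs]
      refine ⟨(add_mem hx.1 hx0.1).1, fun d hd => ?_⟩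
      by_cases hdH : d ∈ H
      · have h1 : ∀ i, (d.1, i) ∈ H := by
          by_contra h2
          exact hd ⟨hdH, h2⟩
        have h3 : d.1 ∈ Br := by
          rw [hBr, Finset.mem_filter]
          exact ⟨mem_univ _, h1⟩
        have h4 := congrFun (hx.2.trans hx0.2.symm) (⟨d.1, h3⟩, d.2)
        simp only [Prod.mk.eta] at h4
        change x d + x0 d = 0
        rw [h4]
        exact zmod2_add_self _
      · change x d + x0 d = 0
        rw [hx.1.2 d hdH, hx0.1.2 d hdH, add_zero]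
    · intro x _ y _ he
      exact add_right_cancel he
  · rw [Finset.not_nonempty_iff_eq_empty] at hne
    rw [hne]
    simp

end branch

lemma card_sub {I : Type} [Fintype I] (S : Submodule (ZMod 2) (I → ZMod 2)) :
    (univ.filter (fun x => x ∈ S)).card = 2 ^ (Module.finrank (ZMod 2) S) := by
  have h1 : (univ.filter (fun x => x ∈ S)).card = Nat.card S := by
    rw [Nat.card_eq_fintype_card, Fintype.card_subtype]
  rw [h1, Module.natCard_eq_pow_finrank (K := ZMod 2) (V := S)]
  simp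

/-! ### the greedy basis -/

section greedy

variable {C Δ n : ℕ} (D : Datum C Δ n)

/-- span of `ω 3, …, ω k` -/
noncomputable def W (k : ℕ) : Submodule (ZMod 2) (Vec (Fin D.m)) :=
  Submodule.span (ZMod 2) (D.ω '' {i | 3 ≤ i ∧ i ≤ k})

/-- basis indices -/
noncomputable def bas : Finset ℕ := (Icc 3 n).filter (fun m => D.ω m ∉ W D (m - 1))

/-- number of basis indices up to `k` -/
noncomputable def cnt (k : ℕ) : ℕ := ((bas D).filter (fun m => m ≤ k)).card

lemma mem_bas {m : ℕ} : m ∈ bas D ↔ (3 ≤ m ∧ m ≤ n) ∧ D.ω m ∉ W D (m - 1) := by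
  simp [bas]

lemma cnt_zero : cnt D 0 = 0 := by
  unfold cnt
  rw [Finset.card_eq_zero, Finset.filter_eq_empty_iff]
  intro m hm
  rw [mem_bas] at hm
  omega

lemma cnt_succ_of_mem {k : ℕ} (h : k + 1 ∈ bas D) : cnt D (k + 1) = cnt D k + 1 := by
  unfold cnt
  have h1 : (bas D).filter (fun m => m ≤ k + 1) =
      insert (k + 1) ((bas D).filter (fun m => m ≤ k)) := by
    ext m
    simp only [Finset.mem_filter, Finset.mem_insert]
    constructor
    · rintro ⟨h1, h2⟩
      rcases Nat.lt_or_ge k m with h3 | h3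
      · left; omega
      · right; exact ⟨h1, h3⟩
    · rintro (h1 | ⟨h1, h2⟩)
      · subst h1; exact ⟨h, le_refl _⟩
      · exact ⟨h1, by omega⟩
  rw [h1, Finset.card_insert_of_notMem]
  simp

lemma cnt_succ_of_notMem {k : ℕ} (h : k + 1 ∉ bas D) : cnt D (k + 1) = cnt D k := by
  unfold cnt
  congr 1
  ext m
  simp only [Finset.mem_filter]
  constructor
  · rintro ⟨h1, h2⟩
    refine ⟨h1, ?_⟩
    rcases Nat.lt_or_ge k m with h3 | h3
    · exfalso
      apply h
      have : m = k + 1 := by omega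
      rw [← this]; exact h1
    · exact h3
  · rintro ⟨h1, h2⟩
    exact ⟨h1, by omega⟩

lemma cnt_mono {k l : ℕ} (h : k ≤ l) : cnt D k ≤ cnt D l := by
  unfold cnt
  apply Finset.card_le_card
  intro m
  simp only [Finset.mem_filter]
  rintro ⟨h1, h2⟩
  exact ⟨h1, h2.trans h⟩

lemma cnt_lt {k m : ℕ} (h : k < m) (hm : m ∈ bas D) : cnt D k < cnt D m := by
  obtain ⟨l, rfl⟩ : ∃ l, m = l + 1 := ⟨m - 1, by omega⟩
  rw [cnt_succ_of_mem D hm]
  have := cnt_mono D (show k ≤ l by omega)
  omega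

lemma cnt_inj {m m' : ℕ} (hm : m ∈ bas D) (hm' : m' ∈ bas D) (h : cnt D m = cnt D m') :
    m = m' := by
  rcases lt_trichotomy m m' with h1 | h1 | h1
  · have := cnt_lt D h1 hm'; omega
  · exact h1
  · have := cnt_lt D h1 hm; omega

lemma exists_bas (k : ℕ) : ∀ i, 1 ≤ i → i ≤ cnt D k → ∃ m ∈ bas D, cnt D m = i ∧ m ≤ k := by
  induction k with
  | zero =>
    intro i hi hi'
    rw [cnt_zero] at hi'
    omega
  | succ k ih =>
    intro i hi hi'
    by_cases h : k + 1 ∈ bas D
    · rw [cnt_succ_of_mem D h] at hi'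
      rcases Nat.lt_or_ge (cnt D k) i with h1 | h1
      · exact ⟨k + 1, h, by rw [cnt_succ_of_mem D h]; omega, le_refl _⟩
      · obtain ⟨m, hm, hm', hm''⟩ := ih i hi h1
        exact ⟨m, hm, hm', by omega⟩
    · rw [cnt_succ_of_notMem D h] at hi'
      obtain ⟨m, hm, hm', hm''⟩ := ih i hi hi'
      exact ⟨m, hm, hm', by omega⟩

lemma W_mono {k l : ℕ} (h : k ≤ l) : W D k ≤ W D l := by
  unfold W
  apply Submodule.span_mono
  apply Set.image_mono
  rintro i ⟨h1, h2⟩
  exact ⟨h1, h2.trans h⟩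

lemma W_small {k : ℕ} (h : k + 1 < 3) : W D (k + 1) = W D k := by
  unfold W
  congr 2
  ext i
  simp only [Set.mem_ofPred_eq]
  omega

lemma W_succ {k : ℕ} (h : 3 ≤ k + 1) :
    W D (k + 1) = Submodule.span (ZMod 2) {D.ω (k + 1)} ⊔ W D k := by
  unfold W
  have h1 : {i | 3 ≤ i ∧ i ≤ k + 1} = insert (k + 1) {i | 3 ≤ i ∧ i ≤ k} := by
    ext i
    simp only [Set.mem_ofPred_eq, Set.mem_insert_iff]
    omega
  rw [h1, Set.image_insert_eq, Submodule.span_insert]

lemma finrank_W : ∀ k, k ≤ n → Module.finrank (ZMod 2) (W D k) = cnt D k := by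
  intro k
  induction k with
  | zero =>
    intro _
    rw [cnt_zero]
    have h1 : W D 0 = ⊥ := by
      unfold W
      rw [Submodule.span_eq_bot]
      rintro x ⟨i, ⟨h1, h2⟩, _⟩
      omega
    rw [h1]
    simp
  | succ k ih =>
    intro hk
    have ih' := ih (by omega)
    by_cases h3 : k + 1 < 3
    · have h4 : k + 1 ∉ bas D := by
        rw [mem_bas]
        omega
      rw [W_small D h3, cnt_succ_of_notMem D h4, ih']
    · have h3' : 3 ≤ k + 1 := by omega
      by_cases h4 : k + 1 ∈ bas D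
      · rw [cnt_succ_of_mem D h4, ← ih']
        have h5 := (mem_bas D).1 h4
        rw [Nat.add_sub_cancel] at h5
        have h6 : W D k < W D (k + 1) := by
          rw [W_succ D h3']
          refine lt_of_le_of_ne le_sup_right ?_
          intro h7
          apply h5.2
          rw [h7]
          exact Submodule.mem_sup_left (Submodule.mem_span_singleton_self _)
        have h7 := Submodule.finrank_lt_finrank_of_lt h6
        have h8 : Module.finrank (ZMod 2) (W D (k + 1)) ≤
            Module.finrank (ZMod 2) (Submodule.span (ZMod 2) {D.ω (k + 1)}) +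
            Module.finrank (ZMod 2) (W D k) := by
          rw [W_succ D h3']
          exact Submodule.finrank_add_le_finrank_add_finrank _ _
        have h9 := finrank_span_le_card (R := ZMod 2) ({D.ω (k + 1)} : Set (Vec (Fin D.m)))
        simp only [Set.toFinset_singleton, Finset.card_singleton] at h9
        omega
      · rw [cnt_succ_of_notMem D h4, ← ih']
        rw [mem_bas, Nat.add_sub_cancel] at h4
        have h5 : D.ω (k + 1) ∈ W D k := by
          by_contra h6
          exact h4 ⟨⟨h3', hk⟩, h6⟩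
        rw [W_succ D h3', sup_eq_right.2]
        rw [Submodule.span_singleton_le_iff_mem]
        exact h5

lemma omega_inj {k l : ℕ} (hk : 3 ≤ k) (hk' : k ≤ n) (hl : 3 ≤ l) (hl' : l ≤ n)
    (h : D.ω k = D.ω l) : k = l := by
  have h1 := D.len k hk hk'
  have h2 := D.len l hl hl'
  rw [h, h2] at h1
  omega

lemma le_pow_cnt {k : ℕ} (hk : k ≤ n) : k ≤ 2 ^ (cnt D k) + 1 := by
  rcases Nat.lt_or_ge k 3 with h3 | h3
  · have : 1 ≤ 2 ^ (cnt D k) := Nat.one_le_two_pow
    omega
  · rw [← finrank_W D k hk, ← card_sub]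
    have h1 : ((Icc 3 k).image D.ω).card = k - 2 := by
      rw [Finset.card_image_of_injOn, Nat.card_Icc]
      · omega
      · intro a ha b hb hab
        rw [Finset.mem_coe, Finset.mem_Icc] at ha hb
        exact omega_inj D ha.1 (by omega) hb.1 (by omega) hab
    have h2 : (0 : Vec (Fin D.m)) ∉ (Icc 3 k).image D.ω := by
      rw [Finset.mem_image]
      rintro ⟨i, hi, hi'⟩
      rw [Finset.mem_Icc] at hi
      exact (D.circ i hi.1 (by omega)).2.1 hi'
    have h3 : (insert (0 : Vec (Fin D.m)) ((Icc 3 k).image D.ω)).card = k - 2 + 1 := by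
      rw [Finset.card_insert_of_notMem h2, h1]
    have h4 : insert (0 : Vec (Fin D.m)) ((Icc 3 k).image D.ω) ⊆
        univ.filter (fun x => x ∈ W D k) := by
      intro x hx
      rw [Finset.mem_filter]
      refine ⟨mem_univ _, ?_⟩
      rw [Finset.mem_insert, Finset.mem_image] at hx
      rcases hx with hx | ⟨i, hi, hi'⟩
      · rw [hx]; exact zero_mem _
      · rw [Finset.mem_Icc] at hi
        rw [← hi']
        exact Submodule.subset_span ⟨i, hi, rfl⟩
    have h5 := Finset.card_le_card h4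
    rw [h3] at h5
    have h6 : k ≤ k - 2 + 1 + 1 := by omega
    exact h6.trans (Nat.succ_le_succ (by convert h5))

/-- the dart set of the first `j` basis circuits -/
def B (j : ℕ) : Set (Dt (Fin D.m)) := {d | ∃ m ∈ bas D, cnt D m ≤ j ∧ D.ω m d ≠ 0}

/-- the first `j` basis indices -/
noncomputable def fb (j : ℕ) : Finset ℕ := (bas D).filter (fun m => cnt D m ≤ j)

/-- their sum -/
noncomputable def S (j : ℕ) : ℕ := ∑ m ∈ fb D j, m

lemma mem_fb {j m : ℕ} : m ∈ fb D j ↔ m ∈ bas D ∧ cnt D m ≤ j := by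
  simp [fb]

lemma omega_mem {j m : ℕ} (hm : m ∈ bas D) (hj : cnt D m ≤ j) : D.ω m ∈ D.G.ZH (B D j) := by
  have h1 := (mem_bas D).1 hm
  refine ⟨(D.circ m h1.1.1 h1.1.2).1, fun d hd => ?_⟩
  by_contra h2
  exact hd ⟨m, hm, hj, h2⟩

lemma W_le {j : ℕ} : ∀ k, k ≤ n → cnt D k ≤ j → W D k ≤ D.G.ZH (B D j) := by
  intro k
  induction k with
  | zero =>
    intro _ _
    unfold W
    rw [Submodule.span_le]
    rintro x ⟨i, ⟨h1, h2⟩, _⟩
    omega
  | succ k ih =>
    intro hk hj
    have h0 : cnt D k ≤ j := (cnt_mono D (Nat.le_succ k)).trans hj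
    have ih' := ih (by omega) h0
    by_cases h3 : k + 1 < 3
    · rw [W_small D h3]
      exact ih'
    · rw [W_succ D (by omega), sup_le_iff, Submodule.span_singleton_le_iff_mem]
      refine ⟨?_, ih'⟩
      by_cases h4 : k + 1 ∈ bas D
      · exact omega_mem D h4 hj
      · rw [mem_bas, Nat.add_sub_cancel] at h4
        have h5 : D.ω (k + 1) ∈ W D k := by
          by_contra h6
          exact h4 ⟨⟨by omega, hk⟩, h6⟩
        exact ih' h5

lemma pow_le_zs {j : ℕ} (hj : j ≤ cnt D n) : 2 ^ j ≤ (D.G.zs (B D j)).card := by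
  have h1 : ∃ k, k ≤ n ∧ cnt D k = j := by
    rcases Nat.eq_zero_or_pos j with h | h
    · exact ⟨0, Nat.zero_le _, by rw [cnt_zero, h]⟩
    · obtain ⟨m, hm, hm', hm''⟩ := exists_bas D n j h hj
      exact ⟨m, hm'', hm'⟩
  obtain ⟨k, hk, hk'⟩ := h1
  have h2 := Submodule.finrank_mono (W_le D k hk (le_of_eq hk'))
  rw [finrank_W D k hk, hk'] at h2
  rw [Cub.zs_card]
  exact Nat.pow_le_pow_right (by norm_num) h2

lemma bas_le {m : ℕ} (hm : m ∈ bas D) : 1 ≤ cnt D m ∧ m ≤ 2 ^ (cnt D m - 1) + 2 := by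
  have h1 := (mem_bas D).1 hm
  obtain ⟨k, rfl⟩ : ∃ k, m = k + 1 := ⟨m - 1, by omega⟩
  rw [cnt_succ_of_mem D hm]
  have h2 := le_pow_cnt D (show k ≤ n by omega)
  simp only [Nat.add_sub_cancel]
  omega

lemma sum_Icc_aux (j : ℕ) : ∑ i ∈ Icc 1 j, (2 ^ (i - 1) + 2) + 1 = 2 ^ j + 2 * j := by
  induction j with
  | zero => simp
  | succ j ih =>
    rw [Finset.sum_Icc_succ_top (by omega), Nat.add_sub_cancel, pow_succ]
    omega

lemma S_le (j : ℕ) : S D j ≤ 2 ^ j + 2 * j := by
  have h1 : S D j ≤ ∑ m ∈ fb D j, (2 ^ (cnt D m - 1) + 2) := by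
    unfold S
    refine Finset.sum_le_sum fun m hm => ?_
    exact (bas_le D ((mem_fb D).1 hm).1).2
  have h2 : ∑ m ∈ fb D j, (2 ^ (cnt D m - 1) + 2) =
      ∑ i ∈ (fb D j).image (cnt D), (2 ^ (i - 1) + 2) := by
    rw [Finset.sum_image]
    intro a ha b hb hab
    rw [Finset.mem_coe, mem_fb] at ha hb
    exact cnt_inj D ha.1 hb.1 hab
  have h3 : ∑ i ∈ (fb D j).image (cnt D), (2 ^ (i - 1) + 2) ≤
      ∑ i ∈ Icc 1 j, (2 ^ (i - 1) + 2) := by
    apply Finset.sum_le_sum_of_subset
    intro i hi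
    rw [Finset.mem_image] at hi
    obtain ⟨m, hm, rfl⟩ := hi
    rw [mem_fb] at hm
    rw [Finset.mem_Icc]
    exact ⟨(bas_le D hm.1).1, hm.2⟩
  have h4 := sum_Icc_aux j
  omega

lemma S_step {j s M : ℕ} (hM : ∀ m ∈ bas D, cnt D m ≤ j + s → m ≤ M) :
    S D (j + s) ≤ S D j + s * M := by
  have h1 : fb D (j + s) = fb D j ∪ (bas D).filter (fun m => j < cnt D m ∧ cnt D m ≤ j + s) := by
    ext m
    simp only [mem_fb, Finset.mem_union, Finset.mem_filter]
    constructor
    · rintro ⟨h1, h2⟩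
      rcases Nat.lt_or_ge j (cnt D m) with h3 | h3
      · right; exact ⟨h1, h3, h2⟩
      · left; exact ⟨h1, h3⟩
    · rintro (⟨h1, h2⟩ | ⟨h1, h2, h3⟩)
      · exact ⟨h1, by omega⟩
      · exact ⟨h1, h3⟩
  have h2 : S D (j + s) ≤ S D j +
      ∑ m ∈ (bas D).filter (fun m => j < cnt D m ∧ cnt D m ≤ j + s), m := by
    unfold S
    rw [h1]
    have h3 := Finset.sum_union_inter (s₁ := fb D j)
      (s₂ := (bas D).filter (fun m => j < cnt D m ∧ cnt D m ≤ j + s)) (f := fun m => m)
    omega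
  have h3 : ∑ m ∈ (bas D).filter (fun m => j < cnt D m ∧ cnt D m ≤ j + s), m ≤ s * M := by
    have h4 : ((bas D).filter (fun m => j < cnt D m ∧ cnt D m ≤ j + s)).card ≤ s := by
      have h5 : ((bas D).filter (fun m => j < cnt D m ∧ cnt D m ≤ j + s)).card ≤
          (Ioc j (j + s)).card := by
        refine Finset.card_le_card_of_injOn (cnt D) ?_ ?_
        · intro m hm
          rw [Finset.mem_coe, Finset.mem_filter] at hm
          rw [Finset.mem_coe, Finset.mem_Ioc]
          exact hm.2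
        · intro a ha b hb hab
          rw [Finset.mem_coe, Finset.mem_filter] at ha hb
          exact cnt_inj D ha.1 hb.1 hab
      rw [Nat.card_Ioc] at h5
      omega
    calc ∑ m ∈ (bas D).filter (fun m => j < cnt D m ∧ cnt D m ≤ j + s), m
        ≤ ((bas D).filter (fun m => j < cnt D m ∧ cnt D m ≤ j + s)).card • M := by
          refine Finset.sum_le_card_nsmul _ _ _ fun m hm => ?_
          rw [Finset.mem_filter] at hm
          exact hM m hm.1 hm.2.2
      _ ≤ s * M := by
          rw [smul_eq_mul]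
          exact Nat.mul_le_mul_right _ h4
  omega

lemma wB_le (j : ℕ) : ∑ d, (if d ∈ B D j then D.w d else 0) ≤ 2 * S D j := by
  have h1 : ∀ d, (if d ∈ B D j then D.w d else 0) ≤
      ∑ m ∈ fb D j, (if D.ω m d = 0 then 0 else D.w d) := by
    intro d
    split_ifs with h
    · obtain ⟨m, hm, hm', hm''⟩ := h
      have h2 := Finset.single_le_sum (f := fun m => (if D.ω m d = 0 then 0 else D.w d))
        (fun i _ => Nat.zero_le _) ((mem_fb D).2 ⟨hm, hm'⟩)
      simp only [if_neg hm''] at h2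
      exact h2
    · exact Nat.zero_le _
  calc ∑ d, (if d ∈ B D j then D.w d else 0)
      ≤ ∑ d, ∑ m ∈ fb D j, (if D.ω m d = 0 then 0 else D.w d) :=
        Finset.sum_le_sum fun d _ => h1 d
    _ = ∑ m ∈ fb D j, ∑ d, (if D.ω m d = 0 then 0 else D.w d) := Finset.sum_comm
    _ = ∑ m ∈ fb D j, 2 * m := by
        refine Finset.sum_congr rfl fun m hm => ?_
        have := (mem_bas D).1 ((mem_fb D).1 hm).1
        exact D.len m this.1.1 this.1.2
    _ = 2 * S D j := by
        unfold S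
        rw [Finset.mul_sum]

lemma cover_B (j : ℕ) : (univ.filter (fun v => ∃ i, (v, i) ∈ B D j)).card ≤
    Δ * (2 ^ j + 2 * j) := by
  have h1 : univ.filter (fun v => ∃ i, (v, i) ∈ B D j) ⊆
      (fb D j).biUnion (fun m => cover (D.ω m)) := by
    intro v hv
    rw [Finset.mem_filter] at hv
    obtain ⟨i, m, hm, hm', hm''⟩ := hv.2
    rw [Finset.mem_biUnion]
    exact ⟨m, (mem_fb D).2 ⟨hm, hm'⟩, mem_cover.2 ⟨i, hm''⟩⟩
  calc (univ.filter (fun v => ∃ i, (v, i) ∈ B D j)).card
      ≤ ((fb D j).biUnion (fun m => cover (D.ω m))).card := Finset.card_le_card h1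
    _ ≤ ∑ m ∈ fb D j, (cover (D.ω m)).card := Finset.card_biUnion_le
    _ ≤ ∑ m ∈ fb D j, Δ * m := by
        refine Finset.sum_le_sum fun m hm => ?_
        have := (mem_bas D).1 ((mem_fb D).1 hm).1
        exact D.cov m this.1.1 this.1.2
    _ = Δ * S D j := by
        unfold S
        rw [Finset.mul_sum]
    _ ≤ Δ * (2 ^ j + 2 * j) := Nat.mul_le_mul_left _ (S_le D j)

/-- coset length count -/
lemma coset_count (H : Set (Dt (Fin D.m))) (L : ℕ)
    (hL : ∑ d, (if d ∈ H then D.w d else 0) ≤ 2 * L) :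
    (n - 2) * (D.G.zs H).card ≤ (L + 1) * (D.G.zs Set.univ).card := by
  have h0 : (n - 2) * (D.G.zs H).card = ((Icc 3 n) ×ˢ (D.G.zs H)).card := by
    rw [Finset.card_product, Nat.card_Icc]
    congr 1
  rw [h0]
  refine Finset.card_le_mul_card_image_of_maps_to (f := fun p => D.ω p.1 + p.2) ?_ _ ?_
  · rintro ⟨k, z⟩ hp
    rw [Finset.mem_product, Finset.mem_Icc, mem_zs] at hp
    rw [mem_zs, Cub.ZH_univ]
    exact add_mem (D.circ k hp.1.1 hp.1.2).1 hp.2.1
  · intro x _
    set T := (Icc 3 n).filter (fun k => x + D.ω k ∈ D.G.ZH H) with hT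
    have h1 : (((Icc 3 n) ×ˢ (D.G.zs H)).filter (fun p => D.ω p.1 + p.2 = x)).card ≤ T.card := by
      refine Finset.card_le_card_of_injOn (fun p => p.1) ?_ ?_
      · rintro ⟨k, z⟩ hp
        rw [Finset.mem_coe, Finset.mem_filter, Finset.mem_product, mem_zs] at hp
        rw [Finset.mem_coe, hT, Finset.mem_filter]
        refine ⟨hp.1.1, ?_⟩
        have h2 : x + D.ω k = z := by
          rw [← hp.2]
          funext d
          simp only [Pi.add_apply]
          have := zmod2_add_self (D.ω k d)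
          calc D.ω k d + z d + D.ω k d = z d + (D.ω k d + D.ω k d) := by ring
            _ = z d := by rw [this, add_zero]
        rw [h2]
        exact hp.1.2
      · rintro ⟨k, z⟩ hp ⟨k', z'⟩ hp' he
        simp only at he
        subst he
        rw [Finset.mem_coe, Finset.mem_filter] at hp hp'
        have h2 := hp.2.trans hp'.2.symm
        simp only at h2
        rw [add_left_cancel h2]
    refine h1.trans ?_
    by_cases hne : T.Nonempty
    · have hmin := Finset.min'_mem T hne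
      set k0 := T.min' hne with hk0
      have h2 : T ⊆ Icc k0 (k0 + L) := by
        intro k hk
        rw [Finset.mem_Icc]
        refine ⟨Finset.min'_le _ _ hk, ?_⟩
        rw [hT, Finset.mem_filter, Finset.mem_Icc] at hk hmin
        have h3 : ∀ d, d ∉ H → D.ω k d = D.ω k0 d := by
          intro d hd
          have e1 := zmod2_eq_of_add (hk.2.2 d hd)
          have e2 := zmod2_eq_of_add (hmin.2.2 d hd)
          rw [← e1, ← e2]
        have h4 := D.len k hk.1.1 hk.1.2
        have h5 := D.len k0 hmin.1.1 hmin.1.2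
        have h6 : ∑ d, (if D.ω k d = 0 then 0 else D.w d) ≤
            ∑ d, (if D.ω k0 d = 0 then 0 else D.w d) +
            ∑ d, (if d ∈ H then D.w d else 0) := by
          rw [← Finset.sum_add_distrib]
          refine Finset.sum_le_sum fun d _ => ?_
          by_cases hd : d ∈ H
          · rw [if_pos hd]
            split_ifs <;> omega
          · rw [h3 d hd]
            omega
        omega
      have h3 := Finset.card_le_card h2
      rw [Nat.card_Icc] at h3
      omega
    · rw [Finset.not_nonempty_iff_eq_empty] at hne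
      rw [hne]
      simp


/-- number of circuits in `Z(B_j)` -/
lemma circs_ge {j m : ℕ} (hm : m ∈ bas D) (hj : cnt D m = j + 1) :
    m - 3 ≤ (D.G.circs.filter (fun x => x ∈ D.G.ZH (B D j))).card := by
  have h1 := (mem_bas D).1 hm
  have h2 : ((Icc 3 (m - 1)).image D.ω).card = m - 3 := by
    rw [Finset.card_image_of_injOn, Nat.card_Icc]
    · omega
    · intro a ha b hb hab
      rw [Finset.mem_coe, Finset.mem_Icc] at ha hb
      exact omega_inj D ha.1 (by omega) hb.1 (by omega) hab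
  rw [← h2]
  apply Finset.card_le_card
  intro x hx
  rw [Finset.mem_image] at hx
  obtain ⟨i, hi, rfl⟩ := hx
  rw [Finset.mem_Icc] at hi
  rw [Finset.mem_filter, mem_circs]
  refine ⟨D.circ i hi.1 (by omega), ?_⟩
  have h3 : cnt D (m - 1) ≤ j := by
    have := cnt_lt D (show m - 1 < m by omega) hm
    omega
  apply W_le D (m - 1) (by omega) h3
  exact Submodule.subset_span ⟨i, hi, rfl⟩

/-- upper bound for `Z(B_j)` -/
lemma zs_le (hn : 3 ≤ n) (j : ℕ) : (D.G.zs (B D j)).card ≤ 3 * (C + 1) * (S D j + 1) := by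
  have h1 := coset_count D (B D j) (S D j) (wB_le D j)
  have h2 := D.card
  have h3 : (S D j + 1) * (D.G.zs Set.univ).card ≤ (S D j + 1) * ((C + 1) * (3 * (n - 2))) := by
    apply Nat.mul_le_mul_left
    refine h2.trans ?_
    have : n ≤ 3 * (n - 2) := by omega
    exact Nat.mul_le_mul (by omega) this
  have h4 : (n - 2) * (D.G.zs (B D j)).card ≤ (n - 2) * (3 * (C + 1) * (S D j + 1)) := by
    refine h1.trans (h3.trans (le_of_eq ?_))
    ring
  exact Nat.le_of_mul_le_mul_left h4 (by omega)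

end greedy

lemma ev (ε : ℝ) (hε : 0 < ε) : ∃ j0 : ℕ, ∀ j : ℕ, j0 ≤ j → (j : ℝ) ≤ ε * 2 ^ j := by
  have h := tendsto_pow_const_div_const_pow_of_one_lt 1 (r := (2 : ℝ)) (by norm_num)
  have h2 := h.eventually (gt_mem_nhds hε)
  rw [Filter.eventually_atTop] at h2
  obtain ⟨j0, hj0⟩ := h2
  refine ⟨j0, fun j hj => ?_⟩
  have h3 := hj0 j hj
  rw [pow_one, div_lt_iff₀ (by positivity)] at h3
  exact h3.le

end Lev

open Lev in
/-- task B4a -/
theorem levels (C Δ : ℕ) : ∃ (c' : ℝ) (a : ℕ), 0 < c' ∧ ∀ J : ℕ, ∃ n1 : ℕ, ∀ n, n1 ≤ n →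
    ∀ D : Datum C Δ n, ∃ B : ℕ → Set (Dt (Fin D.m)), Monotone B ∧ (∀ j, D.G.Inv (B j)) ∧
      (∀ j, ∀ d ∈ B j, ∃ z ∈ D.G.ZH (B j), z d ≠ 0) ∧
      (∀ j, a ≤ j → j ≤ J →
        c' * (D.G.zs (B j)).card ≤ ((D.G.circs.filter (fun x => x ∈ D.G.ZH (B j))).card : ℝ)) ∧
      (∀ j, (univ.filter (fun v => ∃ i, (v, i) ∈ B j)).card ≤ Δ * (2 ^ j + 2 * j)) ∧
      (∀ j, a ≤ j → j ≤ J → j ≤ 3 * (univ.filter (fun v => ∀ i, (v, i) ∈ B j)).card + a) := by
  obtain ⟨E, hE⟩ : ∃ E : ℕ, E = 3 * (C + 1) := ⟨_, rfl⟩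
  have hE1 : 1 ≤ E := by omega
  obtain ⟨s, hs⟩ : ∃ s : ℕ, s = E + 2 := ⟨_, rfl⟩
  have hs1 : 1 ≤ s := by omega
  have hs4 : 4 * E ≤ 2 ^ s := by
    rw [hs, pow_add]
    have := Nat.lt_two_pow_self (n := E)
    omega
  have hER : (1 : ℝ) ≤ E := by exact_mod_cast hE1
  have hsR : (1 : ℝ) ≤ s := by exact_mod_cast hs1
  have hs4R : 4 * (E : ℝ) ≤ 2 ^ s := by exact_mod_cast hs4
  have hESpos : (0 : ℝ) < 6 * E * s := by positivity
  set c' : ℝ := 1 / (4 * E ^ 2 * s) with hc'
  have hc'pos : 0 < c' := by positivity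
  obtain ⟨j1, hj1⟩ := ev (1 / (6 * E * s)) (by positivity)
  obtain ⟨j2, hj2⟩ := ev (c' / 2) (by positivity)
  obtain ⟨a', ha'⟩ : ∃ a' : ℕ, 2 / c' ≤ 2 ^ a' := by
    obtain ⟨a', ha'⟩ := pow_unbounded_of_one_lt (2 / c') (show (1 : ℝ) < 2 by norm_num)
    exact ⟨a', ha'.le⟩
  refine ⟨c', j1 + j2 + a' + s + 3, hc'pos, fun J => ⟨2 ^ (J + 1) + 3, fun n hn D => ?_⟩⟩
  have hn3 : 3 ≤ n := le_trans (Nat.le_add_left 3 _) hn
  have hcnt : J + 1 ≤ cnt D n := by
    have h1 := le_pow_cnt D (le_refl n)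
    have h2 : 2 ^ (J + 1) < 2 ^ (cnt D n) := by omega
    exact (Nat.pow_lt_pow_iff_right (by norm_num)).1 h2 |>.le
  have hdens : ∀ j, j1 + j2 + a' + s + 3 ≤ j → j ≤ J →
        c' * (D.G.zs (B D j)).card ≤
          ((D.G.circs.filter (fun x => x ∈ D.G.ZH (B D j))).card : ℝ) := by
    intro j hj hJ
    obtain ⟨m, hm, hm', -⟩ := exists_bas D n (j + 1) (by omega) (by omega)
    have e1 := hj1 j (by omega)
    have hjR : (3 : ℝ) ≤ j := by
      have : 3 ≤ j := by omega
      exact_mod_cast this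
    have hp : (0 : ℝ) < 2 ^ j := by positivity
    -- consequences of the choice of j1
    have e2 : 6 * E * s * (j : ℝ) ≤ 2 ^ j := by
      rw [div_mul_eq_mul_div, one_mul, le_div_iff₀ hESpos] at e1
      linarith
    have e3 : 6 * (E : ℝ) * s ≤ 2 ^ j := by
      have : 6 * (E : ℝ) * s * 1 ≤ 6 * E * s * j := by
        apply mul_le_mul_of_nonneg_left _ hESpos.le
        linarith
      linarith
    have e4 : 6 * (E : ℝ) * j ≤ 2 ^ j := by
      have : 6 * (E : ℝ) * j * 1 ≤ 6 * E * j * s := by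
        apply mul_le_mul_of_nonneg_left hsR
        positivity
      nlinarith
    have e5 : 6 * (j : ℝ) ≤ 2 ^ j := by
      have : 6 * (j : ℝ) * 1 ≤ 6 * j * E := by
        apply mul_le_mul_of_nonneg_left hER
        positivity
      nlinarith
    -- lower bound for m
    have h1 : 2 ^ (j + 1) ≤ (D.G.zs (B D (j + 1))).card := pow_le_zs D (by omega)
    have h2 := zs_le D hn3 (j + 1)
    have h3 : S D (j + 1) ≤ S D (j + 1 - s) + s * m := by
      have h4 := S_step D (j := j + 1 - s) (s := s) (M := m) (by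
        intro m' hm1 hm2
        by_contra h5
        have := cnt_lt D (show m < m' by omega) hm1
        omega)
      have h5 : j + 1 - s + s = j + 1 := by omega
      rw [h5] at h4
      exact h4
    have h4 := S_le D (j + 1 - s)
    have h5 : 4 * E * 2 ^ (j + 1 - s) ≤ 2 ^ (j + 1) := by
      calc 4 * E * 2 ^ (j + 1 - s) ≤ 2 ^ s * 2 ^ (j + 1 - s) := Nat.mul_le_mul_right _ hs4
        _ = 2 ^ (j + 1) := by
          rw [← pow_add]
          congr 1
          omega
    rw [← hE] at h2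
    have h6 : 2 ^ (j + 1) ≤ E * (2 ^ (j + 1 - s) + 2 * (j + 1 - s) + s * m + 1) := by
      refine h1.trans (h2.trans ?_)
      apply Nat.mul_le_mul_left
      omega
    have h6' : 2 ^ (j + 1) ≤ E * 2 ^ (j + 1 - s) + E * (2 * j + 3) + E * s * m := by
      refine h6.trans ?_
      have : E * (2 ^ (j + 1 - s) + 2 * (j + 1 - s) + s * m + 1) ≤
          E * (2 ^ (j + 1 - s) + (2 * j + 3) + s * m) := by
        apply Nat.mul_le_mul_left
        omega
      refine this.trans (le_of_eq ?_)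
      ring
    have h7 : (2 : ℝ) * 2 ^ j ≤ E * 2 ^ (j + 1 - s) + E * (2 * j + 3) + E * s * m := by
      have : ((2 ^ (j + 1) : ℕ) : ℝ) ≤
          ((E * 2 ^ (j + 1 - s) + E * (2 * j + 3) + E * s * m : ℕ) : ℝ) := by
        exact_mod_cast h6'
      push_cast at this
      rw [pow_succ] at this
      linarith
    have h8 : (4 : ℝ) * (E * 2 ^ (j + 1 - s)) ≤ 2 * 2 ^ j := by
      have : ((4 * E * 2 ^ (j + 1 - s) : ℕ) : ℝ) ≤ ((2 ^ (j + 1) : ℕ) : ℝ) := by
        exact_mod_cast h5
      push_cast at this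
      rw [pow_succ] at this
      linarith
    have h9 : (E : ℝ) * (2 * j + 3) ≤ 2 ^ j / 2 := by
      have : (E : ℝ) * (2 * j + 3) ≤ E * (3 * j) := by
        apply mul_le_mul_of_nonneg_left _ (by positivity)
        linarith
      linarith
    have h10 : (2 : ℝ) ^ j ≤ E * s * m := by linarith
    -- number of circuits
    have h11 := circs_ge D hm hm'
    have h12 : (m : ℝ) - 3 ≤
        ((D.G.circs.filter (fun x => x ∈ D.G.ZH (B D j))).card : ℝ) := by
      have : m ≤ (D.G.circs.filter (fun x => x ∈ D.G.ZH (B D j))).card + 3 := by omega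
      have : (m : ℝ) ≤ ((D.G.circs.filter (fun x => x ∈ D.G.ZH (B D j))).card : ℝ) + 3 := by
        exact_mod_cast this
      linarith
    have h13 : ((D.G.zs (B D j)).card : ℝ) ≤ 2 * E * 2 ^ j := by
      have h14 := zs_le D hn3 j
      have h15 := S_le D j
      rw [← hE] at h14
      have h16 : (D.G.zs (B D j)).card ≤ E * (2 ^ j + 2 * j + 1) := by
        refine h14.trans ?_
        apply Nat.mul_le_mul_left
        omega
      have h17 : ((D.G.zs (B D j)).card : ℝ) ≤ E * (2 ^ j + 2 * j + 1) := by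
        exact_mod_cast h16
      have h18 : (E : ℝ) * (2 ^ j + 2 * j + 1) ≤ E * (2 * 2 ^ j) := by
        apply mul_le_mul_of_nonneg_left _ (by positivity)
        linarith
      linarith
    refine le_trans ?_ h12
    have h14 : c' * ((D.G.zs (B D j)).card : ℝ) ≤ c' * (2 * E * 2 ^ j) :=
      mul_le_mul_of_nonneg_left h13 hc'pos.le
    have h15 : c' * (2 * E * 2 ^ j) = 2 ^ j / (2 * E * s) := by
      rw [hc']
      field_simp
      ring
    have h16 : (2 : ℝ) ^ j / (E * s) ≤ m := by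
      rw [div_le_iff₀ (by positivity)]
      linarith
    have h17 : (3 : ℝ) ≤ 2 ^ j / (2 * E * s) := by
      rw [le_div_iff₀ (by positivity)]
      linarith
    have h18 : (2 : ℝ) ^ j / (E * s) = 2 * (2 ^ j / (2 * E * s)) := by
      field_simp
    rw [h15] at h14
    linarith
  refine ⟨B D, ?_, ?_, ?_, hdens, fun j => cover_B D j, ?_⟩
  · rintro i j hij d ⟨m, hm, hm', hm''⟩
    exact ⟨m, hm, hm'.trans hij, hm''⟩
  · rintro j d ⟨m, hm, hm', hm''⟩
    refine ⟨m, hm, hm', ?_⟩
    have h1 := (mem_bas D).1 hm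
    rw [(D.circ m h1.1.1 h1.1.2).1.1 d]
    exact hm''
  · rintro j d ⟨m, hm, hm', hm''⟩
    exact ⟨D.ω m, omega_mem D hm hm', hm''⟩
  · intro j hj hJ
    have h1 := hdens j hj hJ
    have h2 := count_out D.G (B D j)
    have h3 := count_in D.G (B D j)
    have h4 := count_R D.G (B D j)
    have h5 : 2 ^ j ≤ (D.G.zs (B D j)).card := pow_le_zs D (by omega)
    obtain ⟨r, hr⟩ : ∃ r, (D.G.zs (B D j)).card = 2 ^ r := ⟨_, Cub.zs_card _ _⟩
    have hRpos : 1 ≤ (D.G.zs (nb (B D j))).card := by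
      rw [Cub.zs_card]
      exact Nat.one_le_two_pow
    set R := (D.G.zs (nb (B D j))).card with hR
    set Fi := (D.G.circs.filter (fun x => x ∈ D.G.ZH (nb (B D j)))).card with hFi
    set Fo := (D.G.circs.filter
      (fun x => x ∈ D.G.ZH (B D j) ∧ x ∉ D.G.ZH (nb (B D j)))).card with hFo
    set N3 := (univ.filter (fun v => ∀ i, (v, i) ∈ B D j)).card with hN3
    have h6 : (D.G.circs.filter (fun x => x ∈ D.G.ZH (B D j))).card ≤ Fi + Fo := by
      rw [hFi, hFo]
      refine (Finset.card_le_card ?_).trans (Finset.card_union_le _ _)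
      intro x hx
      simp only [Finset.mem_union, Finset.mem_filter] at hx ⊢
      by_cases h7 : x ∈ D.G.ZH (nb (B D j))
      · left; exact ⟨hx.1, h7⟩
      · right; exact ⟨hx.1, hx.2, h7⟩
    rw [hr] at h1 h2 h3 h4 h5
    have hjr : j ≤ r := (Nat.pow_le_pow_iff_right (by norm_num)).1 h5
    have hFir : Fi ≤ r := (Nat.pow_le_pow_iff_right (by norm_num)).1 h3
    have h7 := hj2 r (by omega)
    have h8 : c' / 2 * (2 : ℝ) ^ r ≤ Fo := by
      have h9 : ((D.G.circs.filter (fun x => x ∈ D.G.ZH (B D j))).card : ℝ) ≤ Fi + Fo := by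
        exact_mod_cast h6
      have h10 : (Fi : ℝ) ≤ r := by exact_mod_cast hFir
      push_cast at h1
      linarith
    have h9 : (Fo : ℝ) * R ≤ 2 ^ r := by exact_mod_cast h2
    have hRR : (1 : ℝ) ≤ R := by exact_mod_cast hRpos
    have h10 : c' / 2 * R ≤ 1 := by
      have h11 : c' / 2 * (2 : ℝ) ^ r * R ≤ 2 ^ r :=
        (mul_le_mul_of_nonneg_right h8 (by linarith)).trans h9
      have hp : (0 : ℝ) < 2 ^ r := by positivity
      have h12 : (c' / 2 * R) * (2 : ℝ) ^ r ≤ 1 * 2 ^ r := by linarith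
      exact le_of_mul_le_mul_right h12 hp
    have h11 : (R : ℝ) ≤ 2 ^ a' := by
      refine le_trans ?_ ha'
      rw [le_div_iff₀ hc'pos]
      linarith
    have h12 : R ≤ 2 ^ a' := by exact_mod_cast h11
    have h13 : 2 ^ j ≤ 2 ^ (a' + 3 * N3) := by
      refine h5.trans (h4.trans ?_)
      rw [pow_add]
      exact Nat.mul_le_mul_right _ h12
    have h14 := (Nat.pow_le_pow_iff_right (show 1 < 2 by norm_num)).1 h13
    omega

end Pool.Agent.LibMP58b56d
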