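import Mathlib
import Pool.Agent.LibMP58b56d.Interface

/-!
# Task B2, part A: neighbourhoods, functionals, spokes
-/

set_option autoImplicit false

open Finset Classical

namespace Pool.Agent.LibMP58b56d

section nbhd

variable {V : Type} [Fintype V] (G : Cub V)

lemma Cub.mem_N {S : Finset V} {v : V} : v ∈ G.N S ↔ v ∈ S ∨ ∃ i, (G.ι (v, i)).1 ∈ S := by
  simp [Cub.N]

lemma Cub.subset_N (S : Finset V) : S ⊆ G.N S := by
  intro v hv
  rw [G.mem_N]
  exact Or.inl hv

lemma Cub.N_mono {S T : Finset V} (h : S ⊆ T) : G.N S ⊆ G.N T := by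
  intro v hv
  rw [G.mem_N] at hv ⊢
  rcases hv with hv | ⟨i, hi⟩
  · exact Or.inl (h hv)
  · exact Or.inr ⟨i, h hi⟩

lemma Cub.iter_mono (k : ℕ) {S T : Finset V} (h : S ⊆ T) : (G.N)^[k] S ⊆ (G.N)^[k] T := by
  induction k with
  | zero => simpa using h
  | succ k ih =>
    rw [Function.iterate_succ_apply', Function.iterate_succ_apply']
    exact G.N_mono ih

lemma Cub.iter_succ_subset (k : ℕ) (S : Finset V) : (G.N)^[k] S ⊆ (G.N)^[k + 1] S := by
  rw [Function.iterate_succ_apply']
  exact G.subset_N _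

lemma Cub.subset_iter (k : ℕ) (S : Finset V) : S ⊆ (G.N)^[k] S := by
  induction k with
  | zero => simp
  | succ k ih => exact ih.trans (G.iter_succ_subset k S)

lemma Cub.N_card (S : Finset V) : (G.N S).card ≤ 4 * S.card := by
  have h1 : (univ.filter (fun v => ∃ i, (G.ι (v, i)).1 ∈ S)) ⊆
      (S ×ˢ (univ : Finset (Fin 3))).image (fun d => (G.ι d).1) := by
    intro v hv
    simp only [Finset.mem_filter, Finset.mem_univ, true_and] at hv
    obtain ⟨i, hi⟩ := hv
    rw [Finset.mem_image]
    refine ⟨G.ι (v, i), ?_, ?_⟩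
    · simp [hi]
    · rw [G.inv]
  have h2 := Finset.card_le_card h1
  have h3 : ((S ×ˢ (univ : Finset (Fin 3))).image (fun d => (G.ι d).1)).card ≤ 3 * S.card := by
    refine Finset.card_image_le.trans ?_
    rw [Finset.card_product]
    simp [mul_comm]
  have h4 : (G.N S).card ≤ S.card + (univ.filter (fun v => ∃ i, (G.ι (v, i)).1 ∈ S)).card :=
    Finset.card_union_le _ _
  omega

lemma Cub.iter_card (k : ℕ) (S : Finset V) : ((G.N)^[k] S).card ≤ 4 ^ k * S.card := by
  induction k with
  | zero => simp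
  | succ k ih =>
    rw [Function.iterate_succ_apply']
    calc (G.N ((G.N)^[k] S)).card ≤ 4 * ((G.N)^[k] S).card := G.N_card _
      _ ≤ 4 * (4 ^ k * S.card) := Nat.mul_le_mul_left _ ih
      _ = 4 ^ (k + 1) * S.card := by ring

lemma Cub.mem_iter_iff (k : ℕ) (S : Finset V) (v : V) :
    v ∈ (G.N)^[k] S ↔ ∃ u ∈ S, v ∈ (G.N)^[k] {u} := by
  induction k generalizing v with
  | zero => simp
  | succ k ih =>
    rw [Function.iterate_succ_apply', G.mem_N]
    constructor
    · rintro (h | ⟨i, hi⟩)
      · obtain ⟨u, hu, huv⟩ := (ih v).1 h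
        exact ⟨u, hu, G.iter_succ_subset k _ huv⟩
      · obtain ⟨u, hu, huv⟩ := (ih _).1 hi
        refine ⟨u, hu, ?_⟩
        rw [Function.iterate_succ_apply', G.mem_N]
        exact Or.inr ⟨i, huv⟩
    · rintro ⟨u, hu, huv⟩
      rw [Function.iterate_succ_apply', G.mem_N] at huv
      rcases huv with h | ⟨i, hi⟩
      · exact Or.inl ((ih v).2 ⟨u, hu, h⟩)
      · exact Or.inr ⟨i, (ih _).2 ⟨u, hu, hi⟩⟩

lemma Cub.mem_iter_symm (k : ℕ) (u v : V) (h : v ∈ (G.N)^[k] {u}) : u ∈ (G.N)^[k] {v} := by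
  induction k generalizing v with
  | zero => simpa using (Finset.mem_singleton.1 h).symm
  | succ k ih =>
    rw [Function.iterate_succ_apply', G.mem_N] at h
    rcases h with h | ⟨i, hi⟩
    · exact G.iter_succ_subset k _ (ih v h)
    · have h1 := ih _ hi
      rw [Function.iterate_succ_apply]
      refine G.iter_mono k ?_ h1
      intro w hw
      rw [Finset.mem_singleton] at hw
      rw [hw, G.mem_N]
      right
      refine ⟨(G.ι (v, i)).2, ?_⟩
      rw [Prod.mk.eta, G.inv]
      simp

/-- a vertex of `S` near a set `Q` outside `S` is near the outer ends of the leaving edges -/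
lemma Cub.lemmaX {S C Q : Finset V}
    (hS : ∀ d : Dt V, d.1 ∈ S → (G.ι d).1 ∉ S → (G.ι d).1 ∈ C) (hQ : Disjoint Q S) (k : ℕ)
    {v : V} (hv : v ∈ S) (h : v ∈ (G.N)^[k] Q) : v ∈ (G.N)^[k] C := by
  induction k generalizing v with
  | zero => exact absurd hv (Finset.disjoint_left.1 hQ h)
  | succ k ih =>
    rw [Function.iterate_succ_apply', G.mem_N] at h
    rcases h with h | ⟨i, hi⟩
    · exact G.iter_succ_subset k _ (ih hv h)
    · rw [Function.iterate_succ_apply', G.mem_N]
      right
      refine ⟨i, ?_⟩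
      by_cases h1 : (G.ι (v, i)).1 ∈ S
      · exact ih h1 hi
      · exact G.subset_iter k _ (hS (v, i) hv h1)

end nbhd

section functionals

variable {V : Type} [Fintype V] (G : Cub V)

/-- the functional of a coefficient vector on the cycle space -/
noncomputable def Cub.cl (β : Vec V) : G.Z →ₗ[ZMod 2] ZMod 2 where
  toFun x := dot β x.1
  map_add' := by
    intro x y
    exact dot_add β x.1 y.1
  map_smul' := by
    intro c x
    simp [dot, Finset.mul_sum, mul_left_comm]

lemma Cub.cl_eq_iff {β β' : Vec V} : G.cl β = G.cl β' ↔ ∀ x ∈ G.Z, dot β x = dot β' x := by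
  constructor
  · intro h x hx
    exact LinearMap.congr_fun h ⟨x, hx⟩
  · intro h
    ext x
    exact h x.1 x.2

noncomputable instance Cub.fintypeDual : Fintype (G.Z →ₗ[ZMod 2] ZMod 2) :=
  @Fintype.ofFinite _ (Finite.of_injective (fun f : G.Z →ₗ[ZMod 2] ZMod 2 => (f : G.Z → ZMod 2))
    DFunLike.coe_injective)

/-- functionals on `Z` vanishing on `K` -/
noncomputable def Cub.ann (K : Submodule (ZMod 2) (Vec V)) : Finset (G.Z →ₗ[ZMod 2] ZMod 2) :=
  univ.filter (fun f => ∀ z : G.Z, z.1 ∈ K → f z = 0)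

lemma Cub.cl_mem_ann {K : Submodule (ZMod 2) (Vec V)} {β : Vec V} (h : ∀ z ∈ K, dot β z = 0) :
    G.cl β ∈ G.ann K := by
  simp only [Cub.ann, Finset.mem_filter, Finset.mem_univ, true_and]
  intro z hz
  exact h z.1 hz

lemma Cub.ann_card {K : Submodule (ZMod 2) (Vec V)} (hK : K ≤ G.Z) {r : ℕ}
    (hr : (G.zs Set.univ).card ≤ 2 ^ r * Nat.card K) : (G.ann K).card ≤ 2 ^ r := by
  let W : Submodule (ZMod 2) G.Z := K.comap G.Z.subtype
  have h1 := Subspace.finrank_add_finrank_dualAnnihilator_eq W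
  have h2 : (G.ann K).card = Nat.card W.dualAnnihilator := by
    rw [Nat.card_eq_fintype_card, Fintype.card_subtype]
    congr 1
    ext f
    simp only [Cub.ann, Finset.mem_filter, Finset.mem_univ, true_and,
      Submodule.mem_dualAnnihilator]
    rfl
  have h3 : Nat.card W.dualAnnihilator = 2 ^ Module.finrank (ZMod 2) W.dualAnnihilator := by
    rw [Module.natCard_eq_pow_finrank (K := ZMod 2) (V := W.dualAnnihilator)]
    simp
  have h4 : Nat.card K = 2 ^ Module.finrank (ZMod 2) W := by
    have e : W ≃ₗ[ZMod 2] K := Submodule.comapSubtypeEquivOfLe hK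
    rw [← Nat.card_congr e.toEquiv, Module.natCard_eq_pow_finrank (K := ZMod 2) (V := W)]
    simp
  rw [G.zs_card, G.ZH_univ, h4, ← h1, pow_add, mul_comm] at hr
  rw [h2, h3]
  exact Nat.le_of_mul_le_mul_right hr (by positivity)

/-- the spokes of an obstructed circuit of type 1 -/
lemma Cub.spokes {G : Cub V} {D β : Vec V} (hD : G.IsCirc D)
    (hβ : ∀ d, β d ≠ 0 → d.1 ∈ cover D) (h0 : dot β D = 0) :
    ∃ e : Vec V, (∀ d, e d ≠ 0 → d.1 ∈ cover D ∧ D d = 0) ∧ ∀ x ∈ G.Z, dot e x = dot β x := by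
  have hH : G.Inv {d | D d ≠ 0} := by
    intro d hd
    simp only [Set.mem_ofPred_eq] at hd ⊢
    rwa [hD.1.1 d]
  have h1 : ∀ x ∈ G.ZH {d | D d ≠ 0}, dot β x = 0 := by
    intro x hx
    rcases hD.2.2 x hx.1 (fun d hd => hx.2 d (by simpa using hd)) with h | h
    · rw [h, dot_zero]
    · rw [h, h0]
  obtain ⟨U, hU⟩ := (Cub.dual hH β).1 h1
  let U' : V → ZMod 2 := fun v => if v ∈ cover D then U v else 0
  let β' : Vec V := fun d => β d + U' d.1
  refine ⟨fun d => if D d = 0 then β' d else 0, ?_, ?_⟩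
  · intro d hd
    by_cases h : D d = 0
    · refine ⟨?_, h⟩
      by_contra h2
      simp only [h, if_true, β', U', if_neg h2, add_zero] at hd
      exact h2 (hβ d hd)
    · simp [h] at hd
  · intro x hx
    have h2 : dot β' x = dot β x := by
      have : β' = β + fun d => U' d.1 := rfl
      rw [this, add_dot, Cub.dot_vertex hx U', add_zero]
    rw [← h2]
    have h3 : ∑ d ∈ univ.filter (fun d : Dt V => D d ≠ 0), β' d * x d = 0 := by
      refine Finset.sum_involution (fun d _ => G.ι d) ?_ ?_ ?_ ?_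
      · intro d hd
        simp only [Finset.mem_filter, Finset.mem_univ, true_and] at hd
        rw [hx.1 d, ← add_mul]
        have h4 := hU d hd
        have h5 : d.1 ∈ cover D := mem_cover_of_ne hd
        have h6 : (G.ι d).1 ∈ cover D := mem_cover_of_ne (by rwa [hD.1.1 d])
        have h7 : β' d + β' (G.ι d) = 0 := by
          simp only [β', U', if_pos h5, if_pos h6]
          have : β d + U d.1 + (β (G.ι d) + U (G.ι d).1) = (β d + β (G.ι d)) +
            (U d.1 + U (G.ι d).1) := by ring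
          rw [this, h4, zmod2_add_self]
        rw [h7, zero_mul]
      · intro d _ _
        exact G.nofix d
      · intro d hd
        simp only [Finset.mem_filter, Finset.mem_univ, true_and] at hd ⊢
        rwa [hD.1.1 d]
      · intro d _
        exact G.inv d
    unfold dot
    rw [← Finset.sum_filter_add_sum_filter_not univ (fun d : Dt V => D d ≠ 0)
      (fun d => β' d * x d), h3, zero_add]
    simp only [ite_mul, zero_mul, not_not]
    rw [← Finset.sum_filter]

end functionals

end Pool.Agent.LibMP58b56d
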