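import Mathlib
import Pool.Agent.LibMP58b56d.RunsA

/-!
# Task B2, part B: the vertex sets between two circuits of the same class
-/

set_option autoImplicit false

open Finset Classical

namespace Pool.Agent.LibMP58b56d

variable {V : Type} [Fintype V] {G : Cub V}

lemma Cub.IsCirc.cover_nonempty_rb {D : Vec V} (hD : G.IsCirc D) : (cover D).Nonempty := by
  by_contra h
  rw [Finset.not_nonempty_iff_eq_empty] at h
  apply hD.2.1
  funext d
  by_contra h2
  have := mem_cover_of_ne h2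
  rw [h] at this
  simp at this

/-- an end of a circuit dart is covered -/
lemma Cub.IsCirc.end_mem {D : Vec V} (hD : G.IsCirc D) {d : Dt V} (hd : D d ≠ 0) :
    (G.ι d).1 ∈ cover D :=
  mem_cover_of_ne (by rwa [hD.1.1 d])

/-- covers of separated circuits are disjoint -/
lemma disj_of_sep {D D' : Vec V} (hD' : G.IsCirc D')
    (hs : ∀ d : Dt V, d.1 ∈ cover D → (G.ι d).1 ∉ cover D') : Disjoint (cover D) (cover D') := by
  rw [Finset.disjoint_left]
  intro v hv hv'
  rw [mem_cover] at hv'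
  obtain ⟨i, hi⟩ := hv'
  exact hs (v, i) hv (hD'.end_mem hi)

/-- the vertex set between two circuits whose spokes give the same functional -/
lemma exists_M {D0 D e0 e : Vec V} (h0 : G.IsCirc D0) (hD : G.IsCirc D)
    (hs : ∀ d : Dt V, d.1 ∈ cover D0 → (G.ι d).1 ∉ cover D)
    (he0 : ∀ d, e0 d ≠ 0 → d.1 ∈ cover D0 ∧ D0 d = 0)
    (he : ∀ d, e d ≠ 0 → d.1 ∈ cover D ∧ D d = 0)
    (hee : ∀ x ∈ G.Z, dot e0 x = dot e x) :
    ∃ M : Finset V, Disjoint M (cover D0) ∧ Disjoint M (cover D) ∧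
      (∀ d : Dt V, d.1 ∈ M → (G.ι d).1 ∉ M → (G.ι d).1 ∈ cover D0 ∨ (G.ι d).1 ∈ cover D) ∧
      (∀ d : Dt V, d.1 ∈ cover D0 → ((G.ι d).1 ∈ M ↔ (e0 d ≠ 0 ∧ (G.ι d).1 ∉ cover D0))) ∧
      (∀ x ∈ G.Z, ∑ d ∈ univ.filter (fun d : Dt V => d.1 ∈ cover D0 ∧ (G.ι d).1 ∈ M), x d
        = dot e0 x) ∧
      (∀ x ∈ G.Z, ∑ d ∈ univ.filter (fun d : Dt V => d.1 ∈ cover D ∧ (G.ι d).1 ∈ M), x d
        = dot e0 x) := by
  have hdj : Disjoint (cover D0) (cover D) := disj_of_sep hD hs
  have hdj' : ∀ v, v ∈ cover D0 → v ∈ cover D → False := fun v h h' =>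
    Finset.disjoint_left.1 hdj h h'
  have hs' : ∀ d : Dt V, d.1 ∈ cover D → (G.ι d).1 ∉ cover D0 := by
    intro d h1 h2
    have := hs (G.ι d) h2
    rw [G.inv] at this
    exact this h1
  have ht : ∀ x ∈ G.ZH Set.univ, dot (e0 + e) x = 0 := by
    intro x hx
    rw [G.ZH_univ] at hx
    rw [add_dot, hee x hx, zmod2_add_self]
  obtain ⟨U1, hU1⟩ := (Cub.dual (G := G) (H := Set.univ) (fun _ _ => Set.mem_univ _) (e0 + e)).1 ht
  obtain ⟨u0, hu0⟩ := h0.cover_nonempty_rb
  -- normalize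
  let U : V → ZMod 2 := fun v => U1 v + U1 u0
  have hU : ∀ d : Dt V, (e0 + e) d + (e0 + e) (G.ι d) = U d.1 + U (G.ι d).1 := by
    intro d
    rw [hU1 d (Set.mem_univ _)]
    have := zmod2_add_self (U1 u0)
    calc U1 d.1 + U1 (G.ι d).1 = U1 d.1 + U1 (G.ι d).1 + (U1 u0 + U1 u0) := by rw [this, add_zero]
      _ = _ := by simp only [U]; ring
  have z0 : ∀ d : Dt V, d.1 ∉ cover D0 → e0 d = 0 := by
    intro d hd
    by_contra h
    exact hd (he0 d h).1
  have z1 : ∀ d : Dt V, d.1 ∉ cover D → e d = 0 := by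
    intro d hd
    by_contra h
    exact hd (he d h).1
  have hUC0 : ∀ v ∈ cover D0, U v = 0 := by
    intro v hv
    have h1 : U v = U u0 := by
      refine h0.side ?_ hv hu0
      intro d hd
      have a1 : d.1 ∈ cover D0 := mem_cover_of_ne hd
      have a2 : (G.ι d).1 ∈ cover D0 := h0.end_mem hd
      have b1 : e0 d = 0 := by
        by_contra h
        exact hd (he0 d h).2
      have b2 : e0 (G.ι d) = 0 := by
        by_contra h
        have := (he0 _ h).2
        rw [h0.1.1 d] at this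
        exact hd this
      have c1 : e d = 0 := z1 d (fun h => hdj' _ a1 h)
      have c2 : e (G.ι d) = 0 := z1 _ (fun h => hdj' _ a2 h)
      have := hU d
      rw [Pi.add_apply, Pi.add_apply, b1, b2, c1, c2] at this
      exact zmod2_eq_of_add (by simpa using this.symm)
    rw [h1]
    exact zmod2_add_self _
  let M : Finset V := univ.filter (fun v => U v = 1 ∧ v ∉ cover D)
  have hM : ∀ v, v ∈ M ↔ U v = 1 ∧ v ∉ cover D := by
    intro v
    simp [M]
  have d0 : Disjoint M (cover D0) := by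
    rw [Finset.disjoint_left]
    intro v hv hv'
    have := hUC0 v hv'
    rw [((hM v).1 hv).1] at this
    exact one_ne_zero this
  have d1 : Disjoint M (cover D) := by
    rw [Finset.disjoint_left]
    intro v hv
    exact ((hM v).1 hv).2
  have hc : ∀ d : Dt V, d.1 ∈ cover D0 →
      ((G.ι d).1 ∈ M ↔ (e0 d ≠ 0 ∧ (G.ι d).1 ∉ cover D0)) := by
    intro d hd
    have hne : (G.ι d).1 ∉ cover D := hs d hd
    have hed : e d = 0 := z1 d (fun h => hdj' _ hd h)
    have hed' : e (G.ι d) = 0 := z1 _ hne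
    have h1 := hU d
    rw [Pi.add_apply, Pi.add_apply, hed, hed', hUC0 _ hd, add_zero, add_zero, zero_add] at h1
    rw [hM]
    constructor
    · rintro ⟨h2, -⟩
      have h3 : (G.ι d).1 ∉ cover D0 := by
        intro h
        rw [hUC0 _ h] at h2
        exact zero_ne_one h2
      refine ⟨?_, h3⟩
      rw [z0 _ h3, add_zero, h2] at h1
      rw [h1]
      exact one_ne_zero
    · rintro ⟨h2, h3⟩
      rw [z0 _ h3, add_zero] at h1
      exact ⟨by rw [← h1]; exact zmod2_ne_zero h2, hne⟩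
  have hsum0 : ∀ x ∈ G.Z,
      ∑ d ∈ univ.filter (fun d : Dt V => d.1 ∈ cover D0 ∧ (G.ι d).1 ∈ M), x d = dot e0 x := by
    intro x hx
    have e1 : dot e0 x = ∑ d ∈ univ.filter (fun d : Dt V => e0 d ≠ 0), x d := by
      unfold dot
      rw [Finset.sum_filter]
      refine Finset.sum_congr rfl fun d _ => ?_
      by_cases h : e0 d = 0
      · simp [h]
      · simp [zmod2_ne_zero h]
    rw [e1, ← Finset.sum_filter_add_sum_filter_not (univ.filter (fun d : Dt V => e0 d ≠ 0))
      (fun d => (G.ι d).1 ∈ cover D0)]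
    have e2 : ∑ d ∈ (univ.filter (fun d : Dt V => e0 d ≠ 0)).filter
        (fun d => (G.ι d).1 ∈ cover D0), x d = 0 := by
      refine Finset.sum_involution (fun d _ => G.ι d) ?_ ?_ ?_ ?_
      · intro d _
        rw [hx.1 d, zmod2_add_self]
      · intro d _ _
        exact G.nofix d
      · intro d hd
        simp only [Finset.mem_filter, Finset.mem_univ, true_and, G.inv] at hd ⊢
        refine ⟨?_, (he0 d hd.1).1⟩
        have a1 := (he0 d hd.1).1
        have h1 := hU d
        rw [Pi.add_apply, Pi.add_apply, hUC0 _ a1, hUC0 _ hd.2,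
          z1 d (fun h => hdj' _ a1 h), z1 (G.ι d) (fun h => hdj' _ hd.2 h), add_zero, add_zero,
          add_zero] at h1
        rw [← zmod2_eq_of_add h1]
        exact hd.1
      · intro d _
        exact G.inv d
    rw [e2, zero_add, Finset.filter_filter]
    refine Finset.sum_congr ?_ (fun _ _ => rfl)
    ext d
    simp only [Finset.mem_filter, Finset.mem_univ, true_and]
    constructor
    · rintro ⟨h1, h2⟩
      exact (hc d h1).1 h2
    · rintro ⟨h1, h2⟩
      have := (he0 d h1).1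
      exact ⟨this, (hc d this).2 ⟨h1, h2⟩⟩
  have hb : ∀ d : Dt V, d.1 ∈ M → (G.ι d).1 ∉ M →
      (G.ι d).1 ∈ cover D0 ∨ (G.ι d).1 ∈ cover D := by
    intro d h1 h2
    by_contra h3
    rw [not_or] at h3
    have hd0 : d.1 ∉ cover D0 := Finset.disjoint_left.1 d0 h1
    have hd1 : d.1 ∉ cover D := Finset.disjoint_left.1 d1 h1
    have h4 := hU d
    rw [Pi.add_apply, Pi.add_apply, z0 d hd0, z1 d hd1, z0 _ h3.1, z1 _ h3.2, ((hM _).1 h1).1]
      at h4
    have h5 : U (G.ι d).1 = 1 := by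
      have : (1 : ZMod 2) + U (G.ι d).1 = 0 := by rw [← h4]; simp
      exact (zmod2_eq_of_add this).symm
    exact h2 ((hM _).2 ⟨h5, h3.2⟩)
  refine ⟨M, d0, d1, hb, hc, hsum0, ?_⟩
  intro x hx
  have p := Cub.parity hx (univ \ M)
  rw [← Finset.sum_filter_add_sum_filter_not _ (fun d : Dt V => d.1 ∈ cover D0)] at p
  have q1 : (univ.filter (fun d : Dt V => d.1 ∈ univ \ M ∧ (G.ι d).1 ∉ univ \ M)).filter
      (fun d : Dt V => d.1 ∈ cover D0) =
      univ.filter (fun d : Dt V => d.1 ∈ cover D0 ∧ (G.ι d).1 ∈ M) := by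
    ext d
    simp only [Finset.mem_filter, Finset.mem_univ, true_and, Finset.mem_sdiff, not_not]
    constructor
    · rintro ⟨⟨_, h2⟩, h3⟩
      exact ⟨h3, h2⟩
    · rintro ⟨h1, h2⟩
      exact ⟨⟨fun h => Finset.disjoint_left.1 d0 h h1, h2⟩, h1⟩
  have q2 : (univ.filter (fun d : Dt V => d.1 ∈ univ \ M ∧ (G.ι d).1 ∉ univ \ M)).filter
      (fun d : Dt V => ¬ d.1 ∈ cover D0) =
      univ.filter (fun d : Dt V => d.1 ∈ cover D ∧ (G.ι d).1 ∈ M) := by
    ext d
    simp only [Finset.mem_filter, Finset.mem_univ, true_and, Finset.mem_sdiff, not_not]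
    constructor
    · rintro ⟨⟨h1, h2⟩, h3⟩
      refine ⟨?_, h2⟩
      have := hb (G.ι d) h2 (by rwa [G.inv])
      rw [G.inv] at this
      exact this.resolve_left h3
    · rintro ⟨h1, h2⟩
      exact ⟨⟨fun h => Finset.disjoint_left.1 d1 h h1, h2⟩, fun h => hdj' _ h h1⟩
  rw [q1, q2, hsum0 x hx] at p
  exact (zmod2_eq_of_add p).symm

/-- a class of separated circuits representing the same functional, with base circuit `C0` -/
structure Cls (G : Cub V) (b : ℕ) where
  C0 : Finset V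
  ne0 : C0.Nonempty
  small0 : C0.card ≤ b
  P : Set (Dt V)
  lam : Vec V
  O : Finset (Vec V)
  M : Vec V → Finset V
  circ : ∀ D ∈ O, G.IsCirc D
  small : ∀ D ∈ O, (cover D).card ≤ b
  sep : ∀ D ∈ O, ∀ D' ∈ O, ∀ d : Dt V, d.1 ∈ cover D → (G.ι d).1 ∈ cover D' → D = D'
  sep0 : ∀ D ∈ O, ∀ d : Dt V, d.1 ∈ cover D → (G.ι d).1 ∉ C0
  disj0 : ∀ D ∈ O, Disjoint (cover D) C0
  dM0 : ∀ D ∈ O, Disjoint (M D) C0
  dM : ∀ D ∈ O, Disjoint (M D) (cover D)
  bd : ∀ D ∈ O, ∀ d : Dt V, d.1 ∈ M D → (G.ι d).1 ∉ M D → (G.ι d).1 ∈ C0 ∨ (G.ι d).1 ∈ cover D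
  hP : ∀ D ∈ O, ∀ d : Dt V, d.1 ∈ C0 → ((G.ι d).1 ∈ M D ↔ d ∈ P)
  rep0 : ∀ D ∈ O, ∀ x ∈ G.Z,
    ∑ d ∈ univ.filter (fun d : Dt V => d.1 ∈ C0 ∧ (G.ι d).1 ∈ M D), x d = dot lam x
  rep : ∀ D ∈ O, ∀ x ∈ G.Z,
    ∑ d ∈ univ.filter (fun d : Dt V => d.1 ∈ cover D ∧ (G.ι d).1 ∈ M D), x d = dot lam x

namespace Cls

variable {b : ℕ} (c : Cls G b)

lemma disj {D D' : Vec V} (hD : D ∈ c.O) (hD' : D' ∈ c.O) (h : D ≠ D') :
    Disjoint (cover D) (cover D') :=
  disj_of_sep (c.circ D' hD') (fun d h1 h2 => h (c.sep D hD D' hD' d h1 h2))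

/-- a circuit separated from `C0` and `cover D` is inside or outside `M D` -/
lemma side_M {D E : Vec V} (hD : D ∈ c.O) (hE : G.IsCirc E) (h0 : Disjoint (cover E) c.C0)
    (h1 : Disjoint (cover E) (cover D)) :
    cover E ⊆ c.M D ∨ Disjoint (cover E) (c.M D) := by
  have key : ∀ u ∈ cover E, ∀ v ∈ cover E, u ∈ c.M D → v ∈ c.M D := by
    intro u hu v hv huM
    have h2 : (fun w : V => if w ∈ c.M D then (1 : ZMod 2) else 0) u =
        (fun w : V => if w ∈ c.M D then (1 : ZMod 2) else 0) v := by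
      refine hE.side (U := fun w : V => if w ∈ c.M D then (1 : ZMod 2) else 0) ?_ hu hv
      intro d hd
      have a1 : d.1 ∈ cover E := mem_cover_of_ne hd
      have a2 : (G.ι d).1 ∈ cover E := hE.end_mem hd
      by_cases b1 : d.1 ∈ c.M D
      · by_cases b2 : (G.ι d).1 ∈ c.M D
        · simp [b1, b2]
        · exfalso
          rcases c.bd D hD d b1 b2 with h | h
          · exact Finset.disjoint_left.1 h0 a2 h
          · exact Finset.disjoint_left.1 h1 a2 h
      · by_cases b2 : (G.ι d).1 ∈ c.M D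
        · exfalso
          rcases c.bd D hD (G.ι d) b2 (by rwa [G.inv]) with h | h
          · rw [G.inv] at h
            exact Finset.disjoint_left.1 h0 a1 h
          · rw [G.inv] at h
            exact Finset.disjoint_left.1 h1 a1 h
        · simp [b1, b2]
    by_contra hvM
    simp [huM, hvM] at h2
  by_cases h : ∃ u ∈ cover E, u ∈ c.M D
  · obtain ⟨u, hu, huM⟩ := h
    left
    intro v hv
    exact key u hu v hv huM
  · right
    rw [Finset.disjoint_left]
    intro v hv hvM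
    exact h ⟨v, hv, hvM⟩

/-- a set whose leaving edges are exactly the base spokes kills the functional -/
lemma lam_zero {D : Vec V} (hD : D ∈ c.O) (I : Finset V)
    (h1 : ∀ d : Dt V, d.1 ∈ I → (G.ι d).1 ∉ I → (G.ι d).1 ∈ c.C0)
    (hI0 : Disjoint I c.C0)
    (h2 : ∀ d : Dt V, d.1 ∈ c.C0 → ((G.ι d).1 ∈ I ↔ d ∈ c.P)) {x : Vec V} (hx : x ∈ G.Z) :
    dot c.lam x = 0 := by
  have p := Cub.parity hx (univ \ I)
  rw [← c.rep0 D hD x hx, ← p]
  refine Finset.sum_congr ?_ (fun _ _ => rfl)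
  ext d
  simp only [Finset.mem_filter, Finset.mem_univ, true_and, Finset.mem_sdiff, not_not]
  constructor
  · rintro ⟨a1, a2⟩
    exact ⟨fun h => Finset.disjoint_left.1 hI0 h a1, (h2 d a1).2 ((c.hP D hD d a1).1 a2)⟩
  · rintro ⟨a1, a2⟩
    have := h1 (G.ι d) a2 (by rwa [G.inv])
    rw [G.inv] at this
    exact ⟨this, (c.hP D hD d this).2 ((h2 d this).1 a2)⟩

/-- exactly one of the two nestings (first part: at least one) -/
lemma nest_or {X : Vec V} (hX : X ∈ G.Z) (hlX : dot c.lam X = 1) {D D' : Vec V}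
    (hD : D ∈ c.O) (hD' : D' ∈ c.O) (hne : D ≠ D') :
    (cover D ⊆ c.M D' ∧ Disjoint (cover D') (c.M D)) ∨
      (cover D' ⊆ c.M D ∧ Disjoint (cover D) (c.M D')) := by
  have s1 := c.side_M hD' (c.circ D hD) (c.disj0 D hD) (c.disj hD hD' hne)
  have s2 := c.side_M hD (c.circ D' hD') (c.disj0 D' hD') (c.disj hD' hD hne.symm)
  rcases s1 with s1 | s1 <;> rcases s2 with s2 | s2
  · -- both
    exfalso
    have := c.lam_zero hD (c.M D ∪ c.M D') ?_ ?_ ?_ hX
    · rw [hlX] at this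
      exact one_ne_zero this
    · intro d h1 h2
      rw [Finset.mem_union, not_or] at h2
      rw [Finset.mem_union] at h1
      rcases h1 with h1 | h1
      · rcases c.bd D hD d h1 h2.1 with h | h
        · exact h
        · exact absurd (s1 h) h2.2
      · rcases c.bd D' hD' d h1 h2.2 with h | h
        · exact h
        · exact absurd (s2 h) h2.1
    · rw [Finset.disjoint_union_left]
      exact ⟨c.dM0 D hD, c.dM0 D' hD'⟩
    · intro d hd
      rw [Finset.mem_union, c.hP D hD d hd, c.hP D' hD' d hd, or_self]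
  · exact Or.inl ⟨s1, s2⟩
  · exact Or.inr ⟨s2, s1⟩
  · exfalso
    have := c.lam_zero hD (c.M D ∩ c.M D') ?_ ?_ ?_ hX
    · rw [hlX] at this
      exact one_ne_zero this
    · intro d h1 h2
      rw [Finset.mem_inter] at h1
      rw [Finset.mem_inter, not_and_or] at h2
      have i1 : (G.ι d).1 ∈ cover D → (G.ι d).1 ∈ c.C0 := by
        intro h
        have h3 : (G.ι d).1 ∉ c.M D' := Finset.disjoint_left.1 s1 h
        rcases c.bd D' hD' d h1.2 h3 with h4 | h4
        · exact h4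
        · exact absurd h4 (Finset.disjoint_left.1 (c.disj hD hD' hne) h)
      have i2 : (G.ι d).1 ∈ cover D' → (G.ι d).1 ∈ c.C0 := by
        intro h
        have h3 : (G.ι d).1 ∉ c.M D := Finset.disjoint_left.1 s2 h
        rcases c.bd D hD d h1.1 h3 with h4 | h4
        · exact h4
        · exact absurd h (Finset.disjoint_left.1 (c.disj hD hD' hne) h4)
      rcases h2 with h2 | h2
      · rcases c.bd D hD d h1.1 h2 with h | h
        · exact h
        · exact i1 h
      · rcases c.bd D' hD' d h1.2 h2 with h | h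
        · exact h
        · exact i2 h
    · exact Disjoint.mono_left Finset.inter_subset_left (c.dM0 D hD)
    · intro d hd
      rw [Finset.mem_inter, c.hP D hD d hd, c.hP D' hD' d hd, and_self]

/-- nestedness -/
lemma nest_subset (hconn : G.Connected) {D D' : Vec V} (hD : D ∈ c.O) (hD' : D' ∈ c.O)
    (h1 : cover D ⊆ c.M D') (h2 : Disjoint (cover D') (c.M D)) :
    c.M D ∪ cover D ⊆ c.M D' := by
  refine Finset.union_subset ?_ h1
  have h3 : ∀ d : Dt V, d.1 ∈ c.M D \ c.M D' → (G.ι d).1 ∈ c.M D \ c.M D' := by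
    intro d hd
    rw [Finset.mem_sdiff] at hd
    by_contra h4
    rw [Finset.mem_sdiff, not_and_or, not_not] at h4
    -- d.1 is not an outer end of an edge leaving `M D'`
    have h5 : (G.ι d).1 ∈ c.M D' → False := by
      intro h
      rcases c.bd D' hD' (G.ι d) h (by rw [G.inv]; exact hd.2) with h6 | h6
      · rw [G.inv] at h6
        exact Finset.disjoint_left.1 (c.dM0 D hD) hd.1 h6
      · rw [G.inv] at h6
        exact Finset.disjoint_left.1 h2 h6 hd.1
    rcases h4 with h4 | h4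
    · rcases c.bd D hD d hd.1 h4 with h6 | h6
      · have h7 : G.ι d ∈ c.P := (c.hP D hD (G.ι d) h6).1 (by rw [G.inv]; exact hd.1)
        have h8 := (c.hP D' hD' (G.ι d) h6).2 h7
        rw [G.inv] at h8
        exact hd.2 h8
      · exact h5 (h1 h6)
    · exact h5 h4
  rcases hconn _ h3 with h4 | h4
  · exact Finset.sdiff_eq_empty_iff_subset.1 h4
  · exfalso
    obtain ⟨u, hu⟩ := c.ne0
    have : u ∈ c.M D \ c.M D' := by rw [h4]; exact mem_univ _
    exact Finset.disjoint_left.1 (c.dM0 D hD) (Finset.mem_sdiff.1 this).1 hu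

end Cls

end Pool.Agent.LibMP58b56d
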