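import Mathlib
import Pool.Agent.LibMP58b56d.RunsB

/-!
# Task B2, part C: the sorted chain of a class and its runs
-/

set_option autoImplicit false

open Finset Classical

namespace Pool.Agent.LibMP58b56d

variable {V : Type} [Fintype V] {G : Cub V}

/-- a class with its members sorted -/
structure Chn (G : Cub V) (b : ℕ) extends Cls G b where
  D : ℕ → Vec V
  hD : ∀ i < O.card, D i ∈ O
  surj : ∀ E ∈ O, ∃ i < O.card, D i = E
  nst : ∀ i j, i < j → j < O.card → M (D i) ∪ cover (D i) ⊆ M (D j)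

/-- sorting a class -/
theorem Cls.exists_chn {b : ℕ} (c : Cls G b) (hconn : G.Connected) {X : Vec V} (hX : X ∈ G.Z)
    (hlX : dot c.lam X = 1) : ∃ d : Chn G b, d.toCls = c := by
  have hlt : ∀ E ∈ c.O, ∀ E' ∈ c.O, (c.M E).card < (c.M E').card →
      c.M E ∪ cover E ⊆ c.M E' := by
    intro E hE E' hE' hlt
    have hne : E ≠ E' := by
      rintro rfl
      exact lt_irrefl _ hlt
    rcases c.nest_or hX hlX hE hE' hne with h | h
    · exact c.nest_subset hconn hE hE' h.1 h.2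
    · exfalso
      have h1 := c.nest_subset hconn hE' hE h.1 h.2
      have h2 := Finset.card_le_card (Finset.subset_union_left.trans h1)
      omega
  have hinj : Set.InjOn (fun E => (c.M E).card) (c.O : Set (Vec V)) := by
    intro E hE E' hE' h
    by_contra hne
    have main : ∀ F ∈ c.O, ∀ F' ∈ c.O, cover F ⊆ c.M F' → Disjoint (cover F') (c.M F) →
        (c.M F).card < (c.M F').card := by
      intro F hF F' hF' h1 h2
      have h3 := c.nest_subset hconn hF hF' h1 h2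
      have h4 := Finset.card_le_card h3
      rw [Finset.card_union_of_disjoint (c.dM F hF)] at h4
      have h5 := Finset.card_pos.2 (c.circ F hF).cover_nonempty_rb
      omega
    rcases c.nest_or hX hlX hE hE' hne with h1 | h1
    · have := main E hE E' hE' h1.1 h1.2
      simp only at h
      omega
    · have := main E' hE' E hE h1.1 h1.2
      simp only at h
      omega
  have hcard : (c.O.image (fun E => (c.M E).card)).card = c.O.card :=
    Finset.card_image_of_injOn hinj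
  let e := (c.O.image (fun E => (c.M E).card)).orderEmbOfFin hcard
  have he : ∀ i, ∃ E ∈ c.O, (c.M E).card = e i := by
    intro i
    have := Finset.orderEmbOfFin_mem (c.O.image (fun E => (c.M E).card)) hcard i
    rw [Finset.mem_image] at this
    exact this
  choose F hF hF' using he
  refine ⟨{ toCls := c, D := fun i => if h : i < c.O.card then F ⟨i, h⟩ else 0,
            hD := ?_, surj := ?_, nst := ?_ }, rfl⟩
  · intro i hi
    rw [dif_pos hi]
    exact hF _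
  · intro E hE
    have h1 : (c.M E).card ∈ Set.range e := by
      rw [Finset.range_orderEmbOfFin]
      exact Finset.mem_coe.2 (Finset.mem_image_of_mem _ hE)
    obtain ⟨i, hi⟩ := h1
    refine ⟨i, i.2, ?_⟩
    rw [dif_pos i.2]
    exact hinj (hF _) hE (by simp only; rw [hF', hi])
  · intro i j hij hj
    rw [dif_pos (hij.trans hj), dif_pos hj]
    refine hlt _ (hF _) _ (hF _) ?_
    rw [hF', hF']
    exact e.strictMono (by simpa using hij)

namespace Chn

variable {b : ℕ} (c : Chn G b)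

/-- number of members of the chain -/
def m : ℕ := c.O.card

/-- the `i`-th vertex set -/
noncomputable def Mi (i : ℕ) : Finset V := c.M (c.D i)

/-- the `i`-th cover -/
noncomputable def Ci (i : ℕ) : Finset V := cover (c.D i)

/-- the arc between `i` and `j` -/
noncomputable def T (i j : ℕ) : Finset V := c.Mi j \ (c.Mi i ∪ c.Ci i)

lemma mem_T {i j : ℕ} {v : V} : v ∈ c.T i j ↔ v ∈ c.Mi j ∧ v ∉ c.Mi i ∧ v ∉ c.Ci i := by
  simp [T]

lemma hi {i : ℕ} (h : i < c.m) : c.D i ∈ c.O := c.hD i h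

lemma nst' {i j : ℕ} (hij : i < j) (hj : j < c.m) : c.Mi i ∪ c.Ci i ⊆ c.Mi j :=
  c.nst i j hij hj

lemma M_sub {i j : ℕ} (hij : i ≤ j) (hj : j < c.m) : c.Mi i ⊆ c.Mi j := by
  rcases eq_or_lt_of_le hij with rfl | h
  · exact Finset.Subset.refl _
  · exact Finset.subset_union_left.trans (c.nst' h hj)

lemma C_sub {i j : ℕ} (hij : i < j) (hj : j < c.m) : c.Ci i ⊆ c.Mi j :=
  Finset.subset_union_right.trans (c.nst' hij hj)

lemma MC {i : ℕ} (h : i < c.m) {v : V} (h1 : v ∈ c.Mi i) (h2 : v ∈ c.Ci i) : False :=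
  Finset.disjoint_left.1 (c.dM _ (c.hi h)) h1 h2

lemma M0 {i : ℕ} (h : i < c.m) {v : V} (h1 : v ∈ c.Mi i) (h2 : v ∈ c.C0) : False :=
  Finset.disjoint_left.1 (c.dM0 _ (c.hi h)) h1 h2

lemma C0' {i : ℕ} (h : i < c.m) {v : V} (h1 : v ∈ c.Ci i) (h2 : v ∈ c.C0) : False :=
  Finset.disjoint_left.1 (c.disj0 _ (c.hi h)) h1 h2

lemma C_ne {i : ℕ} (h : i < c.m) : (c.Ci i).Nonempty := (c.circ _ (c.hi h)).cover_nonempty_rb

lemma D_inj {i j : ℕ} (hij : i < j) (hj : j < c.m) : c.D i ≠ c.D j := by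
  intro h
  obtain ⟨u, hu⟩ := c.C_ne (hij.trans hj)
  refine c.MC hj (c.C_sub hij hj hu) ?_
  have : c.Ci i = c.Ci j := by simp only [Ci, h]
  rwa [← this]

lemma D_inj' {i j : ℕ} (hi : i < c.m) (hj : j < c.m) (h : c.D i = c.D j) : i = j := by
  rcases lt_trichotomy i j with h1 | h1 | h1
  · exact absurd h (c.D_inj h1 hj)
  · exact h1
  · exact absurd h.symm (c.D_inj h1 hi)

lemma CC {i j : ℕ} (hi : i < c.m) (hj : j < c.m) (hij : i ≠ j) {v : V} (h1 : v ∈ c.Ci i)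
    (h2 : v ∈ c.Ci j) : False :=
  Finset.disjoint_left.1 (c.disj (c.hi hi) (c.hi hj) (fun h => hij (c.D_inj' hi hj h))) h1 h2

lemma bd' {i : ℕ} (h : i < c.m) (d : Dt V) (h1 : d.1 ∈ c.Mi i) (h2 : (G.ι d).1 ∉ c.Mi i) :
    (G.ι d).1 ∈ c.C0 ∨ (G.ι d).1 ∈ c.Ci i :=
  c.bd _ (c.hi h) d h1 h2

lemma bd'' {i : ℕ} (h : i < c.m) (d : Dt V) (h1 : d.1 ∉ c.Mi i) (h2 : (G.ι d).1 ∈ c.Mi i) :
    d.1 ∈ c.C0 ∨ d.1 ∈ c.Ci i := by
  have := c.bd' h (G.ι d) h2 (by rwa [G.inv])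
  rwa [G.inv] at this

lemma hP' {i j : ℕ} (hi : i < c.m) (hj : j < c.m) {d : Dt V} (h0 : d.1 ∈ c.C0)
    (h : (G.ι d).1 ∈ c.Mi i) : (G.ι d).1 ∈ c.Mi j :=
  (c.hP _ (c.hi hj) d h0).2 ((c.hP _ (c.hi hi) d h0).1 h)

lemma hP'' {i j : ℕ} (hi : i < c.m) (hj : j < c.m) {d : Dt V} (h0 : (G.ι d).1 ∈ c.C0)
    (h : d.1 ∈ c.Mi i) : d.1 ∈ c.Mi j := by
  have := c.hP' hi hj (d := G.ι d) h0 (by rwa [G.inv])
  rwa [G.inv] at this

lemma sep' {i j : ℕ} (hi : i < c.m) (hj : j < c.m) {d : Dt V} (h1 : d.1 ∈ c.Ci i)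
    (h2 : (G.ι d).1 ∈ c.Ci j) : i = j :=
  c.D_inj' hi hj (c.sep _ (c.hi hi) _ (c.hi hj) d h1 h2)

lemma bdry {i j : ℕ} (hij : i < j) (hj : j < c.m) (d : Dt V) (h1 : d.1 ∈ c.T i j)
    (h2 : (G.ι d).1 ∉ c.T i j) : (G.ι d).1 ∈ c.Ci i ∨ (G.ι d).1 ∈ c.Ci j := by
  have hi := hij.trans hj
  rw [mem_T] at h1 h2
  by_cases h3 : (G.ι d).1 ∈ c.Mi j
  · by_cases h4 : (G.ι d).1 ∈ c.Mi i
    · exfalso
      rcases c.bd'' hi d h1.2.1 h4 with h5 | h5
      · exact c.M0 hj h1.1 h5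
      · exact h1.2.2 h5
    · left
      by_contra h5
      exact h2 ⟨h3, h4, h5⟩
  · rcases c.bd' hj d h1.1 h3 with h5 | h5
    · exfalso
      exact h1.2.1 (c.hP'' hj hi h5 h1.1)
    · exact Or.inr h5

lemma plus_in {i j : ℕ} (hij : i < j) (hj : j < c.m) (d : Dt V) (h1 : d.1 ∈ c.Ci i) :
    (G.ι d).1 ∈ c.Mi j := by
  have hi := hij.trans hj
  by_contra h
  rcases c.bd' hj d (c.C_sub hij hj h1) h with h5 | h5
  · exact c.sep0 _ (c.hi hi) d h1 h5
  · exact absurd (c.sep' hi hj h1 h5) (by omega)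

lemma minus_in {i j : ℕ} (hij : i < j) (hj : j < c.m) (d : Dt V) (h1 : d.1 ∈ c.Ci j)
    (_h2 : (G.ι d).1 ∈ c.Mi j) : (G.ι d).1 ∉ c.Mi i ∪ c.Ci i := by
  have hi := hij.trans hj
  rw [Finset.mem_union, not_or]
  refine ⟨fun h => ?_, fun h => ?_⟩
  · rcases c.bd'' hi d (fun h3 => c.MC hj (c.M_sub hij.le hj h3) h1) h with h5 | h5
    · exact c.C0' hj h1 h5
    · exact c.CC hj hi (by omega) h1 h5
  · exact absurd (c.sep' hj hi h1 h) (by omega)

lemma repm {i : ℕ} (h : i < c.m) {x : Vec V} (hx : x ∈ G.Z) :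
    ∑ d ∈ univ.filter (fun d : Dt V => d.1 ∈ c.Ci i ∧ (G.ι d).1 ∈ c.Mi i), x d
      = dot c.lam x :=
  c.rep _ (c.hi h) x hx

lemma repp {i : ℕ} (h : i < c.m) {x : Vec V} (hx : x ∈ G.Z) :
    ∑ d ∈ univ.filter (fun d : Dt V => d.1 ∈ c.Ci i ∧ (G.ι d).1 ∉ c.Mi i ∪ c.Ci i), x d
      = dot c.lam x := by
  have p := Cub.parity hx (c.Ci i)
  rw [← Finset.sum_filter_add_sum_filter_not _ (fun d : Dt V => (G.ι d).1 ∈ c.Mi i)] at p
  have q1 : (univ.filter (fun d : Dt V => d.1 ∈ c.Ci i ∧ (G.ι d).1 ∉ c.Ci i)).filter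
      (fun d : Dt V => (G.ι d).1 ∈ c.Mi i) =
      univ.filter (fun d : Dt V => d.1 ∈ c.Ci i ∧ (G.ι d).1 ∈ c.Mi i) := by
    ext d
    simp only [Finset.mem_filter, Finset.mem_univ, true_and]
    constructor
    · rintro ⟨⟨h1, _⟩, h3⟩
      exact ⟨h1, h3⟩
    · rintro ⟨h1, h2⟩
      exact ⟨⟨h1, fun h3 => c.MC h h2 h3⟩, h2⟩
  have q2 : (univ.filter (fun d : Dt V => d.1 ∈ c.Ci i ∧ (G.ι d).1 ∉ c.Ci i)).filter
      (fun d : Dt V => ¬ (G.ι d).1 ∈ c.Mi i) =
      univ.filter (fun d : Dt V => d.1 ∈ c.Ci i ∧ (G.ι d).1 ∉ c.Mi i ∪ c.Ci i) := by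
    ext d
    simp only [Finset.mem_filter, Finset.mem_univ, true_and, Finset.mem_union, not_or]
    tauto
  rw [q1, q2, c.repm h hx] at p
  exact (zmod2_eq_of_add p).symm

/-- the run from `s` to `e` -/
noncomputable def toRun {S : ℕ} (s e : ℕ) (hse : s ≤ e) (he : e < c.m)
    (hp : ∀ j, s ≤ j → j < e → (c.Mi (j + 1) \ c.Mi j).card ≤ S) : Run G b S where
  N := e - s + 1
  D i := c.D (s + i)
  M i := c.Mi (s + i)
  lam := c.lam
  circ := fun i hi => c.circ _ (c.hi (by omega))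
  small := fun i hi => c.small _ (c.hi (by omega))
  disj := fun i hi => c.dM _ (c.hi (by omega))
  nest := fun i hi => c.nst' (by omega) (by omega)
  piece := fun i hi => hp (s + i) (by omega) (by omega)
  sep := fun i hi j hj d h1 h2 => by
    have := c.sep' (i := s + i) (j := s + j) (by omega) (by omega) h1 h2
    omega
  bdry := fun i j hij hj d h1 h2 => c.bdry (i := s + i) (j := s + j) (by omega) (by omega) d h1 h2
  plus_in := fun i j hij hj d h1 => c.plus_in (i := s + i) (j := s + j) (by omega) (by omega) d h1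
  minus_in := fun i j hij hj d h1 h2 =>
    c.minus_in (i := s + i) (j := s + j) (by omega) (by omega) d h1 h2
  repm := fun i hi x hx => c.repm (by omega) hx
  repp := fun i hi x hx => c.repp (by omega) hx

lemma toRun_lam {S : ℕ} (s e : ℕ) (hse : s ≤ e) (he : e < c.m)
    (hp : ∀ j, s ≤ j → j < e → (c.Mi (j + 1) \ c.Mi j).card ≤ S) :
    (c.toRun s e hse he hp).lam = c.lam := rfl

lemma toRun_region {S : ℕ} (s e : ℕ) (hse : s ≤ e) (he : e < c.m)
    (hp : ∀ j, s ≤ j → j < e → (c.Mi (j + 1) \ c.Mi j).card ≤ S) :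
    (c.toRun s e hse he hp).region = c.Mi e \ c.Mi s := by
  have : s + (e - s + 1 - 1) = e := by omega
  simp only [Run.region, toRun, this, add_zero]

/-- the runs of the chain cut at the bad indices -/
theorem exists_runs_chn {S : ℕ} (B : Finset ℕ)
    (hgood : ∀ j, j + 1 < c.m → j ∉ B → (c.Mi (j + 1) \ c.Mi j).card ≤ S) :
    ∃ (n : ℕ) (R : Fin n → Run G b S), n ≤ B.card + 1 ∧ (∀ i, (R i).lam = c.lam) ∧
      ∀ j, j + 1 < c.m → j ∉ B → ∀ v ∈ c.Mi (j + 1) \ c.Mi j, ∃ i, v ∈ (R i).region := by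
  -- end points
  let pr : ℕ → ℕ → Prop := fun s e => s ≤ e ∧ e < c.m ∧ ∀ j, s ≤ j → j < e → j ∉ B
  have hex : ∀ s, s < c.m → ∃ e, pr s e ∧ ∀ e', pr s e' → e' ≤ e := by
    intro s hs
    have h0 : pr s s := ⟨le_refl _, hs, fun j h1 h2 => by omega⟩
    refine ⟨Nat.findGreatest (pr s) c.m, ?_, ?_⟩
    · exact Nat.findGreatest_spec (P := pr s) hs.le h0
    · intro e' he'
      exact Nat.le_findGreatest he'.2.1.le he'
  let St : Finset ℕ := ((insert 0 (B.image (· + 1))).filter (fun s => s < c.m))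
  have hSt : ∀ s ∈ St, s < c.m := fun s hs => (Finset.mem_filter.1 hs).2
  have hcardS : St.card ≤ B.card + 1 := by
    refine (Finset.card_filter_le _ _).trans ((Finset.card_insert_le _ _).trans ?_)
    have := Finset.card_image_le (s := B) (f := (· + 1))
    omega
  choose! e he he' using hex
  let R0 : St → Run G b S := fun s => c.toRun s.1 (e s.1) (he s.1 (hSt s.1 s.2)).1
    (he s.1 (hSt s.1 s.2)).2.1
    (fun j h1 h2 => hgood j (by
      have := (he s.1 (hSt s.1 s.2)).2.1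
      omega) ((he s.1 (hSt s.1 s.2)).2.2 j h1 h2))
  refine ⟨St.card, fun i => R0 (St.equivFin.symm i), hcardS, fun i => rfl, ?_⟩
  intro j hj hjB v hv
  -- the least start
  have hs : ∃ s, s ≤ j ∧ ∀ i, s ≤ i → i ≤ j → i ∉ B := ⟨j, le_refl _, fun i h1 h2 => by
    have : i = j := by omega
    rwa [this]⟩
  let s := Nat.find hs
  have hs1 : s ≤ j ∧ ∀ i, s ≤ i → i ≤ j → i ∉ B := Nat.find_spec hs
  have hsS : s ∈ St := by
    rw [Finset.mem_filter]
    refine ⟨?_, by omega⟩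
    rw [Finset.mem_insert]
    rcases Nat.eq_zero_or_pos s with h0 | h0
    · exact Or.inl h0
    · right
      rw [Finset.mem_image]
      refine ⟨s - 1, ?_, by omega⟩
      by_contra hb
      refine Nat.find_min hs (m := s - 1) (by omega) ⟨by omega, fun i h1 h2 => ?_⟩
      rcases eq_or_lt_of_le h1 with h3 | h3
      · rwa [← h3]
      · exact hs1.2 i (by omega) h2
  have hej : j + 1 ≤ e s := by
    refine he' s (by omega) (j + 1) ⟨by omega, hj, fun i h1 h2 => hs1.2 i h1 (by omega)⟩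
  refine ⟨St.equivFin ⟨s, hsS⟩, ?_⟩
  change v ∈ (R0 (St.equivFin.symm (St.equivFin ⟨s, hsS⟩))).region
  rw [Equiv.symm_apply_apply]
  have hreg : (R0 ⟨s, hsS⟩).region = c.Mi (e s) \ c.Mi s := by
    simp only [R0]
    rw [c.toRun_region]
  rw [hreg]
  rw [Finset.mem_sdiff] at hv ⊢
  refine ⟨c.M_sub hej (he s (by omega)).2.1 hv.1, fun h => hv.2 (c.M_sub hs1.1 (by omega) h)⟩

end Chn

end Pool.Agent.LibMP58b56d
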