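import Mathlib
import Pool.Agent.LibMP58b56d.RunsC

/-!
# Task B2, part D: non-interleaving and the number of bad indices
-/

set_option autoImplicit false

open Finset Classical

namespace Pool.Agent.LibMP58b56d

variable {V : Type} [Fintype V] {G : Cub V}

lemma dot_ite (p : Dt V → Prop) [DecidablePred p] (w : ZMod 2) (x : Vec V) :
    dot (fun d => if p d then w else 0) x = w * ∑ d ∈ univ.filter p, x d := by
  unfold dot
  simp only [ite_mul, zero_mul]
  rw [← Finset.sum_filter, Finset.mul_sum]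

namespace Chn

variable {b : ℕ} (c : Chn G b)

lemma T_C {i j : ℕ} (hi : i < c.m) (hj : j + 1 < c.m) {v : V} (h1 : v ∈ c.T j (j + 1))
    (h2 : v ∈ c.Ci i) : False := by
  rw [mem_T] at h1
  rcases lt_trichotomy i j with h | h | h
  · exact h1.2.1 (c.C_sub h (by omega) h2)
  · subst h
    exact h1.2.2 h2
  · exact c.MC hi (c.M_sub (by omega : j + 1 ≤ i) hi h1.1) h2

lemma T_C0 {j : ℕ} (hj : j + 1 < c.m) {v : V} (h1 : v ∈ c.T j (j + 1))
    (h2 : v ∈ c.C0) : False := by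
  rw [mem_T] at h1
  exact c.M0 hj h1.1 h2

lemma T_T {i j : ℕ} (hi : i + 1 < c.m) (hj : j + 1 < c.m) (hij : i ≠ j) {v : V}
    (h1 : v ∈ c.T i (i + 1)) (h2 : v ∈ c.T j (j + 1)) : False := by
  rw [mem_T] at h1 h2
  rcases lt_or_gt_of_ne hij with h | h
  · exact h2.2.1 (c.M_sub (by omega : i + 1 ≤ j) (by omega) h1.1)
  · exact h1.2.1 (c.M_sub (by omega : j + 1 ≤ i) (by omega) h2.1)

/-- non-interleaving -/
theorem NI {j : ℕ} (hj : j + 1 < c.m) {β1 β2 : Vec V}
    (h1 : ∀ d, β1 d ≠ 0 → d.1 ∈ c.T j (j + 1))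
    (h2 : ∀ d, β2 d ≠ 0 → d.1 ∉ c.T j (j + 1) ∧ d.1 ∉ c.Ci j ∧ d.1 ∉ c.Ci (j + 1))
    (h12 : ∀ x ∈ G.Z, dot β1 x = dot β2 x) :
    ∃ w : ZMod 2, ∀ x ∈ G.Z, dot β1 x = w * dot c.lam x := by
  have hj0 : j < c.m := by omega
  have ht : ∀ x ∈ G.ZH Set.univ, dot (β1 + β2) x = 0 := by
    intro x hx
    rw [G.ZH_univ] at hx
    rw [add_dot, h12 x hx, zmod2_add_self]
  obtain ⟨W, hW⟩ := (Cub.dual (G := G) (H := Set.univ) (fun _ _ => Set.mem_univ _)
    (β1 + β2)).1 ht
  have e1T : ∀ d : Dt V, d.1 ∉ c.T j (j + 1) → β1 d = 0 := by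
    intro d hd
    by_contra h
    exact hd (h1 d h)
  have e2T : ∀ d : Dt V, d.1 ∈ c.T j (j + 1) → β2 d = 0 := by
    intro d hd
    by_contra h
    exact (h2 d h).1 hd
  have eC : ∀ d : Dt V, d.1 ∈ c.Ci j ∨ d.1 ∈ c.Ci (j + 1) → (β1 + β2) d = 0 := by
    intro d hd
    rw [Pi.add_apply]
    have a1 : β1 d = 0 := by
      apply e1T
      intro h
      rcases hd with hd | hd
      · exact c.T_C hj0 hj h hd
      · exact c.T_C hj hj h hd
    have a2 : β2 d = 0 := by
      by_contra h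
      rcases hd with hd | hd
      · exact (h2 d h).2.1 hd
      · exact (h2 d h).2.2 hd
    rw [a1, a2, add_zero]
  have cst : ∀ i, (i = j ∨ i = j + 1) → ∃ w, ∀ v ∈ c.Ci i, W v = w := by
    intro i hi
    have him : i < c.m := by omega
    obtain ⟨u, hu⟩ := c.C_ne him
    refine ⟨W u, fun v hv => ?_⟩
    refine (c.circ _ (c.hi him)).side ?_ hv hu
    intro d hd
    have a1 : d.1 ∈ c.Ci i := mem_cover_of_ne hd
    have a2 : (G.ι d).1 ∈ c.Ci i := (c.circ _ (c.hi him)).end_mem hd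
    have b1 : (β1 + β2) d = 0 := eC d (by rcases hi with rfl | rfl <;> simp [a1])
    have b2 : (β1 + β2) (G.ι d) = 0 := eC _ (by rcases hi with rfl | rfl <;> simp [a2])
    have := hW d (Set.mem_univ _)
    rw [b1, b2, add_zero] at this
    exact zmod2_eq_of_add this.symm
  obtain ⟨w1, hw1⟩ := cst j (Or.inl rfl)
  obtain ⟨w2, hw2⟩ := cst (j + 1) (Or.inr rfl)
  let p1 : Dt V → Prop := fun d => d.1 ∈ c.Ci j ∧ (G.ι d).1 ∉ c.Mi j ∪ c.Ci j
  let p2 : Dt V → Prop := fun d => d.1 ∈ c.Ci (j + 1) ∧ (G.ι d).1 ∈ c.Mi (j + 1)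
  let γ : Vec V := β1 + ((fun d => if p1 d then w1 else 0) + (fun d => if p2 d then w2 else 0))
  have hγ : ∀ d, γ d = β1 d + ((if p1 d then w1 else 0) + (if p2 d then w2 else 0)) :=
    fun d => rfl
  let Y : V → ZMod 2 := fun v => if v ∈ c.T j (j + 1) then W v else 0
  -- the two mixed cases
  have mixed : ∀ d : Dt V, d.1 ∈ c.T j (j + 1) → (G.ι d).1 ∉ c.T j (j + 1) →
      γ d + γ (G.ι d) = Y d.1 + Y (G.ι d).1 := by
    intro d a1 a2
    have np1 : ¬ p1 d := fun h => c.T_C hj0 hj a1 h.1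
    have np2 : ¬ p2 d := fun h => c.T_C hj hj a1 h.1
    have hd2 : β2 d = 0 := e2T d a1
    have hd1 : β1 (G.ι d) = 0 := e1T _ a2
    have hWd := hW d (Set.mem_univ _)
    have a1' := c.mem_T.1 a1
    rcases c.bdry (Nat.lt_succ_self j) hj d a1 a2 with h | h
    · have q1 : p1 (G.ι d) := by
        refine ⟨h, ?_⟩
        rw [G.inv, Finset.mem_union, not_or]
        exact ⟨a1'.2.1, a1'.2.2⟩
      have q2 : ¬ p2 (G.ι d) := fun h' => c.CC hj0 hj (by omega) h h'.1
      rw [eC (G.ι d) (Or.inl h), hw1 _ h, Pi.add_apply, hd2, add_zero, add_zero] at hWd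
      rw [hγ, hγ, if_neg np1, if_neg np2, if_pos q1, if_neg q2, hd1]
      simp only [Y, if_pos a1, if_neg a2]
      rw [hWd]
      have := zmod2_add_self w1
      linear_combination this
    · have q1 : ¬ p1 (G.ι d) := fun h' => c.CC hj hj0 (by omega) h h'.1
      have q2 : p2 (G.ι d) := by
        refine ⟨h, ?_⟩
        rw [G.inv]
        exact a1'.1
      rw [eC (G.ι d) (Or.inr h), hw2 _ h, Pi.add_apply, hd2, add_zero, add_zero] at hWd
      rw [hγ, hγ, if_neg np1, if_neg np2, if_neg q1, if_pos q2, hd1]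
      simp only [Y, if_pos a1, if_neg a2]
      rw [hWd]
      have := zmod2_add_self w2
      linear_combination this
  have outT : ∀ d : Dt V, d.1 ∉ c.T j (j + 1) → (G.ι d).1 ∉ c.T j (j + 1) → γ d = 0 := by
    intro d a1 a2
    have n1 : ¬ p1 d := by
      rintro ⟨h, h'⟩
      rw [Finset.mem_union, not_or] at h'
      exact a2 (c.mem_T.2 ⟨c.plus_in (Nat.lt_succ_self j) hj d h, h'.1, h'.2⟩)
    have n2 : ¬ p2 d := by
      rintro ⟨h, h'⟩
      have h3 := c.minus_in (Nat.lt_succ_self j) hj d h h'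
      rw [Finset.mem_union, not_or] at h3
      exact a2 (c.mem_T.2 ⟨h', h3.1, h3.2⟩)
    rw [hγ, if_neg n1, if_neg n2, e1T d a1]
    simp
  have hmain : ∀ x ∈ G.ZH Set.univ, dot γ x = 0 := by
    refine (Cub.dual (G := G) (H := Set.univ) (fun _ _ => Set.mem_univ _) γ).2 ⟨Y, ?_⟩
    intro d _
    by_cases a1 : d.1 ∈ c.T j (j + 1)
    · by_cases a2 : (G.ι d).1 ∈ c.T j (j + 1)
      · have np1 : ¬ p1 d := fun h => c.T_C hj0 hj a1 h.1
        have np2 : ¬ p2 d := fun h => c.T_C hj hj a1 h.1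
        have np1' : ¬ p1 (G.ι d) := fun h => c.T_C hj0 hj a2 h.1
        have np2' : ¬ p2 (G.ι d) := fun h => c.T_C hj hj a2 h.1
        have hWd := hW d (Set.mem_univ _)
        rw [Pi.add_apply, Pi.add_apply, e2T d a1, e2T _ a2, add_zero, add_zero] at hWd
        rw [hγ, hγ, if_neg np1, if_neg np2, if_neg np1', if_neg np2']
        simp only [Y, if_pos a1, if_pos a2, add_zero]
        exact hWd
      · exact mixed d a1 a2
    · by_cases a2 : (G.ι d).1 ∈ c.T j (j + 1)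
      · have := mixed (G.ι d) a2 (by rwa [G.inv])
        rw [G.inv] at this
        rw [add_comm (γ d), this, add_comm]
      · rw [outT d a1 a2, outT (G.ι d) a2 (by rwa [G.inv])]
        simp only [Y, if_neg a1, if_neg a2]
  refine ⟨w1 + w2, fun x hx => ?_⟩
  have h3 := hmain x (by rw [G.ZH_univ]; exact hx)
  have h4 : dot γ x = dot β1 x + (w1 * dot c.lam x + w2 * dot c.lam x) := by
    simp only [γ]
    have r1 : dot (fun d => if p1 d then w1 else 0) x = w1 * dot c.lam x := by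
      refine (dot_ite p1 w1 x).trans ?_
      rw [← c.repp hj0 hx]
    have r2 : dot (fun d => if p2 d then w2 else 0) x = w2 * dot c.lam x := by
      refine (dot_ite p2 w2 x).trans ?_
      rw [← c.repm hj hx]
    rw [add_dot, add_dot, r1, r2]
  rw [h4] at h3
  rw [add_mul]
  exact zmod2_eq_of_add h3

end Chn

end Pool.Agent.LibMP58b56d
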