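import Mathlib
import Pool.Agent.LibMP58b56d.RunsD

/-!
# Task B2, part E: the separated family and the runs of one class
-/

set_option autoImplicit false

open Finset Classical

namespace Pool.Agent.LibMP58b56d

variable {V : Type} [Fintype V] {G : Cub V}

/-- a separated family of obstructed circuits -/
structure Fam (G : Cub V) (K : Submodule (ZMod 2) (Vec V)) (X : Vec V) (b : ℕ) where
  F : Finset (Vec V)
  β : Vec V → Vec V
  circ : ∀ D ∈ F, G.IsCirc D
  small : ∀ D ∈ F, (cover D).card ≤ b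
  sep : ∀ D ∈ F, ∀ D' ∈ F, ∀ d : Dt V, d.1 ∈ cover D → (G.ι d).1 ∈ cover D' → D = D'
  βs : ∀ D ∈ F, ∀ d, β D d ≠ 0 → d.1 ∈ cover D
  βK : ∀ D ∈ F, ∀ z ∈ K, dot (β D) z = 0
  βX : ∀ D ∈ F, dot (β D) X ≠ dot (β D) D

theorem exists_fam (G : Cub V) (K : Submodule (ZMod 2) (Vec V)) (X : Vec V) (ℓ : ℕ)
    (hobs : Obstructed G K X (4 ^ ℓ)) :
    ∃ F : Fam G K X (4 ^ ℓ), ∀ v, (∃ D, G.IsCirc D ∧ cover D ⊆ (G.N)^[ℓ] {v}) →
      ∃ D ∈ F.F, v ∈ (G.N)^[ℓ + 1] (cover D) := by
  let P : Finset (Vec V) → Prop := fun F => (∀ D ∈ F, G.IsCirc D ∧ (cover D).card ≤ 4 ^ ℓ) ∧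
    ∀ D ∈ F, ∀ D' ∈ F, ∀ d : Dt V, d.1 ∈ cover D → (G.ι d).1 ∈ cover D' → D = D'
  obtain ⟨F, hF, hmax⟩ := Finset.exists_max_image (univ.filter P) Finset.card
    ⟨∅, by simp [P]⟩
  have hFP : P F := (Finset.mem_filter.1 hF).2
  have hobs' : ∀ D, ∃ β : Vec V, D ∈ F → (∀ d, β d ≠ 0 → d.1 ∈ cover D) ∧
      (∀ z ∈ K, dot β z = 0) ∧ dot β X ≠ dot β D := by
    intro D
    by_cases hD : D ∈ F
    · obtain ⟨β, hβ⟩ := hobs D (hFP.1 D hD).1 (hFP.1 D hD).2
      exact ⟨β, fun _ => hβ⟩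
    · exact ⟨0, fun h => absurd h hD⟩
  choose β hβ using hobs'
  refine ⟨⟨F, β, fun D hD => (hFP.1 D hD).1, fun D hD => (hFP.1 D hD).2, hFP.2,
    fun D hD => (hβ D hD).1, fun D hD => (hβ D hD).2.1, fun D hD => (hβ D hD).2.2⟩, ?_⟩
  rintro v ⟨D', hD', hcov⟩
  change ∃ D ∈ F, _
  have hsize : (cover D').card ≤ 4 ^ ℓ := by
    refine (Finset.card_le_card hcov).trans ?_
    have := G.iter_card ℓ {v}
    simpa using this
  have hback : ∀ u ∈ cover D', v ∈ (G.N)^[ℓ] {u} := fun u hu => G.mem_iter_symm ℓ v u (hcov hu)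
  by_cases hmem : D' ∈ F
  · obtain ⟨u, hu⟩ := hD'.cover_nonempty_rb
    refine ⟨D', hmem, ?_⟩
    refine G.iter_succ_subset ℓ _ ?_
    exact (G.mem_iter_iff ℓ _ v).2 ⟨u, hu, hback u hu⟩
  · have hnP : ¬ P (insert D' F) := by
      intro h
      have h1 := hmax (insert D' F) (Finset.mem_filter.2 ⟨mem_univ _, h⟩)
      rw [Finset.card_insert_of_notMem hmem] at h1
      omega
    -- it is close to a member
    have hclose : ∃ D ∈ F, ∃ d : Dt V, d.1 ∈ cover D ∧ (G.ι d).1 ∈ cover D' := by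
      by_contra hno
      push Not at hno
      apply hnP
      refine ⟨?_, ?_⟩
      · intro D hD
        rw [Finset.mem_insert] at hD
        rcases hD with rfl | hD
        · exact ⟨hD', hsize⟩
        · exact hFP.1 D hD
      · intro D hD E hE d h1 h2
        rw [Finset.mem_insert] at hD hE
        rcases hD with rfl | hD <;> rcases hE with rfl | hE
        · rfl
        · exfalso
          exact hno E hE (G.ι d) h2 (by rwa [G.inv])
        · exfalso
          exact hno D hD d h1 h2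
        · exact hFP.2 D hD E hE d h1 h2
    obtain ⟨D, hD, d, h1, h2⟩ := hclose
    refine ⟨D, hD, ?_⟩
    rw [Function.iterate_succ_apply]
    refine (G.mem_iter_iff ℓ _ v).2 ⟨(G.ι d).1, ?_, hback _ h2⟩
    rw [G.mem_N]
    right
    refine ⟨(G.ι d).2, ?_⟩
    rw [Prod.mk.eta, G.inv]
    exact h1

namespace Fam

variable {K : Submodule (ZMod 2) (Vec V)} {X : Vec V} {b : ℕ} (F : Fam G K X b)

lemma disj {D D' : Vec V} (hD : D ∈ F.F) (hD' : D' ∈ F.F) (h : D ≠ D') :
    Disjoint (cover D) (cover D') :=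
  disj_of_sep (F.circ D' hD') (fun d h1 h2 => h (F.sep D hD D' hD' d h1 h2))

/-- type 2 members are determined by their functionals -/
lemma type2_inj {D D' : Vec V} (hD : D ∈ F.F) (hD' : D' ∈ F.F) (h2 : dot (F.β D) X ≠ 1)
    (hcl : G.cl (F.β D) = G.cl (F.β D')) : D = D' := by
  by_contra hne
  have h3 := F.βX D hD
  rw [zmod2_ne_one h2] at h3
  have h4 : dot (F.β D) D = 1 := zmod2_ne_zero h3.symm
  have h5 := (G.cl_eq_iff.1 hcl) D (F.circ D hD).1
  rw [h4] at h5
  have h6 : dot (F.β D') D = 0 := by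
    unfold dot
    refine Finset.sum_eq_zero fun d _ => ?_
    by_cases h7 : F.β D' d = 0
    · rw [h7, zero_mul]
    · by_cases h8 : D d = 0
      · rw [h8, mul_zero]
      · exfalso
        exact Finset.disjoint_left.1 (F.disj hD hD' hne) (mem_cover_of_ne h8)
          (F.βs D' hD' d h7)
  rw [h6] at h5
  exact one_ne_zero h5

/-- the members of the class of `D0` -/
noncomputable def mem1 (D0 : Vec V) : Finset (Vec V) :=
  F.F.filter (fun E => dot (F.β E) X = 1 ∧ G.cl (F.β E) = G.cl (F.β D0))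

lemma exists_cls {D0 : Vec V} (hD0 : D0 ∈ F.F) (hX0 : dot (F.β D0) X = 1) :
    ∃ c : Cls G b, c.C0 = cover D0 ∧ c.O = (F.mem1 D0).erase D0 ∧
      ∀ x ∈ G.Z, dot c.lam x = dot (F.β D0) x := by
  have hmem : ∀ E, E ∈ F.mem1 D0 → E ∈ F.F ∧ dot (F.β E) X = 1 ∧
      G.cl (F.β E) = G.cl (F.β D0) := fun E hE => by
    simpa [mem1] using hE
  have h0 : D0 ∈ F.mem1 D0 := by simp [mem1, hD0, hX0]
  have hzero : ∀ E, E ∈ F.mem1 D0 → dot (F.β E) E = 0 := by
    intro E hE
    have h1 := F.βX E (hmem E hE).1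
    rw [(hmem E hE).2.1] at h1
    exact zmod2_ne_one h1.symm
  have hsp : ∀ E, ∃ e : Vec V, E ∈ F.mem1 D0 → (∀ d, e d ≠ 0 → d.1 ∈ cover E ∧ E d = 0) ∧
      ∀ x ∈ G.Z, dot e x = dot (F.β E) x := by
    intro E
    by_cases hE : E ∈ F.mem1 D0
    · obtain ⟨e, he⟩ := Cub.spokes (F.circ E (hmem E hE).1) (F.βs E (hmem E hE).1) (hzero E hE)
      exact ⟨e, fun _ => he⟩
    · exact ⟨0, fun h => absurd h hE⟩
  choose e he using hsp
  have hM : ∀ E, ∃ M : Finset V, E ∈ (F.mem1 D0).erase D0 →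
      Disjoint M (cover D0) ∧ Disjoint M (cover E) ∧
      (∀ d : Dt V, d.1 ∈ M → (G.ι d).1 ∉ M → (G.ι d).1 ∈ cover D0 ∨ (G.ι d).1 ∈ cover E) ∧
      (∀ d : Dt V, d.1 ∈ cover D0 → ((G.ι d).1 ∈ M ↔ (e D0 d ≠ 0 ∧ (G.ι d).1 ∉ cover D0))) ∧
      (∀ x ∈ G.Z, ∑ d ∈ univ.filter (fun d : Dt V => d.1 ∈ cover D0 ∧ (G.ι d).1 ∈ M), x d
        = dot (e D0) x) ∧
      (∀ x ∈ G.Z, ∑ d ∈ univ.filter (fun d : Dt V => d.1 ∈ cover E ∧ (G.ι d).1 ∈ M), x d
        = dot (e D0) x) := by
    intro E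
    by_cases hE : E ∈ (F.mem1 D0).erase D0
    · rw [Finset.mem_erase] at hE
      obtain ⟨hne, hE1⟩ := hE
      have hE2 := hmem E hE1
      obtain ⟨M, hM⟩ := exists_M (G := G) (D0 := D0) (D := E) (e0 := e D0) (e := e E)
        (F.circ D0 hD0) (F.circ E hE2.1)
        (fun d h1 h2 => hne (F.sep D0 hD0 E hE2.1 d h1 h2).symm)
        (he D0 h0).1 (he E hE1).1 (by
          intro x hx
          rw [(he D0 h0).2 x hx, (he E hE1).2 x hx]
          exact ((G.cl_eq_iff.1 hE2.2.2) x hx).symm)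
      exact ⟨M, fun _ => hM⟩
    · exact ⟨∅, fun h => absurd h hE⟩
  choose M hM using hM
  refine ⟨{ C0 := cover D0
            ne0 := (F.circ D0 hD0).cover_nonempty_rb
            small0 := F.small D0 hD0
            P := {d | e D0 d ≠ 0 ∧ (G.ι d).1 ∉ cover D0}
            lam := e D0
            O := (F.mem1 D0).erase D0
            M := M
            circ := ?_, small := ?_, sep := ?_, sep0 := ?_, disj0 := ?_, dM0 := ?_, dM := ?_
            bd := ?_, hP := ?_, rep0 := ?_, rep := ?_ }, rfl, rfl, (he D0 h0).2⟩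
  · intro D hD
    exact F.circ D (hmem D (Finset.mem_erase.1 hD).2).1
  · intro D hD
    exact F.small D (hmem D (Finset.mem_erase.1 hD).2).1
  · intro D hD D' hD'
    exact F.sep D (hmem D (Finset.mem_erase.1 hD).2).1 D' (hmem D' (Finset.mem_erase.1 hD').2).1
  · intro D hD d h1 h2
    exact (Finset.mem_erase.1 hD).1
      (F.sep D (hmem D (Finset.mem_erase.1 hD).2).1 D0 hD0 d h1 h2)
  · intro D hD
    exact F.disj (hmem D (Finset.mem_erase.1 hD).2).1 hD0 (Finset.mem_erase.1 hD).1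
  · intro D hD
    exact (hM D hD).1
  · intro D hD
    exact (hM D hD).2.1
  · intro D hD
    exact (hM D hD).2.2.1
  · intro D hD d hd
    exact (hM D hD).2.2.2.1 d hd
  · intro D hD
    exact (hM D hD).2.2.2.2.1
  · intro D hD
    exact (hM D hD).2.2.2.2.2

/-- a member meeting an arc is inside it -/
lemma side_T (c : Chn G b) {D0 : Vec V} (hD0 : D0 ∈ F.F) (hC0 : c.C0 = cover D0)
    (hO : ∀ E ∈ c.O, E ∈ F.F) {E : Vec V} (hE : E ∈ F.F) {j : ℕ} (hj : j + 1 < c.m)
    {v : V} (hv : v ∈ cover E) (hvT : v ∈ c.T j (j + 1)) : cover E ⊆ c.T j (j + 1) := by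
  have hj0 : j < c.m := by omega
  have n0 : Disjoint (cover E) c.C0 := by
    rw [hC0]
    refine F.disj hE hD0 ?_
    rintro rfl
    exact c.T_C0 hj hvT (by rw [hC0]; exact hv)
  have nj : ∀ i, i < c.m → Disjoint (cover E) (c.Ci i) := by
    intro i hi
    refine F.disj hE (hO _ (c.hi hi)) ?_
    rintro rfl
    exact c.T_C hi hj hvT hv
  have hvT' := c.mem_T.1 hvT
  have s1 : cover E ⊆ c.Mi (j + 1) := by
    rcases c.side_M (c.hi hj) (F.circ E hE) n0 (nj _ hj) with h | h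
    · exact h
    · exact absurd hvT'.1 (Finset.disjoint_left.1 h hv)
  have s2 : Disjoint (cover E) (c.Mi j) := by
    rcases c.side_M (c.hi hj0) (F.circ E hE) n0 (nj _ hj0) with h | h
    · exact absurd (h hv) hvT'.2.1
    · exact h
  intro u hu
  rw [c.mem_T]
  exact ⟨s1 hu, Finset.disjoint_left.1 s2 hu, Finset.disjoint_left.1 (nj j hj0) hu⟩

/-- the runs of one class -/
theorem class_runs (ℓ M r : ℕ) (hconn : G.Connected) (hK : K ≤ G.Z) (hX : X ∈ G.Z)
    (hr : (G.zs Set.univ).card ≤ 2 ^ r * Nat.card K) (F : Fam G K X (4 ^ ℓ))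
    (Exc : Finset V) (hExc : Exc.card ≤ M)
    (hnear : ∀ v, v ∉ Exc → ∃ D ∈ F.F, v ∈ (G.N)^[ℓ + 1] (cover D))
    {D0 : Vec V} (hD0 : D0 ∈ F.F) (hX0 : dot (F.β D0) X = 1) :
    ∃ (n : ℕ) (R : Fin n → Run G (4 ^ ℓ) (4 ^ (2 * ℓ + 4))) (Nr : Finset V),
      n ≤ M + 2 ^ r + 1 ∧
      (∀ i, (∀ z ∈ K, dot (R i).lam z = 0) ∧ dot (R i).lam X = 1) ∧
      Nr.card ≤ (2 + (M + 2 ^ r)) * (2 * 4 ^ (2 * ℓ + 1)) ∧
      ∀ E ∈ F.mem1 D0, ∀ v ∈ (G.N)^[ℓ + 1] (cover E), v ∈ Nr ∨ ∃ i, v ∈ (R i).region := by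
  obtain ⟨c0, hC0', hO', hlam'⟩ := F.exists_cls hD0 hX0
  have hlX' : dot c0.lam X = 1 := by rw [hlam' X hX, hX0]
  obtain ⟨c, rfl⟩ := c0.exists_chn hconn hX hlX'
  have hC0 : c.C0 = cover D0 := hC0'
  have hO : c.O = (F.mem1 D0).erase D0 := hO'
  have hlam : ∀ x ∈ G.Z, dot c.lam x = dot (F.β D0) x := hlam'
  have hlX : dot c.lam X = 1 := hlX'
  have hOF : ∀ E ∈ c.O, E ∈ F.F := by
    intro E hE
    rw [hO, Finset.mem_erase] at hE
    have := hE.2
    simp only [mem1, Finset.mem_filter] at this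
    exact this.1
  -- bad indices
  let B1 : Finset ℕ := (range c.m).filter (fun j => j + 1 < c.m ∧ ∃ v ∈ Exc, v ∈ c.T j (j + 1))
  let B2 : Finset ℕ := (range c.m).filter (fun j => j + 1 < c.m ∧
    ∃ E ∈ F.F, ∃ v ∈ cover E, v ∈ c.T j (j + 1))
  have hB1 : B1.card ≤ M := by
    refine le_trans ?_ hExc
    have h1 : ∀ j, ∃ v : V, j ∈ B1 → v ∈ Exc ∧ v ∈ c.T j (j + 1) := by
      intro j
      by_cases h : j ∈ B1
      · obtain ⟨v, hv, hv'⟩ := (Finset.mem_filter.1 h).2.2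
        exact ⟨v, fun _ => ⟨hv, hv'⟩⟩
      · obtain ⟨u, -⟩ := c.ne0
        exact ⟨u, fun h' => absurd h' h⟩
    choose f hf using h1
    refine Finset.card_le_card_of_injOn f (fun j hj => (hf j hj).1) ?_
    intro i hi j hj hij
    by_contra hne
    have a1 := (hf i hi).2
    have a2 := (hf j hj).2
    rw [hij] at a1
    exact c.T_T (Finset.mem_filter.1 hi).2.1 (Finset.mem_filter.1 hj).2.1 hne a1 a2
  have hB2 : B2.card ≤ 2 ^ r := by
    refine le_trans ?_ (G.ann_card hK hr)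
    have h1 : ∀ j, ∃ E : Vec V, j ∈ B2 → E ∈ F.F ∧ cover E ⊆ c.T j (j + 1) := by
      intro j
      by_cases h : j ∈ B2
      · obtain ⟨-, hj, E, hE, v, hv, hv'⟩ := Finset.mem_filter.1 h
        exact ⟨E, fun _ => ⟨hE, F.side_T c hD0 hC0 hOF hE hj hv hv'⟩⟩
      · exact ⟨0, fun h' => absurd h' h⟩
    choose f hf using h1
    refine Finset.card_le_card_of_injOn (fun j => G.cl (F.β (f j)))
      (fun j hj => G.cl_mem_ann (F.βK _ (hf j hj).1)) ?_
    intro i hi j hj hij
    simp only at hij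
    by_contra hne
    have hi1 := (Finset.mem_filter.1 hi).2.1
    have hj1 := (Finset.mem_filter.1 hj).2.1
    obtain ⟨hEi, hTi⟩ := hf i hi
    obtain ⟨hEj, hTj⟩ := hf j hj
    obtain ⟨u, hu⟩ := (F.circ _ hEi).cover_nonempty_rb
    have hne' : f i ≠ f j := by
      intro h
      refine c.T_T hi1 hj1 hne (hTi hu) (hTj ?_)
      rwa [← h]
    by_cases h2 : dot (F.β (f i)) X = 1
    · obtain ⟨w, hw⟩ := c.NI hi1 (β1 := F.β (f i)) (β2 := F.β (f j))
        (fun d hd => hTi (F.βs _ hEi d hd))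
        (fun d hd => by
          have := hTj (F.βs _ hEj d hd)
          exact ⟨fun h => c.T_T hi1 hj1 hne h this, fun h => c.T_C (by omega) hj1 this h,
            fun h => c.T_C hi1 hj1 this h⟩)
        (G.cl_eq_iff.1 hij)
      have h3 := hw X hX
      rw [h2, hlX, mul_one] at h3
      have h4 : f i ∈ F.mem1 D0 := by
        simp only [mem1, Finset.mem_filter]
        refine ⟨hEi, h2, ?_⟩
        rw [G.cl_eq_iff]
        intro x hx
        rw [hw x hx, ← h3, one_mul, hlam x hx]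
      by_cases h5 : f i = D0
      · rw [h5] at hu hTi
        exact c.T_C0 hi1 (hTi hu) (by rw [hC0]; exact hu)
      · obtain ⟨k, hk, hk'⟩ := c.surj (f i) (by rw [hO]; exact Finset.mem_erase.2 ⟨h5, h4⟩)
        refine c.T_C (i := k) hk hi1 (hTi hu) ?_
        simp only [Chn.Ci, hk']
        exact hu
    · exact hne' (F.type2_inj hEi hEj h2 hij)
  let B : Finset ℕ := B1 ∪ B2
  have hB : B.card ≤ M + 2 ^ r := (Finset.card_union_le _ _).trans (add_le_add hB1 hB2)
  have hpair : ∀ i j, i < c.m → j < c.m →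
      ((G.N)^[ℓ + 1] (c.Ci i ∪ c.Ci j)).card ≤ 2 * 4 ^ (2 * ℓ + 1) := by
    intro i j hi hj
    refine (G.iter_card _ _).trans ?_
    have h1 : (c.Ci i ∪ c.Ci j).card ≤ 4 ^ ℓ + 4 ^ ℓ :=
      (Finset.card_union_le _ _).trans (add_le_add (c.small _ (c.hi hi)) (c.small _ (c.hi hj)))
    calc 4 ^ (ℓ + 1) * (c.Ci i ∪ c.Ci j).card ≤ 4 ^ (ℓ + 1) * (4 ^ ℓ + 4 ^ ℓ) :=
          Nat.mul_le_mul_left _ h1
      _ = 2 * 4 ^ (2 * ℓ + 1) := by ring
  have hpair0 : ∀ j, j < c.m →
      ((G.N)^[ℓ + 1] (c.C0 ∪ c.Ci j)).card ≤ 2 * 4 ^ (2 * ℓ + 1) := by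
    intro j hj
    refine (G.iter_card _ _).trans ?_
    have h1 : (c.C0 ∪ c.Ci j).card ≤ 4 ^ ℓ + 4 ^ ℓ :=
      (Finset.card_union_le _ _).trans (add_le_add c.small0 (c.small _ (c.hi hj)))
    calc 4 ^ (ℓ + 1) * (c.C0 ∪ c.Ci j).card ≤ 4 ^ (ℓ + 1) * (4 ^ ℓ + 4 ^ ℓ) :=
          Nat.mul_le_mul_left _ h1
      _ = 2 * 4 ^ (2 * ℓ + 1) := by ring
  have hgood : ∀ j, j + 1 < c.m → j ∉ B →
      (c.Mi (j + 1) \ c.Mi j).card ≤ 4 ^ (2 * ℓ + 4) := by
    intro j hj hjB
    have h1 : c.Mi (j + 1) \ c.Mi j ⊆ (G.N)^[ℓ + 1] (c.Ci j ∪ c.Ci (j + 1)) := by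
      intro v hv
      rw [Finset.mem_sdiff] at hv
      by_cases hvC : v ∈ c.Ci j
      · exact G.subset_iter _ _ (Finset.mem_union_left _ hvC)
      · have hvT : v ∈ c.T j (j + 1) := c.mem_T.2 ⟨hv.1, hv.2, hvC⟩
        have hjr : j ∈ range c.m := Finset.mem_range.2 (by omega)
        have hvE : v ∉ Exc := fun h => hjB (Finset.mem_union_left _
          (Finset.mem_filter.2 ⟨hjr, hj, v, h, hvT⟩))
        obtain ⟨D, hD, hvD⟩ := hnear v hvE
        refine G.lemmaX (S := c.T j (j + 1)) (Q := cover D) ?_ ?_ (ℓ + 1) hvT hvD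
        · intro d h2 h3
          exact Finset.mem_union.2 (c.bdry (Nat.lt_succ_self j) hj d h2 h3)
        · rw [Finset.disjoint_left]
          intro u hu huT
          exact hjB (Finset.mem_union_right _ (Finset.mem_filter.2 ⟨hjr, hj, D, hD, u, hu, huT⟩))
    refine (Finset.card_le_card h1).trans ((hpair j (j + 1) (by omega) hj).trans ?_)
    have : (4 : ℕ) ^ (2 * ℓ + 4) = 64 * 4 ^ (2 * ℓ + 1) := by ring
    rw [this]
    exact Nat.mul_le_mul_right _ (by norm_num)
  obtain ⟨n, R, hn, hRlam, hRcov⟩ := c.exists_runs_chn (S := 4 ^ (2 * ℓ + 4)) B hgood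
  -- the near set
  have hmem : ∀ E ∈ F.mem1 D0, cover E = c.C0 ∨ ∃ i < c.m, cover E = c.Ci i := by
    intro E hE
    by_cases h : E = D0
    · left
      rw [hC0, h]
    · right
      obtain ⟨k, hk, hk'⟩ := c.surj E (by rw [hO]; exact Finset.mem_erase.2 ⟨h, hE⟩)
      exact ⟨k, hk, by simp only [Chn.Ci, hk']⟩
  rcases Nat.eq_zero_or_pos c.m with hm | hm
  · refine ⟨n, R, (G.N)^[ℓ + 1] c.C0, by omega, ?_, ?_, ?_⟩
    · intro i
      rw [hRlam]
      exact ⟨fun z hz => by rw [hlam z (hK hz)]; exact F.βK D0 hD0 z hz, hlX⟩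
    · refine (G.iter_card _ _).trans ?_
      calc 4 ^ (ℓ + 1) * c.C0.card ≤ 4 ^ (ℓ + 1) * 4 ^ ℓ := Nat.mul_le_mul_left _ c.small0
        _ = 4 ^ (2 * ℓ + 1) := by ring
        _ ≤ 1 * (2 * 4 ^ (2 * ℓ + 1)) := by omega
        _ ≤ _ := Nat.mul_le_mul_right _ (by omega)
    · intro E hE v hv
      left
      rcases hmem E hE with h | ⟨i, hi, -⟩
      · rwa [h] at hv
      · omega
  · let Nr : Finset V := ((G.N)^[ℓ + 1] (c.C0 ∪ c.Ci 0) ∪ (G.N)^[ℓ + 1] (c.C0 ∪ c.Ci (c.m - 1))) ∪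
      (B.filter (fun j => j + 1 < c.m)).biUnion
        (fun j => (G.N)^[ℓ + 1] (c.Ci j ∪ c.Ci (j + 1)))
    refine ⟨n, R, Nr, by omega, ?_, ?_, ?_⟩
    · intro i
      rw [hRlam]
      exact ⟨fun z hz => by rw [hlam z (hK hz)]; exact F.βK D0 hD0 z hz, hlX⟩
    · have h1 : ((B.filter (fun j => j + 1 < c.m)).biUnion
          (fun j => (G.N)^[ℓ + 1] (c.Ci j ∪ c.Ci (j + 1)))).card ≤
          (M + 2 ^ r) * (2 * 4 ^ (2 * ℓ + 1)) := by
        refine (Finset.card_biUnion_le_card_mul _ _ (2 * 4 ^ (2 * ℓ + 1)) ?_).trans ?_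
        · intro j hj
          have := (Finset.mem_filter.1 hj).2
          exact hpair j (j + 1) (by omega) this
        · exact Nat.mul_le_mul_right _ ((Finset.card_filter_le _ _).trans hB)
      refine (Finset.card_union_le _ _).trans ?_
      refine (add_le_add (Finset.card_union_le _ _) h1).trans ?_
      have h2 := hpair0 0 hm
      have h3 := hpair0 (c.m - 1) (by omega)
      calc _ ≤ 2 * 4 ^ (2 * ℓ + 1) + 2 * 4 ^ (2 * ℓ + 1)
            + (M + 2 ^ r) * (2 * 4 ^ (2 * ℓ + 1)) := by omega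
        _ = _ := by ring
    · intro E hE v hv
      have hm1 : c.m - 1 < c.m := by omega
      -- the cover of `E` avoids the sets below
      have hQ0 : ∀ u ∈ cover E, u ∉ c.Mi 0 := by
        intro u hu h
        rcases hmem E hE with h1 | ⟨i, hi, h1⟩
        · rw [h1] at hu
          exact c.M0 hm h hu
        · rw [h1] at hu
          exact c.MC hi (c.M_sub (Nat.zero_le i) hi h) hu
      by_cases hv0 : v ∈ c.C0
      · left
        exact Finset.mem_union_left _ (Finset.mem_union_left _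
          (G.subset_iter _ _ (Finset.mem_union_left _ hv0)))
      by_cases hv1 : v ∈ c.Mi 0
      · left
        refine Finset.mem_union_left _ (Finset.mem_union_left _ ?_)
        refine G.lemmaX (S := c.Mi 0) (Q := cover E) ?_ ?_ (ℓ + 1) hv1 hv
        · intro d h2 h3
          exact Finset.mem_union.2 (c.bd' hm d h2 h3)
        · rw [Finset.disjoint_left]
          exact hQ0
      by_cases hv2 : v ∈ c.Mi (c.m - 1)
      · -- between
        have hex : ∃ i, i < c.m ∧ v ∈ c.Mi i := ⟨c.m - 1, hm1, hv2⟩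
        have hk := Nat.find_spec hex
        have hk0 : Nat.find hex ≠ 0 := by
          intro h
          rw [h] at hk
          exact hv1 hk.2
        obtain ⟨j, hj⟩ := Nat.exists_eq_succ_of_ne_zero hk0
        rw [hj] at hk
        have hjn : v ∉ c.Mi j := by
          intro h
          exact Nat.find_min hex (m := j) (by omega) ⟨by have := hk.1; omega, h⟩
        by_cases hjB : j ∈ B
        · left
          refine Finset.mem_union_right _ ?_
          rw [Finset.mem_biUnion]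
          refine ⟨j, Finset.mem_filter.2 ⟨hjB, hk.1⟩, ?_⟩
          by_cases hvC : v ∈ c.Ci j
          · exact G.subset_iter _ _ (Finset.mem_union_left _ hvC)
          · have hvT : v ∈ c.T j (j + 1) := c.mem_T.2 ⟨hk.2, hjn, hvC⟩
            refine G.lemmaX (S := c.T j (j + 1)) (Q := cover E) ?_ ?_ (ℓ + 1) hvT hv
            · intro d h2 h3
              exact Finset.mem_union.2 (c.bdry (Nat.lt_succ_self j) hk.1 d h2 h3)
            · rw [Finset.disjoint_left]
              intro u hu huT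
              rcases hmem E hE with h1 | ⟨i, hi, h1⟩
              · rw [h1] at hu
                exact c.T_C0 hk.1 huT hu
              · rw [h1] at hu
                exact c.T_C hi hk.1 huT hu
        · right
          exact hRcov j hk.1 hjB v (Finset.mem_sdiff.2 ⟨hk.2, hjn⟩)
      · left
        refine Finset.mem_union_left _ (Finset.mem_union_right _ ?_)
        by_cases hvC : v ∈ c.Ci (c.m - 1)
        · exact G.subset_iter _ _ (Finset.mem_union_right _ hvC)
        · refine G.lemmaX (S := univ \ (c.Mi (c.m - 1) ∪ c.Ci (c.m - 1) ∪ c.C0))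
            (Q := cover E) ?_ ?_ (ℓ + 1) ?_ hv
          · intro d h2 h3
            simp only [Finset.mem_sdiff, Finset.mem_univ, true_and, Finset.mem_union, not_or,
              not_and, not_not] at h2 h3
            rw [Finset.mem_union]
            by_cases h4 : (G.ι d).1 ∈ c.Mi (c.m - 1)
            · exfalso
              rcases c.bd'' hm1 d h2.1.1 h4 with h5 | h5
              · exact h2.2 h5
              · exact h2.1.2 h5
            · by_cases h5 : (G.ι d).1 ∈ c.Ci (c.m - 1)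
              · exact Or.inr h5
              · exact Or.inl (h3 ⟨h4, h5⟩)
          · rw [Finset.disjoint_left]
            intro u hu huS
            simp only [Finset.mem_sdiff, Finset.mem_univ, true_and, Finset.mem_union, not_or]
              at huS
            rcases hmem E hE with h1 | ⟨i, hi, h1⟩
            · rw [h1] at hu
              exact huS.2 hu
            · rw [h1] at hu
              by_cases h6 : i = c.m - 1
              · rw [h6] at hu
                exact huS.1.2 hu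
              · exact huS.1.1 (c.C_sub (by omega) hm1 hu)
          · simp only [Finset.mem_sdiff, Finset.mem_univ, true_and, Finset.mem_union, not_or]
            exact ⟨⟨hv2, hvC⟩, hv0⟩

end Fam

end Pool.Agent.LibMP58b56d
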