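import Mathlib
import Pool.Agent.LibMP58b56d.Interface
import Pool.Agent.LibMP58b56d.RunsE

set_option autoImplicit false

open Finset Classical

namespace Pool.Agent.LibMP58b56d

/-- piece size bound -/
def pieceBound (ℓ : ℕ) : ℕ := 4 ^ (2 * ℓ + 4)

/-- task B2 -/
theorem exists_runs (ℓ M r : ℕ) : ∃ L0 CL : ℕ, ∀ (V : Type) [Fintype V] (G : Cub V),
    G.Connected → ∀ (K : Submodule (ZMod 2) (Vec V)) (X : Vec V), K ≤ G.Z → X ∈ G.Z →
    (G.zs Set.univ).card ≤ 2 ^ r * Nat.card K →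
    (univ.filter (fun v => ¬ ∃ D, G.IsCirc D ∧ cover D ⊆ (G.N)^[ℓ] {v})).card ≤ M →
    Obstructed G K X (4 ^ ℓ) →
    ∃ (n : ℕ) (R : Fin n → Run G (4 ^ ℓ) (pieceBound ℓ)), n ≤ L0 ∧
      (∀ i, (∀ z ∈ K, dot (R i).lam z = 0) ∧ dot (R i).lam X = 1) ∧
      (univ.filter (fun v => ∀ i, v ∉ (R i).region)).card ≤ CL := by
  refine ⟨2 ^ r * (M + 2 ^ r + 1), M + 2 ^ r * 4 ^ (2 * ℓ + 1) +
    2 ^ r * ((2 + (M + 2 ^ r)) * (2 * 4 ^ (2 * ℓ + 1))), ?_⟩
  intro V _ G hconn K X hK hX hr hM hobs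
  obtain ⟨F, hF⟩ := exists_fam G K X ℓ hobs
  set Exc : Finset V := univ.filter (fun v => ¬ ∃ D, G.IsCirc D ∧ cover D ⊆ (G.N)^[ℓ] {v})
    with hExc
  have hnear : ∀ v, v ∉ Exc → ∃ D ∈ F.F, v ∈ (G.N)^[ℓ + 1] (cover D) := by
    intro v hv
    apply hF
    by_contra h
    exact hv (Finset.mem_filter.2 ⟨mem_univ _, h⟩)
  -- classes
  let F1 : Finset (Vec V) := F.F.filter (fun D => dot (F.β D) X = 1)
  let F2 : Finset (Vec V) := F.F.filter (fun D => ¬ dot (F.β D) X = 1)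
  let Cs : Finset (G.Z →ₗ[ZMod 2] ZMod 2) := F1.image (fun D => G.cl (F.β D))
  have hCs : Cs.card ≤ 2 ^ r := by
    refine (Finset.card_le_card ?_).trans (G.ann_card hK hr)
    intro f hf
    obtain ⟨D, hD, rfl⟩ := Finset.mem_image.1 hf
    exact G.cl_mem_ann (F.βK D (Finset.mem_filter.1 hD).1)
  have hF2 : F2.card ≤ 2 ^ r := by
    refine le_trans ?_ (G.ann_card hK hr)
    refine Finset.card_le_card_of_injOn (fun D => G.cl (F.β D))
      (fun D hD => G.cl_mem_ann (F.βK D (Finset.mem_filter.1 hD).1)) ?_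
    intro D hD D' hD' h
    exact F.type2_inj (Finset.mem_filter.1 hD).1 (Finset.mem_filter.1 hD').1
      (Finset.mem_filter.1 hD).2 h
  have hbase : ∀ f : Cs, ∃ D0 ∈ F1, G.cl (F.β D0) = f.1 := by
    intro f
    obtain ⟨D, hD, h⟩ := Finset.mem_image.1 f.2
    exact ⟨D, hD, h⟩
  choose D0 hD0 hD0' using hbase
  have hruns := fun f : Cs => F.class_runs ℓ M r hconn hK hX hr Exc hM hnear
    (Finset.mem_filter.1 (hD0 f)).1 (Finset.mem_filter.1 (hD0 f)).2
  choose n R Nr hn hR hNr hcov using hruns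
  let I : Type := Σ f : Cs, Fin (n f)
  have hI : Fintype.card I ≤ 2 ^ r * (M + 2 ^ r + 1) := by
    rw [Fintype.card_sigma]
    simp only [Fintype.card_fin]
    calc ∑ f : Cs, n f ≤ ∑ _f : Cs, (M + 2 ^ r + 1) := Finset.sum_le_sum fun f _ => hn f
      _ = Cs.card * (M + 2 ^ r + 1) := by
          rw [Finset.sum_const, Finset.card_univ, Fintype.card_coe, smul_eq_mul]
      _ ≤ _ := Nat.mul_le_mul_right _ hCs
  let e := Fintype.equivFin I
  refine ⟨Fintype.card I, fun i => R (e.symm i).1 (e.symm i).2, hI,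
    fun i => hR (e.symm i).1 (e.symm i).2, ?_⟩
  have hsub : (univ.filter (fun v => ∀ i, v ∉ (R (e.symm i).1 (e.symm i).2).region)) ⊆
      (Exc ∪ F2.biUnion (fun D => (G.N)^[ℓ + 1] (cover D))) ∪
        (univ : Finset Cs).biUnion (fun f => Nr f) := by
    intro v hv
    simp only [Finset.mem_filter, Finset.mem_univ, true_and] at hv
    by_cases h0 : v ∈ Exc
    · exact Finset.mem_union_left _ (Finset.mem_union_left _ h0)
    obtain ⟨D, hD, hvD⟩ := hnear v h0
    by_cases h1 : dot (F.β D) X = 1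
    · have hDF1 : D ∈ F1 := Finset.mem_filter.2 ⟨hD, h1⟩
      let f : Cs := ⟨G.cl (F.β D), Finset.mem_image_of_mem _ hDF1⟩
      have hDm : D ∈ F.mem1 (D0 f) := by
        simp only [Fam.mem1, Finset.mem_filter]
        exact ⟨hD, h1, (hD0' f).symm⟩
      rcases hcov f D hDm v hvD with h2 | ⟨i, hi⟩
      · exact Finset.mem_union_right _ (Finset.mem_biUnion.2 ⟨f, mem_univ _, h2⟩)
      · exfalso
        have h3 := hv (e ⟨f, i⟩)
        rw [Equiv.symm_apply_apply] at h3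
        exact h3 hi
    · refine Finset.mem_union_left _ (Finset.mem_union_right _ ?_)
      exact Finset.mem_biUnion.2 ⟨D, Finset.mem_filter.2 ⟨hD, h1⟩, hvD⟩
  refine (Finset.card_le_card hsub).trans ?_
  refine (Finset.card_union_le _ _).trans (add_le_add ((Finset.card_union_le _ _).trans
    (add_le_add hM ?_)) ?_)
  · refine (Finset.card_biUnion_le_card_mul _ _ (4 ^ (2 * ℓ + 1)) ?_).trans
      (Nat.mul_le_mul_right _ hF2)
    intro D hD
    refine (G.iter_card _ _).trans ?_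
    calc 4 ^ (ℓ + 1) * (cover D).card ≤ 4 ^ (ℓ + 1) * 4 ^ ℓ :=
          Nat.mul_le_mul_left _ (F.small D (Finset.mem_filter.1 hD).1)
      _ = 4 ^ (2 * ℓ + 1) := by ring
  · refine (Finset.card_biUnion_le_card_mul _ _ _ (fun f _ => hNr f)).trans ?_
    rw [Finset.card_univ, Fintype.card_coe]
    exact Nat.mul_le_mul_right _ hCs

end Pool.Agent.LibMP58b56d
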