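import Mathlib
import Pool.Agent.LibMP58b56d.Interface
import Pool.Agent.LibMP58b56d.GoodCoset
import Pool.Agent.LibMP58b56d.Runs
import Pool.Agent.LibMP58b56d.LemmaE
import Pool.Agent.LibMP58b56d.Levels

set_option autoImplicit false

open Finset Classical

namespace Pool.Agent.LibMP58b56d

section final

lemma fin_natCard_Z {V : Type} [Fintype V] (G : Cub V) : (G.zs Set.univ).card = Nat.card G.Z := by
  rw [← Cub.ZH_univ, Nat.card_eq_fintype_card, Fintype.card_subtype]
  rfl

/-- the circuits of a datum -/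
lemma Datum.fin_circs_card {C Δ n : ℕ} (D : Datum C Δ n) (hn : 3 ≤ n) :
    n ≤ D.G.circs.card + 2 := by
  have h1 : (Finset.Icc 3 n).card ≤ D.G.circs.card := by
    refine Finset.card_le_card_of_injOn D.ω ?_ ?_
    · intro k hk
      have hk' := Finset.mem_Icc.1 (Finset.mem_coe.1 hk)
      have := D.circ k hk'.1 hk'.2
      simp only [Cub.circs, Finset.coe_filter, Finset.mem_univ, true_and, Set.mem_ofPred_eq]
      exact this
    · intro k hk k' hk' hkk
      have hk1 := Finset.mem_Icc.1 (Finset.mem_coe.1 hk)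
      have hk2 := Finset.mem_Icc.1 (Finset.mem_coe.1 hk')
      have e1 := D.len k hk1.1 hk1.2
      have e2 := D.len k' hk2.1 hk2.2
      rw [hkk, e2] at e1
      omega
  rw [Nat.card_Icc] at h1
  omega

lemma Datum.fin_density {C Δ n : ℕ} (D : Datum C Δ n) (hn : 3 ≤ n) (hC : 0 < C) :
    (1 / (3 * (C : ℝ))) * (D.G.zs Set.univ).card ≤ (D.G.circs.card : ℝ) := by
  have h1 : ((n : ℕ) : ℝ) ≤ (D.G.circs.card : ℝ) + 2 := by
    exact_mod_cast D.fin_circs_card hn
  have h2 : ((D.G.zs Set.univ).card : ℝ) ≤ C * n := by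
    exact_mod_cast D.card
  have h3 : (3 : ℝ) ≤ n := by exact_mod_cast hn
  have hC' : (0 : ℝ) < C := by exact_mod_cast hC
  have h4 : (1 / (3 * (C : ℝ))) * (D.G.zs Set.univ).card ≤ n / 3 := by
    rw [div_mul_eq_mul_div, one_mul, div_le_div_iff₀ (by positivity) (by norm_num)]
    nlinarith
  have h5 : (n : ℝ) / 3 ≤ n - 2 := by linarith
  linarith

lemma Cub.fin_circs_sub_zs {V : Type} [Fintype V] (G : Cub V) : G.circs ⊆ G.zs Set.univ := by
  intro x hx
  simp only [Cub.circs, Cub.zs, Finset.mem_filter, Finset.mem_univ, true_and] at hx ⊢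
  rw [Cub.ZH_univ]
  exact hx.1

/-- B1 and B2 combined -/
theorem fin_runs_of_density (hTL : TLStatement) (c : ℝ) (hc : 0 < c) :
    ∃ (b S r L0 CL n2 : ℕ), ∀ (V : Type) [Fintype V] (G : Cub V),
      G.Connected → G.Bridgeless → c * (G.zs Set.univ).card ≤ (G.circs.card : ℝ) →
      n2 ≤ (G.zs Set.univ).card →
      ∃ (K : Submodule (ZMod 2) (Vec V)) (X : Vec V), K ≤ G.Z ∧ X ∈ G.Z ∧
        (G.zs Set.univ).card ≤ 2 ^ r * Nat.card K ∧ Obstructed G K X (100 * (b + 1) * (S + 1)) ∧
        ∃ (n : ℕ) (R : Fin n → Run G b S), n ≤ L0 ∧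
          (∀ i, (∀ z ∈ K, dot (R i).lam z = 0) ∧ dot (R i).lam X = 1) ∧
          (univ.filter (fun v => ∀ i, v ∉ (R i).region)).card ≤ CL := by
  obtain ⟨ℓ, M, hℓ⟩ := hTL c hc
  obtain ⟨r, hr⟩ := exists_goodCoset c hc
    (3 * (4 ^ ℓ + 100 * (4 ^ ℓ + 1) * (pieceBound ℓ + 1)))
  obtain ⟨L0, CL, hL⟩ := exists_runs ℓ M r
  obtain ⟨n2, hn2⟩ := exists_nat_gt
    (2 * 2 ^ (3 * (4 ^ ℓ + 100 * (4 ^ ℓ + 1) * (pieceBound ℓ + 1))) * 2 ^ r / c)
  refine ⟨4 ^ ℓ, pieceBound ℓ, r, L0, CL, n2, fun V _ G hconn hbr hdens hbig => ?_⟩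
  obtain ⟨X, hX, K, hK, hcard, hgood⟩ := hr (Vec V) G.circs G.Z
    (fun y hy => by
      have := G.fin_circs_sub_zs hy
      simp only [Cub.zs, Finset.mem_filter, Finset.mem_univ, true_and] at this
      rw [Cub.ZH_univ] at this
      exact this) (by rw [← fin_natCard_Z]; exact hdens)
  have hcard' : (G.zs Set.univ).card ≤ 2 ^ r * Nat.card K := by
    rw [fin_natCard_Z]; exact hcard
  have hbig' : 2 * 2 ^ (3 * (4 ^ ℓ + 100 * (4 ^ ℓ + 1) * (pieceBound ℓ + 1))) <
      c * (Nat.card K : ℝ) := by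
    have h1 : (n2 : ℝ) ≤ 2 ^ r * (Nat.card K : ℝ) := by
      exact_mod_cast hbig.trans hcard'
    rw [div_lt_iff₀ hc] at hn2
    have h2 : (0 : ℝ) < 2 ^ r := by positivity
    have h3 : (2 * 2 ^ (3 * (4 ^ ℓ + 100 * (4 ^ ℓ + 1) * (pieceBound ℓ + 1))) : ℝ) * 2 ^ r <
        (c * (Nat.card K : ℝ)) * 2 ^ r := by
      calc _ < (n2 : ℝ) * c := hn2
        _ ≤ (2 ^ r * (Nat.card K : ℝ)) * c := by
          exact mul_le_mul_of_nonneg_right h1 hc.le
        _ = _ := by ring
    exact lt_of_mul_lt_mul_right h3 h2.le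
  have hob : ∀ s, s ≤ 4 ^ ℓ + 100 * (4 ^ ℓ + 1) * (pieceBound ℓ + 1) → Obstructed G K X s :=
    fun s hs => obstructed_of_goodCoset G c hc _ X K hX hK hgood hbig' s (by omega)
  obtain ⟨n, R, hn, hR, hcov⟩ := hL V G hconn K X hK hX hcard' (hℓ V G hconn hbr hdens)
    (hob _ (Nat.le_add_right _ _))
  exact ⟨K, X, hK, hX, hcard', hob _ (Nat.le_add_left _ _), n, R, hn, hR, hcov⟩

/-- pigeonhole along a chain of subspaces -/
lemma fin_chain {E : Type} [AddCommGroup E] [Module (ZMod 2) E] [Finite E]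
    (Z K : Submodule (ZMod 2) E) (hK : K ≤ Z) (r : ℕ)
    (hr : Nat.card Z ≤ 2 ^ r * Nat.card K) (W : ℕ → Submodule (ZMod 2) E)
    (hW : Monotone W) (hWZ : ∀ s, W s ≤ Z) : ∃ s ≤ r, K ⊔ W s = K ⊔ W (s + 1) := by
  by_contra hcon
  push Not at hcon
  have h1 : ∀ s, s ≤ r + 1 → Module.finrank (ZMod 2) K + s ≤
      Module.finrank (ZMod 2) (K ⊔ W s : Submodule (ZMod 2) E) := by
    intro s
    induction s with
    | zero =>
      intro _
      exact Submodule.finrank_mono le_sup_left
    | succ s ih =>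
      intro hs
      have h2 := ih (by omega)
      have h3 : K ⊔ W s < K ⊔ W (s + 1) :=
        lt_of_le_of_ne (sup_le_sup_left (hW (Nat.le_succ s)) K) (hcon s (by omega))
      have h4 := Submodule.finrank_lt_finrank_of_lt h3
      omega
  have h5 := h1 (r + 1) le_rfl
  have h6 : Module.finrank (ZMod 2) (K ⊔ W (r + 1) : Submodule (ZMod 2) E) ≤
      Module.finrank (ZMod 2) Z := Submodule.finrank_mono (sup_le hK (hWZ _))
  rw [Module.natCard_eq_pow_finrank (K := ZMod 2) (V := Z),
    Module.natCard_eq_pow_finrank (K := ZMod 2) (V := K)] at hr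
  have h7 : Nat.card (ZMod 2) = 2 := by simp
  rw [h7, ← pow_add] at hr
  have h8 := (Nat.pow_le_pow_iff_right (by norm_num : 1 < 2)).1 hr
  omega

section run

variable {V : Type} [Fintype V] {G : Cub V} {b S : ℕ}

lemma Run.fin_M_mono (R : Run G b S) {i j : ℕ} (hij : i < j) (hj : j < R.N) :
    R.M i ∪ cover (R.D i) ⊆ R.M j := by
  induction j with
  | zero => omega
  | succ j ih =>
    rcases Nat.lt_or_ge i j with h | h
    · exact (ih h (by omega)).trans
        (Finset.subset_union_left.trans (R.nest j hj))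
    · have : i = j := by omega
      subst this
      exact R.nest i hj

lemma Run.fin_region_le (R : Run G b S) : R.region.card ≤ R.N * S := by
  have h1 : ∀ k, k < R.N → (R.M k \ R.M 0).card ≤ k * S := by
    intro k
    induction k with
    | zero => intro _; simp
    | succ k ih =>
      intro hk
      have h2 : R.M (k + 1) \ R.M 0 ⊆ (R.M (k + 1) \ R.M k) ∪ (R.M k \ R.M 0) := by
        intro v hv
        simp only [Finset.mem_sdiff, Finset.mem_union] at hv ⊢
        by_cases h : v ∈ R.M k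
        · right; exact ⟨h, hv.2⟩
        · left; exact ⟨hv.1, h⟩
      have h3 := (Finset.card_le_card h2).trans (Finset.card_union_le _ _)
      have h4 := ih (by omega)
      have h5 := R.piece k hk
      rw [Nat.succ_mul]
      omega
  rcases Nat.eq_zero_or_pos R.N with h | h
  · unfold Run.region
    rw [h]
    simp
  · have := h1 (R.N - 1) (by omega)
    unfold Run.region
    exact this.trans (Nat.mul_le_mul_right _ (by omega))

lemma Run.fin_N_le (R : Run G b S) {z : Vec V} (hz : z ∈ G.Z) (hl : dot R.lam z ≠ 0)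
    {T : Finset V} (hT : ∀ d, z d ≠ 0 → d.1 ∈ T) : R.N ≤ T.card := by
  have h1 : ∀ i, i < R.N → ∃ v ∈ T, v ∈ cover (R.D i) := by
    intro i hi
    have h2 := R.repm i hi z hz
    rw [← h2] at hl
    obtain ⟨d, hd, hd'⟩ := Finset.exists_ne_zero_of_sum_ne_zero hl
    simp only [Finset.mem_filter, Finset.mem_univ, true_and] at hd
    exact ⟨d.1, hT d hd', hd.1⟩
  rcases Nat.eq_zero_or_pos R.N with h0 | h0
  · rw [h0]
    exact Nat.zero_le _
  have : Nonempty V := ⟨(h1 0 h0).choose⟩
  choose! f hf hf' using h1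
  have h3 : (Finset.range R.N).card ≤ T.card := by
    refine Finset.card_le_card_of_injOn f ?_ ?_
    · intro i hi
      exact hf i (Finset.mem_range.1 (Finset.mem_coe.1 hi))
    · have key : ∀ i j, i < j → j < R.N → f i ≠ f j := by
        intro i j hij hj heq
        have h4 := hf' i (hij.trans hj)
        have h5 := hf' j hj
        have h6 : f i ∈ R.M j := R.fin_M_mono hij hj (Finset.mem_union_right _ h4)
        rw [heq] at h6
        exact Finset.disjoint_left.1 (R.disj j hj) h6 h5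
      intro i hi j hj heq
      have hi' := Finset.mem_range.1 (Finset.mem_coe.1 hi)
      have hj' := Finset.mem_range.1 (Finset.mem_coe.1 hj)
      rcases lt_trichotomy i j with h | h | h
      · exact absurd heq (key i j h hj')
      · exact h
      · exact absurd heq.symm (key j i h hi')
  simpa using h3

end run

/-- the tower of levels -/
noncomputable def finTow (a CL L0 Δ S n0 : ℕ) : ℕ → ℕ
  | 0 => a
  | s + 1 => 3 * (CL + L0 * (Δ * (2 ^ (finTow a CL L0 Δ S n0 s) + 2 * finTow a CL L0 Δ S n0 s) * S + n0))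
      + a + 1 + finTow a CL L0 Δ S n0 s

lemma finTow_mono (a CL L0 Δ S n0 : ℕ) : Monotone (finTow a CL L0 Δ S n0) := by
  refine monotone_nat_of_le_succ fun s => ?_
  change _ ≤ _ + finTow a CL L0 Δ S n0 s
  omega

lemma le_finTow (a CL L0 Δ S n0 s : ℕ) : a ≤ finTow a CL L0 Δ S n0 s :=
  finTow_mono a CL L0 Δ S n0 (Nat.zero_le s)

end final

/-- task B4b -/
theorem no_datum (hTL : TLStatement) (C Δ : ℕ) : ∃ n0 : ℕ, ∀ n, n0 ≤ n → Datum C Δ n → False := by
  rcases Nat.eq_zero_or_pos C with hC | hC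
  · subst hC
    refine ⟨0, fun n _ D => ?_⟩
    have h1 := D.card
    rw [zero_mul, Nat.le_zero, Finset.card_eq_zero] at h1
    have h2 : (0 : Vec (Fin D.m)) ∈ D.G.zs Set.univ := by
      simp [Cub.zs]
    rw [h1] at h2
    exact absurd h2 (Finset.notMem_empty _)
  have hC' : (0 : ℝ) < C := by exact_mod_cast hC
  obtain ⟨b, S, r, L0, CL, n2, hruns⟩ := fin_runs_of_density hTL (1 / (3 * (C : ℝ))) (by positivity)
  obtain ⟨c', a, hc', hlev⟩ := levels C Δ
  obtain ⟨nE, hE⟩ := lemmaE b S r c' hc'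
  obtain ⟨n1, hn1⟩ := hlev (finTow a CL L0 Δ S nE (r + 1))
  refine ⟨n1 + n2 + 5, fun n hn D => ?_⟩
  obtain ⟨B, hBmono, hBinv, hBbr, hBdens, hBcard, hB3⟩ := hn1 n (by omega) D
  have hcirc := D.fin_circs_card (by omega)
  have hzs : n2 ≤ (D.G.zs Set.univ).card := by
    have := Finset.card_le_card D.G.fin_circs_sub_zs
    omega
  obtain ⟨K, X, hK, hX, hcard, hobs, N, R, hN, hR, hcov⟩ :=
    hruns (Fin D.m) D.G D.conn D.brless (D.fin_density (by omega) hC) hzs
  -- pigeonhole
  obtain ⟨s, hs, hsup⟩ := fin_chain D.G.Z K hK r (by rw [← fin_natCard_Z]; exact hcard)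
    (fun s => D.G.ZH (B (finTow a CL L0 Δ S nE s)))
    (fun s t hst => Cub.ZH_mono (hBmono (finTow_mono a CL L0 Δ S nE hst)))
    (fun s x hx => hx.1)
  set j := finTow a CL L0 Δ S nE s with hj
  set j' := finTow a CL L0 Δ S nE (s + 1) with hj'
  have hja : a ≤ j := le_finTow a CL L0 Δ S nE s
  have hja' : a ≤ j' := le_finTow a CL L0 Δ S nE (s + 1)
  have hjJ' : j' ≤ finTow a CL L0 Δ S nE (r + 1) := finTow_mono a CL L0 Δ S nE (by omega)
  have hj'eq : j' = 3 * (CL + L0 * (Δ * (2 ^ j + 2 * j) * S + nE)) + a + 1 + j := rfl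
  -- each run contains few branch vertices
  have hone : ∀ i : Fin N, ((R i).region.filter (fun v => ∀ k, (v, k) ∈ B j')).card ≤
      Δ * (2 ^ j + 2 * j) * S + nE := by
    intro i
    by_cases h0 : ∀ z ∈ D.G.ZH (B j'), dot (R i).lam z = 0
    · have := hE (Fin D.m) D.G (R i) K X hK hX hcard (hR i).1 (hR i).2 hobs (B j') (hBinv j')
        (hBbr j') h0 (hBdens j' hja' hjJ')
      omega
    · -- the functional does not vanish on the smaller level either
      have h1 : ∃ z ∈ D.G.ZH (B j), dot (R i).lam z ≠ 0 := by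
        by_contra hcon
        push Not at hcon
        apply h0
        intro z hz
        have hz' : z ∈ K ⊔ D.G.ZH (B j) := by
          rw [hsup]
          exact Submodule.mem_sup_right hz
        obtain ⟨x, hx, y, hy, rfl⟩ := Submodule.mem_sup.1 hz'
        rw [dot_add, (hR i).1 x hx, hcon y hy, add_zero]
      obtain ⟨z, hz, hzl⟩ := h1
      have h2 := (R i).fin_N_le (T := univ.filter (fun v => ∃ k, (v, k) ∈ B j)) hz.1 hzl (by
        intro d hd
        simp only [Finset.mem_filter, Finset.mem_univ, true_and]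
        refine ⟨d.2, ?_⟩
        by_contra hcon
        exact hd (hz.2 d hcon))
      have h3 := h2.trans (hBcard j)
      have h4 := (R i).fin_region_le
      have h5 : ((R i).region.filter (fun v => ∀ k, (v, k) ∈ B j')).card ≤ (R i).region.card :=
        Finset.card_filter_le _ _
      have h6 : (R i).N * S ≤ Δ * (2 ^ j + 2 * j) * S := Nat.mul_le_mul_right _ h3
      omega
  -- count the branch vertices
  have hsub : univ.filter (fun v => ∀ k, (v, k) ∈ B j') ⊆
      univ.filter (fun v => ∀ i, v ∉ (R i).region) ∪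
        (univ : Finset (Fin N)).biUnion
          (fun i => (R i).region.filter (fun v => ∀ k, (v, k) ∈ B j')) := by
    intro v hv
    simp only [Finset.mem_filter, Finset.mem_univ, true_and, Finset.mem_union,
      Finset.mem_biUnion] at hv ⊢
    by_cases h : ∀ i, v ∉ (R i).region
    · exact Or.inl h
    · push Not at h
      obtain ⟨i, hi⟩ := h
      exact Or.inr ⟨i, hi, hv⟩
  have hcount := (Finset.card_le_card hsub).trans (Finset.card_union_le _ _)
  have hbi : ((univ : Finset (Fin N)).biUnion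
      (fun i => (R i).region.filter (fun v => ∀ k, (v, k) ∈ B j'))).card ≤
      N * (Δ * (2 ^ j + 2 * j) * S + nE) := by
    have := Finset.card_biUnion_le_card_mul (univ : Finset (Fin N))
      (fun i => (R i).region.filter (fun v => ∀ k, (v, k) ∈ B j'))
      (Δ * (2 ^ j + 2 * j) * S + nE) (fun i _ => hone i)
    simpa using this
  have hNL : N * (Δ * (2 ^ j + 2 * j) * S + nE) ≤ L0 * (Δ * (2 ^ j + 2 * j) * S + nE) :=
    Nat.mul_le_mul_right _ hN
  have hfin := hB3 j' hja' hjJ'
  have hcov' : (univ.filter (fun v => ∀ i, v ∉ (R i).region)).card ≤ CL := by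
    convert hcov
  generalize L0 * (Δ * (2 ^ j + 2 * j) * S + nE) = Q at *
  generalize N * (Δ * (2 ^ j + 2 * j) * S + nE) = Q' at *
  omega

end Pool.Agent.LibMP58b56d
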