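import Mathlib
import Pool.Agent.LibMP58b56d.Interface

/-!
# Task C, part A: the cubic multigraph of a Hamiltonian cycle with chords
-/

set_option autoImplicit false

open Finset Classical

namespace Pool.Agent.LibMP58b56d

/-- a graph on `Fin (N + 3)` containing the Hamiltonian cycle `0, 1, 2, …`, with its sorted chord
ends -/
structure Chd {N : ℕ} (G : SimpleGraph (Fin (N + 3))) (m : ℕ) where
  pos : Fin (m + 1) → Fin (N + 3)
  σ : Fin (m + 1) → Fin (m + 1)
  σσ : ∀ i, σ (σ i) = i
  mono : Monotone pos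
  adj : ∀ i, G.Adj (pos i) (pos (σ i))
  nham : ∀ i, pos (σ i) ≠ pos i + 1
  nham' : ∀ i, pos (σ i) ≠ pos i - 1
  uniq : ∀ i j, pos i = pos j → pos (σ i) = pos (σ j) → i = j
  ham : ∀ a, G.Adj a (a + 1)
  ex : ∀ a b, G.Adj a b → b ≠ a + 1 → b ≠ a - 1 → ∃ i, pos i = a ∧ pos (σ i) = b

lemma fin_add_sub {m : ℕ} (i : Fin (m + 1)) : i + 1 - 1 = i := by
  simp

lemma fin_sub_add {m : ℕ} (i : Fin (m + 1)) : i - 1 + 1 = i := by
  simp

lemma fin_add_one_ne_sub_one {N : ℕ} (a : Fin (N + 3)) : a + 1 ≠ a - 1 := by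
  intro h
  have h1 := congrArg Fin.val h
  rw [Fin.val_add_one, Fin.coe_sub_one] at h1
  have ha := a.isLt
  by_cases h2 : a = Fin.last (N + 2)
  · have h3 : a ≠ 0 := by
      intro h4
      rw [h4] at h2
      have := congrArg Fin.val h2
      simp at this
    rw [if_pos h2, if_neg h3, h2] at h1
    simp at h1
  · rw [if_neg h2] at h1
    by_cases h3 : a = 0
    · rw [if_pos h3, h3] at h1
      simp at h1
    · rw [if_neg h3] at h1
      omega

lemma fin_sub_one_lt {m : ℕ} {i : Fin (m + 1)} (h : i ≠ 0) : (i - 1).val + 1 = i.val := by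
  rw [Fin.coe_sub_one, if_neg h]
  have : i.val ≠ 0 := fun h1 => h (Fin.ext h1)
  omega

lemma iic_sub_one {m : ℕ} {i : Fin (m + 1)} (h : i ≠ 0) : Iic (i - 1) = Iio i := by
  ext j
  rw [mem_Iic, mem_Iio, Fin.le_def, Fin.lt_def]
  have := fin_sub_one_lt h
  omega

namespace Chd

variable {N : ℕ} {G : SimpleGraph (Fin (N + 3))} {m : ℕ} (D : Chd G m)

lemma σne (i : Fin (m + 1)) : D.σ i ≠ i := by
  intro h
  have := D.adj i
  rw [h] at this
  exact G.irrefl this

/-- the cubic multigraph -/
def cub : Cub (Fin (m + 1)) where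
  ι d := if d.2 = 0 then (d.1 + 1, 1) else if d.2 = 1 then (d.1 - 1, 0) else (D.σ d.1, 2)
  inv := by
    rintro ⟨i, s⟩
    fin_cases s <;> simp [D.σσ]
  nofix := by
    rintro ⟨i, s⟩
    fin_cases s <;> simp [D.σne]

lemma ι0 (i : Fin (m + 1)) : D.cub.ι (i, 0) = (i + 1, 1) := by
  simp [cub]

lemma ι1 (i : Fin (m + 1)) : D.cub.ι (i, 1) = (i - 1, 0) := by
  simp [cub]

lemma ι2 (i : Fin (m + 1)) : D.cub.ι (i, 2) = (D.σ i, 2) := by
  simp [cub]

lemma connected : D.cub.Connected := by
  intro U hU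
  by_cases h : U = ∅
  · exact Or.inl h
  right
  obtain ⟨i0, hi0⟩ := Finset.nonempty_iff_ne_empty.2 h
  have h1 : ∀ i, i ∈ U → i + 1 ∈ U := fun i hi => by
    have := hU (i, 0) hi
    rwa [D.ι0] at this
  have h2 : ∀ k : ℕ, ∀ i, i ∈ U → ∀ j : Fin (m + 1), j.val = i.val + k → j ∈ U := by
    intro k
    induction k with
    | zero =>
      intro i hi j hj
      have : j = i := Fin.ext (by omega)
      rw [this]; exact hi
    | succ k ih =>
      intro i hi j hj
      have hj0 : j ≠ 0 := by
        intro h3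
        rw [h3] at hj
        simp at hj
      have h4 := fin_sub_one_lt hj0
      have h5 := h1 _ (ih i hi (j - 1) (by omega))
      rwa [fin_sub_add] at h5
  have h3 : Fin.last m ∈ U := h2 (m - i0.val) i0 hi0 _ (by
    have := i0.isLt
    rw [Fin.val_last]
    omega)
  have h4 : (0 : Fin (m + 1)) ∈ U := by
    have := h1 _ h3
    rwa [Fin.last_add_one] at this
  rw [Finset.eq_univ_iff_forall]
  intro j
  exact h2 j.val 0 h4 j (by simp)

/-- lift of a symmetric chord function and a bit -/
def lift (c : Fin (m + 1) → ZMod 2) (e0 : ZMod 2) : Vec (Fin (m + 1)) := fun d =>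
  if d.2 = 0 then e0 + ∑ i ∈ Iic d.1, c i
  else if d.2 = 1 then e0 + ∑ i ∈ Iio d.1, c i else c d.1

lemma lift0 (c : Fin (m + 1) → ZMod 2) (e0 : ZMod 2) (i : Fin (m + 1)) :
    lift c e0 (i, 0) = e0 + ∑ i ∈ Iic i, c i := by
  simp [lift]

lemma lift1 (c : Fin (m + 1) → ZMod 2) (e0 : ZMod 2) (i : Fin (m + 1)) :
    lift c e0 (i, 1) = e0 + ∑ i ∈ Iio i, c i := by
  simp [lift]

lemma lift2 (c : Fin (m + 1) → ZMod 2) (e0 : ZMod 2) (i : Fin (m + 1)) :
    lift c e0 (i, 2) = c i := by
  simp [lift]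

lemma sum_all {c : Fin (m + 1) → ZMod 2} (hc : ∀ i, c (D.σ i) = c i) : ∑ i, c i = 0 := by
  refine Finset.sum_involution (fun i _ => D.σ i) ?_ ?_ ?_ ?_
  · intro i _
    rw [hc]
    exact zmod2_add_self _
  · intro i _ _
    exact D.σne i
  · intro i _
    exact mem_univ _
  · intro i _
    exact D.σσ i

lemma lift_step {c : Fin (m + 1) → ZMod 2} (hc : ∀ i, c (D.σ i) = c i) (e0 : ZMod 2)
    (i : Fin (m + 1)) : lift c e0 (i, 1) = lift c e0 (i - 1, 0) := by
  rw [lift0, lift1]
  by_cases h : i = 0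
  · subst h
    have h1 : Iic ((0 : Fin (m + 1)) - 1) = univ := by
      ext j
      rw [mem_Iic, Fin.le_def, Fin.coe_sub_one, if_pos rfl]
      have := j.isLt
      simp only [mem_univ, iff_true]
      omega
    have h2 : Iio (0 : Fin (m + 1)) = ∅ := by
      ext j
      simp
    rw [h1, h2, D.sum_all hc]
    simp
  · rw [iic_sub_one h]

lemma lift_mem {c : Fin (m + 1) → ZMod 2} (hc : ∀ i, c (D.σ i) = c i) (e0 : ZMod 2) :
    lift c e0 ∈ D.cub.Z := by
  refine ⟨?_, ?_⟩
  · rintro ⟨i, s⟩
    fin_cases s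
    · show lift c e0 (D.cub.ι (i, 0)) = lift c e0 (i, 0)
      rw [D.ι0, D.lift_step hc, fin_add_sub]
    · show lift c e0 (D.cub.ι (i, 1)) = lift c e0 (i, 1)
      rw [D.ι1, ← D.lift_step hc]
    · show lift c e0 (D.cub.ι (i, 2)) = lift c e0 (i, 2)
      rw [D.ι2, lift2, lift2, hc]
  · intro i
    rw [Fin.sum_univ_three, lift0, lift1, lift2]
    have h1 : Iic i = insert i (Iio i) := by
      ext j
      rw [mem_Iic, mem_insert, mem_Iio, le_iff_eq_or_lt]
    rw [h1, Finset.sum_insert (by simp)]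
    generalize c i = a
    generalize ∑ i ∈ Iio i, c i = b
    revert a b e0
    decide

lemma eq_lift {x : Vec (Fin (m + 1))} (hx : x ∈ D.cub.Z) :
    x = lift (fun i => x (i, 2)) (x (Fin.last m, 0)) := by
  have h1 : ∀ i, x (i, 1) = x (i - 1, 0) := by
    intro i
    have := hx.1 (i, 1)
    rw [D.ι1] at this
    exact this.symm
  have h2 : ∀ i, x (i, 0) = x (i, 1) + x (i, 2) := by
    intro i
    have := hx.2 i
    rw [Fin.sum_univ_three] at this
    generalize x (i, 0) = a at *
    generalize x (i, 1) = b at *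
    generalize x (i, 2) = c at *
    revert a b c
    decide
  have key : ∀ k : ℕ, ∀ i : Fin (m + 1), i.val = k →
      x (i, 1) = x (Fin.last m, 0) + ∑ i ∈ Iio i, x (i, 2) ∧
      x (i, 0) = x (Fin.last m, 0) + ∑ i ∈ Iic i, x (i, 2) := by
    intro k
    induction k with
    | zero =>
      intro i hi
      have hi0 : i = 0 := Fin.ext hi
      subst hi0
      have h3 : (0 : Fin (m + 1)) - 1 = Fin.last m := by
        apply Fin.ext
        rw [Fin.coe_sub_one, if_pos rfl]
        rfl
      have h4 : Iio (0 : Fin (m + 1)) = ∅ := by ext j; simp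
      have h5 : Iic (0 : Fin (m + 1)) = {0} := by ext j; simp
      rw [h4, h5, Finset.sum_empty, Finset.sum_singleton, h2 0, h1 0, h3]
      simp
    | succ k ih =>
      intro i hi
      have hi0 : i ≠ 0 := by
        intro h
        rw [h] at hi
        simp at hi
      have h3 := (ih (i - 1) (by have := fin_sub_one_lt hi0; omega)).2
      rw [iic_sub_one hi0] at h3
      have h4 : Iic i = insert i (Iio i) := by
        ext j
        rw [mem_Iic, mem_insert, mem_Iio, le_iff_eq_or_lt]
      refine ⟨by rw [h1, h3], ?_⟩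
      rw [h2, h1, h3, h4, Finset.sum_insert (by simp)]
      ring
  funext d
  obtain ⟨i, s⟩ := d
  fin_cases s
  · show x (i, 0) = lift _ _ (i, 0)
    rw [lift0]; exact (key _ i rfl).2
  · show x (i, 1) = lift _ _ (i, 1)
    rw [lift1]; exact (key _ i rfl).1
  · show x (i, 2) = lift _ _ (i, 2)
    rw [lift2]

lemma bridgeless : D.cub.Bridgeless := by
  rintro ⟨i, s⟩
  have h0 : ∀ s : Fin 3, s ≠ 2 → lift (fun _ : Fin (m + 1) => (0 : ZMod 2)) 1 (i, s) ≠ 0 := by
    intro s hs
    fin_cases s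
    · show lift (fun _ : Fin (m + 1) => (0 : ZMod 2)) 1 (i, 0) ≠ 0
      rw [lift0]; simp
    · show lift (fun _ : Fin (m + 1) => (0 : ZMod 2)) 1 (i, 1) ≠ 0
      rw [lift1]; simp
    · exact absurd rfl hs
  by_cases hs : s = 2
  · subst hs
    refine ⟨lift (fun j => if j = i ∨ j = D.σ i then 1 else 0) 0, D.lift_mem ?_ 0, ?_⟩
    · intro j
      have h1 : (D.σ j = i ∨ D.σ j = D.σ i) ↔ (j = i ∨ j = D.σ i) := by
        constructor
        · rintro (h | h)
          · right; rw [← h, D.σσ]
          · left; rw [← D.σσ j, h, D.σσ]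
        · rintro (h | h)
          · right; rw [h]
          · left; rw [h, D.σσ]
      simp only [h1]
    · rw [lift2]
      simp
  · exact ⟨lift (fun _ => 0) 1, D.lift_mem (fun _ => rfl) 1, h0 s hs⟩

/-- value of the Hamilton edge entering `p` -/
def hs (c : Fin (m + 1) → ZMod 2) (e0 : ZMod 2) (p : Fin (N + 3)) : ZMod 2 :=
  e0 + ∑ i ∈ univ.filter (fun i => D.pos i < p), c i

lemma hs_zero (c : Fin (m + 1) → ZMod 2) (e0 : ZMod 2) : D.hs c e0 0 = e0 := by
  unfold hs
  rw [Finset.filter_false_of_mem]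
  · simp
  · intro i _
    exact not_lt.2 (Fin.zero_le _)

lemma hs_succ {c : Fin (m + 1) → ZMod 2} (hc : ∀ i, c (D.σ i) = c i) (e0 : ZMod 2)
    (a : Fin (N + 3)) :
    D.hs c e0 (a + 1) = D.hs c e0 a + ∑ i ∈ univ.filter (fun i => D.pos i = a), c i := by
  unfold hs
  rw [add_assoc, ← Finset.sum_union]
  · by_cases h : a = Fin.last (N + 2)
    · subst h
      have h1 : Fin.last (N + 2) + 1 = (0 : Fin (N + 3)) := Fin.last_add_one _
      have h2 : univ.filter (fun i => D.pos i < Fin.last (N + 2)) ∪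
          univ.filter (fun i => D.pos i = Fin.last (N + 2)) = univ := by
        ext i
        simp only [mem_union, mem_filter, mem_univ, true_and, iff_true]
        exact lt_or_eq_of_le (Fin.le_last _)
      rw [h1, h2, D.sum_all hc, Finset.filter_false_of_mem]
      · simp
      · intro i _
        exact not_lt.2 (Fin.zero_le _)
    · congr 1
      apply Finset.sum_congr _ (fun _ _ => rfl)
      ext i
      simp only [mem_union, mem_filter, mem_univ, true_and]
      have h1 : (a + 1).val = a.val + 1 := by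
        rw [Fin.val_add_one, if_neg h]
      rw [Fin.lt_def, Fin.lt_def, Fin.ext_iff, h1]
      omega
  · rw [Finset.disjoint_filter]
    intro i _ h1 h2
    exact absurd h2 h1.ne

/-- the arc of the cubic multigraph containing the Hamilton edge entering `p` -/
noncomputable def ar (p : Fin (N + 3)) : Fin (m + 1) :=
  if h : (univ.filter (fun i => D.pos i < p)).Nonempty then
    (univ.filter (fun i => D.pos i < p)).max' h else Fin.last m

lemma lift_ar {c : Fin (m + 1) → ZMod 2} (hc : ∀ i, c (D.σ i) = c i) (e0 : ZMod 2)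
    (p : Fin (N + 3)) : lift c e0 (D.ar p, 0) = D.hs c e0 p := by
  rw [lift0]
  unfold ar hs
  by_cases h : (univ.filter (fun i => D.pos i < p)).Nonempty
  · rw [dif_pos h]
    congr 1
    apply Finset.sum_congr _ (fun _ _ => rfl)
    ext i
    rw [mem_Iic]
    constructor
    · intro hi
      have h1 := Finset.max'_mem _ h
      rw [mem_filter] at h1 ⊢
      exact ⟨mem_univ _, (D.mono hi).trans_lt h1.2⟩
    · intro hi
      exact Finset.le_max' _ _ hi
  · rw [dif_neg h]
    rw [Finset.not_nonempty_iff_eq_empty] at h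
    rw [h]
    have h1 : Iic (Fin.last m) = univ := by
      ext j
      simp [Fin.le_last]
    rw [h1, D.sum_all hc]
    simp

/-- number of Hamilton edges in an arc -/
noncomputable def gap (i : Fin (m + 1)) : ℕ := (univ.filter (fun p => D.ar p = i)).card

/-- weights -/
noncomputable def w (d : Dt (Fin (m + 1))) : ℕ :=
  if d.2 = 0 then D.gap d.1 else if d.2 = 1 then D.gap (d.1 - 1) else 1

lemma wι (d : Dt (Fin (m + 1))) : D.w (D.cub.ι d) = D.w d := by
  obtain ⟨i, s⟩ := d
  fin_cases s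
  · show D.w (D.cub.ι (i, 0)) = D.w (i, 0)
    rw [D.ι0]
    simp [w]
  · show D.w (D.cub.ι (i, 1)) = D.w (i, 1)
    rw [D.ι1]
    simp [w]
  · show D.w (D.cub.ι (i, 2)) = D.w (i, 2)
    rw [D.ι2]
    simp [w]

lemma len_lift {c : Fin (m + 1) → ZMod 2} (hc : ∀ i, c (D.σ i) = c i) (e0 : ZMod 2) :
    ∑ d, (if lift c e0 d = 0 then 0 else D.w d) =
      2 * (univ.filter (fun p => D.hs c e0 p ≠ 0)).card + (univ.filter (fun i => c i ≠ 0)).card := by
  rw [Fintype.sum_prod_type]
  simp only [Fin.sum_univ_three, Finset.sum_add_distrib]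
  have h0 : ∑ i, (if lift c e0 (i, 0) = 0 then 0 else D.w (i, 0)) =
      (univ.filter (fun p => D.hs c e0 p ≠ 0)).card := by
    rw [Finset.card_eq_sum_card_fiberwise (f := D.ar) (t := univ) (fun _ _ => by simp)]
    apply Finset.sum_congr rfl
    intro i _
    split_ifs with h
    · symm
      rw [Finset.card_eq_zero, Finset.filter_eq_empty_iff]
      intro p hp hpi
      rw [mem_filter] at hp
      apply hp.2
      rw [← D.lift_ar hc, hpi, h]
    · have h1 : D.w (i, 0) = D.gap i := by simp [w]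
      rw [h1]
      unfold gap
      congr 1
      ext p
      simp only [mem_filter, mem_univ, true_and]
      constructor
      · intro hp
        refine ⟨?_, hp⟩
        rw [← D.lift_ar hc, hp]
        exact h
      · exact fun hp => hp.2
  have h1 : ∑ i, (if lift c e0 (i, 1) = 0 then 0 else D.w (i, 1)) =
      ∑ i, (if lift c e0 (i, 0) = 0 then 0 else D.w (i, 0)) := by
    refine Finset.sum_bij' (fun i _ => i - 1) (fun i _ => i + 1) ?_ ?_ ?_ ?_ ?_
    · intro i _; exact mem_univ _
    · intro i _; exact mem_univ _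
    · intro i _; exact fin_sub_add i
    · intro i _; exact fin_add_sub i
    · intro i _
      rw [D.lift_step hc]
      have : D.w (i, 1) = D.w (i - 1, 0) := by simp [w]
      rw [this]
  have h2 : ∑ i, (if lift c e0 (i, 2) = 0 then 0 else D.w (i, 2)) =
      (univ.filter (fun i => c i ≠ 0)).card := by
    rw [Finset.card_filter]
    apply Finset.sum_congr rfl
    intro i _
    rw [lift2]
    have : D.w (i, 2) = 1 := by simp [w]
    rw [this]
    by_cases h : c i = 0 <;> simp [h]
  rw [h1, h2, h0]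
  ring

end Chd

end Pool.Agent.LibMP58b56d
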