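import Mathlib
import Pool.Agent.LibMP58b56d.RedA

/-!
# Task C, part B: cycles of the graph are circuits of the cubic multigraph
-/

set_option autoImplicit false

open Finset Classical

namespace Pool.Agent.LibMP58b56d

/-- adjacency in the closed walk `f` -/
def CA {N k : ℕ} (f : Fin (k + 3) → Fin (N + 3)) (a b : Fin (N + 3)) : Prop :=
  ∃ j, (a = f j ∧ b = f (j + 1)) ∨ (b = f j ∧ a = f (j + 1))

/-- its indicator function -/
noncomputable def cv {N k : ℕ} (f : Fin (k + 3) → Fin (N + 3)) (a b : Fin (N + 3)) : ZMod 2 :=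
  if CA f a b then 1 else 0

section cyc

variable {N k : ℕ} {f : Fin (k + 3) → Fin (N + 3)}

lemma CA_symm {a b : Fin (N + 3)} (h : CA f a b) : CA f b a := by
  obtain ⟨j, h | h⟩ := h
  · exact ⟨j, Or.inr h⟩
  · exact ⟨j, Or.inl h⟩

lemma CA_comm {a b : Fin (N + 3)} : CA f a b ↔ CA f b a := ⟨CA_symm, CA_symm⟩

lemma cv_symm (a b : Fin (N + 3)) : cv f a b = cv f b a := by
  unfold cv
  rw [CA_comm]

lemma cv_ne_zero {a b : Fin (N + 3)} : cv f a b ≠ 0 ↔ CA f a b := by
  unfold cv
  split_ifs with h <;> simp [h]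

lemma cv_eq_zero {a b : Fin (N + 3)} : cv f a b = 0 ↔ ¬ CA f a b := by
  rw [← cv_ne_zero, not_not]

lemma cv_eq_one {a b : Fin (N + 3)} (h : CA f a b) : cv f a b = 1 := if_pos h

lemma CA_iff (hf : Function.Injective f) (j : Fin (k + 3)) (b : Fin (N + 3)) :
    CA f (f j) b ↔ b = f (j + 1) ∨ b = f (j - 1) := by
  constructor
  · rintro ⟨i, ⟨h1, h2⟩ | ⟨h1, h2⟩⟩
    · left
      rw [h2, hf h1]
    · right
      rw [h1, hf h2]
      simp
  · rintro (h | h)
    · exact ⟨j, Or.inl ⟨rfl, h⟩⟩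
    · exact ⟨j - 1, Or.inr ⟨h, by rw [fin_sub_add]⟩⟩

lemma CA_range {a b : Fin (N + 3)} (h : CA f a b) : a ∈ Set.range f := by
  obtain ⟨j, ⟨h1, -⟩ | ⟨-, h1⟩⟩ := h
  · exact ⟨j, h1.symm⟩
  · exact ⟨j + 1, h1.symm⟩

lemma two_sum (hf : Function.Injective f) {M : Type} [AddCommMonoid M] (F : Fin (N + 3) → M)
    (j : Fin (k + 3)) (hF : ∀ b, ¬ CA f (f j) b → F b = 0) :
    ∑ b, F b = F (f (j + 1)) + F (f (j - 1)) := by
  apply Finset.sum_eq_add
  · intro h
    exact fin_add_one_ne_sub_one j (hf h)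
  · intro b _ hb
    apply hF
    rw [CA_iff hf]
    tauto
  · intro h; exact absurd (mem_univ _) h
  · intro h; exact absurd (mem_univ _) h

lemma sum_cv (hf : Function.Injective f) (a : Fin (N + 3)) : ∑ b, cv f a b = 0 := by
  by_cases h : a ∈ Set.range f
  · obtain ⟨j, rfl⟩ := h
    rw [two_sum hf (fun b => cv f (f j) b) j (fun b hb => cv_eq_zero.2 hb)]
    rw [cv_eq_one ((CA_iff hf j _).2 (Or.inl rfl)), cv_eq_one ((CA_iff hf j _).2 (Or.inr rfl))]
    decide
  · apply Finset.sum_eq_zero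
    intro b _
    rw [cv_eq_zero]
    exact fun h1 => h (CA_range h1)

end cyc

namespace Chd

variable {N : ℕ} {G : SimpleGraph (Fin (N + 3))} {m : ℕ} (D : Chd G m)

/-- sums over the neighbours of a vertex -/
lemma nbr_sum {M : Type} [AddCommMonoid M] (F : Fin (N + 3) → Fin (N + 3) → M)
    (hF : ∀ a b, ¬ G.Adj a b → F a b = 0) (a : Fin (N + 3)) :
    ∑ b, F a b = F a (a + 1) + (F a (a - 1) +
      ∑ i ∈ univ.filter (fun i => D.pos i = a), F a (D.pos (D.σ i))) := by
  set S := (univ.filter (fun i => D.pos i = a)).image (fun i => D.pos (D.σ i)) with hS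
  have h1 : a - 1 ∉ S := by
    rw [hS, mem_image]
    rintro ⟨i, hi, h⟩
    rw [mem_filter] at hi
    apply D.nham' i
    rw [hi.2, h]
  have h2 : a + 1 ∉ insert (a - 1) S := by
    rw [mem_insert, hS, mem_image]
    rintro (h | ⟨i, hi, h⟩)
    · exact fin_add_one_ne_sub_one a h
    · rw [mem_filter] at hi
      apply D.nham i
      rw [hi.2, h]
  have h3 : ∑ b, F a b = ∑ b ∈ insert (a + 1) (insert (a - 1) S), F a b := by
    symm
    apply Finset.sum_subset (Finset.subset_univ _)
    intro b _ hb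
    apply hF
    intro hab
    apply hb
    rw [mem_insert, mem_insert]
    by_cases h4 : b = a + 1
    · exact Or.inl h4
    by_cases h5 : b = a - 1
    · exact Or.inr (Or.inl h5)
    right; right
    obtain ⟨i, hi1, hi2⟩ := D.ex a b hab h4 h5
    rw [hS, mem_image]
    exact ⟨i, by simp [hi1], hi2⟩
  rw [h3, Finset.sum_insert h2, Finset.sum_insert h1, hS, Finset.sum_image]
  intro i hi j hj hij
  simp only [coe_filter, mem_univ, true_and, Set.mem_ofPred_eq] at hi hj
  exact D.uniq i j (hi.trans hj.symm) hij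

variable {k : ℕ} {f : Fin (k + 3) → Fin (N + 3)}

/-- the chord function of a cycle -/
noncomputable def cf (f : Fin (k + 3) → Fin (N + 3)) (i : Fin (m + 1)) : ZMod 2 :=
  cv f (D.pos i) (D.pos (D.σ i))

/-- the bit of a cycle -/
noncomputable def ef (f : Fin (k + 3) → Fin (N + 3)) : ZMod 2 := cv f ((0 : Fin (N + 3)) - 1) 0

lemma cf_symm (i : Fin (m + 1)) : D.cf f (D.σ i) = D.cf f i := by
  unfold cf
  rw [D.σσ, cv_symm]

variable (hf : Function.Injective f) (hadj : ∀ j, G.Adj (f j) (f (j + 1)))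
include hf hadj

omit hf in
lemma CA_adj {a b : Fin (N + 3)} (h : CA f a b) : G.Adj a b := by
  obtain ⟨j, ⟨rfl, rfl⟩ | ⟨rfl, rfl⟩⟩ := h
  · exact hadj j
  · exact (hadj j).symm

lemma hs_cv (p : Fin (N + 3)) : D.hs (D.cf f) (ef f) p = cv f (p - 1) p := by
  have key : ∀ q : ℕ, ∀ p : Fin (N + 3), p.val = q → D.hs (D.cf f) (ef f) p = cv f (p - 1) p := by
    intro q
    induction q with
    | zero =>
      intro p hp
      have hp0 : p = 0 := Fin.ext hp
      subst hp0
      rw [D.hs_zero]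
      rfl
    | succ q ih =>
      intro p hp
      have hp0 : p ≠ 0 := by
        intro h
        rw [h] at hp
        simp at hp
      have h1 := ih (p - 1) (by have := fin_sub_one_lt hp0; omega)
      have h2 := D.hs_succ (c := D.cf f) D.cf_symm (ef f) (p - 1)
      rw [fin_sub_add, h1] at h2
      have h3 := D.nbr_sum (fun a b => cv f a b)
        (fun a b hab => cv_eq_zero.2 (fun h => hab (CA_adj hadj h))) (p - 1)
      rw [sum_cv hf, fin_sub_add] at h3
      have h4 : ∑ i ∈ univ.filter (fun i => D.pos i = p - 1), D.cf f i =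
          ∑ i ∈ univ.filter (fun i => D.pos i = p - 1), cv f (p - 1) (D.pos (D.σ i)) := by
        apply Finset.sum_congr rfl
        intro i hi
        rw [mem_filter] at hi
        unfold cf
        rw [hi.2]
      rw [h2, h4]
      rw [cv_symm (p - 1 - 1) (p - 1)]
      generalize cv f (p - 1) p = a at *
      generalize cv f (p - 1) (p - 1 - 1) = b at *
      generalize ∑ i ∈ univ.filter (fun i => D.pos i = p - 1), cv f (p - 1) (D.pos (D.σ i)) = c at *
      clear h1 h2 h4 ih
      revert a b c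
      decide
  exact key _ p rfl

/-- the lift of a cycle -/
lemma lift_ne_zero : lift (D.cf f) (ef f) ≠ 0 := by
  intro h
  have h1 : CA f (f 0) (f (0 + 1)) := ⟨0, Or.inl ⟨rfl, rfl⟩⟩
  have h2 : ∀ p, cv f (p - 1) p = 0 := by
    intro p
    rw [← D.hs_cv hf hadj, ← D.lift_ar D.cf_symm, h]
    rfl
  have h3 : ∀ i, cv f (D.pos i) (D.pos (D.σ i)) = 0 := by
    intro i
    have := congrFun h (i, 2)
    rw [lift2] at this
    exact this
  by_cases h4 : f (0 + 1) = f 0 + 1
  · have := h2 (f 0 + 1)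
    rw [fin_add_sub, cv_eq_zero, ← h4] at this
    exact this h1
  by_cases h5 : f (0 + 1) = f 0 - 1
  · have := h2 (f 0)
    rw [cv_symm, cv_eq_zero, ← h5] at this
    exact this h1
  · obtain ⟨i, hi1, hi2⟩ := D.ex _ _ (hadj 0) h4 h5
    have := h3 i
    rw [hi1, hi2, cv_eq_zero] at this
    exact this h1

/-- edge function of a symmetric chord function and a bit -/
noncomputable def Yf (D : Chd G m) (c : Fin (m + 1) → ZMod 2) (e0 : ZMod 2)
    (a b : Fin (N + 3)) : ZMod 2 :=
  if b = a + 1 then D.hs c e0 b else if b = a - 1 then D.hs c e0 a else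
    ∑ i ∈ univ.filter (fun i => D.pos i = a ∧ D.pos (D.σ i) = b), c i

omit hf hadj in
lemma Yf_chord (c : Fin (m + 1) → ZMod 2) (e0 : ZMod 2) (i : Fin (m + 1)) :
    D.Yf c e0 (D.pos i) (D.pos (D.σ i)) = c i := by
  unfold Yf
  rw [if_neg (D.nham i), if_neg (D.nham' i)]
  have h : univ.filter (fun j => D.pos j = D.pos i ∧ D.pos (D.σ j) = D.pos (D.σ i)) = {i} := by
    ext j
    simp only [mem_filter, mem_univ, true_and, mem_singleton]
    constructor
    · rintro ⟨h1, h2⟩
      exact D.uniq j i h1 h2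
    · rintro rfl
      exact ⟨rfl, rfl⟩
  rw [h, Finset.sum_singleton]

omit hf hadj in
lemma Yf_symm {c : Fin (m + 1) → ZMod 2} (hc : ∀ i, c (D.σ i) = c i) (e0 : ZMod 2)
    (a b : Fin (N + 3)) : D.Yf c e0 a b = D.Yf c e0 b a := by
  have e1 : (a = b - 1) ↔ (b = a + 1) := by
    constructor
    · rintro rfl; rw [fin_sub_add]
    · rintro rfl; rw [fin_add_sub]
  have e2 : (a = b + 1) ↔ (b = a - 1) := by
    constructor
    · rintro rfl; rw [fin_add_sub]
    · rintro rfl; rw [fin_sub_add]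
  unfold Yf
  by_cases h1 : b = a + 1
  · rw [if_pos h1, if_neg, if_pos (e1.2 h1)]
    intro h2
    apply fin_add_one_ne_sub_one a
    rw [← h1]
    exact e2.1 h2
  · rw [if_neg h1]
    by_cases h2 : b = a - 1
    · rw [if_pos h2, if_pos (e2.2 h2)]
    · rw [if_neg h2, if_neg (fun h => h2 (e2.1 h)), if_neg (fun h => h1 (e1.1 h))]
      refine Finset.sum_bij' (fun i _ => D.σ i) (fun i _ => D.σ i) ?_ ?_ ?_ ?_ ?_
      · intro i hi
        simp only [mem_filter, mem_univ, true_and, D.σσ] at hi ⊢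
        exact ⟨hi.2, hi.1⟩
      · intro i hi
        simp only [mem_filter, mem_univ, true_and, D.σσ] at hi ⊢
        exact ⟨hi.2, hi.1⟩
      · intro i _; exact D.σσ i
      · intro i _; exact D.σσ i
      · intro i _; exact (hc i).symm

omit hf hadj in
lemma Yf_sum {c : Fin (m + 1) → ZMod 2} (hc : ∀ i, c (D.σ i) = c i) (e0 : ZMod 2)
    (hadj' : ∀ a b, ¬ G.Adj a b → D.Yf c e0 a b = 0) (a : Fin (N + 3)) :
    ∑ b, D.Yf c e0 a b = 0 := by
  rw [D.nbr_sum (fun a b => D.Yf c e0 a b) hadj' a]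
  have h1 : D.Yf c e0 a (a + 1) = D.hs c e0 (a + 1) := by
    unfold Yf
    rw [if_pos rfl]
  have h2 : D.Yf c e0 a (a - 1) = D.hs c e0 a := by
    unfold Yf
    rw [if_neg (fun h => fin_add_one_ne_sub_one a h.symm), if_pos rfl]
  have h3 : ∑ i ∈ univ.filter (fun i => D.pos i = a), D.Yf c e0 a (D.pos (D.σ i)) =
      ∑ i ∈ univ.filter (fun i => D.pos i = a), c i := by
    apply Finset.sum_congr rfl
    intro i hi
    rw [mem_filter] at hi
    have := D.Yf_chord c e0 i
    rw [hi.2] at this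
    exact this
  rw [h1, h2, h3, D.hs_succ hc]
  generalize D.hs c e0 a = x
  generalize ∑ i ∈ univ.filter (fun i => D.pos i = a), c i = y
  revert x y
  decide

theorem circ_lift : D.cub.IsCirc (lift (D.cf f) (ef f)) := by
  refine ⟨D.lift_mem D.cf_symm _, D.lift_ne_zero hf hadj, ?_⟩
  intro y hy hsub
  have hy2 := D.eq_lift hy
  set c' : Fin (m + 1) → ZMod 2 := fun i => y (i, 2) with hc'
  set e' := y (Fin.last m, 0) with he'
  have hcs : ∀ i, c' (D.σ i) = c' i := by
    intro i
    have := hy.1 (i, 2)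
    rwa [D.ι2] at this
  have s1 : ∀ i, D.cf f i = 0 → c' i = 0 := by
    intro i hi
    apply hsub (i, 2)
    rw [lift2]
    exact hi
  have s2 : ∀ p, cv f (p - 1) p = 0 → D.hs c' e' p = 0 := by
    intro p hp
    rw [← D.lift_ar hcs, ← hy2]
    apply hsub
    rw [D.lift_ar D.cf_symm, D.hs_cv hf hadj]
    exact hp
  have s3 : ∀ a b, ¬ CA f a b → D.Yf c' e' a b = 0 := by
    intro a b hab
    unfold Yf
    by_cases h1 : b = a + 1
    · rw [if_pos h1]
      apply s2
      rw [h1, fin_add_sub, cv_eq_zero, ← h1]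
      exact hab
    · rw [if_neg h1]
      by_cases h2 : b = a - 1
      · rw [if_pos h2]
        apply s2
        rw [← h2, cv_symm, cv_eq_zero]
        exact hab
      · rw [if_neg h2]
        apply Finset.sum_eq_zero
        intro i hi
        rw [mem_filter] at hi
        apply s1
        unfold cf
        rw [hi.2.1, hi.2.2, cv_eq_zero]
        exact hab
  have s4 := D.Yf_sum hcs e' (fun a b hab => s3 a b (fun h => hab (CA_adj hadj h)))
  have s5 : ∀ j, D.Yf c' e' (f j) (f (j + 1)) = D.Yf c' e' (f (j - 1)) (f (j - 1 + 1)) := by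
    intro j
    have h1 := s4 (f j)
    rw [two_sum hf (fun b => D.Yf c' e' (f j) b) j (fun b hb => s3 _ _ hb)] at h1
    rw [fin_sub_add, D.Yf_symm hcs e' (f (j - 1)) (f j)]
    exact zmod2_eq_of_add h1
  have s6 : ∀ q : ℕ, ∀ j : Fin (k + 3), j.val = q →
      D.Yf c' e' (f j) (f (j + 1)) = D.Yf c' e' (f 0) (f (0 + 1)) := by
    intro q
    induction q with
    | zero =>
      intro j hj
      have : j = 0 := Fin.ext hj
      rw [this]
    | succ q ih =>
      intro j hj
      have hj0 : j ≠ 0 := by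
        intro h
        rw [h] at hj
        simp at hj
      rw [s5 j]
      exact ih (j - 1) (by have := fin_sub_one_lt hj0; omega)
  set s := D.Yf c' e' (f 0) (f (0 + 1)) with hsdef
  have s7 : ∀ a b, CA f a b → D.Yf c' e' a b = s := by
    rintro a b ⟨j, ⟨rfl, rfl⟩ | ⟨rfl, rfl⟩⟩
    · exact s6 _ j rfl
    · rw [D.Yf_symm hcs]
      exact s6 _ j rfl
  have s8 : ∀ a b, D.Yf c' e' a b = s * cv f a b := by
    intro a b
    by_cases h : CA f a b
    · rw [s7 a b h, cv_eq_one h, mul_one]
    · rw [s3 a b h, cv_eq_zero.2 h, mul_zero]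
  have s9 : ∀ i, c' i = s * D.cf f i := by
    intro i
    rw [← D.Yf_chord c' e' i, s8]
    rfl
  have s10 : e' = s * ef f := by
    have h1 : D.Yf c' e' ((0 : Fin (N + 3)) - 1) 0 = e' := by
      unfold Yf
      rw [if_pos (by rw [fin_sub_add]), D.hs_zero]
    rw [← h1, s8]
    rfl
  rcases zmod2_cases s with h0 | h0
  · left
    rw [hy2]
    funext d
    obtain ⟨i, t⟩ := d
    fin_cases t
    · show lift c' e' (i, 0) = 0
      rw [lift0, s10, h0]
      simp [s9, h0]
    · show lift c' e' (i, 1) = 0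
      rw [lift1, s10, h0]
      simp [s9, h0]
    · show lift c' e' (i, 2) = 0
      rw [lift2, s9, h0]
      simp
  · right
    rw [hy2]
    congr 1
    · funext i
      rw [s9, h0, one_mul]
    · rw [s10, h0, one_mul]

/-- length of the lift -/
theorem len_cyc : ∑ d, (if lift (D.cf f) (ef f) d = 0 then 0 else D.w d) = 2 * (k + 3) := by
  rw [D.len_lift D.cf_symm]
  have h1 : ∑ a, ∑ b, (if CA f a b then 1 else 0 : ℕ) = 2 * (k + 3) := by
    have h2 : ∀ a, ∑ b, (if CA f a b then 1 else 0 : ℕ) = if a ∈ Set.range f then 2 else 0 := by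
      intro a
      split_ifs with h
      · obtain ⟨j, rfl⟩ := h
        rw [two_sum hf (fun b => (if CA f (f j) b then 1 else 0 : ℕ)) j
          (fun b hb => if_neg hb), if_pos ((CA_iff hf j _).2 (Or.inl rfl)),
          if_pos ((CA_iff hf j _).2 (Or.inr rfl))]
      · apply Finset.sum_eq_zero
        intro b _
        exact if_neg (fun h1 => h (CA_range h1))
    simp only [h2]
    rw [← Finset.sum_filter, Finset.sum_const, smul_eq_mul, mul_comm]
    congr 1
    have h3 : univ.filter (fun a => a ∈ Set.range f) = univ.image f := by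
      ext a
      simp
    rw [h3, Finset.card_image_of_injective _ hf]
    simp
  rw [← h1]
  have h4 : ∀ a, ∑ b, (if CA f a b then 1 else 0 : ℕ) =
      (if CA f a (a + 1) then 1 else 0) + ((if CA f a (a - 1) then 1 else 0) +
      ∑ i ∈ univ.filter (fun i => D.pos i = a), (if CA f a (D.pos (D.σ i)) then 1 else 0)) := by
    intro a
    exact D.nbr_sum (fun a b => (if CA f a b then 1 else 0 : ℕ))
      (fun a b hab => if_neg (fun h => hab (CA_adj hadj h))) a
  simp only [h4, Finset.sum_add_distrib]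
  have h5 : ∑ a, (if CA f a (a - 1) then 1 else 0 : ℕ) =
      (univ.filter (fun p => D.hs (D.cf f) (ef f) p ≠ 0)).card := by
    rw [Finset.card_filter]
    apply Finset.sum_congr rfl
    intro p _
    rw [D.hs_cv hf hadj]
    by_cases hh : CA f p (p - 1)
    · rw [if_pos hh, if_pos (cv_ne_zero.2 (CA_symm hh))]
    · rw [if_neg hh, if_neg (fun h => hh (CA_symm (cv_ne_zero.1 h)))]
  have h6 : ∑ a, (if CA f a (a + 1) then 1 else 0 : ℕ) =
      ∑ a, (if CA f a (a - 1) then 1 else 0 : ℕ) := by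
    refine Finset.sum_bij' (fun a _ => a + 1) (fun a _ => a - 1) ?_ ?_ ?_ ?_ ?_
    · intro a _; exact mem_univ _
    · intro a _; exact mem_univ _
    · intro a _; exact fin_add_sub a
    · intro a _; exact fin_sub_add a
    · intro a _
      rw [fin_add_sub, CA_comm]
  have h7 : ∑ a, ∑ i ∈ univ.filter (fun i => D.pos i = a),
      (if CA f a (D.pos (D.σ i)) then 1 else 0 : ℕ) =
      (univ.filter (fun i => D.cf f i ≠ 0)).card := by
    rw [Finset.card_filter]
    have h8 : ∀ a, ∑ i ∈ univ.filter (fun i => D.pos i = a),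
        (if CA f a (D.pos (D.σ i)) then 1 else 0 : ℕ) =
        ∑ i ∈ univ.filter (fun i => D.pos i = a), (if D.cf f i ≠ 0 then 1 else 0 : ℕ) := by
      intro a
      apply Finset.sum_congr rfl
      intro i hi
      rw [mem_filter] at hi
      have hi2 : D.cf f i = cv f a (D.pos (D.σ i)) := by
        unfold cf
        rw [hi.2]
      rw [hi2]
      by_cases hh : CA f a (D.pos (D.σ i))
      · rw [if_pos hh, if_pos (cv_ne_zero.2 hh)]
      · rw [if_neg hh, if_neg (fun h => hh (cv_ne_zero.1 h))]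
    simp only [h8]
    exact Finset.sum_fiberwise (f := fun i => (if D.cf f i ≠ 0 then 1 else 0 : ℕ)) univ D.pos
  rw [h6, h5, h7]
  ring

/-- the vertices covered by the lift of a cycle -/
theorem cover_cyc (i : Fin (m + 1)) (hi : i ∈ cover (lift (D.cf f) (ef f))) :
    D.pos i ∈ Set.range f := by
  by_contra hcon
  have h0 : ∀ j, D.pos j = D.pos i → D.cf f j = 0 := by
    intro j hj
    unfold cf
    rw [cv_eq_zero]
    intro h
    apply hcon
    rw [← hj]
    exact CA_range h
  have h1 : D.hs (D.cf f) (ef f) (D.pos i) = 0 := by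
    rw [D.hs_cv hf hadj, cv_symm, cv_eq_zero]
    exact fun h => hcon (CA_range h)
  have h2 : ∀ T : Finset (Fin (m + 1)), (∀ j, D.pos j < D.pos i → j ∈ T) →
      (∀ j ∈ T, j ≤ i) → ef f + ∑ j ∈ T, D.cf f j = 0 := by
    intro T hT1 hT2
    rw [← h1]
    unfold hs
    congr 1
    symm
    apply Finset.sum_subset
    · intro j hj
      rw [mem_filter] at hj
      exact hT1 j hj.2
    · intro j hj hj2
      rw [mem_filter] at hj2
      apply h0
      have h3 := D.mono (hT2 j hj)
      exact le_antisymm h3 (not_lt.1 (fun h => hj2 ⟨mem_univ _, h⟩))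
  obtain ⟨t, ht⟩ := mem_cover.1 hi
  apply ht
  fin_cases t
  · show lift (D.cf f) (ef f) (i, 0) = 0
    rw [lift0]
    apply h2
    · intro j hj
      rw [mem_Iic]
      by_contra h3
      exact absurd (D.mono (not_le.1 h3).le) (not_le.2 hj)
    · intro j hj
      exact mem_Iic.1 hj
  · show lift (D.cf f) (ef f) (i, 1) = 0
    rw [lift1]
    apply h2
    · intro j hj
      rw [mem_Iio]
      by_contra h3
      exact absurd (D.mono (not_lt.1 h3)) (not_le.2 hj)
    · intro j hj
      exact (mem_Iio.1 hj).le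
  · show lift (D.cf f) (ef f) (i, 2) = 0
    rw [lift2]
    exact h0 i rfl

theorem cover_card (Δ : ℕ) (hΔ : ∀ v, (univ.filter (fun i => D.pos i = v)).card ≤ Δ) :
    (cover (lift (D.cf f) (ef f))).card ≤ Δ * (k + 3) := by
  have h1 : cover (lift (D.cf f) (ef f)) ⊆
      (univ.image f).biUnion (fun v => univ.filter (fun i => D.pos i = v)) := by
    intro i hi
    rw [mem_biUnion]
    obtain ⟨j, hj⟩ := D.cover_cyc hf hadj i hi
    exact ⟨f j, mem_image_of_mem _ (mem_univ _), by simp [hj]⟩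
  refine (card_le_card h1).trans ?_
  refine (card_biUnion_le_card_mul _ _ Δ (fun v _ => hΔ v)).trans ?_
  rw [Finset.card_image_of_injective _ hf, mul_comm]
  simp

end Chd

end Pool.Agent.LibMP58b56d
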