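import Mathlib
import Pool.Agent.LibMP58b56d.RedB

/-!
# Task C, part C: counting bounds
-/

set_option autoImplicit false

open Finset Classical

namespace Pool.Agent.LibMP58b56d

namespace Chd

variable {N : ℕ} {G : SimpleGraph (Fin (N + 3))} {m : ℕ} (D : Chd G m)

/-- one end of each chord -/
noncomputable def L : Finset (Fin (m + 1)) := univ.filter (fun i => i < D.σ i)

lemma mem_L {i : Fin (m + 1)} : i ∈ D.L ↔ i < D.σ i := by
  simp [L]

lemma L_or (i : Fin (m + 1)) : i ∈ D.L ∨ D.σ i ∈ D.L := by
  rw [mem_L, mem_L, D.σσ]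
  rcases lt_trichotomy i (D.σ i) with h | h | h
  · exact Or.inl h
  · exact absurd h.symm (D.σne i)
  · exact Or.inr h

lemma L_not {i : Fin (m + 1)} (h : i ∈ D.L) : D.σ i ∉ D.L := by
  rw [mem_L] at h ⊢
  rw [D.σσ]
  exact not_lt.2 h.le

lemma two_L : 2 * D.L.card = m + 1 := by
  have h1 : (D.Lᶜ).card = D.L.card := by
    refine Finset.card_bij' (fun i _ => D.σ i) (fun i _ => D.σ i) ?_ ?_ ?_ ?_
    · intro i hi
      rw [mem_compl] at hi
      exact (D.L_or i).resolve_left hi
    · intro i hi
      rw [mem_compl]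
      exact D.L_not hi
    · intro i _; exact D.σσ i
    · intro i _; exact D.σσ i
  have h2 := Finset.card_add_card_compl D.L
  rw [h1, Fintype.card_fin] at h2
  omega

lemma ext_L {c c' : Fin (m + 1) → ZMod 2} (hc : ∀ i, c (D.σ i) = c i)
    (hc' : ∀ i, c' (D.σ i) = c' i) (h : ∀ i ∈ D.L, c i = c' i) : c = c' := by
  funext i
  rcases D.L_or i with h1 | h1
  · exact h i h1
  · rw [← hc, ← hc']
    exact h _ h1

theorem zs_card_le : (D.cub.zs Set.univ).card ≤ 2 ^ (D.L.card + 1) := by
  have h1 : (univ : Finset ((↥D.L → ZMod 2) × ZMod 2)).card = 2 ^ (D.L.card + 1) := by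
    rw [Finset.card_univ, Fintype.card_prod, Fintype.card_fun, ZMod.card, Fintype.card_coe,
      pow_succ]
  rw [← h1]
  have hmem : ∀ x ∈ D.cub.zs Set.univ, x ∈ D.cub.Z := by
    intro x hx
    unfold Cub.zs at hx
    rw [mem_filter] at hx
    exact hx.2.1
  apply Finset.card_le_card_of_injOn
    (fun x : Vec (Fin (m + 1)) => ((fun i : ↥D.L => x (i.1, 2)), x (Fin.last m, 0)))
  · intro x _
    exact mem_coe.2 (mem_univ _)
  · intro x hx y hy hxy
    have hx := hmem x hx
    have hy := hmem y hy
    have h2 := congrArg Prod.fst hxy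
    have h3 := congrArg Prod.snd hxy
    simp only at h2 h3
    rw [D.eq_lift hx, D.eq_lift hy, h3]
    congr 1
    apply D.ext_L
    · intro i
      have := hx.1 (i, 2)
      rwa [D.ι2] at this
    · intro i
      have := hy.1 (i, 2)
      rwa [D.ι2] at this
    · intro i hi
      exact congrFun h2 ⟨i, hi⟩

/-- chord ends at `v` -/
noncomputable def A (v : Fin (N + 3)) : Finset (Fin (m + 1)) := univ.filter (fun i => D.pos i = v)

lemma mem_A {v : Fin (N + 3)} {i : Fin (m + 1)} : i ∈ D.A v ↔ D.pos i = v := by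
  simp [A]

/-- chords not at `v` -/
noncomputable def T (v : Fin (N + 3)) : Finset (Fin (m + 1)) :=
  D.L.filter (fun i => D.pos i ≠ v ∧ D.pos (D.σ i) ≠ v)

lemma pos_ne (i : Fin (m + 1)) : D.pos (D.σ i) ≠ D.pos i := by
  intro h
  have := D.adj i
  rw [h] at this
  exact G.irrefl this

lemma T_card (v : Fin (N + 3)) : (D.T v).card + (D.A v).card = D.L.card := by
  have h1 : (D.L.filter (fun i => ¬ (D.pos i ≠ v ∧ D.pos (D.σ i) ≠ v))).card = (D.A v).card := by
    symm
    refine Finset.card_bij (fun i _ => if i ∈ D.L then i else D.σ i) ?_ ?_ ?_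
    · intro i hi
      rw [mem_A] at hi
      rw [mem_filter]
      split_ifs with h
      · exact ⟨h, fun h2 => h2.1 hi⟩
      · refine ⟨(D.L_or i).resolve_left h, fun h2 => h2.2 ?_⟩
        rw [D.σσ]
        exact hi
    · intro i hi j hj hij
      rw [mem_A] at hi hj
      split_ifs at hij with h1 h2 h2
      · exact hij
      · exfalso
        apply D.pos_ne j
        rw [← hij, hi, hj]
      · exfalso
        apply D.pos_ne i
        rw [hij, hi, hj]
      · rw [← D.σσ i, hij, D.σσ]
    · intro i hi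
      rw [mem_filter] at hi
      by_cases h : D.pos i = v
      · exact ⟨i, D.mem_A.2 h, by rw [if_pos hi.1]⟩
      · have h2 : D.pos (D.σ i) = v := by
          by_contra h3
          exact hi.2 ⟨h, h3⟩
        exact ⟨D.σ i, D.mem_A.2 h2, by rw [if_neg (D.L_not hi.1), D.σσ]⟩
  rw [← h1]
  unfold T
  exact Finset.card_filter_add_card_filter_not _

/-- small subsets -/
lemma small_subsets (s : Finset (Fin (m + 1))) :
    (s.powerset.filter (fun u => u.card ≤ 2)).card ≤ (1 + s.card) ^ 2 := by
  have h1 : s.powerset.filter (fun u => u.card ≤ 2) ⊆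
      s.powersetCard 0 ∪ (s.powersetCard 1 ∪ s.powersetCard 2) := by
    intro u hu
    rw [mem_filter, mem_powerset] at hu
    simp only [mem_union, mem_powersetCard]
    have := hu.2
    have h3 : u.card = 0 ∨ u.card = 1 ∨ u.card = 2 := by omega
    tauto
  refine (card_le_card h1).trans ?_
  refine (card_union_le _ _).trans ?_
  refine (Nat.add_le_add_left (card_union_le _ _) _).trans ?_
  rw [card_powersetCard, card_powersetCard, card_powersetCard, Nat.choose_zero_right,
    Nat.choose_one_right, Nat.choose_two_right]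
  have h2 : s.card * (s.card - 1) / 2 ≤ s.card ^ 2 := by
    refine (Nat.div_le_self _ _).trans ?_
    rw [sq]
    exact Nat.mul_le_mul_left _ (Nat.sub_le _ _)
  nlinarith

variable {k : ℕ} {f : Fin (k + 3) → Fin (N + 3)}

/-- support of a cycle at `v` -/
noncomputable def su (f : Fin (k + 3) → Fin (N + 3)) (v : Fin (N + 3)) : Finset (Fin (m + 1)) :=
  (D.A v).filter (fun i => D.cf f i ≠ 0)

lemma su_mem (hf : Function.Injective f) (v : Fin (N + 3)) :
    D.su f v ∈ (D.A v).powerset.filter (fun u => u.card ≤ 2) := by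
  rw [mem_filter, mem_powerset]
  refine ⟨filter_subset _ _, ?_⟩
  by_cases h : v ∈ Set.range f
  · obtain ⟨j, rfl⟩ := h
    have h1 : ((D.su f (f j)).image (fun i => D.pos (D.σ i))) ⊆ {f (j + 1), f (j - 1)} := by
      intro b hb
      rw [mem_image] at hb
      obtain ⟨i, hi, rfl⟩ := hb
      unfold su at hi
      rw [mem_filter, mem_A] at hi
      have h2 := hi.2
      unfold cf at h2
      rw [cv_ne_zero, hi.1, CA_iff hf] at h2
      simpa using h2
    rw [← Finset.card_image_of_injOn (f := fun i => D.pos (D.σ i)) (s := D.su f (f j))]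
    · exact (card_le_card h1).trans (Finset.card_le_two)
    · intro i hi j' hj' hij
      unfold su at hi hj'
      rw [mem_coe, mem_filter, mem_A] at hi hj'
      exact D.uniq i j' (hi.1.trans hj'.1.symm) hij
  · have h1 : D.su f v = ∅ := by
      unfold su
      rw [Finset.filter_eq_empty_iff]
      intro i hi hc
      rw [mem_A] at hi
      unfold cf at hc
      rw [cv_ne_zero] at hc
      apply h
      rw [← hi]
      exact CA_range hc
    rw [h1]
    simp

theorem deg_bound (F : ∀ k : ℕ, Fin (k + 3) → Fin (N + 3))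
    (hF : ∀ k ≤ N, Function.Injective (F k))
    (hA : ∀ k ≤ N, ∀ j, G.Adj (F k j) (F k (j + 1))) (v : Fin (N + 3)) :
    (N + 1) * 2 ^ (D.A v).card ≤ 2 ^ (D.L.card + 1) * (1 + (D.A v).card) ^ 2 := by
  have h1 : (range (N + 1)).card ≤
      ((univ : Finset ((↥(D.T v) → ZMod 2) × ZMod 2)) ×ˢ
        ((D.A v).powerset.filter (fun u => u.card ≤ 2))).card := by
    apply Finset.card_le_card_of_injOn
      (fun k => (((fun i : ↥(D.T v) => D.cf (F k) i.1), ef (F k)), D.su (F k) v))
    · intro k hk
      rw [mem_coe, mem_range] at hk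
      rw [mem_coe, mem_product]
      exact ⟨mem_univ _, D.su_mem (hF k (by omega)) v⟩
    · intro k hk l hl hkl
      rw [mem_coe, mem_range] at hk hl
      have e1 := congrArg (fun z => z.1.1) hkl
      have e2 := congrArg (fun z => z.1.2) hkl
      have e3 := congrArg (fun z => z.2) hkl
      simp only at e1 e2 e3
      have e4 : ∀ i, D.pos i = v → D.cf (F k) i = D.cf (F l) i := by
        intro i hi
        by_cases h : D.cf (F k) i = 0
        · rw [h]
          by_contra h2
          have h3 : i ∈ D.su (F l) v := by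
            unfold su
            rw [mem_filter, mem_A]
            exact ⟨hi, fun h4 => h2 h4.symm⟩
          rw [← e3] at h3
          unfold su at h3
          rw [mem_filter] at h3
          exact h3.2 h
        · have h3 : i ∈ D.su (F k) v := by
            unfold su
            rw [mem_filter, mem_A]
            exact ⟨hi, h⟩
          rw [e3] at h3
          unfold su at h3
          rw [mem_filter] at h3
          rw [zmod2_ne_zero h, zmod2_ne_zero h3.2]
      have e5 : D.cf (F k) = D.cf (F l) := by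
        apply D.ext_L D.cf_symm D.cf_symm
        intro i hi
        by_cases h2 : D.pos i = v
        · exact e4 i h2
        by_cases h3 : D.pos (D.σ i) = v
        · rw [← D.cf_symm, ← D.cf_symm (f := F l)]
          exact e4 _ h3
        have h4 : i ∈ D.T v := by
          unfold T
          rw [mem_filter]
          exact ⟨hi, h2, h3⟩
        exact congrFun e1 ⟨i, h4⟩
      have l1 := D.len_cyc (hF k (by omega)) (hA k (by omega))
      have l2 := D.len_cyc (hF l (by omega)) (hA l (by omega))
      rw [e5, e2, l2] at l1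
      omega
  rw [card_range, card_product, Finset.card_univ, Fintype.card_prod, Fintype.card_fun, ZMod.card,
    Fintype.card_coe] at h1
  have h2 := D.T_card v
  have h3 := small_subsets (D.A v)
  calc (N + 1) * 2 ^ (D.A v).card
      ≤ (2 ^ (D.T v).card * 2 * ((D.A v).powerset.filter (fun u => u.card ≤ 2)).card) *
          2 ^ (D.A v).card := Nat.mul_le_mul_right _ h1
    _ ≤ (2 ^ (D.T v).card * 2 * (1 + (D.A v).card) ^ 2) * 2 ^ (D.A v).card :=
        Nat.mul_le_mul_right _ (Nat.mul_le_mul_left _ h3)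
    _ = 2 ^ (D.L.card + 1) * (1 + (D.A v).card) ^ 2 := by
        rw [← h2, pow_succ, pow_add]
        ring

end Chd

lemma exists_deg (B : ℕ) : ∃ Δ : ℕ, ∀ d : ℕ, 2 ^ d ≤ B * (1 + d) ^ 2 → d ≤ Δ := by
  have h1 := tendsto_pow_const_div_const_pow_of_one_lt 2 (one_lt_two : (1 : ℝ) < 2)
  have h2 := (Filter.tendsto_add_atTop_iff_nat 1).2 h1
  have h3 : ∀ᶠ d : ℕ in Filter.atTop, ((d + 1 : ℕ) : ℝ) ^ 2 / 2 ^ (d + 1) < 1 / (2 * (B + 1)) :=
    h2.eventually_lt_const (by positivity)
  obtain ⟨Δ, hΔ⟩ := Filter.eventually_atTop.1 h3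
  refine ⟨Δ, fun d hd => ?_⟩
  by_contra hcon
  push Not at hcon
  have h4 := hΔ d hcon.le
  rw [div_lt_div_iff₀ (by positivity) (by positivity)] at h4
  have h5 : (2 : ℝ) ^ d ≤ B * (1 + d) ^ 2 := by exact_mod_cast hd
  have h6 : ((d + 1 : ℕ) : ℝ) = 1 + d := by push_cast; ring
  rw [h6, pow_succ (2 : ℝ) d] at h4
  have h7 : (0 : ℝ) < (1 + d) ^ 2 := by positivity
  nlinarith

end Pool.Agent.LibMP58b56d
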