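import Mathlib
import Pool.Prelude.Def_F_f8d9b3e1
import Pool.Agent.LibMP58b56d.RedC

/-!
# Task C, part D: from pancyclic graphs to data
-/

set_option autoImplicit false

open Finset Classical

namespace Pool.Agent.LibMP58b56d

section build

variable {N : ℕ} (G : SimpleGraph (Fin (N + 3)))

/-- ordered non-Hamiltonian adjacent pairs -/
noncomputable def SS : Finset (Fin (N + 3) × Fin (N + 3)) :=
  univ.filter (fun p => G.Adj p.1 p.2 ∧ p.2 ≠ p.1 + 1 ∧ p.2 ≠ p.1 - 1)

variable {G}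

lemma mem_SS {p : Fin (N + 3) × Fin (N + 3)} :
    p ∈ SS G ↔ G.Adj p.1 p.2 ∧ p.2 ≠ p.1 + 1 ∧ p.2 ≠ p.1 - 1 := by
  simp [SS]

lemma swap_SS {p : Fin (N + 3) × Fin (N + 3)} (h : p ∈ SS G) : p.swap ∈ SS G := by
  rw [mem_SS] at h ⊢
  refine ⟨h.1.symm, ?_, ?_⟩
  · intro h1
    apply h.2.2
    rw [Prod.fst_swap, Prod.snd_swap] at h1
    rw [h1, fin_add_sub]
  · intro h1
    apply h.2.1
    rw [Prod.fst_swap, Prod.snd_swap] at h1
    rw [h1, fin_sub_add]

lemma card_SS (hH : ∀ a, G.Adj a (a + 1)) :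
    (SS G).card + 2 * (N + 3) = 2 * G.edgeFinset.card := by
  rw [← SimpleGraph.sum_degrees_eq_twice_card_edges]
  have h0 : ∀ a, G.degree a = ∑ b, (if G.Adj a b then 1 else 0 : ℕ) := by
    intro a
    rw [← SimpleGraph.card_neighborFinset_eq_degree, ← Finset.card_filter]
    congr 1
    ext b
    simp
  simp only [h0]
  have h1 : ∀ a, ∑ b, (if G.Adj a b then 1 else 0 : ℕ) =
      ∑ b, (if G.Adj a b ∧ b ≠ a + 1 ∧ b ≠ a - 1 then 1 else 0 : ℕ) + 2 := by
    intro a
    have hm : G.Adj a (a - 1) := by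
      have := hH (a - 1)
      rw [fin_sub_add] at this
      exact this.symm
    have h2 : ∀ b, (if G.Adj a b then 1 else 0 : ℕ) =
        (if G.Adj a b ∧ b ≠ a + 1 ∧ b ≠ a - 1 then 1 else 0 : ℕ) +
        ((if b = a + 1 then 1 else 0) + (if b = a - 1 then 1 else 0)) := by
      intro b
      by_cases h3 : b = a + 1
      · have h4 : b ≠ a - 1 := fun h => fin_add_one_ne_sub_one a (h3.symm.trans h)
        rw [if_pos (by rw [h3]; exact hH a), if_neg (fun h => h.2.1 h3), if_pos h3, if_neg h4]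
      · by_cases h4 : b = a - 1
        · rw [if_pos (by rw [h4]; exact hm), if_neg (fun h => h.2.2 h4), if_neg h3, if_pos h4]
        · rw [if_neg h3, if_neg h4]
          by_cases h5 : G.Adj a b
          · rw [if_pos h5, if_pos ⟨h5, h3, h4⟩]
          · rw [if_neg h5, if_neg (fun h => h5 h.1)]
    simp only [h2, Finset.sum_add_distrib]
    simp
  simp only [h1, Finset.sum_add_distrib]
  have h5 : (SS G).card = ∑ a, ∑ b, (if G.Adj a b ∧ b ≠ a + 1 ∧ b ≠ a - 1 then 1 else 0 : ℕ) := by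
    unfold SS
    rw [Finset.card_filter, Fintype.sum_prod_type]
  rw [h5]
  simp
  ring

lemma exists_Chd (hH : ∀ a, G.Adj a (a + 1)) {m : ℕ} (hm : (SS G).card = m + 1) :
    Nonempty (Chd G m) := by
  obtain ⟨e0⟩ : Nonempty (Fin (m + 1) ≃ ↥(SS G)) := by
    exact ⟨(Finset.equivFinOfCardEq hm).symm⟩
  let g : Fin (m + 1) → Fin (N + 3) := fun i => (e0 i).1.1
  let e : Fin (m + 1) ≃ ↥(SS G) := (Tuple.sort g).trans e0
  have hmono : Monotone (fun i => (e i).1.1) := Tuple.monotone_sort g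
  have hS : ∀ i, (e i).1 ∈ SS G := fun i => (e i).2
  let s : Fin (m + 1) → Fin (m + 1) := fun i => e.symm ⟨(e i).1.swap, swap_SS (hS i)⟩
  have hs : ∀ i, (e (s i)).1 = (e i).1.swap := by
    intro i
    simp only [s, Equiv.apply_symm_apply]
  refine ⟨⟨fun i => (e i).1.1, s, ?_, hmono, ?_, ?_, ?_, ?_, hH, ?_⟩⟩
  · intro i
    apply e.injective
    apply Subtype.ext
    rw [hs, hs, Prod.swap_swap]
  · intro i
    simp only [hs]
    exact (mem_SS.1 (hS i)).1
  · intro i
    simp only [hs]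
    exact (mem_SS.1 (hS i)).2.1
  · intro i
    simp only [hs]
    exact (mem_SS.1 (hS i)).2.2
  · intro i j h1 h2
    simp only [hs, Prod.fst_swap] at h1 h2
    apply e.injective
    apply Subtype.ext
    exact Prod.ext h1 h2
  · intro a b h1 h2 h3
    refine ⟨e.symm ⟨(a, b), mem_SS.2 ⟨h1, h2, h3⟩⟩, ?_, ?_⟩
    · simp
    · simp only [hs]
      simp

end build

/-- cycles in a graph as injective closed walks -/
lemma copy_walk {V : Type} {G : SimpleGraph V} {k : ℕ} (h : (SimpleGraph.cycleGraph (k + 3)).IsContained G) :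
    ∃ f : Fin (k + 3) → V, Function.Injective f ∧ ∀ j, G.Adj (f j) (f (j + 1)) := by
  obtain ⟨φ⟩ := h
  refine ⟨φ, φ.injective, fun j => φ.toHom.map_adj ?_⟩
  rw [SimpleGraph.cycleGraph_adj]
  right
  exact sub_eq_iff_eq_add.2 (add_comm _ _)

lemma no_triangle {N : ℕ} {G : SimpleGraph (Fin (N + 4))} (hS : ∀ a b, G.Adj a b → b = a + 1 ∨ b = a - 1)
    (x y z : Fin (N + 4)) (h1 : G.Adj x y) (h2 : G.Adj y z) (h3 : G.Adj z x) : False := by
  have key1 : ∀ a : Fin (N + 4), a + 1 ≠ a := by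
    intro a h
    simp at h
  have key3 : ∀ a : Fin (N + 4), a + 1 + 1 + 1 ≠ a := by
    intro a h
    have h4 : (1 + 1 + 1 : Fin (N + 4)) = 0 := by
      have h5 : a + (1 + 1 + 1) = a + 0 := by
        rw [add_zero, ← add_assoc, ← add_assoc]; exact h
      exact add_left_cancel h5
    have h6 := congrArg Fin.val h4
    simp [Fin.val_add] at h6
    rw [Nat.mod_eq_of_lt (by omega)] at h6
    omega
  rcases hS x y h1 with h | h
  · subst h
    rcases hS _ z h2 with h | h
    · subst h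
      rcases hS _ x h3 with h | h
      · exact key3 x h.symm
      · rw [fin_add_sub] at h
        exact key1 x h.symm
    · rw [fin_add_sub] at h
      subst h
      exact G.irrefl h3
  · have hx : x = y + 1 := by rw [h, fin_sub_add]
    subst hx
    rcases hS _ z h2 with h | h
    · subst h
      exact G.irrefl h3
    · have hy : y = z + 1 := by rw [h, fin_sub_add]
      subst hy
      rcases hS _ _ h3 with h | h
      · exact key1 (z + 1) h
      · have : z + 1 + 1 + 1 = z := by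
          rw [h, fin_sub_add]
        exact key3 z this

/-- the data of a pancyclic graph with few edges -/
theorem datum_of_graph (C0 Δ : ℕ) (hΔ : ∀ d : ℕ, 2 ^ d ≤ (6 * 2 ^ C0) * (1 + d) ^ 2 → d ≤ Δ)
    {N t : ℕ} (G : SimpleGraph (Fin (N + 4))) (hH : ∀ a, G.Adj a (a + 1))
    (hE' : G.edgeSet.ncard = (N + 4) + t)
    (hC : ∀ k, k ≤ N + 1 → (SimpleGraph.cycleGraph (k + 3)).IsContained G)
    (ht : 2 ^ t ≤ 2 ^ C0 * (N + 4)) : Nonempty (Datum (2 ^ (C0 + 1)) Δ (N + 4)) := by
  have hE : G.edgeFinset.card = (N + 4) + t := by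
    rw [← hE', Set.ncard_eq_toFinset_card', SimpleGraph.edgeFinset]
  have hcard := card_SS (N := N + 1) (G := G) hH
  have hS2 : (SS (N := N + 1) G).card = 2 * t := by
    rw [hE] at hcard
    omega
  have htpos : t ≠ 0 := by
    intro h
    rw [h] at hS2
    have hempty : ∀ a b, G.Adj a b → b = a + 1 ∨ b = a - 1 := by
      intro a b hab
      by_contra hcon
      push Not at hcon
      have h1 : (a, b) ∈ SS (N := N + 1) G := mem_SS.2 ⟨hab, hcon.1, hcon.2⟩
      have h2 := Finset.card_pos.2 ⟨_, h1⟩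
      omega
    obtain ⟨f, hf1, hf2⟩ := copy_walk (hC 0 (by omega))
    exact no_triangle hempty (f 0) (f 1) (f 2) (hf2 0) (hf2 1) (hf2 2)
  obtain ⟨m, hm⟩ : ∃ m, 2 * t = m + 1 := ⟨2 * t - 1, by omega⟩
  rw [hm] at hS2
  obtain ⟨D⟩ := exists_Chd (N := N + 1) hH hS2
  have hL : D.L.card = t := by
    have := D.two_L
    omega
  have hex : ∀ k, ∃ f : Fin (k + 3) → Fin (N + 4), k ≤ N + 1 →
      (Function.Injective f ∧ ∀ j, G.Adj (f j) (f (j + 1))) := by
    intro k
    by_cases hk : k ≤ N + 1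
    · obtain ⟨f, hf⟩ := copy_walk (hC k hk)
      exact ⟨f, fun _ => hf⟩
    · exact ⟨fun _ => 0, fun h => absurd h hk⟩
  choose F hF using hex
  have hF1 : ∀ k ≤ N + 1, Function.Injective (F k) := fun k hk => (hF k hk).1
  have hF2 : ∀ k ≤ N + 1, ∀ j, G.Adj (F k j) (F k (j + 1)) := fun k hk => (hF k hk).2
  have hdeg : ∀ v, (univ.filter (fun i => D.pos i = v)).card ≤ Δ := by
    intro v
    have h1 := D.deg_bound F hF1 hF2 v
    change (D.A v).card ≤ Δ
    generalize (D.A v).card = d at *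
    apply hΔ
    rw [hL, pow_succ] at h1
    have h2 : (N + 1 + 1) * 2 ^ d ≤ (N + 1 + 1) * (6 * 2 ^ C0 * (1 + d) ^ 2) := by
      calc (N + 1 + 1) * 2 ^ d ≤ 2 ^ t * 2 * (1 + d) ^ 2 := h1
        _ ≤ (2 ^ C0 * (N + 4)) * 2 * (1 + d) ^ 2 := by gcongr
        _ ≤ (2 ^ C0 * (3 * (N + 1 + 1))) * 2 * (1 + d) ^ 2 := by
            gcongr
            omega
        _ = (N + 1 + 1) * (6 * 2 ^ C0 * (1 + d) ^ 2) := by ring
    exact Nat.le_of_mul_le_mul_left h2 (by omega)
  refine ⟨{ m := m + 1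
            G := D.cub
            conn := D.connected
            brless := D.bridgeless
            w := D.w
            wι := D.wι
            ω := fun k => Chd.lift (D.cf (F (k - 3))) (Chd.ef (F (k - 3)))
            circ := ?_
            len := ?_
            cov := ?_
            card := ?_ }⟩
  · intro k hk hk2
    exact D.circ_lift (hF1 (k - 3) (by omega)) (hF2 (k - 3) (by omega))
  · intro k hk hk2
    rw [D.len_cyc (hF1 (k - 3) (by omega)) (hF2 (k - 3) (by omega))]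
    omega
  · intro k hk hk2
    refine (D.cover_card (hF1 (k - 3) (by omega)) (hF2 (k - 3) (by omega)) Δ hdeg).trans ?_
    exact le_of_eq (by congr 1; omega)
  · refine D.zs_card_le.trans ?_
    rw [hL, pow_succ, pow_succ]
    calc 2 ^ t * 2 ≤ (2 ^ C0 * (N + 4)) * 2 := Nat.mul_le_mul_right _ ht
      _ = 2 ^ C0 * 2 * (N + 4) := by ring

/-- relabelling along a Hamiltonian cycle -/
theorem datum_of_graph' (C0 Δ : ℕ) (hΔ : ∀ d : ℕ, 2 ^ d ≤ (6 * 2 ^ C0) * (1 + d) ^ 2 → d ≤ Δ)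
    {N t : ℕ} (G : SimpleGraph (Fin (N + 4)))
    (hE : G.edgeSet.ncard = (N + 4) + t)
    (hC : N289fa9c1.HasAllCycleLengths G)
    (ht : 2 ^ t ≤ 2 ^ C0 * (N + 4)) : Nonempty (Datum (2 ^ (C0 + 1)) Δ (N + 4)) := by
  have hC2 : ∀ k, k ≤ N + 1 → (SimpleGraph.cycleGraph (k + 3)).IsContained G := by
    intro k hk
    apply hC (k + 3) (by omega)
    rw [Fintype.card_fin]
    omega
  obtain ⟨φ, hφ1, hφ2⟩ := copy_walk (hC2 (N + 1) le_rfl)
  let φ' : Fin (N + 4) → Fin (N + 4) := φ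
  have hφ1' : Function.Injective φ' := hφ1
  let e : Fin (N + 4) ≃ Fin (N + 4) := Equiv.ofBijective φ' (Finite.injective_iff_bijective.1 hφ1')
  let I : G.comap e ≃g G := SimpleGraph.Iso.comap e G
  apply datum_of_graph C0 Δ hΔ (N := N) (t := t) (G.comap e)
  · intro a
    exact hφ2 a
  · rw [← hE]
    exact Nat.card_congr I.mapEdgeSet
  · intro k hk
    exact (hC2 k hk).trans ⟨I.symm.toCopy⟩
  · exact ht

lemma h_mem {n : ℕ} (hn : 3 ≤ n) : ∃ G : SimpleGraph (Fin n),
    G.edgeSet.ncard = n + N289fa9c1.h n ∧ N289fa9c1.HasAllCycleLengths G := by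
  have hne : {t | ∃ G : SimpleGraph (Fin n), G.edgeSet.ncard = n + t ∧
      N289fa9c1.HasAllCycleLengths G}.Nonempty := by
    refine ⟨n.choose 2 - n, ⊤, ?_, ?_⟩
    · have h1 : (⊤ : SimpleGraph (Fin n)).edgeFinset.card = n.choose 2 := by
        rw [SimpleGraph.card_edgeFinset_top_eq_card_choose_two, Fintype.card_fin]
      have h2 : (⊤ : SimpleGraph (Fin n)).edgeSet.ncard = n.choose 2 := by
        rw [← h1, Set.ncard_eq_toFinset_card', SimpleGraph.edgeFinset]
      rw [h2]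
      have h3 : n ≤ n.choose 2 := by
        rw [Nat.choose_two_right, Nat.le_div_iff_mul_le (by norm_num)]
        exact Nat.mul_le_mul_left _ (by omega)
      omega
    · intro k _ hk
      rw [Fintype.card_fin] at hk
      exact SimpleGraph.isContained_top_iff.2 ⟨Fin.castLEEmb hk⟩
  exact Nat.sInf_mem hne

end Pool.Agent.LibMP58b56d
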