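import Mathlib
import Pool.Prelude.Def_F_f8d9b3e1
import Pool.Agent.LibMP58b56d.Interface
import Pool.Agent.LibMP58b56d.RedD

set_option autoImplicit false

open Finset Classical

namespace Pool.Agent.LibMP58b56d

/-- task C -/
theorem reduction
    (h : ¬ Filter.Tendsto (fun n : ℕ ↦ (N289fa9c1.h n : ℝ) - Real.logb 2 (n : ℝ))
      Filter.atTop Filter.atTop) :
    ∃ C Δ : ℕ, ∀ n0 : ℕ, ∃ n, n0 ≤ n ∧ Nonempty (Datum C Δ n) := by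
  rw [Filter.tendsto_atTop] at h
  push Not at h
  obtain ⟨b, hb⟩ := h
  obtain ⟨Δ, hΔ⟩ := exists_deg (6 * 2 ^ ⌈b⌉₊)
  refine ⟨2 ^ (⌈b⌉₊ + 1), Δ, fun n0 => ?_⟩
  rw [Filter.frequently_atTop] at hb
  obtain ⟨n, hn1, hn2⟩ := hb (max n0 4)
  have hn3 : 4 ≤ n := le_trans (le_max_right _ _) hn1
  refine ⟨n, le_trans (le_max_left _ _) hn1, ?_⟩
  obtain ⟨G, hG1, hG2⟩ := h_mem (n := n) (by omega)
  have hn0 : (0 : ℝ) < n := by
    have : 0 < n := by omega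
    exact_mod_cast this
  have ht : 2 ^ (N289fa9c1.h n) ≤ 2 ^ ⌈b⌉₊ * n := by
    have h1 : (N289fa9c1.h n : ℝ) ≤ Real.logb 2 n + ⌈b⌉₊ := by
      have := Nat.le_ceil b
      linarith
    have h2 : (2 : ℝ) ^ (N289fa9c1.h n : ℝ) ≤ 2 ^ (Real.logb 2 n + (⌈b⌉₊ : ℝ)) :=
      Real.rpow_le_rpow_of_exponent_le (by norm_num) h1
    rw [Real.rpow_add (by norm_num), Real.rpow_logb (by norm_num) (by norm_num) hn0,
      Real.rpow_natCast, Real.rpow_natCast] at h2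
    have h3 : ((2 ^ (N289fa9c1.h n) : ℕ) : ℝ) ≤ ((2 ^ ⌈b⌉₊ * n : ℕ) : ℝ) := by
      push_cast
      linarith
    exact_mod_cast h3
  obtain ⟨N, rfl⟩ : ∃ N, n = N + 4 := ⟨n - 4, by omega⟩
  exact datum_of_graph' ⌈b⌉₊ Δ hΔ G hG1 hG2 ht

end Pool.Agent.LibMP58b56d
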