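import Mathlib
import Pool.Agent.LibMP58b56d.Site
import Pool.Agent.LibMP58b56d.Terminal
import Pool.Agent.LibMP58b56d.Explore

set_option autoImplicit false

open Finset Classical

namespace Pool.Agent.LibMP58b56d

section rootsite

variable {V : Type}

/-! ### closed neighbourhoods -/

/-- equal or adjacent -/
def Cub.RsAdj (G : Cub V) (u v : V) : Prop := u = v ∨ ∃ i, (G.ι (u, i)).1 = v

lemma Cub.RsAdj.symm {G : Cub V} {u v : V} (h : G.RsAdj u v) : G.RsAdj v u := by
  rcases h with h | ⟨i, hi⟩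
  · exact Or.inl h.symm
  · right
    refine ⟨(G.ι (u, i)).2, ?_⟩
    have h1 : (v, (G.ι (u, i)).2) = G.ι (u, i) := by
      rw [← hi]
    rw [h1, G.inv]

lemma Cub.rs_adj1_iota (G : Cub V) (a : Dt V) : G.RsAdj (G.ι a).1 a.1 := by
  right
  refine ⟨(G.ι a).2, ?_⟩
  change (G.ι (G.ι a)).1 = a.1
  rw [G.inv]

variable [Fintype V]

lemma Cub.rs_mem_N {G : Cub V} {S : Finset V} {v : V} : v ∈ G.N S ↔ ∃ w ∈ S, G.RsAdj v w := by
  unfold Cub.N Cub.RsAdj
  simp only [Finset.mem_union, Finset.mem_filter, Finset.mem_univ, true_and]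
  constructor
  · rintro (h | ⟨i, hi⟩)
    · exact ⟨v, h, Or.inl rfl⟩
    · exact ⟨_, hi, Or.inr ⟨i, rfl⟩⟩
  · rintro ⟨w, hw, h | ⟨i, hi⟩⟩
    · left; rwa [h]
    · right; exact ⟨i, by rwa [hi]⟩

lemma Cub.rs_N_mono {G : Cub V} {S T : Finset V} (h : S ⊆ T) : G.N S ⊆ G.N T := by
  intro v hv
  rw [Cub.rs_mem_N] at hv ⊢
  obtain ⟨w, hw, h'⟩ := hv
  exact ⟨w, h hw, h'⟩

lemma Cub.rs_self_sub_N {G : Cub V} {S : Finset V} : S ⊆ G.N S := by
  intro v hv
  rw [Cub.rs_mem_N]
  exact ⟨v, hv, Or.inl rfl⟩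

lemma Cub.rs_Nk_mono {G : Cub V} (k : ℕ) {S T : Finset V} (h : S ⊆ T) :
    (G.N)^[k] S ⊆ (G.N)^[k] T := by
  induction k generalizing S T with
  | zero => exact h
  | succ k ih =>
    rw [Function.iterate_succ_apply, Function.iterate_succ_apply]
    exact ih (Cub.rs_N_mono h)

lemma Cub.rs_Nk_le {G : Cub V} {k m : ℕ} (hkm : k ≤ m) (S : Finset V) :
    (G.N)^[k] S ⊆ (G.N)^[m] S := by
  induction m with
  | zero =>
    have : k = 0 := by omega
    subst this
    exact Finset.Subset.refl _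
  | succ m ih =>
    rcases Nat.lt_or_ge m k with h | h
    · have : k = m + 1 := by omega
      subst this
      exact Finset.Subset.refl _
    · rw [Function.iterate_succ_apply']
      exact (ih h).trans Cub.rs_self_sub_N

lemma Cub.rs_mem_Nk {G : Cub V} (k : ℕ) {S : Finset V} {v : V} :
    v ∈ (G.N)^[k] S ↔ ∃ w ∈ S, v ∈ (G.N)^[k] {w} := by
  induction k generalizing v with
  | zero => simp
  | succ k ih =>
    rw [Function.iterate_succ_apply', Cub.rs_mem_N]
    constructor
    · rintro ⟨w, hw, h⟩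
      rw [ih] at hw
      obtain ⟨w', hw', h'⟩ := hw
      refine ⟨w', hw', ?_⟩
      rw [Function.iterate_succ_apply', Cub.rs_mem_N]
      exact ⟨w, h', h⟩
    · rintro ⟨w, hw, h⟩
      rw [Function.iterate_succ_apply', Cub.rs_mem_N] at h
      obtain ⟨w', hw', h'⟩ := h
      exact ⟨w', ih.2 ⟨w, hw, hw'⟩, h'⟩

lemma Cub.rs_Nk_symm {G : Cub V} (k : ℕ) {u v : V} (h : u ∈ (G.N)^[k] {v}) :
    v ∈ (G.N)^[k] {u} := by
  induction k generalizing u v with
  | zero =>
    simp only [Function.iterate_zero, id_eq, Finset.mem_singleton] at h ⊢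
    exact h.symm
  | succ k ih =>
    rw [Function.iterate_succ_apply', Cub.rs_mem_N] at h
    obtain ⟨w, hw, h'⟩ := h
    rw [Function.iterate_succ_apply, Cub.rs_mem_Nk]
    refine ⟨w, ?_, ih hw⟩
    rw [Cub.rs_mem_N]
    exact ⟨u, Finset.mem_singleton_self _, h'.symm⟩

lemma Cub.rs_card_N_le (G : Cub V) (S : Finset V) : (G.N S).card ≤ 4 * S.card := by
  have h1 : G.N S ⊆ S ∪ (S ×ˢ (univ : Finset (Fin 3))).image (fun d => (G.ι d).1) := by
    intro v hv
    rw [Cub.rs_mem_N] at hv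
    obtain ⟨w, hw, h⟩ := hv
    rw [Finset.mem_union]
    rcases h.symm with h | ⟨i, hi⟩
    · left; rwa [← h]
    · right
      rw [Finset.mem_image]
      exact ⟨(w, i), by simp [hw], hi⟩
  have h2 := (Finset.card_le_card h1).trans (Finset.card_union_le _ _)
  have h3 : ((S ×ˢ (univ : Finset (Fin 3))).image (fun d => (G.ι d).1)).card ≤ S.card * 3 := by
    refine Finset.card_image_le.trans ?_
    rw [Finset.card_product]
    simp
  omega

lemma Cub.rs_card_Nk_le (G : Cub V) (k : ℕ) (S : Finset V) :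
    ((G.N)^[k] S).card ≤ 4 ^ k * S.card := by
  induction k with
  | zero => simp
  | succ k ih =>
    rw [Function.iterate_succ_apply']
    have h1 := G.rs_card_N_le ((G.N)^[k] S)
    have h2 : 4 ^ (k + 1) * S.card = 4 * (4 ^ k * S.card) := by ring
    omega

/-- greedy choice of centres of disjoint balls -/
lemma Cub.rs_greedy (G : Cub V) (ℓ M : ℕ) (Q : Finset V) (hQ : M * 4 ^ (2 * ℓ) < Q.card) :
    ∃ f : Fin M → V, (∀ i, f i ∈ Q) ∧
      ∀ i j, i ≠ j → Disjoint ((G.N)^[ℓ] {f i}) ((G.N)^[ℓ] {f j}) := by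
  have key : ∀ k, k ≤ M → ∃ f : ℕ → V, (∀ i < k, f i ∈ Q) ∧
      ∀ i < k, ∀ j < k, i ≠ j → Disjoint ((G.N)^[ℓ] {f i}) ((G.N)^[ℓ] {f j}) := by
    intro k
    induction k with
    | zero =>
      intro _
      obtain ⟨v, _⟩ := Finset.card_pos.1 (lt_of_le_of_lt (Nat.zero_le _) hQ)
      exact ⟨fun _ => v, by simp, by simp⟩
    | succ k ih =>
      intro hk
      obtain ⟨f, hf, hf'⟩ := ih (by omega)
      have h1 : ((G.N)^[2 * ℓ] ((Finset.range k).image f)).card < Q.card := by
        refine lt_of_le_of_lt (G.rs_card_Nk_le _ _) (lt_of_le_of_lt ?_ hQ)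
        have h2 : ((Finset.range k).image f).card ≤ k := by
          refine Finset.card_image_le.trans ?_
          simp
        have h3 : ((Finset.range k).image f).card ≤ M := by omega
        calc 4 ^ (2 * ℓ) * ((Finset.range k).image f).card ≤ 4 ^ (2 * ℓ) * M :=
              Nat.mul_le_mul_left _ h3
          _ = M * 4 ^ (2 * ℓ) := by ring
      obtain ⟨v, hv, hv'⟩ := Finset.exists_mem_notMem_of_card_lt_card h1
      have h4 : ∀ i < k, Disjoint ((G.N)^[ℓ] {f i}) ((G.N)^[ℓ] {v}) := by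
        intro i hi
        rw [Finset.disjoint_left]
        intro x hx hx'
        apply hv'
        rw [two_mul, Function.iterate_add_apply, Cub.rs_mem_Nk]
        refine ⟨x, ?_, Cub.rs_Nk_symm ℓ hx'⟩
        rw [Cub.rs_mem_Nk]
        exact ⟨f i, Finset.mem_image_of_mem _ (Finset.mem_range.2 hi), hx⟩
      refine ⟨fun i => if i < k then f i else v, ?_, ?_⟩
      · intro i hi
        by_cases h : i < k
        · simp only [h, if_true]
          exact hf i h
        · simp only [h, if_false]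
          exact hv
      · intro i hi j hj hij
        by_cases h : i < k
        · by_cases h' : j < k
          · simp only [h, h', if_true]
            exact hf' i h j h' hij
          · simp only [h, h', if_true, if_false]
            exact h4 i h
        · by_cases h' : j < k
          · simp only [h, h', if_true, if_false]
            exact (h4 j h').symm
          · omega
  obtain ⟨f, hf, hf'⟩ := key M le_rfl
  exact ⟨fun i => f i, fun i => hf i i.2, fun i j hij =>
    hf' i i.2 j j.2 (fun h => hij (Fin.ext h))⟩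

/-! ### descendant balls -/

lemma rs_fin3_add_one_ne : ∀ i : Fin 3, i + 1 ≠ i := by decide

lemma rs_fin3_add_two_ne : ∀ i : Fin 3, i + 2 ≠ i := by decide

lemma rs_fin3_sum (f : Fin 3 → ZMod 2) : ∀ i : Fin 3, ∑ j, f j = f i + f (i + 1) + f (i + 2) := by
  intro i
  rw [Fin.sum_univ_three]
  fin_cases i
  · rfl
  · change f 0 + f 1 + f 2 = f 1 + f 2 + f 0
    ring
  · change f 0 + f 1 + f 2 = f 2 + f 0 + f 1
    ring

omit [Fintype V] in
lemma Cub.rs_ch_fst (G : Cub V) (f : Bool) (a : Dt V) : (G.ch f a).1 = (G.ι a).1 := rfl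

omit [Fintype V] in
lemma Cub.rs_ch_ne (G : Cub V) (f : Bool) (a : Dt V) : G.ch f a ≠ G.ι a := by
  intro h
  have h1 := congrArg Prod.snd h
  unfold Cub.ch at h1
  cases f
  · exact rs_fin3_add_two_ne _ h1
  · exact rs_fin3_add_one_ne _ h1

omit [Fintype V] in
lemma Cub.rs_ch_sum {G : Cub V} {x : Vec V} (hx : x ∈ G.Z) (a : Dt V) :
    x a + x (G.ch true a) + x (G.ch false a) = 0 := by
  have h1 := hx.2 (G.ι a).1
  rw [rs_fin3_sum _ (G.ι a).2] at h1
  rw [← hx.1 a]
  exact h1

/-- descendant balls -/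
noncomputable def Cub.rsTr (G : Cub V) : ℕ → Dt V → Finset V
  | 0, _ => ∅
  | n + 1, a => insert (G.ι a).1 (Cub.rsTr G n (G.ch true a) ∪ Cub.rsTr G n (G.ch false a))

/-- the descendant ball is a tree -/
def Cub.RsTree (G : Cub V) : ℕ → Dt V → Prop
  | 0, _ => True
  | n + 1, a => (G.ι a).1 ∉ G.rsTr n (G.ch true a) ∧ (G.ι a).1 ∉ G.rsTr n (G.ch false a) ∧
      Disjoint (G.rsTr n (G.ch true a)) (G.rsTr n (G.ch false a)) ∧
      Cub.RsTree G n (G.ch true a) ∧ Cub.RsTree G n (G.ch false a)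

/-- internal darts of a vertex set -/
noncomputable def Cub.rsInt (G : Cub V) (S : Finset V) : Finset (Dt V) :=
  univ.filter (fun d : Dt V => d.1 ∈ S ∧ (G.ι d).1 ∈ S)

lemma Cub.rs_mem_intd {G : Cub V} {S : Finset V} {d : Dt V} :
    d ∈ G.rsInt S ↔ d.1 ∈ S ∧ (G.ι d).1 ∈ S := by
  simp [Cub.rsInt]

omit [Fintype V] in
lemma Cub.rs_tr_succ (G : Cub V) (n : ℕ) (a : Dt V) : G.rsTr (n + 1) a =
    insert (G.ι a).1 (G.rsTr n (G.ch true a) ∪ G.rsTr n (G.ch false a)) := rfl

lemma Cub.rs_tr_mono (G : Cub V) {n m : ℕ} (h : n ≤ m) (a : Dt V) : G.rsTr n a ⊆ G.rsTr m a := by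
  induction n generalizing m a with
  | zero => exact Finset.empty_subset _
  | succ n ih =>
    obtain ⟨m, rfl⟩ : ∃ k, m = k + 1 := ⟨m - 1, by omega⟩
    rw [Cub.rs_tr_succ, Cub.rs_tr_succ]
    exact Finset.insert_subset_insert _
      (Finset.union_subset_union (ih (by omega) _) (ih (by omega) _))

lemma Cub.rs_tr_ch_sub (G : Cub V) (n : ℕ) (f : Bool) (a : Dt V) :
    G.rsTr n (G.ch f a) ⊆ G.rsTr (n + 1) a := by
  rw [Cub.rs_tr_succ]
  cases f
  · exact (Finset.subset_union_right).trans (Finset.subset_insert _ _)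
  · exact (Finset.subset_union_left).trans (Finset.subset_insert _ _)

lemma Cub.RsTree.mono {G : Cub V} {n m : ℕ} (h : n ≤ m) {a : Dt V} (ha : G.RsTree m a) :
    G.RsTree n a := by
  induction n generalizing m a with
  | zero => trivial
  | succ n ih =>
    obtain ⟨m, rfl⟩ : ∃ k, m = k + 1 := ⟨m - 1, by omega⟩
    obtain ⟨h1, h2, h3, h4, h5⟩ := ha
    have hnm : n ≤ m := by omega
    exact ⟨fun h => h1 (G.rs_tr_mono hnm _ h), fun h => h2 (G.rs_tr_mono hnm _ h),
      Finset.disjoint_of_subset_left (G.rs_tr_mono hnm _)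
        (Finset.disjoint_of_subset_right (G.rs_tr_mono hnm _) h3), ih hnm h4, ih hnm h5⟩

lemma Cub.rs_tr_sub_N (G : Cub V) (n : ℕ) (a : Dt V) : G.rsTr n a ⊆ (G.N)^[n] {a.1} := by
  induction n generalizing a with
  | zero => exact Finset.empty_subset _
  | succ n ih =>
    have h0 : (G.ι a).1 ∈ G.N {a.1} := by
      rw [Cub.rs_mem_N]
      exact ⟨a.1, Finset.mem_singleton_self _, G.rs_adj1_iota a⟩
    have h1 : ∀ f, G.rsTr n (G.ch f a) ⊆ (G.N)^[n + 1] {a.1} := by
      intro f
      refine (ih _).trans ?_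
      rw [Function.iterate_succ_apply]
      refine Cub.rs_Nk_mono n ?_
      rw [Finset.singleton_subset_iff]
      exact h0
    rw [Cub.rs_tr_succ]
    refine Finset.insert_subset ?_ (Finset.union_subset (h1 _) (h1 _))
    rw [Function.iterate_succ_apply]
    exact Cub.rs_Nk_le (Nat.zero_le n) _ h0

/-- balls without circuits are trees -/
theorem Cub.rs_tree_ball {G : Cub V} {W : Finset V}
    (hW : ∀ z ∈ G.Z, (∀ d, z d ≠ 0 → d.1 ∈ W) → z = 0) (n : ℕ) :
    ∀ (S : Finset V) (a : Dt V), a.1 ∈ S → (G.ι a).1 ∉ S →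
      (G.rsInt S).card + 2 = 2 * S.card → S ∪ G.rsTr n a ⊆ W →
      G.RsTree n a ∧ Disjoint S (G.rsTr n a) ∧
        (G.rsInt (S ∪ G.rsTr n a)).card + 2 = 2 * (S ∪ G.rsTr n a).card ∧
        ∀ c, c ≠ a → c.1 ∈ S → (G.ι c).1 ∉ S → (G.ι c).1 ∉ G.rsTr n a := by
  induction n with
  | zero =>
    intro S a ha ha' hS hSW
    refine ⟨trivial, ?_, ?_, ?_⟩
    · exact Finset.disjoint_empty_right _
    · change (G.rsInt (S ∪ ∅)).card + 2 = 2 * (S ∪ ∅).card
      rwa [Finset.union_empty]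
    · intro c _ _ _
      exact Finset.notMem_empty _
  | succ n ih =>
    intro S a ha ha' hS hSW
    -- the new vertex
    have htr := G.rs_tr_succ n a
    have hS'W : insert (G.ι a).1 S ⊆ W := by
      refine Finset.insert_subset ?_ (Finset.subset_union_left.trans hSW)
      apply hSW
      rw [htr]
      exact Finset.mem_union_right _ (Finset.mem_insert_self _ _)
    have hcard : (insert (G.ι a).1 S).card = S.card + 1 := Finset.card_insert_of_notMem ha'
    have hsub : insert a (insert (G.ι a) (G.rsInt S)) ⊆ G.rsInt (insert (G.ι a).1 S) := by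
      intro d hd
      rw [Finset.mem_insert, Finset.mem_insert] at hd
      rw [Cub.rs_mem_intd]
      rcases hd with rfl | rfl | hd
      · exact ⟨Finset.mem_insert_of_mem ha, Finset.mem_insert_self _ _⟩
      · rw [G.inv]
        exact ⟨Finset.mem_insert_self _ _, Finset.mem_insert_of_mem ha⟩
      · rw [Cub.rs_mem_intd] at hd
        exact ⟨Finset.mem_insert_of_mem hd.1, Finset.mem_insert_of_mem hd.2⟩
    have ha1 : G.ι a ∉ G.rsInt S := by
      rw [Cub.rs_mem_intd]
      exact fun h => ha' h.1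
    have ha2 : a ∉ insert (G.ι a) (G.rsInt S) := by
      rw [Finset.mem_insert, Cub.rs_mem_intd]
      rintro (h | h)
      · exact G.nofix a h.symm
      · exact ha' h.2
    have hcard2 : (insert a (insert (G.ι a) (G.rsInt S))).card = (G.rsInt S).card + 2 := by
      rw [Finset.card_insert_of_notMem ha2, Finset.card_insert_of_notMem ha1]
    have hle : (G.rsInt (insert (G.ι a).1 S)).card + 2 ≤ 2 * (insert (G.ι a).1 S).card :=
      G.internal_le (U := insert (G.ι a).1 S) ⟨_, Finset.mem_insert_self _ _⟩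
        (fun z hz hz' => hW z hz (fun d hd => hS'W (hz' d hd)))
    have heq : insert a (insert (G.ι a) (G.rsInt S)) = G.rsInt (insert (G.ι a).1 S) := by
      refine Finset.eq_of_subset_of_card_le hsub ?_
      omega
    have hS' : (G.rsInt (insert (G.ι a).1 S)).card + 2 = 2 * (insert (G.ι a).1 S).card := by
      rw [← heq]
      omega
    -- darts leaving
    have hleave : ∀ c, c ≠ a → c ≠ G.ι a → c ∉ G.rsInt S → c.1 ∈ insert (G.ι a).1 S →
        (G.ι c).1 ∉ insert (G.ι a).1 S := by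
      intro c h1 h2 h3 h4 h5
      have h6 : c ∈ G.rsInt (insert (G.ι a).1 S) := Cub.rs_mem_intd.2 ⟨h4, h5⟩
      rw [← heq, Finset.mem_insert, Finset.mem_insert] at h6
      rcases h6 with h6 | h6 | h6
      · exact h1 h6
      · exact h2 h6
      · exact h3 h6
    have hch : ∀ f, (G.ι (G.ch f a)).1 ∉ insert (G.ι a).1 S := by
      intro f
      refine hleave _ ?_ (G.rs_ch_ne f a) ?_ (Finset.mem_insert_self _ _)
      · intro h
        have := congrArg Prod.fst h
        rw [Cub.rs_ch_fst] at this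
        rw [this] at ha'
        exact ha' ha
      · rw [Cub.rs_mem_intd, Cub.rs_ch_fst]
        exact fun h => ha' h.1
    -- first child
    obtain ⟨t1, t2, t3, t4⟩ := ih (insert (G.ι a).1 S) (G.ch true a)
      (Finset.mem_insert_self _ _) (hch true) hS' (by
        intro x hx
        rw [Finset.mem_union] at hx
        rcases hx with hx | hx
        · exact hS'W hx
        · exact hSW (Finset.mem_union_right _ (G.rs_tr_ch_sub n true a hx)))
    have hne : G.ch false a ≠ G.ch true a := by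
      intro h
      have h1 := congrArg Prod.snd h
      unfold Cub.ch at h1
      simp only [if_true, Bool.false_eq_true, if_false] at h1
      revert h1
      generalize (G.ι a).2 = i
      revert i
      decide
    have h5 : (G.ι (G.ch false a)).1 ∉ G.rsTr n (G.ch true a) :=
      t4 _ hne (Finset.mem_insert_self _ _) (hch false)
    -- second child
    obtain ⟨r1, r2, r3, r4⟩ := ih (insert (G.ι a).1 S ∪ G.rsTr n (G.ch true a)) (G.ch false a)
      (Finset.mem_union_left _ (Finset.mem_insert_self _ _))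
      (by
        rw [Finset.mem_union]
        rintro (h | h)
        · exact hch false h
        · exact h5 h) t3 (by
        intro x hx
        rw [Finset.mem_union, Finset.mem_union] at hx
        rcases hx with (hx | hx) | hx
        · exact hS'W hx
        · exact hSW (Finset.mem_union_right _ (G.rs_tr_ch_sub n true a hx))
        · exact hSW (Finset.mem_union_right _ (G.rs_tr_ch_sub n false a hx)))
    have hunion : insert (G.ι a).1 S ∪ G.rsTr n (G.ch true a) ∪ G.rsTr n (G.ch false a) =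
        S ∪ G.rsTr (n + 1) a := by
      rw [htr]
      ext x
      simp only [Finset.mem_union, Finset.mem_insert]
      tauto
    rw [Finset.disjoint_union_left, Finset.disjoint_insert_left] at r2
    rw [Finset.disjoint_insert_left] at t2
    refine ⟨⟨t2.1, r2.1.1, r2.2, t1, r1⟩, ?_, ?_, ?_⟩
    · rw [htr, Finset.disjoint_insert_right, Finset.disjoint_union_right]
      exact ⟨ha', t2.2, r2.1.2⟩
    · rw [← hunion]
      exact r3
    · intro c hc hcS hcS'
      have e1 : c ≠ G.ι a := by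
        rintro rfl
        exact ha' hcS
      have e2 : c ∉ G.rsInt S := by
        rw [Cub.rs_mem_intd]
        exact fun h => hcS' h.2
      have e3 := hleave c hc e1 e2 (Finset.mem_insert_of_mem hcS)
      have e4 : ∀ f, c ≠ G.ch f a := by
        rintro f rfl
        exact ha' hcS
      have e5 := t4 c (e4 true) (Finset.mem_insert_of_mem hcS) e3
      have e6 := r4 c (e4 false) (Finset.mem_union_left _ (Finset.mem_insert_of_mem hcS)) (by
        rw [Finset.mem_union]
        rintro (h | h)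
        · exact e3 h
        · exact e5 h)
      rw [htr, Finset.mem_insert, Finset.mem_union]
      rintro (h | h | h)
      · exact e3 (by rw [h]; exact Finset.mem_insert_self _ _)
      · exact e5 h
      · exact e6 h

/-! ### free darts in the root context -/

lemma Cub.rs_om_nonempty {G : Cub V} (hbr : G.Bridgeless) (g : Dt V) :
    (G.Om Set.univ g).Nonempty := by
  obtain ⟨z, hz, hzg⟩ := hbr g
  refine ⟨z, ?_⟩
  simp only [Cub.Om, Finset.mem_filter, Finset.mem_univ, true_and]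
  rw [Cub.ZH_univ]
  exact ⟨hz, zmod2_ne_zero hzg⟩

lemma Cub.rs_om_one {G : Cub V} (hbr : G.Bridgeless) {g b : Dt V} (hb : ¬ G.Free Set.univ g b) :
    ∃ x ∈ G.Om Set.univ g, x b = 1 := by
  obtain ⟨z, hz, hzb⟩ := hbr b
  refine ⟨z, ?_, zmod2_ne_zero hzb⟩
  simp only [Cub.Om, Finset.mem_filter, Finset.mem_univ, true_and]
  rw [Cub.ZH_univ]
  refine ⟨hz, zmod2_ne_zero fun h => hb ⟨z, ⟨?_, h⟩, hzb⟩⟩
  rw [Cub.ZH_univ]
  exact hz

lemma Cub.rs_om_const {G : Cub V} (hbr : G.Bridgeless) {g b : Dt V} (hb : ¬ G.Free Set.univ g b)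
    {x : Vec V} (hx : x ∈ G.Om Set.univ g) : x b = 1 := by
  obtain ⟨y, hy, hyb⟩ := Cub.rs_om_one hbr hb
  by_contra hcon
  have h0 := zmod2_ne_one hcon
  simp only [Cub.Om, Finset.mem_filter, Finset.mem_univ, true_and] at hx hy
  apply hb
  refine ⟨x + y, ⟨add_mem hx.1 hy.1, ?_⟩, ?_⟩
  · rw [Pi.add_apply, hx.2, hy.2]
    exact zmod2_add_self 1
  · rw [Pi.add_apply, h0, hyb, zero_add]
    exact one_ne_zero

lemma Cub.rs_exists_free {G : Cub V} (hbr : G.Bridgeless) (g : Dt V) (v : V) :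
    ∃ i, G.Free Set.univ g (v, i) := by
  by_contra hcon
  push Not at hcon
  obtain ⟨x, hx⟩ := Cub.rs_om_nonempty hbr g
  have h1 : ∀ i, x (v, i) = 1 := fun i => Cub.rs_om_const hbr (hcon i) hx
  simp only [Cub.Om, Finset.mem_filter, Finset.mem_univ, true_and] at hx
  have h2 := hx.1.1.2 v
  simp only [h1] at h2
  revert h2
  decide

omit [Fintype V] in
lemma Cub.rs_free_child {G : Cub V} {H : Set (Dt V)} {g a : Dt V} (ha : G.Free H g a) :
    ∃ f, G.Free H g (G.ch f a) := by
  obtain ⟨z, hz, hza⟩ := ha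
  by_contra hcon
  push Not at hcon
  have h1 : z (G.ch true a) = 0 := by
    by_contra h
    exact hcon true ⟨z, hz, h⟩
  have h2 : z (G.ch false a) = 0 := by
    by_contra h
    exact hcon false ⟨z, hz, h⟩
  have h3 := Cub.rs_ch_sum hz.1.1 a
  rw [h1, h2, add_zero, add_zero] at h3
  exact hza h3

omit [Fintype V] in
/-- a free dart has two free children or exactly one -/
lemma Cub.rs_free_cases {G : Cub V} {H : Set (Dt V)} {g a : Dt V} (ha : G.Free H g a) :
    (G.Free H g (G.ch true a) ∧ G.Free H g (G.ch false a)) ∨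
      ∃ f, G.Free H g (G.ch f a) ∧ ¬ G.Free H g (G.ch (!f) a) := by
  obtain ⟨f, hf⟩ := Cub.rs_free_child ha
  by_cases h : G.Free H g (G.ch (!f) a)
  · left
    cases f
    · exact ⟨h, hf⟩
    · exact ⟨hf, h⟩
  · exact Or.inr ⟨f, hf, h⟩

/-- what we want to construct below a dart -/
def Cub.RsHasSite (G : Cub V) (g : Dt V) (h n : ℕ) (a : Dt V) : Prop :=
  ∃ s : St V h, s.Ok G Set.univ g ∧ s.root = a ∧ s.foot G ⊆ G.rsTr n a

lemma Cub.RsHasSite.mono {G : Cub V} {g : Dt V} {h n m : ℕ} {a : Dt V} (hnm : n ≤ m)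
    (H : G.RsHasSite g h n a) : G.RsHasSite g h m a := by
  obtain ⟨s, h1, h2, h3⟩ := H
  exact ⟨s, h1, h2, h3.trans (G.rs_tr_mono hnm a)⟩

lemma Cub.rs_hasSite_br {G : Cub V} {g : Dt V} {h n : ℕ} {a : Dt V}
    (ha : G.Free Set.univ g a) (hT : G.RsTree (n + 1) a)
    (h1 : G.RsHasSite g h n (G.ch true a)) (h2 : G.RsHasSite g h n (G.ch false a)) :
    G.RsHasSite g (h + 1) (n + 1) a := by
  obtain ⟨s, s1, s2, s3⟩ := h1
  obtain ⟨t, t1, t2, t3⟩ := h2
  obtain ⟨q1, q2, q3, _, _⟩ := hT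
  refine ⟨St.br a s t, ⟨ha, s2, t2, s1, t1, fun h => q1 (s3 h), fun h => q2 (t3 h),
    Finset.disjoint_of_subset_left s3 (Finset.disjoint_of_subset_right t3 q3)⟩, rfl, ?_⟩
  rw [Cub.rs_tr_succ]
  exact Finset.insert_subset_insert _ (Finset.union_subset_union s3 t3)

lemma Cub.rs_hasSite_sg {G : Cub V} {g : Dt V} {h n : ℕ} {a : Dt V} {f : Bool}
    (ha : G.Free Set.univ g a) (hT : G.RsTree (n + 1) a)
    (hf : ¬ G.Free Set.univ g (G.ch (!f) a))
    (h1 : G.RsHasSite g h n (G.ch f a)) :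
    G.RsHasSite g h (n + 1) a := by
  obtain ⟨s, s1, s2, s3⟩ := h1
  obtain ⟨q1, q2, q3, _, _⟩ := hT
  have hn : (G.ι a).1 ∉ G.rsTr n (G.ch f a) := by
    cases f
    · exact q2
    · exact q1
  refine ⟨St.sg a f s, ⟨ha, s2, hf, s1, fun h => hn (s3 h)⟩, rfl, ?_⟩
  have h4 : s.foot G ⊆ G.rsTr (n + 1) a := s3.trans (G.rs_tr_ch_sub n f a)
  refine Finset.insert_subset ?_ h4
  rw [Cub.rs_tr_succ]
  exact Finset.mem_insert_self _ _

omit [Fintype V] in
lemma Cub.RsTree.child {G : Cub V} {n : ℕ} {a : Dt V} (h : G.RsTree (n + 1) a) (f : Bool) :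
    G.RsTree n (G.ch f a) := by
  obtain ⟨_, _, _, q4, q5⟩ := h
  cases f
  · exact q5
  · exact q4

omit [Fintype V] in
lemma Cub.RsTree.ne {G : Cub V} {n : ℕ} {a : Dt V} (h : G.RsTree (n + 1) a) (f : Bool) :
    (G.ι a).1 ∉ G.rsTr n (G.ch f a) := by
  obtain ⟨q1, q2, _, _, _⟩ := h
  cases f
  · exact q2
  · exact q1

theorem Cub.rs_exists_site {G : Cub V} (hbr : G.Bridgeless) (g : Dt V) (h : ℕ) :
    ∀ a : Dt V, G.Free Set.univ g a → G.RsTree (3 * h) a → G.RsHasSite g h (3 * h) a := by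
  induction h with
  | zero =>
    intro a ha _
    exact ⟨St.leaf a, ha, rfl, Finset.empty_subset _⟩
  | succ h ih =>
    intro a ha hT
    have hT' : G.RsTree (3 * h + 1 + 1 + 1) a := hT
    change G.RsHasSite g (h + 1) (3 * h + 1 + 1 + 1) a
    have hbr1 : ∀ m, 3 * h ≤ m → ∀ b, G.Free Set.univ g b → G.RsTree (m + 1) b →
        G.Free Set.univ g (G.ch true b) → G.Free Set.univ g (G.ch false b) →
        G.RsHasSite g (h + 1) (m + 1) b := by
      intro m hm b hb hTb hb1 hb2
      exact Cub.rs_hasSite_br hb hTb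
        ((ih _ hb1 ((hTb.child true).mono hm)).mono hm)
        ((ih _ hb2 ((hTb.child false).mono hm)).mono hm)
    rcases Cub.rs_free_cases ha with ⟨a1, a2⟩ | ⟨f, a1, a2⟩
    · exact hbr1 _ (by omega) a ha hT' a1 a2
    refine Cub.rs_hasSite_sg ha hT' a2 ?_
    set b := G.ch f a with hb
    have hTb : G.RsTree (3 * h + 1 + 1) b := hT'.child f
    rcases Cub.rs_free_cases a1 with ⟨b1, b2⟩ | ⟨f', b1, b2⟩
    · exact hbr1 _ (by omega) b a1 hTb b1 b2
    refine Cub.rs_hasSite_sg a1 hTb b2 ?_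
    set c := G.ch f' b with hc
    have hTc : G.RsTree (3 * h + 1) c := hTb.child f'
    rcases Cub.rs_free_cases b1 with ⟨c1, c2⟩ | ⟨f'', c1, c2⟩
    · exact hbr1 _ (by omega) c b1 hTc c1 c2
    exfalso
    -- three forced siblings at free-connected vertices
    have m1 : (G.ι b).1 ∈ G.rsTr (3 * h + 1 + 1) b := by
      rw [Cub.rs_tr_succ]; exact Finset.mem_insert_self _ _
    have m2 : (G.ι c).1 ∈ G.rsTr (3 * h + 1) c := by
      rw [Cub.rs_tr_succ]; exact Finset.mem_insert_self _ _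
    have m3 : (G.ι c).1 ∈ G.rsTr (3 * h + 1 + 1) b := G.rs_tr_ch_sub _ f' b m2
    have n1 : (G.ι a).1 ∉ G.rsTr (3 * h + 1 + 1) b := hT'.ne f
    have n2 : (G.ι b).1 ∉ G.rsTr (3 * h + 1) c := hTb.ne f'
    have d1 : (G.ι a).1 ≠ (G.ι b).1 := fun h => n1 (by rw [h]; exact m1)
    have d2 : (G.ι a).1 ≠ (G.ι c).1 := fun h => n1 (by rw [h]; exact m3)
    have d3 : (G.ι b).1 ≠ (G.ι c).1 := fun h => n2 (by rw [h]; exact m2)
    refine terminal G Set.univ (fun d _ => Set.mem_univ _) g (Cub.rs_om_nonempty hbr g)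
      (G.ch (!f) a) (G.ch (!f') b) (G.ch (!f'') c)
      (fun h => d1 (by have := congrArg Prod.fst h; rwa [Cub.rs_ch_fst, Cub.rs_ch_fst] at this))
      (fun h => d2 (by have := congrArg Prod.fst h; rwa [Cub.rs_ch_fst, Cub.rs_ch_fst] at this))
      (fun h => d3 (by have := congrArg Prod.fst h; rwa [Cub.rs_ch_fst, Cub.rs_ch_fst] at this)) a2 b2 c2
      (Cub.rs_om_one hbr a2) (Cub.rs_om_one hbr b2) (Cub.rs_om_one hbr c2) ?_ ?_
    · intro U hU
      exact hU b a1
    · intro U hU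
      exact (hU b a1).trans (hU c b1)

end rootsite

/-- task TL5 -/
theorem root_rich (h M : ℕ) : ∃ ℓ M' : ℕ, ∀ (V : Type) [Fintype V] (G : Cub V) (g : Dt V),
    G.Bridgeless →
    M' < (univ.filter (fun v => ¬ ∃ D, G.IsCirc D ∧ cover D ⊆ (G.N)^[ℓ] {v})).card →
    Rich G Set.univ g h M := by
  refine ⟨3 * h, M * 4 ^ (2 * (3 * h)), fun V _ G g hbr hM => ?_⟩
  obtain ⟨f, hf, hf'⟩ := G.rs_greedy (3 * h) M _ hM
  have key : ∀ i, ∃ s : St V h, s.Ok G Set.univ g ∧ s.foot G ⊆ (G.N)^[3 * h] {f i} := by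
    intro i
    have hi := hf i
    rw [Finset.mem_filter] at hi
    have hW : ∀ z ∈ G.Z, (∀ d, z d ≠ 0 → d.1 ∈ (G.N)^[3 * h] {f i}) → z = 0 := by
      intro z hz hzW
      by_contra hne
      obtain ⟨d, hd⟩ := Function.ne_iff.1 hne
      obtain ⟨P, hP, _, hPz⟩ := Cub.exists_circ hz hd
      apply hi.2
      refine ⟨P, hP, fun v hv => ?_⟩
      rw [mem_cover] at hv
      obtain ⟨j, hj⟩ := hv
      exact hzW (v, j) (fun h => hj (hPz _ h))
    obtain ⟨j, hj⟩ := Cub.rs_exists_free hbr g (f i)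
    have hsW : ({f i} : Finset V) ⊆ (G.N)^[3 * h] {f i} := Cub.rs_Nk_le (Nat.zero_le _) _
    have hint : (G.rsInt {f i}).card + 2 ≤ 2 * ({f i} : Finset V).card :=
      G.internal_le (U := {f i}) ⟨_, Finset.mem_singleton_self _⟩
        (fun z hz hz' => hW z hz (fun d hd => hsW (hz' d hd)))
    rw [Finset.card_singleton] at hint
    have hint0 : G.rsInt {f i} = ∅ := by
      rw [← Finset.card_eq_zero]
      omega
    have hloop : (G.ι (f i, j)).1 ∉ ({f i} : Finset V) := by
      intro hcon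
      have : (f i, j) ∈ G.rsInt {f i} := Cub.rs_mem_intd.2 ⟨Finset.mem_singleton_self _, hcon⟩
      rw [hint0] at this
      exact absurd this (Finset.notMem_empty _)
    have htr : G.rsTr (3 * h) (f i, j) ⊆ (G.N)^[3 * h] {f i} := G.rs_tr_sub_N (3 * h) (f i, j)
    obtain ⟨t1, _, _, _⟩ := Cub.rs_tree_ball hW (3 * h) {f i} (f i, j)
      (Finset.mem_singleton_self _) hloop (by
        rw [hint0]
        simp) (Finset.union_subset hsW htr)
    obtain ⟨s, s1, _, s3⟩ := Cub.rs_exists_site hbr g h (f i, j) hj t1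
    exact ⟨s, s1, s3.trans htr⟩
  choose s hs hs' using key
  exact ⟨s, hs, fun i j hij =>
    Finset.disjoint_of_subset_left (hs' i) (Finset.disjoint_of_subset_right (hs' j) (hf' i j hij))⟩

end Pool.Agent.LibMP58b56d
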