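import Mathlib
import Pool.Agent.LibMP58b56d.Interface
import Pool.Agent.LibMP58b56d.GoodCoset
import Pool.Agent.LibMP58b56d.Explore
import Pool.Agent.LibMP58b56d.RootSite

set_option autoImplicit false

open Finset Classical

namespace Pool.Agent.LibMP58b56d

/-- the local structure theorem -/
theorem tl : TLStatement := by
  intro c hc
  obtain ⟨r, hr⟩ := exists_goodCoset c hc 1
  obtain ⟨h, M, hdecay⟩ := rich_decay (c / (4 * 2 ^ (r + 1))) (by positivity)
  obtain ⟨ℓ, M', hroot⟩ := root_rich h M
  refine ⟨ℓ, M', fun V _ G _ hbr hdens => ?_⟩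
  by_contra hcon
  rw [not_le] at hcon
  have hZ : (G.zs Set.univ).card = Nat.card G.Z := by
    rw [natCard_sub]
    unfold Cub.zs
    rw [Cub.ZH_univ]
  obtain ⟨X, hX, K, hK, hcard, hgood⟩ := hr (Vec V) G.circs G.Z
    (by
      intro y hy
      simp only [Cub.circs, Finset.mem_filter, Finset.mem_univ, true_and] at hy
      exact hy.1)
    (by rw [← hZ]; exact hdens)
  have hKpos : (0 : ℝ) < Nat.card K := by exact_mod_cast natCard_pos K
  -- a circuit in the coset
  have h1 := hgood X K (by simp) le_rfl (Nat.le_mul_of_pos_left _ (by norm_num))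
  have h2 : 0 < (G.circs.filter (fun y => y - X ∈ K)).card := by
    have : (0 : ℝ) < ((G.circs.filter (fun y => y - X ∈ K)).card : ℝ) :=
      lt_of_lt_of_le (by positivity) h1
    exact_mod_cast this
  obtain ⟨y, hy⟩ := Finset.card_pos.1 h2
  simp only [Finset.mem_filter, Cub.circs, Finset.mem_univ, true_and] at hy
  obtain ⟨g, hg⟩ : ∃ g, y g ≠ 0 := by
    by_contra hc
    push Not at hc
    exact hy.1.2.1 (funext hc)
  -- the half coset
  let K' : Submodule (ZMod 2) (Vec V) :=
    K ⊓ LinearMap.ker (LinearMap.proj (R := ZMod 2) (φ := fun _ : Dt V => ZMod 2) g)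
  have hK' : Nat.card K ≤ 2 ^ 1 * Nat.card K' := by
    let f : K →ₗ[ZMod 2] ZMod 2 :=
      (LinearMap.proj (R := ZMod 2) (φ := fun _ : Dt V => ZMod 2) g).comp K.subtype
    have e1 := LinearMap.finrank_range_add_finrank_ker f
    have e2 : Module.finrank (ZMod 2) (LinearMap.range f) ≤ 1 := by
      refine (Submodule.finrank_le _).trans ?_
      simp
    have e3 : Module.finrank (ZMod 2) (LinearMap.ker f) ≤ Module.finrank (ZMod 2) K' := by
      let k : LinearMap.ker f →ₗ[ZMod 2] K' :=
        LinearMap.codRestrict _ (K.subtype.comp (LinearMap.ker f).subtype)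
          (fun x => ⟨x.1.2, by
            have := x.2
            rw [LinearMap.mem_ker] at this
            exact this⟩)
      refine LinearMap.finrank_le_finrank_of_injective (f := k) ?_
      intro x y hxy
      apply Subtype.ext
      apply Subtype.ext
      exact congrArg (fun w : K' => (w : Vec V)) hxy
    rw [Module.natCard_eq_pow_finrank (K := ZMod 2) (V := K),
      Module.natCard_eq_pow_finrank (K := ZMod 2) (V := K')]
    simp only [Nat.card_eq_fintype_card, ZMod.card]
    rw [← pow_add]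
    exact Nat.pow_le_pow_right (by norm_num) (by omega)
  have h3 := hgood y K' hy.2 inf_le_left hK'
  have h4 : (G.circs.filter (fun z => z - y ∈ K')).card ≤
      ((G.Om Set.univ g).filter (fun x => G.IsCirc x)).card := by
    apply Finset.card_le_card
    intro z hz
    simp only [Finset.mem_filter, Cub.circs, Finset.mem_univ, true_and] at hz ⊢
    refine ⟨?_, hz.1⟩
    rw [Cub.mem_Om, Cub.ZH_univ]
    refine ⟨hz.1.1, ?_⟩
    have h5 : (z - y) g = 0 := hz.2.2
    rw [Pi.sub_apply, sub_eq_zero] at h5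
    rw [h5]
    exact zmod2_ne_zero hg
  have h5 := hdecay V G Set.univ g (fun d _ => Set.mem_univ _) (hroot V G g hbr hcon)
  have h6 : (G.Om Set.univ g).card ≤ Nat.card G.Z := by
    rw [← hZ]
    apply Finset.card_le_card
    intro z hz
    rw [Cub.mem_Om] at hz
    simp only [Cub.zs, Finset.mem_filter, Finset.mem_univ, true_and]
    exact hz.1
  have h7 : Nat.card G.Z ≤ 2 ^ (r + 1) * Nat.card K' := by
    calc Nat.card G.Z ≤ 2 ^ r * Nat.card K := hcard
      _ ≤ 2 ^ r * (2 ^ 1 * Nat.card K') := Nat.mul_le_mul_left _ hK'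
      _ = _ := by ring
  have hK'pos : (0 : ℝ) < Nat.card K' := by exact_mod_cast natCard_pos K'
  have h8 : ((G.Om Set.univ g).card : ℝ) ≤ 2 ^ (r + 1) * Nat.card K' := by
    exact_mod_cast h6.trans h7
  have h9 : c / 2 * (Nat.card K' : ℝ) ≤ c / (4 * 2 ^ (r + 1)) * (2 ^ (r + 1) * Nat.card K') := by
    calc c / 2 * (Nat.card K' : ℝ) ≤ _ := h3
      _ ≤ (((G.Om Set.univ g).filter (fun x => G.IsCirc x)).card : ℝ) := by exact_mod_cast h4
      _ ≤ c / (4 * 2 ^ (r + 1)) * (G.Om Set.univ g).card := h5
      _ ≤ _ := mul_le_mul_of_nonneg_left h8 (by positivity)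
  have h10 : c / (4 * 2 ^ (r + 1)) * (2 ^ (r + 1) * (Nat.card K' : ℝ)) = c / 4 * Nat.card K' := by
    field_simp
  rw [h10] at h9
  have : (0 : ℝ) < c * Nat.card K' := by positivity
  linarith

end Pool.Agent.LibMP58b56d
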